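import Mathlib

/-! The divisor bound. -/

namespace Pool.Agent.Lib.MP_2a1a00_nt

open Finset

theorem div_succ_pow {k : ℕ} (hk : 0 < k) (v : ℕ) : (v + 1) ^ k ≤ 2 ^ v * k ^ k := by
  have h1 : v + 1 ≤ 2 ^ (v / k) * k := by
    have h2 : v / k + 1 ≤ 2 ^ (v / k) := Nat.lt_two_pow_self
    have h3 : v < (v / k + 1) * k := by
      rw [mul_comm]; exact Nat.lt_mul_div_succ v hk
    calc v + 1 ≤ (v / k + 1) * k := h3
      _ ≤ _ := Nat.mul_le_mul_right _ h2
  calc (v + 1) ^ k ≤ (2 ^ (v / k) * k) ^ k := Nat.pow_le_pow_left h1 _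
    _ = 2 ^ (v / k * k) * k ^ k := by rw [mul_pow, ← pow_mul]
    _ ≤ _ := Nat.mul_le_mul_right _ (Nat.pow_le_pow_right (by norm_num) (Nat.div_mul_le_self _ _))

theorem div_card_pow {k n : ℕ} (hk : 0 < k) (hn : n ≠ 0) :
    n.divisors.card ^ k ≤ n * (k ^ k) ^ 2 ^ k := by
  have h1 : ∀ p ∈ n.primeFactors, (n.factorization p + 1) ^ k ≤
      p ^ n.factorization p * (if p < 2 ^ k then k ^ k else 1) := by
    intro p hp
    have hp2 := (Nat.prime_of_mem_primeFactors hp).two_le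
    split_ifs with h
    · exact (div_succ_pow hk _).trans (Nat.mul_le_mul_right _ (Nat.pow_le_pow_left hp2 _))
    · rw [mul_one]
      calc (n.factorization p + 1) ^ k ≤ (2 ^ n.factorization p) ^ k :=
            Nat.pow_le_pow_left Nat.lt_two_pow_self _
        _ = (2 ^ k) ^ n.factorization p := by rw [← pow_mul, ← pow_mul, mul_comm]
        _ ≤ _ := Nat.pow_le_pow_left (not_lt.1 h) _
  rw [Nat.card_divisors hn, ← prod_pow]
  refine (prod_le_prod' h1).trans ?_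
  rw [prod_mul_distrib, ← prod_filter, prod_const]
  refine Nat.mul_le_mul (le_of_eq ?_) (Nat.pow_le_pow_right (by positivity) ?_)
  · conv_rhs => rw [← Nat.prod_factorization_pow_eq_self hn]
    rfl
  · calc _ ≤ (range (2 ^ k)).card := card_le_card fun p hp => mem_range.2 (mem_filter.1 hp).2
      _ = _ := card_range _

theorem card_divisors_le (ε : ℝ) (hε : 0 < ε) :
    ∃ C : ℝ, 0 ≤ C ∧ ∀ n : ℕ, (n.divisors.card : ℝ) ≤ C * (n : ℝ) ^ ε := by
  obtain ⟨k, hk⟩ := exists_nat_gt ε⁻¹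
  have hk0 : (0 : ℝ) < k := (inv_pos.mpr hε).trans hk
  have hk1 : 0 < k := by exact_mod_cast hk0
  have hk2 : (k : ℝ)⁻¹ ≤ ε := (inv_lt_of_inv_lt₀ hε hk).le
  refine ⟨(((k : ℝ) ^ k) ^ 2 ^ k) ^ (k : ℝ)⁻¹, by positivity, fun n => ?_⟩
  rcases eq_or_ne n 0 with rfl | hn
  · simp only [Nat.divisors_zero, card_empty, Nat.cast_zero]
    positivity
  have h2 : (n.divisors.card : ℝ) ^ k ≤ n * ((k : ℝ) ^ k) ^ 2 ^ k := by
    exact_mod_cast div_card_pow hk1 hn
  have h3 := Real.rpow_le_rpow (by positivity) h2 (inv_pos.mpr hk0).le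
  rw [Real.pow_rpow_inv_natCast (by positivity) hk1.ne',
    Real.mul_rpow (by positivity) (by positivity), mul_comm] at h3
  refine h3.trans (mul_le_mul_of_nonneg_left ?_ (by positivity))
  exact Real.rpow_le_rpow_of_exponent_le (by exact_mod_cast Nat.pos_of_ne_zero hn) hk2

end Pool.Agent.Lib.MP_2a1a00_nt
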