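import Pool.Agent.Lib.MP_2a1a00_nt.Gam

/-! The asymmetric functional equation. -/

namespace Pool.Agent.Lib.MP_2a1a00_nt

open Complex MeasureTheory Set

namespace Sel

variable (F : Sel)

/- `Complex.differentiableAt_Gamma`, `Complex.differentiable_one_div_Gamma`. -/
theorem chi_diff : DifferentiableOn ℂ F.chi {s | s.re < 1} := by
  intro s hs
  have hQ : (F.Q : ℂ) ≠ 0 := ofReal_ne_zero.2 F.Q_pos.ne'
  refine DifferentiableAt.differentiableWithinAt ?_
  refine ((differentiableAt_const _).mul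
    (DifferentiableAt.const_cpow (by fun_prop) (Or.inl hQ))).mul ?_
  refine DifferentiableAt.fun_finsetProd fun i _ => DifferentiableAt.mul ?_ ?_
  · refine (differentiableAt_Gamma _ fun m hm => ?_).comp s
      (f := fun s => F.lam i * (1 - s) + (starRingEnd ℂ) (F.mu i)) (by fun_prop)
    have h1 := congrArg re hm
    have h2 : s.re < 1 := hs
    have h3 := mul_pos (F.lam_pos i) (sub_pos.2 h2)
    have h4 := F.mu_re i
    have h5 : (0 : ℝ) ≤ m := Nat.cast_nonneg m
    simp at h1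
    linarith
  · exact (differentiable_one_div_Gamma _).comp s (f := fun s => F.lam i * s + F.mu i)
      (by fun_prop)

theorem chi_gam_ne {s : ℂ} (hs : 0 < s.re) (i : Fin F.R) : Gamma (F.lam i * s + F.mu i) ≠ 0 := by
  refine Gamma_ne_zero_of_re_pos ?_
  have h3 := mul_pos (F.lam_pos i) hs
  have h4 := F.mu_re i
  simp
  linarith

theorem chi_strip {s : ℂ} (h0 : 0 < s.re) (h1 : s.re < 1) :
    F.L s = F.chi s * (starRingEnd ℂ) (F.L (1 - (starRingEnd ℂ) s)) := by
  have hQ : (F.Q : ℂ) ≠ 0 := ofReal_ne_zero.2 F.Q_pos.ne'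
  have hg : gam F.Q F.lam F.mu s ≠ 0 :=
    mul_ne_zero (cpow_ne_zero_iff.2 (Or.inl hQ))
      (Finset.prod_ne_zero_iff.2 fun i _ => F.chi_gam_ne h0 i)
  have e1 : (starRingEnd ℂ) (gam F.Q F.lam F.mu (1 - (starRingEnd ℂ) s)) =
      (F.Q : ℂ) ^ (1 - s) * ∏ i, Gamma (F.lam i * (1 - s) + (starRingEnd ℂ) (F.mu i)) := by
    have harg : (F.Q : ℂ).arg ≠ Real.pi := by
      rw [arg_ofReal_of_nonneg F.Q_pos.le]
      exact Real.pi_pos.ne
    have a1 := conj_cpow (F.Q : ℂ) (1 - s) harg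
    rw [conj_ofReal, map_sub, map_one] at a1
    rw [gam, map_mul, map_prod, ← a1]
    congr 1
    refine Finset.prod_congr rfl fun i _ => ?_
    rw [← Gamma_conj]
    simp
  have e2 : F.chi s * gam F.Q F.lam F.mu s = F.om *
      ((F.Q : ℂ) ^ (1 - s) * ∏ i, Gamma (F.lam i * (1 - s) + (starRingEnd ℂ) (F.mu i))) := by
    have a1 : (F.Q : ℂ) ^ (1 - s) = (F.Q : ℂ) ^ (1 - 2 * s) * (F.Q : ℂ) ^ s := by
      rw [← cpow_add _ _ hQ]
      congr 1
      ring
    have a2 : ∏ i, Gamma (F.lam i * (1 - s) + (starRingEnd ℂ) (F.mu i)) =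
        (∏ i, (Gamma (F.lam i * (1 - s) + (starRingEnd ℂ) (F.mu i)) *
          (Gamma (F.lam i * s + F.mu i))⁻¹)) * ∏ i, Gamma (F.lam i * s + F.mu i) := by
      rw [← Finset.prod_mul_distrib]
      refine Finset.prod_congr rfl fun i _ => ?_
      rw [inv_mul_cancel_right₀ (F.chi_gam_ne h0 i)]
    rw [a1, a2, chi, gam]
    ring
  have e3 := F.fe s h0 h1
  rw [map_mul, e1] at e3
  refine mul_right_cancel₀ hg ?_
  rw [mul_right_comm, e2]
  change F.L s * _ = F.om * ((starRingEnd ℂ) (F.L (1 - (starRingEnd ℂ) s)) * _) at e3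
  rw [e3]
  ring

theorem chi_conjL (s : ℂ) : (starRingEnd ℂ) (F.L (1 - (starRingEnd ℂ) s)) =
    (starRingEnd ℂ) (F.G (1 - (starRingEnd ℂ) s)) / (-s) ^ F.m := by
  rw [L, map_div₀, map_pow]
  congr 2
  simp

/- In the strip `0 < re s < 1` this is `F.fe` (`Complex.Gamma_conj`, `Gamma_ne_zero_of_re_pos`).  Both
sides of `G s * (-s) ^ m = (s - 1) ^ m * chi s * conj (G (1 - conj s))` are analytic on the half plane
`re s < 1` (`differentiableAt_conj_conj_iff`); `AnalyticOnNhd.eqOn_of_preconnected_of_eventuallyEq`. -/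
theorem fe' {s : ℂ} (hs : s.re < 1) (h0 : s ≠ 0) :
    F.L s = F.chi s * (starRingEnd ℂ) (F.L (1 - (starRingEnd ℂ) s)) := by
  have hU : IsOpen {s : ℂ | s.re < 1} := isOpen_lt continuous_re continuous_const
  have hd : Differentiable ℂ fun s => (starRingEnd ℂ) (F.G (1 - (starRingEnd ℂ) s)) := by
    intro z
    have h1 : DifferentiableAt ℂ (fun w => F.G (1 - w)) ((starRingEnd ℂ) z) :=
      (F.ent _).comp _ (by fun_prop)
    exact differentiableAt_conj_conj_iff.2 h1
  have a1 : AnalyticOnNhd ℂ (fun s => F.G s * (-s) ^ F.m) {s : ℂ | s.re < 1} :=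
    ((F.ent.mul (by fun_prop)).differentiableOn).analyticOnNhd hU
  have a2 : AnalyticOnNhd ℂ (fun s => (s - 1) ^ F.m *
      (F.chi s * (starRingEnd ℂ) (F.G (1 - (starRingEnd ℂ) s)))) {s : ℂ | s.re < 1} :=
    (DifferentiableOn.mul (by fun_prop) (F.chi_diff.mul hd.differentiableOn)).analyticOnNhd hU
  have hO : IsOpen {s : ℂ | 0 < s.re ∧ s.re < 1} :=
    (isOpen_lt continuous_const continuous_re).inter hU
  have key := a1.eqOn_of_preconnected_of_eventuallyEq a2 (convex_halfSpace_re_lt 1).isPreconnected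
    (z₀ := 1 / 2) (by norm_num) (by
      filter_upwards [hO.mem_nhds (x := 1 / 2) (by norm_num)] with z hz
      have z0 : (-z) ^ F.m ≠ 0 := pow_ne_zero _ (neg_ne_zero.2 fun h => by simp [h] at hz)
      have z1 : (z - 1) ^ F.m ≠ 0 := pow_ne_zero _ (sub_ne_zero.2 fun h => by simp [h] at hz)
      have h1 := F.chi_strip hz.1 hz.2
      rw [chi_conjL, L] at h1
      field_simp at h1
      linear_combination h1) hs
  have z0 : (-s) ^ F.m ≠ 0 := pow_ne_zero _ (neg_ne_zero.2 h0)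
  have z1 : (s - 1) ^ F.m ≠ 0 := pow_ne_zero _ (sub_ne_zero.2 fun h => by simp [h] at hs)
  rw [chi_conjL, L]
  field_simp
  linear_combination key

/- The two gamma values in each factor are conjugate and nonzero. -/
theorem chi_half (τ : ℝ) : ‖F.chi (1 / 2 + τ * I)‖ = 1 := by
  rw [chi, norm_mul, norm_mul, F.om_norm, norm_cpow_eq_rpow_re_of_pos F.Q_pos, norm_prod]
  have e1 : (1 - 2 * (1 / 2 + τ * I : ℂ)).re = 0 := by simp
  rw [e1, Real.rpow_zero, one_mul, one_mul]
  refine Finset.prod_eq_one fun i _ => ?_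
  have e2 : F.lam i * (1 - (1 / 2 + τ * I : ℂ)) + (starRingEnd ℂ) (F.mu i) =
      (starRingEnd ℂ) (F.lam i * (1 / 2 + τ * I : ℂ) + F.mu i) := by
    apply Complex.ext
    · simp
      norm_num
    · simp
  rw [e2, Gamma_conj, norm_mul, norm_inv, RCLike.norm_conj]
  exact mul_inv_cancel₀ (norm_ne_zero_iff.2 (F.chi_gam_ne (by simp) i))

/- One factor.  With `s₀ = lam * (1 - conj s) + mu` and the real number `w = lam * (2 * re s - 1) ∈ [-2 lam, 0]`
the factor has the norm of `Gamma s₀ / Gamma (s₀ + w)`; `gam_ratio` for large `|im s|` gives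
`‖s₀‖ ^ (-w) * exp ‖r‖`; compactness for bounded `|im s|`. -/
theorem chi_factor {lam : ℝ} {mu : ℂ} (hl : 0 < lam) (hm : 0 ≤ mu.re) : ∃ C : ℝ, 0 < C ∧
    ∀ s ∈ St (-1 / 2) (1 / 2), ‖Gamma (lam * (1 - s) + (starRingEnd ℂ) mu) * (Gamma (lam * s + mu))⁻¹‖ ≤
      C * (1 + |s.im|) ^ (2 * lam) := by
  obtain ⟨C1, hC1, h1⟩ := gam_bdd (a := lam / 2) (b := 3 * lam / 2 + mu.re) (by linarith)
  obtain ⟨C2, hC2, h2⟩ := gam_inv_le (-lam / 2 + mu.re) (lam / 2 + mu.re)
  set T : ℝ := 2 + 4 * lam with hT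
  set c : ℝ := 2 * lam + ‖mu‖ with hc
  have hc0 : 0 < c := by positivity
  refine ⟨C1 * (C2 * Real.exp (4 * T)) + c ^ (2 * lam) * Real.exp (10 * (2 * lam + 4 * lam ^ 2)),
    by positivity, fun s hs => ?_⟩
  obtain ⟨hs1, hs2⟩ := hs
  set s₀ : ℂ := lam * (1 - (starRingEnd ℂ) s) + mu with hs₀
  set w : ℝ := lam * (2 * s.re - 1) with hw
  have w1 : w ≤ 0 := mul_nonpos_of_nonneg_of_nonpos hl.le (by linarith)
  have w2 : -w ≤ 2 * lam := by rw [hw]; nlinarith
  have e1 : lam * (1 - s) + (starRingEnd ℂ) mu = (starRingEnd ℂ) s₀ := by simp [hs₀]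
  have e2 : lam * s + mu = s₀ + w := by
    apply Complex.ext
    · simp [hs₀, hw]
      ring
    · simp [hs₀, hw]
  have e3 : s₀.re = lam * (1 - s.re) + mu.re := by simp [hs₀]
  have r1 : lam / 2 ≤ s₀.re := by rw [e3]; nlinarith
  have r2 : s₀.re ≤ 3 * lam / 2 + mu.re := by rw [e3]; nlinarith
  have j1 : 1 ≤ 1 + |s.im| := le_add_of_nonneg_right (abs_nonneg _)
  have j2 : 1 ≤ (1 + |s.im|) ^ (2 * lam) := Real.one_le_rpow j1 (by linarith)
  rw [e1, Gamma_conj, norm_mul, RCLike.norm_conj, add_mul]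
  rcases le_total |s₀.im| T with h | h
  · refine le_add_of_le_of_nonneg ?_ (by positivity)
    refine le_trans ?_ (le_mul_of_one_le_right (by positivity) j2)
    refine mul_le_mul (h1 _ r1 r2) ?_ (norm_nonneg _) hC1.le
    have a1 : (lam * s + mu).re = lam * s.re + mu.re := by simp
    have a2 : (lam * s + mu).im = s₀.im := by rw [e2]; simp
    refine (h2 _ (by rw [a1]; nlinarith) (by rw [a1]; nlinarith)).trans ?_
    rw [a2]
    gcongr
  · refine le_add_of_nonneg_of_le (by positivity) ?_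
    have nw : ‖(w : ℂ)‖ ≤ 2 * lam := by
      rw [norm_real, Real.norm_eq_abs, abs_of_nonpos w1]
      exact w2
    obtain ⟨r, hr, hG⟩ := gam_ratio (s := s₀) (w := w) (by linarith) (by linarith) (by linarith)
    have g0 : Gamma s₀ ≠ 0 := Gamma_ne_zero_of_re_pos (by linarith)
    have n1 : 1 ≤ ‖s₀‖ := le_trans (by linarith) (abs_im_le_norm s₀)
    have hr2 : ‖r‖ ≤ 10 * (2 * lam + 4 * lam ^ 2) := by
      refine hr.trans ((div_le_self (by positivity) (by linarith)).trans ?_)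
      have : ‖(w : ℂ)‖ ^ 2 ≤ (2 * lam) ^ 2 := pow_le_pow_left₀ (norm_nonneg _) nw 2
      nlinarith
    have n2 : ‖s₀‖ ≤ c * (1 + |s.im|) := by
      have a1 : ‖1 - (starRingEnd ℂ) s‖ ≤ 2 + |s.im| := by
        refine (norm_le_abs_re_add_abs_im _).trans ?_
        have : |(1 - (starRingEnd ℂ) s).re| ≤ 2 := by
          rw [abs_le]
          simp
          constructor <;> linarith
        simpa using this
      have a2 : ‖s₀‖ ≤ lam * (2 + |s.im|) + ‖mu‖ := by
        refine (norm_add_le _ _).trans ?_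
        rw [norm_mul, norm_real, Real.norm_eq_abs, abs_of_pos hl]
        gcongr
      have a3 := mul_nonneg (norm_nonneg mu) (abs_nonneg s.im)
      have a4 := mul_nonneg hl.le (abs_nonneg s.im)
      rw [hc]
      nlinarith
    rw [e2, hG, norm_inv, norm_mul, mul_inv, mul_inv_cancel_left₀ (norm_ne_zero_iff.2 g0),
      norm_exp, ← Real.exp_neg]
    have a1 : -((w : ℂ) * log s₀ + r).re = Real.log ‖s₀‖ * (-w) + -r.re := by
      simp [log_re]
      ring
    rw [a1, Real.exp_add, ← Real.rpow_def_of_pos (by linarith), mul_right_comm,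
      ← Real.mul_rpow hc0.le (by positivity)]
    refine mul_le_mul ((Real.rpow_le_rpow_of_exponent_le n1 w2).trans
      (Real.rpow_le_rpow (norm_nonneg _) n2 (by linarith))) (Real.exp_le_exp.2 ?_)
      (Real.exp_pos _).le (by positivity)
    exact ((neg_le_abs _).trans (abs_re_le_norm r)).trans hr2

theorem chi_le : ∃ C : ℝ, 0 < C ∧ ∀ s ∈ St (-1 / 2) (1 / 2),
    ‖F.chi s‖ ≤ C * (1 + |s.im|) ^ F.deg := by
  choose C hC h using fun i => chi_factor (F.lam_pos i) (F.mu_re i)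
  have hQ := F.Q_pos
  refine ⟨(1 + F.Q) ^ (2 : ℝ) * ∏ i, C i,
    mul_pos (by positivity) (Finset.prod_pos fun i _ => hC i), fun s hs => ?_⟩
  have j1 : 0 < 1 + |s.im| := by positivity
  rw [chi, norm_mul, norm_mul, F.om_norm, norm_cpow_eq_rpow_re_of_pos F.Q_pos, norm_prod, one_mul,
    deg, Finset.mul_sum, Real.rpow_sum_of_pos j1, mul_assoc, ← Finset.prod_mul_distrib]
  have e1 : (1 - 2 * s).re = 1 - 2 * s.re := by simp
  obtain ⟨hs1, hs2⟩ := hs
  refine mul_le_mul ?_ (Finset.prod_le_prod (fun i _ => norm_nonneg _) fun i _ => h i s ⟨hs1, hs2⟩)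
    (Finset.prod_nonneg fun i _ => norm_nonneg _) (by positivity)
  rw [e1]
  exact (Real.rpow_le_rpow hQ.le (by linarith) (by linarith)).trans
    (Real.rpow_le_rpow_of_exponent_le (by linarith) (by linarith))

/- `‖LSeries f s‖ ≤ ∑' n, ‖term f σ n‖` (`LSeries.norm_term_le_of_re_le_re`, `F.summable`). -/
theorem lser_le {σ : ℝ} (hσ : 1 < σ) : ∃ C : ℝ, 0 < C ∧ ∀ s : ℂ, σ ≤ s.re → ‖LSeries F.f s‖ ≤ C := by
  have hs0 : Summable fun n => ‖LSeries.term F.f σ n‖ :=
    (F.summable (s := σ) (by simpa using hσ)).norm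
  have h0 : 0 ≤ ∑' n, ‖LSeries.term F.f σ n‖ := tsum_nonneg fun n => norm_nonneg _
  refine ⟨∑' n, ‖LSeries.term F.f σ n‖ + 1, by linarith, fun s hs => ?_⟩
  refine le_trans (tsum_of_norm_bounded hs0.hasSum fun n => ?_) (by linarith)
  exact LSeries.norm_term_le_of_re_le_re F.f (by simpa using hs) n

/- `PhragmenLindelof.vertical_strip` for `G s / (s + 3) ^ K` with a natural number `K ≥ m + deg`.  On
`re s = 2` use `ser` and `lser_le`, on `re s = -1 / 2` use `fe'`, `chi_le`, `L_eq`, `lser_le`; the growth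
condition comes from `F.ord` (a power of `|im s|` is at most a constant times `exp |im s|`). -/
theorem growth : ∃ C K : ℝ, 0 < C ∧ 0 ≤ K ∧ ∀ s ∈ St (-1 / 2) 2,
    ‖F.G s‖ ≤ C * (1 + |s.im|) ^ K := by
  obtain ⟨C1, hC1, h1⟩ := F.chi_le
  obtain ⟨C2, hC2, h2⟩ := F.lser_le (σ := 3 / 2) (by norm_num)
  obtain ⟨A, B, h3⟩ := F.ord (-1 / 2) 2
  set N : ℕ := ⌈F.deg⌉₊ with hN
  set C : ℝ := (C1 * 2 ^ N + 1) * C2 with hC
  have hC0 : 0 < C := by positivity
  have n3 : ∀ s : ℂ, -1 / 2 ≤ s.re → 1 ≤ ‖s + 3‖ := by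
    intro s hs
    refine le_trans ?_ (re_le_norm _)
    simp
    linarith
  have n4 : ∀ s : ℂ, -1 / 2 ≤ s.re → ‖s - 1‖ ≤ ‖s + 3‖ := by
    intro s hs
    refine (sq_le_sq₀ (norm_nonneg _) (norm_nonneg _)).1 ?_
    rw [Complex.sq_norm, Complex.sq_norm, normSq_apply, normSq_apply]
    simp
    nlinarith
  have nq : ∀ s : ℂ, -1 / 2 ≤ s.re → (‖F.G s / (s + 3) ^ (F.m + N)‖ ≤ C ↔
      ‖F.G s‖ ≤ C * ‖s + 3‖ ^ (F.m + N)) := by
    intro s hs
    rw [norm_div, norm_pow, div_le_iff₀ (pow_pos (one_pos.trans_le (n3 s hs)) _)]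
  have key : ∀ s ∈ St (-1 / 2) 2, ‖F.G s / (s + 3) ^ (F.m + N)‖ ≤ C := by
    intro s hs
    refine PhragmenLindelof.vertical_strip (f := fun s => F.G s / (s + 3) ^ (F.m + N))
      (a := -1 / 2) (b := 2) ?_ ⟨1, ?_, (⌈A⌉₊.factorial : ℝ) * Real.exp 2, ?_⟩ ?_ ?_ hs.1 hs.2
    · refine DifferentiableOn.diffContOnCl fun z hz => DifferentiableAt.differentiableWithinAt ?_
      have hz' : -1 / 2 ≤ z.re :=
        closure_minimal (t := {z : ℂ | -1 / 2 ≤ z.re}) (fun w hw => hw.1.le)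
          (isClosed_le continuous_const continuous_re) hz
      refine (F.ent z).div (by fun_prop) (pow_ne_zero _ ?_)
      exact norm_pos_iff.1 (one_pos.trans_le (n3 z hz'))
    · rw [lt_div_iff₀ (by norm_num)]
      linarith [Real.pi_gt_three]
    · refine Asymptotics.IsBigO.of_bound |B| ?_
      rw [Filter.eventually_inf_principal]
      filter_upwards [Filter.preimage_mem_comap (Filter.mem_atTop (1 : ℝ))] with z hz hz'
      have z1 : 1 ≤ |z.im| := hz
      have z2 : 1 ≤ ‖z‖ := z1.trans (abs_im_le_norm z)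
      have z3 : ‖z‖ ≤ 2 + |z.im| := by
        refine (norm_le_abs_re_add_abs_im _).trans ?_
        have : |z.re| ≤ 2 := abs_le.2 ⟨by linarith [hz'.1], hz'.2.le⟩
        linarith
      have z4 : ‖z‖ ^ A ≤ (⌈A⌉₊.factorial : ℝ) * Real.exp 2 * Real.exp (1 * |z.im|) := by
        have a1 : ‖z‖ ^ A ≤ ‖z‖ ^ ⌈A⌉₊ := by
          rw [← Real.rpow_natCast]
          exact Real.rpow_le_rpow_of_exponent_le z2 (Nat.le_ceil A)
        have a2 := Real.pow_div_factorial_le_exp ‖z‖ (norm_nonneg z) ⌈A⌉₊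
        rw [div_le_iff₀ (by positivity)] at a2
        rw [mul_assoc, ← Real.exp_add, mul_comm, one_mul]
        refine a1.trans (a2.trans ?_)
        gcongr
      rw [norm_div, norm_pow, Real.norm_eq_abs, abs_of_pos (Real.exp_pos _)]
      refine (div_le_self (norm_nonneg _) (one_le_pow₀ (n3 z hz'.1.le))).trans
        ((h3 z hz'.1.le hz'.2.le).trans ?_)
      exact mul_le_mul (le_abs_self B) (Real.exp_le_exp.2 z4) (Real.exp_pos _).le (abs_nonneg B)
    · intro z hz
      have z0 : z ≠ 0 := fun h => by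
        rw [h] at hz
        norm_num at hz
      have z1 : z - 1 ≠ 0 := sub_ne_zero.2 fun h => by
        rw [h] at hz
        norm_num at hz
      have z3 := n3 z hz.ge
      have e1 : F.G z = (z - 1) ^ F.m * F.L z := by
        rw [L, mul_div_cancel₀ _ (pow_ne_zero _ z1)]
      have e2 : (1 - (starRingEnd ℂ) z).re = 3 / 2 := by
        simp [hz]
        norm_num
      have a1 : (1 + |z.im|) ^ F.deg ≤ (2 * ‖z + 3‖) ^ N := by
        rw [← Real.rpow_natCast]
        have b1 : |z.im| ≤ ‖z + 3‖ := by simpa using abs_im_le_norm (z + 3)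
        exact (Real.rpow_le_rpow (by positivity) (by linarith) F.deg_nonneg).trans
          (Real.rpow_le_rpow_of_exponent_le (by linarith) (Nat.le_ceil _))
      rw [nq z hz.ge, e1, F.fe' (by rw [hz]; norm_num) z0, F.L_eq (by rw [e2]; norm_num), norm_mul,
        norm_mul, RCLike.norm_conj, norm_pow]
      calc ‖z - 1‖ ^ F.m * (‖F.chi z‖ * ‖LSeries F.f (1 - (starRingEnd ℂ) z)‖)
          ≤ ‖z + 3‖ ^ F.m * ((C1 * (2 * ‖z + 3‖) ^ N) * C2) := by
            refine mul_le_mul (pow_le_pow_left₀ (norm_nonneg _) (n4 z hz.ge) _)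
              (mul_le_mul ((h1 z ⟨hz.ge, by rw [hz]; norm_num⟩).trans ?_) (h2 _ e2.ge)
                (norm_nonneg _) (by positivity)) (by positivity) (by positivity)
            exact mul_le_mul_of_nonneg_left a1 hC1.le
        _ = C1 * 2 ^ N * C2 * ‖z + 3‖ ^ (F.m + N) := by
            rw [mul_pow, pow_add]
            ring
        _ ≤ C * ‖z + 3‖ ^ (F.m + N) := by
            refine mul_le_mul_of_nonneg_right ?_ (by positivity)
            rw [hC]
            nlinarith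
    · intro z hz
      have z2 : -1 / 2 ≤ z.re := by rw [hz]; norm_num
      rw [nq z z2, F.ser z (by rw [hz]; norm_num), norm_mul, norm_pow, mul_comm]
      refine mul_le_mul ((h2 z (by rw [hz]; norm_num)).trans ?_)
        ((pow_le_pow_left₀ (norm_nonneg _) (n4 z z2) _).trans
          (pow_le_pow_right₀ (n3 z z2) (Nat.le_add_right _ _))) (by positivity) hC0.le
      exact le_mul_of_one_le_left hC2.le (le_add_of_nonneg_left (by positivity))
  refine ⟨C * 5 ^ (F.m + N), (F.m + N : ℕ), by positivity, Nat.cast_nonneg _, fun s hs => ?_⟩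
  refine ((nq s hs.1).1 (key s hs)).trans ?_
  rw [Real.rpow_natCast, mul_assoc C, ← mul_pow]
  refine mul_le_mul_of_nonneg_left (pow_le_pow_left₀ (norm_nonneg _) ?_ _) hC0.le
  refine (norm_le_abs_re_add_abs_im _).trans ?_
  have a1 : |(s + 3).re| ≤ 5 := by
    rw [abs_le]
    simp
    constructor <;> linarith [hs.1, hs.2]
  have a2 : (s + 3).im = s.im := by simp
  rw [a2]
  linarith [abs_nonneg s.im]

end Sel

end Pool.Agent.Lib.MP_2a1a00_nt
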