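import Pool.Agent.Lib.MP_2a1a00_nt.Res
import Pool.Agent.Lib.MP_2a1a00_nt.Chi

/-! An exact formula for the square of the modulus on the critical line. -/

namespace Pool.Agent.Lib.MP_2a1a00_nt

open Complex MeasureTheory Set

theorem afe1_re {l : ℝ} (hl : 0 < l) {m s : ℂ} (hm : 0 ≤ m.re) (hs : 0 < s.re) :
    0 < (l * s + m).re := by
  rw [add_re, re_ofReal_mul]
  positivity

/-- Polynomial growth on the strip. -/
def Afe1PB (g : ℂ → ℂ) : Prop :=
  ∃ C K : ℝ, 0 ≤ C ∧ ∀ s ∈ St (-1 / 4) 1, ‖g s‖ ≤ C * (1 + |s.im|) ^ K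

theorem Afe1PB.mul {f g : ℂ → ℂ} (hf : Afe1PB f) (hg : Afe1PB g) : Afe1PB fun s => f s * g s := by
  obtain ⟨C, K, hC, h⟩ := hf
  obtain ⟨C', K', hC', h'⟩ := hg
  refine ⟨C * C', K + K', mul_nonneg hC hC', fun s hs => ?_⟩
  rw [norm_mul, Real.rpow_add (by positivity), mul_mul_mul_comm]
  exact mul_le_mul (h s hs) (h' s hs) (norm_nonneg _) (by positivity)

theorem afe1_const (c : ℂ) : Afe1PB fun _ => c :=
  ⟨‖c‖, 0, norm_nonneg _, fun s _ => by rw [Real.rpow_zero, mul_one]⟩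

theorem Afe1PB.div {f : ℂ → ℂ} (hf : Afe1PB f) (c : ℂ) : Afe1PB fun s => f s / c := by
  simpa only [div_eq_mul_inv] using hf.mul (afe1_const c⁻¹)

theorem Afe1PB.pow {f : ℂ → ℂ} (hf : Afe1PB f) (m : ℕ) : Afe1PB fun s => f s ^ m := by
  induction m with
  | zero => simpa only [pow_zero] using afe1_const 1
  | succ m ih => simpa only [pow_succ] using ih.mul hf

theorem afe1_lin (c : ℂ) : Afe1PB fun s => c + s := by
  refine ⟨‖c‖ + 1, 1, by positivity, fun s hs => ?_⟩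
  have h1 := norm_add_le c s
  have h2 := norm_le_abs_re_add_abs_im s
  have h3 : |s.re| ≤ 1 := abs_le.2 ⟨by linarith [hs.1], hs.2⟩
  have h4 := mul_nonneg (norm_nonneg c) (abs_nonneg s.im)
  rw [Real.rpow_one]
  linarith

theorem afe1_comp {g : ℂ → ℂ} {C K : ℝ} (hC : 0 ≤ C) (hK : 0 ≤ K)
    (h : ∀ s : ℂ, 1 / 4 ≤ s.re → s.re ≤ 3 / 2 → ‖g s‖ ≤ C * (1 + |s.im|) ^ K) (x : ℝ) :
    Afe1PB (fun z => g (1 / 2 + x * I + z)) ∧
      Afe1PB fun z => (starRingEnd ℂ) (g (1 / 2 + x * I + (starRingEnd ℂ) z)) := by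
  have key : ∀ z : ℂ, z ∈ St (-1 / 4) 1 →
      ‖g (1 / 2 + x * I + z)‖ ≤ C * (1 + |x|) ^ K * (1 + |z.im|) ^ K := by
    intro z hz
    have e1 : (1 / 2 + x * I + z).re = 1 / 2 + z.re := by simp
    have e2 : (1 / 2 + x * I + z).im = x + z.im := by simp
    refine (h _ (by linarith [hz.1]) (by linarith [hz.2])).trans ?_
    rw [mul_assoc, ← Real.mul_rpow (by positivity) (by positivity), e2]
    refine mul_le_mul_of_nonneg_left (Real.rpow_le_rpow (by positivity) ?_ hK) hC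
    linarith [abs_add_le x z.im, mul_nonneg (abs_nonneg x) (abs_nonneg z.im)]
  refine ⟨⟨C * (1 + |x|) ^ K, K, by positivity, key⟩, C * (1 + |x|) ^ K, K, by positivity,
    fun z hz => ?_⟩
  have h1 := key ((starRingEnd ℂ) z) hz
  rwa [conj_im, abs_neg, ← norm_conj] at h1

theorem afe1_diff {g : ℂ → ℂ} (h : DifferentiableOn ℂ g {s | 0 < s.re}) (x : ℝ) {z : ℂ}
    (hz : z ∈ St (-1 / 4) 1) : DifferentiableAt ℂ (fun z => g (1 / 2 + x * I + z)) z ∧
      DifferentiableAt ℂ (fun z => (starRingEnd ℂ) (g (1 / 2 + x * I + (starRingEnd ℂ) z))) z := by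
  have key : ∀ z : ℂ, z ∈ St (-1 / 4) 1 →
      DifferentiableAt ℂ (fun z => g (1 / 2 + x * I + z)) z := by
    intro z hz
    have e1 : (1 / 2 + x * I + z).re = 1 / 2 + z.re := by simp
    exact (h.differentiableAt ((isOpen_lt continuous_const continuous_re).mem_nhds
      (show 0 < (1 / 2 + x * I + z).re by linarith [hz.1]))).comp z (differentiableAt_id.const_add _)
  exact ⟨key z hz, differentiableAt_conj_conj_iff.2 (key ((starRingEnd ℂ) z) hz)⟩

theorem gam_diff {Q : ℝ} (hQ : 0 < Q) {R : ℕ} {lam : Fin R → ℝ} {mu : Fin R → ℂ} (hl : ∀ i, 0 < lam i)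
    (hm : ∀ i, 0 ≤ (mu i).re) : DifferentiableOn ℂ (gam Q lam mu) {s | 0 < s.re} := by
  intro s hs
  refine DifferentiableAt.differentiableWithinAt (DifferentiableAt.mul
    (differentiableAt_id.const_cpow (Or.inl (ofReal_ne_zero.2 hQ.ne')))
    (DifferentiableAt.fun_finsetProd fun i _ => (differentiableAt_Gamma _ fun m h => ?_).comp s
      ((differentiableAt_id.const_mul _).add_const _)))
  have h1 := afe1_re (hl i) (hm i) hs
  change lam i * s + mu i = _ at h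
  rw [h, neg_re, natCast_re] at h1
  linarith [m.cast_nonneg (α := ℝ)]

theorem gam_ne {Q : ℝ} (hQ : 0 < Q) {R : ℕ} {lam : Fin R → ℝ} {mu : Fin R → ℂ} (hl : ∀ i, 0 < lam i)
    (hm : ∀ i, 0 ≤ (mu i).re) {s : ℂ} (hs : 0 < s.re) : gam Q lam mu s ≠ 0 := by
  exact mul_ne_zero (cpow_ne_zero_iff.2 (Or.inl (ofReal_ne_zero.2 hQ.ne')))
    (Finset.prod_ne_zero_iff.2 fun i _ => Gamma_ne_zero_of_re_pos (afe1_re (hl i) (hm i) hs))

/- `gam_bdd` for every factor. -/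
theorem gam_le_strip {Q : ℝ} (hQ : 0 < Q) {R : ℕ} {lam : Fin R → ℝ} {mu : Fin R → ℂ}
    (hl : ∀ i, 0 < lam i) (hm : ∀ i, 0 ≤ (mu i).re) {a : ℝ} (ha : 0 < a) (b : ℝ) :
    ∃ C : ℝ, 0 < C ∧ ∀ s : ℂ, a ≤ s.re → s.re ≤ b → ‖gam Q lam mu s‖ ≤ C := by
  choose C hC h using fun i => gam_bdd (b := lam i * b + (mu i).re)
    (add_pos_of_pos_of_nonneg (mul_pos (hl i) ha) (hm i))
  refine ⟨(Q ^ a + Q ^ b) * ∏ i, C i, mul_pos (by positivity) (Finset.prod_pos fun i _ => hC i),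
    fun s h1 h2 => ?_⟩
  rw [gam, norm_mul, norm_prod, norm_cpow_eq_rpow_re_of_pos hQ]
  refine mul_le_mul ?_ (Finset.prod_le_prod (fun i _ => norm_nonneg _) fun i _ => h i _ ?_ ?_)
    (Finset.prod_nonneg fun i _ => norm_nonneg _) (by positivity)
  · rcases le_total 1 Q with h3 | h3
    · exact (Real.rpow_le_rpow_of_exponent_le h3 h2).trans (le_add_of_nonneg_left (by positivity))
    · exact (Real.rpow_le_rpow_of_exponent_ge hQ h3 h1).trans
        (le_add_of_nonneg_right (by positivity))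
  · rw [add_re, re_ofReal_mul]
    linarith [mul_le_mul_of_nonneg_left h1 (hl i).le]
  · rw [add_re, re_ofReal_mul]
    linarith [mul_le_mul_of_nonneg_left h2 (hl i).le]

namespace Sel

variable (F : Sel)

/-- The even function. -/
noncomputable def ev (x : ℝ) (z : ℂ) : ℂ :=
  F.G (1 / 2 + x * I + z) * (starRingEnd ℂ) (F.G (1 / 2 + x * I + (starRingEnd ℂ) z)) *
    ((1 / 2 + x * I + z) * (1 / 2 - x * I + z) / ((1 / 2 + x * I) ^ 2 * (1 / 2 - x * I) ^ 2)) ^ F.m *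
    (gam F.Q F.lam F.mu (1 / 2 + x * I + z) *
      (starRingEnd ℂ) (gam F.Q F.lam F.mu (1 / 2 + x * I + (starRingEnd ℂ) z)) /
      ((‖gam F.Q F.lam F.mu (1 / 2 + x * I)‖ ^ 2 : ℝ) : ℂ)) * exp (z ^ 2)

/- `growth`, `gam_le_strip`, `dec_of_gauss` with `t = 0`, `1 + |x + v| ≤ (1 + |x|) * (1 + |v|)`;
`DifferentiableAt.conj_conj` or `differentiableAt_conj_conj_iff`. -/
theorem ev_dec (x : ℝ) : Dec (F.ev x) (-1 / 4) 1 := by
  obtain ⟨C, K, hC, hK, h⟩ := F.growth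
  obtain ⟨C', hC', h'⟩ := gam_le_strip F.Q_pos F.lam_pos F.mu_re (a := 1 / 4) (by norm_num) (3 / 2)
  obtain ⟨a1, a2⟩ := afe1_comp hC.le hK (fun s h1 h2 => h s ⟨by linarith, by linarith⟩) x
  obtain ⟨a3, a4⟩ := afe1_comp hC'.le le_rfl
    (fun s h1 h2 => by rw [Real.rpow_zero, mul_one]; exact h' s h1 h2) x
  obtain ⟨D, N, hD, hN⟩ := ((a1.mul a2).mul ((((afe1_lin (1 / 2 + x * I)).mul
    (afe1_lin (1 / 2 - x * I))).div ((1 / 2 + x * I) ^ 2 * (1 / 2 - x * I) ^ 2)).pow F.m)).mul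
    ((a3.mul a4).div ((‖gam F.Q F.lam F.mu (1 / 2 + x * I)‖ ^ 2 : ℝ) : ℂ))
  refine dec_of_gauss (C := D * Real.exp 1) (K := N) (t := 0) (fun z hz => ?_) fun z hz => ?_
  · obtain ⟨b1, b2⟩ := afe1_diff F.ent.differentiableOn x hz
    obtain ⟨b3, b4⟩ := afe1_diff (gam_diff F.Q_pos F.lam_pos F.mu_re) x hz
    exact ((((b1.mul b2).mul (by fun_prop)).mul ((b3.mul b4).div_const _)).mul
      (by fun_prop)).differentiableWithinAt
  · rw [ev, norm_mul, norm_exp, mul_right_comm D, mul_assoc (D * _), ← Real.exp_add]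
    refine mul_le_mul (hN z hz) (Real.exp_le_exp.2 ?_) (Real.exp_pos _).le (by positivity)
    rw [sq z, mul_re]
    nlinarith [hz.1, hz.2]

theorem afe1_eq (x : ℝ) {z : ℂ} (hz : z.re ≠ 1 / 2) : F.ev x z =
    F.L (1 / 2 + x * I + z) * (starRingEnd ℂ) (F.L (1 / 2 + x * I + (starRingEnd ℂ) z)) * F.gt x z *
      exp (z ^ 2) := by
  have h1 : (1 / 2 + x * I + z - 1 : ℂ) ≠ 0 := fun h => hz (by
    have := congrArg re h
    simp at this
    linarith)
  have h2 : (1 / 2 - x * I + z - 1 : ℂ) ≠ 0 := fun h => hz (by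
    have := congrArg re h
    simp at this
    linarith)
  have h3 : (1 / 2 + x * I : ℂ) ≠ 0 := fun h => by simpa using congrArg re h
  have h4 : (1 / 2 - x * I : ℂ) ≠ 0 := fun h => by simpa using congrArg re h
  have e1 : (starRingEnd ℂ) (1 / 2 + x * I + (starRingEnd ℂ) z - 1) = 1 / 2 - x * I + z - 1 := by
    simp only [map_sub, map_add, map_mul, map_div₀, map_one, map_ofNat, conj_ofReal, conj_I,
      conj_conj]
    ring
  have e2 : (1 - z ^ 2 / (1 / 2 + x * I) ^ 2) * (1 - z ^ 2 / (1 / 2 - x * I) ^ 2) =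
      (1 / 2 + x * I + z - 1) * (1 / 2 - x * I + z - 1) * ((1 / 2 + x * I + z) *
        (1 / 2 - x * I + z) / ((1 / 2 + x * I) ^ 2 * (1 / 2 - x * I) ^ 2)) := by
    rw [one_sub_div (pow_ne_zero _ h3), one_sub_div (pow_ne_zero _ h4), div_mul_div_comm,
      ← mul_div_assoc]
    congr 1
    ring
  rw [ev, L, L, gt, e2, map_div₀ (starRingEnd ℂ), map_pow, e1, mul_pow, mul_pow]
  generalize (1 / 2 + x * I + z - 1 : ℂ) = a at h1
  generalize (1 / 2 - x * I + z - 1 : ℂ) = b at h2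
  have h5 := pow_ne_zero F.m h1
  have h6 := pow_ne_zero F.m h2
  congr 1
  rw [div_mul_div_comm, div_mul_eq_mul_div (_ * _) (a ^ F.m * b ^ F.m),
    eq_div_iff (mul_ne_zero h5 h6)]
  ring

/- With `s = 1 / 2 + x i`: `(s - 1) * conj (s - 1) = s * conj s`; `gam_ne`. -/
theorem ev_zero (x : ℝ) : F.ev x 0 = F.L2 x := by
  have h := gam_ne F.Q_pos F.lam_pos F.mu_re (s := 1 / 2 + x * I) (by simp)
  rw [F.afe1_eq x (by norm_num), gt, L2, map_zero, add_zero, mul_conj', mul_conj', ofReal_pow,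
    ofReal_pow, div_self (pow_ne_zero _ (ofReal_ne_zero.2 (norm_ne_zero_iff.2 h)))]
  simp

/- For `re z ≠ 1 / 2`: `(1 - z ^ 2 / s ^ 2) * (1 - z ^ 2 / s' ^ 2)` equals
`(s + z - 1) * (s' + z - 1) * ((s + z) * (s' + z) / (s ^ 2 * s' ^ 2))` with `s' = 1 - s = conj s`. -/
theorem ev_eq (x : ℝ) {z : ℂ} (hz : z.re ≠ 1 / 2) : F.ev x z =
    F.L (1 / 2 + x * I + z) * (starRingEnd ℂ) (F.L (1 / 2 + x * I + (starRingEnd ℂ) z)) * F.gt x z *
      exp (z ^ 2) := by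
  exact F.afe1_eq x hz

/- `ev_eq`; `F.fe` at `s - z` and at `s - conj z`; `om * conj om = 1`. -/
theorem ev_neg (x : ℝ) {z : ℂ} (hz : |z.re| < 1 / 2) : F.ev x (-z) = F.ev x z := by
  obtain ⟨h1, h2⟩ := abs_lt.1 hz
  have e1 := F.fe (1 / 2 + x * I + -z) (by simp; linarith) (by simp; linarith)
  have e2 := congrArg (starRingEnd ℂ)
    (F.fe (1 / 2 + x * I + (starRingEnd ℂ) (-z)) (by simp; linarith) (by simp; linarith))
  have e3 : 1 - (starRingEnd ℂ) (1 / 2 + x * I + -z) = 1 / 2 + x * I + (starRingEnd ℂ) z := by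
    simp only [map_neg, map_add, map_mul, map_div₀, map_one, map_ofNat, conj_ofReal, conj_I]
    ring
  have e4 : 1 - (starRingEnd ℂ) (1 / 2 + x * I + (starRingEnd ℂ) (-z)) = 1 / 2 + x * I + z := by
    simp only [map_add, map_mul, map_div₀, map_one, map_ofNat, conj_ofReal, conj_I, conj_conj]
    ring
  have e5 : F.om * (starRingEnd ℂ) F.om = 1 := by
    rw [mul_conj', F.om_norm]
    simp
  rw [e3, ← L, ← L, map_mul] at e1
  rw [e4, ← L, ← L, map_mul, map_mul, conj_conj] at e2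
  rw [F.ev_eq x h2.ne, F.ev_eq x (by rw [neg_re]; linarith), gt, gt, neg_sq]
  congr 1
  have e6 := congrArg₂ (· * ·) e1 e2
  rw [mul_mul_mul_comm F.om, e5] at e6
  linear_combination ((‖gam F.Q F.lam F.mu (1 / 2 + x * I)‖ ^ 2 : ℝ) : ℂ)⁻¹ *
    ((1 - z ^ 2 / (1 / 2 + x * I) ^ 2) * (1 - z ^ 2 / (1 / 2 - x * I) ^ 2)) ^ F.m * e6

/- `Dec.simple` on `[-1 / 4, 1 / 4]`, `Ln_neg`, `ev_neg`; `Dec.shift` for `ev x z / z` on `[1 / 4, c]`;
`ev_eq`, `L_eq`. -/
theorem afe_exact (x : ℝ) {c : ℝ} (h0 : 1 / 2 < c) (h1 : c ≤ 1) :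
    Integrable (fun v : ℝ => F.Z x (c + v * I) * (F.gt x (c + v * I) * exp ((c + v * I : ℂ) ^ 2) /
      (c + v * I))) ∧
    F.L2 x = 2 * Ln (fun z => F.Z x z * (F.gt x z * exp (z ^ 2) / z)) c := by
  have h := F.ev_dec x
  have e : ∀ v : ℝ, F.ev x (c + v * I) / (c + v * I) = F.Z x (c + v * I) *
      (F.gt x (c + v * I) * exp ((c + v * I : ℂ) ^ 2) / (c + v * I)) := by
    intro v
    rw [F.ev_eq x (by simpa using h0.ne'), F.L_eq (by simp; linarith), F.L_eq (by simp; linarith),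
      Z]
    ring
  have hi := h.integrable_div (σ := c) (c := 0) (by linarith) h1 (by linarith) 1
  simp only [ofReal_zero, sub_zero, pow_one, e] at hi
  refine ⟨hi, ?_⟩
  have h2 := (h.mono le_rfl (by norm_num : (1 / 4 : ℝ) ≤ 1)).simple (by norm_num) (by norm_num)
  have h3 : Ln (fun s => F.ev x s / s) (-1 / 4) = -1 * Ln (fun s => F.ev x s / s) (1 / 4) := by
    rw [neg_div, ← Ln_neg, ← Ln_const_mul]
    refine Ln_congr fun v => ?_
    rw [F.ev_neg x (by norm_num), div_neg, neg_one_mul]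
  have h4 : Dec (fun s => F.ev x s / s) (1 / 4) c := by
    obtain ⟨hd, C, hC⟩ := h.mono (by norm_num : (-1 / 4 : ℝ) ≤ 1 / 4) h1
    have h5 : ∀ s ∈ St (1 / 4) c, 1 / 4 ≤ ‖s‖ := fun s hs => hs.1.trans (re_le_norm s)
    refine ⟨hd.div differentiableOn_id fun s hs => norm_pos_iff.1
      (lt_of_lt_of_le (by norm_num) (h5 s hs)), 4 * C, fun s hs => ?_⟩
    have h6 := (norm_nonneg _).trans (hC s hs)
    rw [norm_div, div_le_iff₀ (lt_of_lt_of_le (by norm_num) (h5 s hs))]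
    nlinarith [hC s hs, h5 s hs]
  rw [h3, h4.shift (by linarith), F.ev_zero, Ln_congr (g₂ := fun z => F.Z x z *
    (F.gt x z * exp (z ^ 2) / z)) e] at h2
  rw [← h2]
  ring

end Sel

end Pool.Agent.Lib.MP_2a1a00_nt
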