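import Pool.Agent.Lib.MP_2a1a00_nt.Afe1

/-! The asymptotic size of the weight. -/

namespace Pool.Agent.Lib.MP_2a1a00_nt

open Complex MeasureTheory Set

theorem afe2_log {a y A : ℝ} (hy : 0 < y) (h : |a - y| ≤ A) (hA : 2 * A ≤ y) :
    |Real.log a - Real.log y| ≤ 2 * A / y := by
  obtain ⟨h1, h2⟩ := abs_le.1 h
  have hA0 : 0 ≤ A := (abs_nonneg _).trans h
  have ha : y / 2 ≤ a := by linarith
  have ha0 : 0 < a := by linarith
  rw [abs_le]
  constructor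
  · have h3 := Real.log_le_sub_one_of_pos (div_pos hy ha0)
    rw [Real.log_div hy.ne' ha0.ne'] at h3
    have h4 : y / a - 1 ≤ 2 * A / y := by
      rw [div_sub_one ha0.ne', div_le_div_iff₀ ha0 hy]
      nlinarith
    linarith
  · have h3 := Real.log_le_sub_one_of_pos (div_pos ha0 hy)
    rw [Real.log_div ha0.ne' hy.ne'] at h3
    have h4 : a / y - 1 ≤ 2 * A / y := by
      rw [div_sub_one hy.ne']
      exact div_le_div_of_nonneg_right (by linarith) hy.le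
    linarith

theorem afe2_one_sub {x : ℝ} {z s : ℂ} (hx : 1 ≤ x) (hz : ‖z‖ ≤ x / 4) (hs : x ≤ ‖s‖) :
    ∃ l : ℂ, ‖l‖ ≤ 2 * (1 + ‖z‖ ^ 2) / x ∧ 1 - z ^ 2 / s ^ 2 = exp l := by
  have hx0 : 0 < x := by linarith
  have h1 : ‖-(z ^ 2 / s ^ 2)‖ ≤ ‖z‖ ^ 2 / x ^ 2 := by
    rw [norm_neg, norm_div, norm_pow, norm_pow]
    gcongr
  have h2 : ‖z‖ ^ 2 / x ^ 2 ≤ 1 / 2 := by
    rw [div_le_iff₀ (by positivity)]
    nlinarith [norm_nonneg z]
  have h3 : ‖z‖ ^ 2 / x ^ 2 ≤ (1 + ‖z‖ ^ 2) / x := by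
    gcongr
    · linarith
    · nlinarith
  have h4 : (0 : ℝ) ≤ (1 + ‖z‖ ^ 2) / x := by positivity
  refine ⟨log (1 + -(z ^ 2 / s ^ 2)), ?_, ?_⟩
  · refine (norm_log_one_add_half_le_self (h1.trans h2)).trans ?_
    rw [mul_div_assoc]
    linarith
  · rw [exp_log, sub_eq_add_neg]
    intro h
    have h5 : -(z ^ 2 / s ^ 2) = -1 := by linear_combination h
    rw [h5] at h1
    norm_num at h1
    linarith

theorem afe2_le_norm (x : ℝ) : x ≤ ‖(1 / 2 + x * I : ℂ)‖ ∧ x ≤ ‖(1 / 2 - x * I : ℂ)‖ := by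
  constructor
  · refine le_trans ?_ (abs_im_le_norm _)
    simp [le_abs_self]
  · refine le_trans ?_ (abs_im_le_norm _)
    simp [le_abs_self]

theorem afe2_inv {Q : ℝ} (hQ : 0 < Q) {R : ℕ} {lam : Fin R → ℝ} (mu : Fin R → ℂ)
    (hl : ∀ i, 0 < lam i) : ∃ C K : ℝ, 0 < C ∧ 0 ≤ K ∧ ∀ x : ℝ, 0 ≤ x →
      ‖gam Q lam mu (1 / 2 + x * I)‖⁻¹ ≤ C * Real.exp (K * x) := by
  choose C hC h using fun i => gam_inv_le (lam i / 2 + (mu i).re) (lam i / 2 + (mu i).re)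
  refine ⟨(Q ^ (1 / 2 : ℝ))⁻¹ * ∏ i, C i * Real.exp (4 * |(mu i).im|), ∑ i, 4 * lam i,
    mul_pos (by positivity) (Finset.prod_pos fun i _ => mul_pos (hC i) (Real.exp_pos _)),
    Finset.sum_nonneg fun i _ => by linarith [hl i], fun x hx => ?_⟩
  rw [gam, norm_mul, norm_cpow_eq_rpow_re_of_pos hQ, mul_inv, norm_prod, ← Finset.prod_inv_distrib,
    Finset.sum_mul, Real.exp_sum, mul_assoc, ← Finset.prod_mul_distrib]
  have e : (1 / 2 + x * I : ℂ).re = 1 / 2 := by simp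
  rw [e]
  refine mul_le_mul_of_nonneg_left (Finset.prod_le_prod (fun i _ => by positivity) fun i _ => ?_)
    (by positivity)
  have e1 : (lam i * (1 / 2 + x * I) + mu i : ℂ).re = lam i / 2 + (mu i).re := by simp; ring
  have e2 : (lam i * (1 / 2 + x * I) + mu i : ℂ).im = lam i * x + (mu i).im := by simp
  rw [← norm_inv, mul_assoc, ← Real.exp_add]
  refine (h i _ e1.ge e1.le).trans (mul_le_mul_of_nonneg_left (Real.exp_le_exp.2 ?_) (hC i).le)
  have h1 := abs_add_le (lam i * x) (mu i).im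
  rw [abs_of_nonneg (mul_nonneg (hl i).le hx)] at h1
  rw [e2]
  linarith

theorem afe2_Q {Q : ℝ} (hQ : 0 < Q) (x : ℝ) (z : ℂ) :
    (Q : ℂ) ^ (1 / 2 + x * I + z) * (starRingEnd ℂ) ((Q : ℂ) ^ (1 / 2 + x * I + (starRingEnd ℂ) z)) =
      ((‖(Q : ℂ) ^ (1 / 2 + x * I : ℂ)‖ ^ 2 : ℝ) : ℂ) * exp (z * (2 * Real.log Q : ℝ)) := by
  have h0 : (Q : ℂ) ≠ 0 := ofReal_ne_zero.2 hQ.ne'
  rw [ofReal_pow, ← mul_conj', cpow_def_of_ne_zero h0, cpow_def_of_ne_zero h0,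
    cpow_def_of_ne_zero h0, ← ofReal_log hQ.le, ← exp_conj, ← exp_conj, ← exp_add, ← exp_add,
    ← exp_add]
  congr 1
  simp only [map_mul, map_add, conj_ofReal, conj_conj]
  push_cast
  ring

/- `gam_ratio` at `s₀ = lam * (1 / 2 + x i) + mu` for `w = lam * z` and for `w = lam * conj z`;
`log s₀ + conj (log s₀) = 2 * log ‖s₀‖`, and `|log ‖s₀‖ - log (lam * x)| ≤ C / x`. -/
theorem gt_factor {lam : ℝ} {mu : ℂ} (hl : 0 < lam) (hm : 0 ≤ mu.re) : ∃ C x₀ : ℝ, 0 < C ∧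
    ∀ (x : ℝ) (z : ℂ), x₀ ≤ x → ‖z‖ ≤ x / 4 → ∃ r : ℂ, ‖r‖ ≤ C * (1 + ‖z‖ ^ 2) / x ∧
      Gamma (lam * (1 / 2 + x * I + z) + mu) *
        (starRingEnd ℂ) (Gamma (lam * (1 / 2 + x * I + (starRingEnd ℂ) z) + mu)) =
      ((‖Gamma (lam * (1 / 2 + x * I) + mu)‖ ^ 2 : ℝ) : ℂ) *
        exp (z * (2 * lam * Real.log (lam * x) : ℝ) + r) := by
  obtain ⟨A, hA⟩ : ∃ A, A = lam / 2 + ‖mu‖ := ⟨_, rfl⟩
  have hmu := norm_nonneg mu
  have hA0 : 0 < A := by rw [hA]; positivity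
  refine ⟨40 + 40 * lam + 4 * A, (4 + 2 * A) / lam, by positivity, fun x z hx hz => ?_⟩
  rw [div_le_iff₀ hl, mul_comm] at hx
  have hy : 0 < lam * x := by linarith
  have hx0 : 0 < x := (pos_iff_pos_of_mul_pos hy).1 hl
  obtain ⟨s, hs⟩ : ∃ s : ℂ, s = lam * (1 / 2 + x * I) + mu := ⟨_, rfl⟩
  have e1 : s.re = lam / 2 + mu.re := by rw [hs]; simp; ring
  have e2 : s.im = lam * x + mu.im := by rw [hs]; simp
  have h1 : lam * x / 2 ≤ |s.im| := by
    have := (abs_le.1 (abs_im_le_norm mu)).1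
    refine le_trans ?_ (le_abs_self _)
    rw [e2]
    linarith
  have key : ∀ w : ℂ, ‖w‖ = ‖z‖ → ∃ r : ℂ, ‖r‖ ≤ 20 * (1 + lam) * (1 + ‖z‖ ^ 2) / x ∧
      Gamma (lam * (1 / 2 + x * I + w) + mu) = Gamma s * exp (lam * w * log s + r) := by
    intro w hw
    have h2 : ‖(lam : ℂ) * w‖ = lam * ‖z‖ := by
      rw [norm_mul, norm_real, Real.norm_of_nonneg hl.le, hw]
    obtain ⟨r, hr, h⟩ := gam_ratio (s := s) (w := lam * w) (by rw [e1]; linarith) (by linarith)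
      (by rw [h2]; nlinarith)
    refine ⟨r, hr.trans ?_, by rw [← h, hs]; congr 1; ring⟩
    rw [h2]
    have hz0 := norm_nonneg z
    calc 10 * (lam * ‖z‖ + (lam * ‖z‖) ^ 2) / |s.im|
        ≤ 10 * (lam * ‖z‖ + (lam * ‖z‖) ^ 2) / (lam * x / 2) := by gcongr
      _ = 20 * (‖z‖ + lam * ‖z‖ ^ 2) / x := by field_simp; ring
      _ ≤ _ := by
        refine div_le_div_of_nonneg_right ?_ hx0.le
        nlinarith [sq_nonneg (‖z‖ - 1), sq_nonneg ‖z‖]
  obtain ⟨r1, hr1, g1⟩ := key z rfl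
  obtain ⟨r2, hr2, g2⟩ := key ((starRingEnd ℂ) z) (norm_conj z)
  have h3 : |‖s‖ - lam * x| ≤ A := by
    have h4 := abs_norm_sub_norm_le s ((lam * x : ℝ) * I)
    have h5 : s - (lam * x : ℝ) * I = (lam / 2 : ℝ) + mu := by rw [hs]; push_cast; ring
    rw [h5, norm_mul, norm_I, mul_one, norm_real, Real.norm_of_nonneg hy.le] at h4
    refine h4.trans ((norm_add_le _ _).trans_eq ?_)
    rw [norm_real, Real.norm_of_nonneg (by positivity), hA]
  have h6 := afe2_log hy h3 (by linarith)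
  refine ⟨r1 + (starRingEnd ℂ) r2 +
    z * (2 * lam * (Real.log ‖s‖ - Real.log (lam * x)) : ℝ), ?_, ?_⟩
  · have h7 : ‖z * (2 * lam * (Real.log ‖s‖ - Real.log (lam * x)) : ℝ)‖ ≤
        4 * A * (1 + ‖z‖ ^ 2) / x := by
      rw [norm_mul, norm_real, Real.norm_eq_abs, abs_mul, abs_of_pos (by positivity : 0 < 2 * lam)]
      have h8 : ‖z‖ ≤ 1 + ‖z‖ ^ 2 := by nlinarith [sq_nonneg (‖z‖ - 1), norm_nonneg z]
      calc _ ≤ (1 + ‖z‖ ^ 2) * (2 * lam * (2 * A / (lam * x))) := by gcongr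
        _ = _ := by field_simp; ring
    refine norm_add₃_le.trans ?_
    rw [norm_conj]
    exact (add_le_add (add_le_add hr1 hr2) h7).trans_eq (by ring)
  · rw [g1, g2, ← hs, map_mul, ← exp_conj, mul_mul_mul_comm, mul_conj', ← exp_add, ofReal_pow]
    congr 2
    have h9 := add_conj (log s)
    rw [log_re] at h9
    simp only [map_mul, map_add, conj_ofReal, conj_conj]
    push_cast at h9 ⊢
    linear_combination (lam * z) * h9

namespace Sel

variable (F : Sel)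

/- `gt_factor` for every factor (`choose`); `1 - u = exp (log (1 - u))` with `‖log (1 - u)‖ ≤ 2 * ‖u‖` for
`u = z ^ 2 / s ^ 2`, `‖u‖ ≤ ‖z‖ ^ 2 / x ^ 2 ≤ 1 / 16` (`Complex.norm_log_one_add_half_le_self`). -/
theorem gt_near : ∃ C x₀ : ℝ, 0 < C ∧ ∀ (x : ℝ) (z : ℂ), x₀ ≤ x → ‖z‖ ≤ x / 4 →
    ∃ r : ℂ, ‖r‖ ≤ C * (1 + ‖z‖ ^ 2) / x ∧
      F.gt x z = exp (z * (Real.log F.q + F.deg * Real.log x : ℝ) + r) := by
  choose C x₀ hC h using fun i => gt_factor (F.lam_pos i) (F.mu_re i)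
  have hC0 : 0 ≤ ∑ i, C i := Finset.sum_nonneg fun i _ => (hC i).le
  refine ⟨∑ i, C i + 4 * F.m + 1, ∑ i, |x₀ i| + 1, by positivity, fun x z hx hz => ?_⟩
  have hx1 : 1 ≤ x := by linarith [Finset.sum_nonneg fun i (_ : i ∈ Finset.univ) => abs_nonneg (x₀ i)]
  have hx0 : 0 < x := by linarith
  have hxi : ∀ i, x₀ i ≤ x := fun i => by
    linarith [le_abs_self (x₀ i),
      Finset.single_le_sum (fun i (_ : i ∈ Finset.univ) => abs_nonneg (x₀ i)) (Finset.mem_univ i)]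
  choose r hr g using fun i => h i x z (hxi i) hz
  obtain ⟨l1, hl1, g1⟩ := afe2_one_sub hx1 hz (afe2_le_norm x).1
  obtain ⟨l2, hl2, g2⟩ := afe2_one_sub hx1 hz (afe2_le_norm x).2
  refine ⟨∑ i, r i + F.m * (l1 + l2), ?_, ?_⟩
  · have h1 : ‖∑ i, r i‖ ≤ (∑ i, C i) * (1 + ‖z‖ ^ 2) / x := by
      rw [Finset.sum_mul, Finset.sum_div]
      exact norm_sum_le_of_le _ fun i _ => hr i
    have h2 : ‖(F.m : ℂ) * (l1 + l2)‖ ≤ F.m * (2 * (1 + ‖z‖ ^ 2) / x + 2 * (1 + ‖z‖ ^ 2) / x) := by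
      rw [norm_mul, norm_natCast]
      exact mul_le_mul_of_nonneg_left ((norm_add_le _ _).trans (add_le_add hl1 hl2)) (by positivity)
    have h3 : 0 ≤ (1 + ‖z‖ ^ 2) / x := by positivity
    refine (norm_add_le _ _).trans ((add_le_add h1 h2).trans ?_)
    simp only [mul_div_assoc]
    linarith
  · have hne : ((‖gam F.Q F.lam F.mu (1 / 2 + x * I)‖ ^ 2 : ℝ) : ℂ) ≠ 0 :=
      ofReal_ne_zero.2 (pow_ne_zero _ (norm_ne_zero_iff.2
        (gam_ne F.Q_pos F.lam_pos F.mu_re (by simp))))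
    have e1 : gam F.Q F.lam F.mu (1 / 2 + x * I + z) *
        (starRingEnd ℂ) (gam F.Q F.lam F.mu (1 / 2 + x * I + (starRingEnd ℂ) z)) =
        ((‖gam F.Q F.lam F.mu (1 / 2 + x * I)‖ ^ 2 : ℝ) : ℂ) * exp (z * (2 * Real.log F.Q : ℝ) +
          ∑ i, (z * (2 * F.lam i * Real.log (F.lam i * x) : ℝ) + r i)) := by
      rw [gam, gam, gam, map_mul, map_prod, mul_mul_mul_comm, ← Finset.prod_mul_distrib,
        afe2_Q F.Q_pos, Finset.prod_congr rfl fun i _ => g i, Finset.prod_mul_distrib, norm_mul,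
        norm_prod, mul_pow, ← Finset.prod_pow, exp_add, exp_sum, ofReal_mul (_ ^ 2), ofReal_prod]
      ring
    have e2 : Real.log F.q + F.deg * Real.log x =
        2 * Real.log F.Q + ∑ i, 2 * F.lam i * Real.log (F.lam i * x) := by
      rw [Sel.q, Sel.deg, Real.log_mul (pow_pos F.Q_pos 2).ne'
        (Finset.prod_pos fun i _ => Real.rpow_pos_of_pos (F.lam_pos i) _).ne', Real.log_pow,
        Real.log_prod fun i _ => (Real.rpow_pos_of_pos (F.lam_pos i) _).ne', Finset.mul_sum,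
        Finset.sum_mul, add_assoc, ← Finset.sum_add_distrib]
      congr 1
      refine Finset.sum_congr rfl fun i _ => ?_
      rw [Real.log_rpow (F.lam_pos i), Real.log_mul (F.lam_pos i).ne' hx0.ne']
      ring
    rw [Sel.gt, e1, mul_div_cancel_left₀ _ hne, g1, g2, ← exp_add, ← exp_nat_mul, ← exp_add, e2,
      Finset.sum_add_distrib, ← Finset.mul_sum, ofReal_add, ofReal_sum]
    congr 1
    ring

/- `gam_le_strip` for the numerator, `gam_inv_le` for every factor of the denominator. -/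
theorem gt_crude : ∃ C K : ℝ, 0 < C ∧ 0 ≤ K ∧ ∀ (x : ℝ) (z : ℂ), 1 ≤ x → 0 ≤ z.re → z.re ≤ 1 →
    ‖F.gt x z‖ ≤ C * Real.exp (K * x) * (1 + |z.im|) ^ K := by
  obtain ⟨C1, hC1, h1⟩ := gam_le_strip F.Q_pos F.lam_pos F.mu_re (a := 1 / 2) (by norm_num) (3 / 2)
  obtain ⟨C2, K, hC2, hK, h2⟩ := afe2_inv F.Q_pos F.mu F.lam_pos
  refine ⟨C1 * C1 * C2 ^ 2 * 4 ^ F.m, 2 * K + 4 * F.m, by positivity, by positivity,
    fun x z hx h0 hz => ?_⟩
  have hx0 : 0 < x := by linarith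
  have hv := abs_nonneg z.im
  have hm : (0 : ℝ) ≤ F.m := Nat.cast_nonneg _
  have a1 := h1 (1 / 2 + x * I + z) (by simp; linarith) (by simp; linarith)
  have a2 := h1 (1 / 2 + x * I + (starRingEnd ℂ) z) (by simp; linarith) (by simp; linarith)
  have a3 := h2 x hx0.le
  have a4 : ∀ s : ℂ, x ≤ ‖s‖ → ‖1 - z ^ 2 / s ^ 2‖ ≤ 2 * (1 + |z.im|) ^ 2 := fun s hs => by
    have b1 : ‖z‖ ≤ 1 + |z.im| := by
      have := norm_le_abs_re_add_abs_im z
      rw [abs_of_nonneg h0] at this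
      linarith
    have b2 : ‖z ^ 2 / s ^ 2‖ ≤ (1 + |z.im|) ^ 2 := by
      rw [norm_div, norm_pow, norm_pow]
      exact (div_le_self (by positivity) (one_le_pow₀ (hx.trans hs))).trans (by gcongr)
    have b3 := norm_sub_le 1 (z ^ 2 / s ^ 2)
    rw [norm_one] at b3
    nlinarith
  have a5 : (1 + |z.im|) ^ (4 * F.m) ≤ (1 + |z.im|) ^ (2 * K + 4 * F.m) := by
    rw [← Real.rpow_natCast]
    refine Real.rpow_le_rpow_of_exponent_le (by linarith) ?_
    push_cast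
    linarith
  have a6 : Real.exp (K * x) ^ 2 ≤ Real.exp ((2 * K + 4 * F.m) * x) := by
    rw [← Real.exp_nat_mul]
    refine Real.exp_le_exp.2 ?_
    push_cast
    nlinarith
  rw [Sel.gt, norm_mul, norm_div, norm_mul, norm_conj, norm_real, Real.norm_of_nonneg (by positivity),
    norm_pow, norm_mul, div_eq_mul_inv, ← inv_pow]
  calc _ ≤ C1 * C1 * (C2 * Real.exp (K * x)) ^ 2 *
        (2 * (1 + |z.im|) ^ 2 * (2 * (1 + |z.im|) ^ 2)) ^ F.m := by
        gcongr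
        · exact a4 _ (afe2_le_norm x).1
        · exact a4 _ (afe2_le_norm x).2
    _ = C1 * C1 * C2 ^ 2 * 4 ^ F.m * Real.exp (K * x) ^ 2 * (1 + |z.im|) ^ (4 * F.m) := by
        rw [pow_mul, show 2 * (1 + |z.im|) ^ 2 * (2 * (1 + |z.im|) ^ 2) = 4 * (1 + |z.im|) ^ 4 by ring,
          mul_pow, mul_pow]
        ring
    _ ≤ _ := by gcongr

/- Let `x₁ ≥ x₀` be so large that `8 * C ≤ x₁` and `8 ≤ x₁`.  For `x ≥ x₁`, `|v| ≤ x / 8`: `gt_near`,
`‖exp r - 1‖ ≤ ‖r‖ * exp ‖r‖` (`Complex.norm_exp_sub_sum_le_norm_mul_exp` with `n = 1`),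
`‖r‖ ≤ (2 + v ^ 2) / 8`.  For `x ≤ x₁` or `x ≤ 8 * |v|`: `gt_crude`; then `x ≤ x₁ + 8 * |v|`, every term is at
most a constant times `exp (K' * |v|) ≤ C' * exp (v ^ 2 / 2)`, and `x ^ (deg * σ - 1) ≥ 1 / x`. -/
theorem gt_asymp : ∃ C : ℝ, 0 < C ∧ ∀ (x : ℝ) (z : ℂ), 1 ≤ x → 0 ≤ z.re → z.re ≤ 1 →
    ‖F.gt x z - exp (z * (Real.log F.q + F.deg * Real.log x : ℝ))‖ ≤
      C * x ^ (F.deg * z.re - 1) * Real.exp (z.im ^ 2 / 2) := by
  obtain ⟨C1, x₀, hC1, h1⟩ := F.gt_near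
  obtain ⟨C2, K, hC2, hK, h2⟩ := F.gt_crude
  have hd := F.deg_nonneg
  obtain ⟨x₁, hx₁⟩ : ∃ x₁, x₁ = |x₀| + 8 * C1 + 8 := ⟨_, rfl⟩
  obtain ⟨k, hk⟩ : ∃ k, k = K + F.deg + 1 := ⟨_, rfl⟩
  obtain ⟨q, hq⟩ : ∃ q, q = Real.exp |Real.log F.q| := ⟨_, rfl⟩
  have hq0 : 0 < q := by rw [hq]; positivity
  have hx₀ := abs_nonneg x₀
  refine ⟨q * (C1 * 4) * Real.exp 1 + (C2 + q) * Real.exp (k * x₁ + 81 * k ^ 2 / 2), by positivity,
    fun x z hx h0 hz => ?_⟩
  have hx0 : 0 < x := by linarith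
  have hL := Real.log_nonneg hx
  have hL' : Real.log x ≤ x := by linarith [Real.log_le_sub_one_of_pos hx0]
  have hv := abs_nonneg z.im
  have hE : ‖exp (z * (Real.log F.q + F.deg * Real.log x : ℝ))‖ ≤ q * x ^ (F.deg * z.re) := by
    rw [norm_exp, re_mul_ofReal, hq, Real.rpow_def_of_pos hx0, ← Real.exp_add]
    refine Real.exp_le_exp.2 ?_
    nlinarith [le_abs_self (Real.log F.q), abs_nonneg (Real.log F.q)]
  have hp : 0 < x ^ (F.deg * z.re - 1) := by positivity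
  by_cases hc : x₁ ≤ x ∧ |z.im| ≤ x / 8
  · have b1 : ‖z‖ ≤ 1 + |z.im| := by
      have := norm_le_abs_re_add_abs_im z
      rw [abs_of_nonneg h0] at this
      linarith
    have b2 : ‖z‖ ^ 2 ≤ 1 + z.im ^ 2 := by
      rw [← normSq_eq_norm_sq, normSq_apply]
      nlinarith
    obtain ⟨r, hr, e⟩ := h1 x z (by linarith [le_abs_self x₀, hc.1]) (by linarith [hc.1, hc.2])
    have b3 : ‖r‖ ≤ C1 * (4 * Real.exp (z.im ^ 2 / 4)) / x := by
      refine hr.trans (div_le_div_of_nonneg_right (mul_le_mul_of_nonneg_left ?_ hC1.le) hx0.le)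
      linarith [Real.add_one_le_exp (z.im ^ 2 / 4)]
    have b4 : ‖r‖ ≤ 1 + z.im ^ 2 / 4 := by
      refine hr.trans ?_
      rw [div_le_iff₀ hx0]
      have : 8 * C1 ≤ x := by linarith [hc.1]
      nlinarith [sq_nonneg z.im]
    have b5 := norm_exp_sub_sum_le_norm_mul_exp r 1
    simp only [Finset.range_one, Finset.sum_singleton, pow_zero, Nat.factorial_zero, Nat.cast_one,
      div_one, pow_one] at b5
    rw [e, exp_add, ← mul_sub_one, norm_mul]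
    calc _ ≤ q * x ^ (F.deg * z.re) *
          (C1 * (4 * Real.exp (z.im ^ 2 / 4)) / x * Real.exp (1 + z.im ^ 2 / 4)) :=
          mul_le_mul hE (b5.trans (by gcongr)) (norm_nonneg _) (by positivity)
      _ = q * (C1 * 4) * Real.exp 1 * x ^ (F.deg * z.re - 1) * Real.exp (z.im ^ 2 / 2) := by
          rw [Real.rpow_sub_one hx0.ne', Real.exp_add, show z.im ^ 2 / 2 = z.im ^ 2 / 4 + z.im ^ 2 / 4
            by ring, Real.exp_add]
          ring
      _ ≤ _ := by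
          gcongr
          exact le_add_of_nonneg_right (by positivity)
  · have b1 : x ≤ x₁ + 8 * |z.im| := by
      rcases not_and_or.1 hc with h | h
      · linarith [not_le.1 h]
      · linarith [not_le.1 h]
    have b2 : Real.exp (-x) ≤ x ^ (F.deg * z.re - 1) := by
      rw [Real.rpow_def_of_pos hx0]
      refine Real.exp_le_exp.2 ?_
      nlinarith [mul_nonneg hL (mul_nonneg hd h0)]
    have b3 : ‖F.gt x z‖ ≤ C2 * Real.exp ((k - 1) * x + k * |z.im|) := by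
      refine (h2 x z hx h0 hz).trans ?_
      rw [mul_assoc, Real.rpow_def_of_pos (by positivity), ← Real.exp_add]
      refine mul_le_mul_of_nonneg_left (Real.exp_le_exp.2 ?_) hC2.le
      have := Real.log_le_sub_one_of_pos (show 0 < 1 + |z.im| by positivity)
      rw [hk]
      nlinarith
    have b4 : x ^ (F.deg * z.re) ≤ Real.exp ((k - 1) * x + k * |z.im|) := by
      rw [Real.rpow_def_of_pos hx0]
      refine Real.exp_le_exp.2 ?_
      have c1 : F.deg * z.re ≤ F.deg := by nlinarith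
      have c2 : Real.log x * (F.deg * z.re) ≤ x * F.deg := by gcongr
      rw [hk]
      nlinarith
    have b5 : Real.exp ((k - 1) * x + k * |z.im|) ≤
        Real.exp (k * x₁ + 81 * k ^ 2 / 2) * Real.exp (-x) * Real.exp (z.im ^ 2 / 2) := by
      rw [← Real.exp_add, ← Real.exp_add]
      refine Real.exp_le_exp.2 ?_
      have c1 : 0 ≤ k := by rw [hk]; positivity
      have c2 := mul_le_mul_of_nonneg_left b1 c1
      nlinarith [sq_nonneg (|z.im| - 9 * k), sq_abs z.im]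
    calc _ ≤ ‖F.gt x z‖ + ‖exp (z * (Real.log F.q + F.deg * Real.log x : ℝ))‖ := norm_sub_le _ _
      _ ≤ (C2 + q) * Real.exp ((k - 1) * x + k * |z.im|) := by
          rw [add_mul]
          exact add_le_add b3 (hE.trans (by gcongr))
      _ ≤ (C2 + q) * (Real.exp (k * x₁ + 81 * k ^ 2 / 2) * x ^ (F.deg * z.re - 1) *
          Real.exp (z.im ^ 2 / 2)) := mul_le_mul_of_nonneg_left (b5.trans (by gcongr)) (by positivity)
      _ = (C2 + q) * Real.exp (k * x₁ + 81 * k ^ 2 / 2) * x ^ (F.deg * z.re - 1) *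
          Real.exp (z.im ^ 2 / 2) := by ring
      _ ≤ _ := by
          gcongr
          exact le_add_of_nonneg_left (by positivity)

end Sel

end Pool.Agent.Lib.MP_2a1a00_nt
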