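import Pool.Agent.Lib.MP_2a1a00_nt.Defs

/-! Mean value theorems with a logarithmic loss. -/

namespace Pool.Agent.Lib.MP_2a1a00_nt

open Complex MeasureTheory Set

theorem mvt_int (θ θ' a : ℝ) {ℓ : ℝ} (hℓ : 0 ≤ ℓ) :
    ‖∫ t in a..a + ℓ, exp (I * (θ - θ' : ℝ) * t)‖ ≤ KK ℓ θ θ' := by
  unfold KK
  split_ifs with h
  · simp [h, abs_of_nonneg hℓ]
  · have h0 : (I * (θ - θ' : ℝ) : ℂ) ≠ 0 := mul_ne_zero I_ne_zero (ofReal_ne_zero.2 (sub_ne_zero.2 h))
    have h1 : ∀ t : ℝ, ‖exp (I * (θ - θ' : ℝ) * t)‖ = 1 := fun t => by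
      rw [mul_assoc, ← ofReal_mul, norm_exp_I_mul_ofReal]
    rw [integral_exp_mul_complex h0, norm_div, norm_mul, norm_I, one_mul, norm_real,
      Real.norm_eq_abs]
    refine div_le_div_of_nonneg_right ((norm_sub_le _ _).trans ?_) (abs_nonneg _)
    rw [h1, h1]
    norm_num

/- Expand `‖∑‖ ^ 2 = ∑ ∑ γ x * conj (γ y) * exp (i (θ x - θ y) t)`; `integral_exp_mul_complex`. -/
theorem mvt_abs {ι : Type} (S : Finset ι) (γ : ι → ℂ) (θ : ι → ℝ) (a : ℝ) {ℓ : ℝ} (hℓ : 0 ≤ ℓ) :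
    ∫ t in a..a + ℓ, ‖∑ x ∈ S, γ x * exp (I * (θ x * t : ℝ))‖ ^ 2 ≤
      ∑ x ∈ S, ∑ y ∈ S, ‖γ x‖ * ‖γ y‖ * KK ℓ (θ x) (θ y) := by
  have e : ∀ t : ℝ, ((‖∑ x ∈ S, γ x * exp (I * (θ x * t : ℝ))‖ ^ 2 : ℝ) : ℂ) =
      ∑ x ∈ S, ∑ y ∈ S, γ x * (starRingEnd ℂ) (γ y) * exp (I * (θ x - θ y : ℝ) * t) := fun t => by
    rw [← normSq_eq_norm_sq, ← mul_conj, map_sum, Finset.sum_mul_sum]
    refine Finset.sum_congr rfl fun x _ => Finset.sum_congr rfl fun y _ => ?_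
    rw [map_mul, ← exp_conj, map_mul, conj_I, conj_ofReal, mul_mul_mul_comm, ← exp_add]
    push_cast
    ring_nf
  have hi : ∀ x y, IntervalIntegrable
      (fun t : ℝ => γ x * (starRingEnd ℂ) (γ y) * exp (I * (θ x - θ y : ℝ) * t)) volume a (a + ℓ) :=
    fun x y => Continuous.intervalIntegrable (by fun_prop) _ _
  refine (le_abs_self _).trans ?_
  rw [← Real.norm_eq_abs, ← norm_real, ← intervalIntegral.integral_ofReal]
  simp only [e]
  rw [intervalIntegral.integral_finsetSum fun x _ => Continuous.intervalIntegrable (by fun_prop) _ _]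
  refine norm_sum_le_of_le _ fun x _ => ?_
  rw [intervalIntegral.integral_finsetSum fun y _ => hi x y]
  refine norm_sum_le_of_le _ fun y _ => ?_
  rw [intervalIntegral.integral_const_mul, norm_mul, norm_mul, norm_conj]
  exact mul_le_mul_of_nonneg_left (mvt_int _ _ _ hℓ) (by positivity)

/- For `n < m`: `log m - log n ≥ (m - n) / m`. -/
theorem inv_log_le {m n : ℝ} (hm : 0 < m) (hn : 0 < n) (h : m ≠ n) :
    1 / |Real.log m - Real.log n| ≤ 1 + min m n / |m - n| := by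
  wlog h1 : n < m generalizing m n
  · rw [abs_sub_comm, abs_sub_comm m, min_comm]
    exact this hn hm h.symm (lt_of_le_of_ne (not_lt.1 h1) h)
  have h2 := Real.one_sub_inv_le_log_of_pos (div_pos hm hn)
  have h3 : 0 < m - n := sub_pos.2 h1
  rw [Real.log_div hm.ne' hn.ne', inv_div] at h2
  have h4 : 1 - n / m = (m - n) / m := by field_simp
  have h5 : 0 < (m - n) / m := div_pos h3 hm
  rw [h4] at h2
  rw [abs_of_pos (h5.trans_le h2), abs_of_pos h3, min_eq_right h1.le]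
  refine (one_div_le_one_div_of_le h5 h2).trans_eq ?_
  field_simp
  ring

theorem harm_le (N : ℕ) : ∑ n ∈ Finset.Icc 1 N, (1 : ℝ) / n ≤ 1 + Real.log N := by
  have h := harmonic_le_one_add_log N
  rw [harmonic_eq_sum_Icc] at h
  push_cast at h
  simpa only [one_div] using h

theorem log_le_rpow {ε : ℝ} (hε : 0 < ε) : ∃ C : ℝ, 0 < C ∧ ∀ x : ℝ, 1 ≤ x →
    1 + Real.log x ≤ C * x ^ ε := by
  refine ⟨1 + 1 / ε, by positivity, fun x hx => ?_⟩
  have h1 := Real.log_le_rpow_div (zero_le_one.trans hx) hε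
  have h2 := Real.one_le_rpow hx hε.le
  rw [add_mul, one_mul, one_div_mul_eq_div]
  linarith

theorem mvt_inj (T : Finset ℕ) (φ : ℕ → ℕ) (N : ℕ) (h : Set.InjOn φ T)
    (h' : ∀ y ∈ T, φ y ∈ Finset.Icc 1 N) : ∑ y ∈ T, (1 : ℝ) / φ y ≤ 1 + Real.log N := by
  rw [← Finset.sum_image (f := fun n : ℕ => (1 : ℝ) / n) h]
  exact (Finset.sum_le_sum_of_subset_of_nonneg (Finset.image_subset_iff.2 h')
    fun _ _ _ => by positivity).trans (harm_le N)

/-- The kernel near the diagonal. -/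
noncomputable def mvtR (x y : ℕ) : ℝ :=
  (if y < x then (1 : ℝ) / (x - y : ℕ) else 0) +
    if x < y ∧ y ≤ 2 * x then (1 : ℝ) / (y - x : ℕ) else 0

theorem mvtR_nonneg (x y : ℕ) : 0 ≤ mvtR x y := by
  unfold mvtR
  split_ifs <;> positivity

theorem mvtR_sum (S : Finset ℕ) (x : ℕ) : ∑ y ∈ S, mvtR x y ≤ 2 * (1 + Real.log x) := by
  simp only [mvtR, Finset.sum_add_distrib, ← Finset.sum_filter]
  rw [two_mul (1 + Real.log x)]
  refine add_le_add (mvt_inj _ _ _ (fun y hy y' hy' h => ?_) fun y hy => ?_)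
    (mvt_inj _ _ _ (fun y hy y' hy' h => ?_) fun y hy => ?_)
  all_goals simp only [Finset.coe_filter, Set.mem_ofPred_eq, Finset.mem_filter,
    Finset.mem_Icc] at *
  all_goals omega

theorem mvt_lt {x y : ℕ} (hx : 1 ≤ x) (h : x < y) {s t : ℝ} (hs : 0 ≤ s) (ht : 0 ≤ t) :
    s * t * (2 / |Real.log x - Real.log y|) ≤
      4 * (s * t) + mvtR x y * (x * s ^ 2) + mvtR y x * (y * t ^ 2) := by
  have x0 : (0 : ℝ) < x := by exact_mod_cast hx
  have h0 : (x : ℝ) < y := by exact_mod_cast h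
  have h1 := inv_log_le x0 (x0.trans h0) h0.ne
  rw [min_eq_left h0.le, abs_sub_comm (x : ℝ), abs_of_pos (sub_pos.2 h0)] at h1
  have h2 := mul_le_mul_of_nonneg_left h1 (mul_nonneg hs ht)
  have h3 : s * t * (2 / |Real.log x - Real.log y|) =
      2 * (s * t * (1 / |Real.log x - Real.log y|)) := by ring
  have h4 := mul_nonneg (mvtR_nonneg x y) (show 0 ≤ x * s ^ 2 by positivity)
  have h5 := mul_nonneg (mvtR_nonneg y x) (show 0 ≤ y * t ^ 2 by positivity)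
  rcases le_or_gt y (2 * x) with h6 | h6
  · have e1 : mvtR x y = 1 / (y - x) := by
      rw [mvtR, if_neg (by omega), if_pos ⟨h, h6⟩, zero_add, Nat.cast_sub h.le]
    have e2 : mvtR y x = 1 / (y - x) := by
      rw [mvtR, if_pos h, if_neg (by omega), add_zero, Nat.cast_sub h.le]
    have h7 : 0 ≤ 1 / ((y : ℝ) - x) := (one_div_pos.2 (sub_pos.2 h0)).le
    have h8 : 2 * (x * (s * t)) ≤ x * s ^ 2 + y * t ^ 2 := by
      nlinarith [mul_nonneg x0.le (sq_nonneg (s - t)), mul_nonneg (sub_pos.2 h0).le (sq_nonneg t)]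
    have h9 := mul_le_mul_of_nonneg_left h8 h7
    rw [e1, e2, h3]
    rw [div_eq_mul_one_div (x : ℝ)] at h2
    nlinarith [mul_nonneg hs ht]
  · have h7 : (2 * x : ℝ) < y := by exact_mod_cast h6
    have h8 : x / ((y : ℝ) - x) ≤ 1 := (div_le_one (sub_pos.2 h0)).2 (by linarith)
    nlinarith [mul_le_mul_of_nonneg_left h8 (mul_nonneg hs ht)]

/- `mvt_abs`, `inv_log_le`.  If `|m - n| ≥ min m n` the kernel is at most `4`.  Otherwise
`min m n * ‖a m‖ * ‖a n‖ ≤ (m * ‖a m‖ ^ 2 + n * ‖a n‖ ^ 2) / 2` and, for fixed `n`, the sum of `1 / |m - n|`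
over `0 < |m - n| < n` is at most `2 * (1 + log n)`. -/
theorem mvt_dir (S : Finset ℕ) (hS : ∀ n ∈ S, 1 ≤ n) (γ : ℕ → ℂ) (a : ℝ) {ℓ : ℝ} (hℓ : 0 ≤ ℓ) :
    ∫ t in a..a + ℓ, ‖∑ n ∈ S, γ n * exp (I * (Real.log n * t : ℝ))‖ ^ 2 ≤
      ℓ * ∑ n ∈ S, ‖γ n‖ ^ 2 + 4 * (∑ n ∈ S, ‖γ n‖) ^ 2 +
        8 * ∑ n ∈ S, n * (1 + Real.log n) * ‖γ n‖ ^ 2 := by
  refine (mvt_abs S γ (fun n => Real.log n) a hℓ).trans ?_
  have key : ∀ x ∈ S, ∀ y ∈ S, ‖γ x‖ * ‖γ y‖ * KK ℓ (Real.log x) (Real.log y) ≤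
      (if x = y then ℓ * ‖γ x‖ ^ 2 else 0) + 4 * (‖γ x‖ * ‖γ y‖) +
        mvtR x y * (x * ‖γ x‖ ^ 2) + mvtR y x * (y * ‖γ y‖ ^ 2) := fun x hx y hy => by
    have hl : x ≠ y → Real.log x ≠ Real.log y := fun h h' => h (Nat.cast_injective (R := ℝ)
      (Real.log_injOn_pos (Set.mem_Ioi.2 (Nat.cast_pos.2 (hS x hx)))
        (Set.mem_Ioi.2 (Nat.cast_pos.2 (hS y hy))) h'))
    rcases lt_trichotomy x y with h | rfl | h
    · rw [KK, if_neg (hl h.ne), if_neg h.ne, zero_add]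
      exact mvt_lt (hS x hx) h (norm_nonneg _) (norm_nonneg _)
    · rw [KK, if_pos rfl, if_pos rfl]
      have := mul_nonneg (mvtR_nonneg x x) (show 0 ≤ x * ‖γ x‖ ^ 2 by positivity)
      nlinarith [sq_nonneg ‖γ x‖]
    · rw [KK, if_neg (hl h.ne'), if_neg h.ne', zero_add, abs_sub_comm]
      have := mvt_lt (hS y hy) h (norm_nonneg (γ y)) (norm_nonneg (γ x))
      linarith
  refine (Finset.sum_le_sum fun x hx => Finset.sum_le_sum fun y hy => key x hx y hy).trans ?_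
  have h1 : ∑ x ∈ S, ∑ y ∈ S, mvtR x y * (x * ‖γ x‖ ^ 2) ≤
      2 * ∑ n ∈ S, n * (1 + Real.log n) * ‖γ n‖ ^ 2 := by
    rw [Finset.mul_sum]
    refine Finset.sum_le_sum fun x _ => ?_
    rw [← Finset.sum_mul]
    exact (mul_le_mul_of_nonneg_right (mvtR_sum S x) (by positivity)).trans_eq (by ring)
  have h2 : 0 ≤ ∑ n ∈ S, n * (1 + Real.log n) * ‖γ n‖ ^ 2 := Finset.sum_nonneg fun n _ => by
    have := Real.log_natCast_nonneg n
    positivity
  have h3 : ∑ x ∈ S, ∑ y ∈ S, (if x = y then ℓ * ‖γ x‖ ^ 2 else 0) = ℓ * ∑ n ∈ S, ‖γ n‖ ^ 2 := by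
    rw [Finset.mul_sum]
    exact Finset.sum_congr rfl fun x hx => by rw [Finset.sum_ite_eq, if_pos hx]
  have h4 : ∑ x ∈ S, ∑ y ∈ S, 4 * (‖γ x‖ * ‖γ y‖) = 4 * (∑ n ∈ S, ‖γ n‖) ^ 2 := by
    rw [sq, Finset.sum_mul_sum]
    simp only [Finset.mul_sum]
  simp only [Finset.sum_add_distrib]
  rw [h3, h4, Finset.sum_comm (f := fun x y => mvtR y x * (y * ‖γ y‖ ^ 2))]
  linarith

/- Induction on `N`, or `n ^ (β - 1) ≤ ..` by comparison with an integral. -/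
theorem sum_rpow_head {β : ℝ} (hβ : 0 < β) : ∃ C : ℝ, 0 < C ∧ ∀ N : ℕ,
    ∑ n ∈ Finset.Icc 1 N, (n : ℝ) ^ (β - 1) ≤ C * (N : ℝ) ^ β := by
  have b0 : 0 < min β 1 := lt_min hβ one_pos
  refine ⟨1 / min β 1, by positivity, fun N => ?_⟩
  rw [one_div_mul_eq_div, le_div_iff₀ b0]
  induction N with
  | zero => simp [Real.zero_rpow hβ.ne']
  | succ N ih =>
    have x0 : (0 : ℝ) < N + 1 := by positivity
    have s1 : 1 / ((N : ℝ) + 1) ≤ 1 := (div_le_one x0).2 (by linarith [Nat.cast_nonneg (α := ℝ) N])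
    have s0 : 0 < 1 / ((N : ℝ) + 1) := by positivity
    have h1 : (1 + -(1 / ((N : ℝ) + 1))) ^ β ≤ 1 + min β 1 * -(1 / ((N : ℝ) + 1)) :=
      (Real.rpow_le_rpow_of_exponent_ge' (by linarith) (by linarith) b0.le (min_le_left _ _)).trans
        (rpow_one_add_le_one_add_mul_self (by linarith) b0.le (min_le_right _ _))
    have h2 : (N : ℝ) ^ β = ((N : ℝ) + 1) ^ β * (1 + -(1 / ((N : ℝ) + 1))) ^ β := by
      rw [← Real.mul_rpow x0.le (by linarith)]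
      congr 1
      field_simp
      ring
    have h3 := mul_le_mul_of_nonneg_left h1 (Real.rpow_nonneg x0.le β)
    rw [Finset.sum_Icc_succ_top (Nat.le_add_left 1 N), add_mul]
    push_cast
    rw [Real.rpow_sub_one x0.ne', div_eq_mul_one_div]
    linarith

theorem mvt_step {η x : ℝ} (hη : 0 < η) (hx : 0 < x) :
    η * (x + 1) ^ (-1 - η) ≤ x ^ (-η) - (x + 1) ^ (-η) := by
  have hx1 : 0 < x + 1 := by linarith
  have h1 : x ^ (-η) = (x + 1) ^ (-η) * (x / (x + 1)) ^ (-η) := by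
    rw [← Real.mul_rpow hx1.le (by positivity), mul_div_cancel₀ _ hx1.ne']
  have h2 : 1 + η * (1 / (x + 1)) ≤ (x / (x + 1)) ^ (-η) := by
    rw [Real.rpow_def_of_pos (by positivity)]
    refine le_trans ?_ (Real.add_one_le_exp _)
    have h3 := Real.log_le_sub_one_of_pos (show 0 < x / (x + 1) by positivity)
    have h4 : x / (x + 1) - 1 = -(1 / (x + 1)) := by field_simp; ring
    rw [h4] at h3
    have h5 := mul_le_mul_of_nonneg_left h3 hη.le
    linarith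
  have h3 : (x + 1) ^ (-1 - η) = (x + 1) ^ (-η) * (1 / (x + 1)) := by
    rw [show -1 - η = -η - 1 by ring, Real.rpow_sub_one hx1.ne', mul_one_div]
  have h4 := mul_le_mul_of_nonneg_left h2 (Real.rpow_nonneg hx1.le (-η))
  rw [h3, h1]
  linarith

theorem mvt_tail {η : ℝ} (hη : 0 < η) {M : ℕ} (hM : 1 ≤ M) {N : ℕ} (h : M ≤ N) :
    η * ∑ n ∈ Finset.Ioc M N, (n : ℝ) ^ (-1 - η) ≤ (M : ℝ) ^ (-η) - (N : ℝ) ^ (-η) := by
  induction N, h using Nat.le_induction with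
  | base => simp
  | succ N hN ih =>
    have h1 := mvt_step hη (show (0 : ℝ) < N by exact_mod_cast (show 0 < N by omega))
    rw [Finset.sum_Ioc_succ_top hN, mul_add]
    push_cast
    linarith

/- Compare `a2b_tail` in `MP_e97e2b_nt/Ln/A2b` (copy, do not import). -/
theorem sum_rpow_tail {β : ℝ} (hβ : 0 < β) : ∃ C : ℝ, 0 < C ∧ ∀ N X : ℕ,
    ∑ n ∈ Finset.Ioc N X, (n : ℝ) ^ (-1 - β) ≤ C * ((N : ℝ) + 1) ^ (-β) := by
  refine ⟨1 + 1 / β, by positivity, fun N X => ?_⟩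
  have x1 : (1 : ℝ) ≤ N + 1 := by linarith [Nat.cast_nonneg (α := ℝ) N]
  rcases le_or_gt X N with h | h
  · rw [Finset.Ioc_eq_empty (not_lt.2 h), Finset.sum_empty]
    positivity
  · have h1 := mvt_tail hβ (Nat.le_add_left 1 N) (show N + 1 ≤ X from h)
    have h2 : ((N : ℝ) + 1) ^ (-1 - β) ≤ ((N : ℝ) + 1) ^ (-β) :=
      Real.rpow_le_rpow_of_exponent_le x1 (by linarith)
    have h3 := Real.rpow_nonneg (Nat.cast_nonneg (α := ℝ) X) (-β)
    rw [← Finset.sum_Ioc_consecutive _ (Nat.le_succ N) (show N + 1 ≤ X from h),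
      Nat.Ioc_succ_singleton, Finset.sum_singleton, add_mul, one_mul, one_div_mul_eq_div]
    push_cast at h1 ⊢
    exact add_le_add h2 ((le_div_iff₀' hβ).2 (by linarith))

end Pool.Agent.Lib.MP_2a1a00_nt
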