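import Pool.Agent.Lib.MP_2a1a00_nt.Div
import Pool.Agent.Lib.MP_2a1a00_nt.Mvt

/-! Counting quadruples. -/

namespace Pool.Agent.Lib.MP_2a1a00_nt

open Complex MeasureTheory Set

theorem mem_Pr {Y : ℕ} {p : ℕ × ℕ} : p ∈ Pr Y ↔ 1 ≤ p.1 ∧ 1 ≤ p.2 ∧ p.1 * p.2 ≤ Y := by
  simp only [Pr, Finset.mem_filter, Finset.mem_product, Finset.mem_Icc]
  constructor
  · rintro ⟨⟨⟨h1, -⟩, h2, -⟩, h3⟩
    exact ⟨h1, h2, h3⟩
  · rintro ⟨h1, h2, h3⟩
    exact ⟨⟨⟨h1, (Nat.le_mul_of_pos_right _ h2).trans h3⟩, h2,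
      (Nat.le_mul_of_pos_left _ h1).trans h3⟩, h3⟩

theorem w0_nonneg (p : ℕ × ℕ) : 0 ≤ w0 p := Real.rpow_nonneg (Nat.cast_nonneg _) _

theorem norm_osc (p : ℕ × ℕ) (x : ℝ) : ‖osc p x‖ = 1 := by
  rw [osc, mul_comm, norm_exp_ofReal_mul_I]

/- Map `(p, q)` injectively to `((x p, y q), (x q, y p))` in the product of two boxes
(`Finset.sum_le_sum_of_injOn`-type argument: `Finset.sum_image`, `Finset.sum_le_sum_of_subset_of_nonneg`).
For fixed `(i, j)` sum over `(u, v)` in the box fibrewise along `k = i * j - u * v`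
(`Finset.sum_fiberwise_of_maps_to` or `Finset.card_nsmul`); a fibre injects into
`Nat.divisorsAntidiagonal n` with `1 ≤ n ≤ X ^ 2`; `card_divisors_le` with `ε / 2`. -/
theorem quad {ε : ℝ} (hε : 0 < ε) : ∃ C : ℝ, 0 < C ∧ ∀ (X : ℕ) (S : Finset (ℕ × ℕ)) (x y : ℕ × ℕ → ℕ)
    (Fn : ℕ × ℕ → ℕ × ℕ → ℝ) (ρ : ℕ → ℕ → ℝ) (κ : ℤ → ℝ),
    Set.InjOn (fun p => (x p, y p)) S → (∀ p ∈ S, x p ∈ Finset.Icc 1 X) →
    (∀ p ∈ S, y p ∈ Finset.Icc 1 X) → (∀ i j, 0 ≤ ρ i j) → (∀ k, 0 ≤ κ k) →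
    (∀ p ∈ S, ∀ q ∈ S, Fn p q ≤ ρ (x p) (y q) * κ ((x p : ℤ) * y q - (x q : ℤ) * y p)) →
    ∑ p ∈ S, ∑ q ∈ S, Fn p q ≤ C * (X : ℝ) ^ ε * (∑ i ∈ Finset.Icc 1 X, ∑ j ∈ Finset.Icc 1 X, ρ i j) *
      ∑ k ∈ Finset.Icc (-(X : ℤ) ^ 2) ((X : ℤ) ^ 2), κ k := by
  classical
  obtain ⟨C, hC0, hC⟩ := card_divisors_le (ε / 2) (half_pos hε)
  refine ⟨C + 1, by positivity, fun X S x y Fn ρ κ hinj hx hy hρ hκ hF => ?_⟩
  set B : Finset (ℕ × ℕ) := Finset.Icc 1 X ×ˢ Finset.Icc 1 X with hB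
  have hmem : ∀ w ∈ B, 1 ≤ w.1 * w.2 ∧ w.1 * w.2 ≤ X ^ 2 := fun w hw => by
    simp only [hB, Finset.mem_product, Finset.mem_Icc] at hw
    exact ⟨Nat.mul_pos hw.1.1 hw.2.1, by rw [sq]; exact Nat.mul_le_mul hw.1.2 hw.2.2⟩
  have hfib : ∀ (m k : ℤ), ((B.filter fun w => m - (w.1 : ℤ) * w.2 = k).card : ℝ) ≤
      (C + 1) * (X : ℝ) ^ ε := by
    intro m k
    rcases (B.filter fun w => m - (w.1 : ℤ) * w.2 = k).eq_empty_or_nonempty with h | ⟨w, hw⟩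
    · rw [h, Finset.card_empty, Nat.cast_zero]
      positivity
    obtain ⟨hw1, hw2⟩ := Finset.mem_filter.1 hw
    obtain ⟨h1, h2⟩ := hmem w hw1
    have h3 : (B.filter fun w => m - (w.1 : ℤ) * w.2 = k).card ≤ (w.1 * w.2).divisors.card := by
      rw [← Finset.card_map ⟨fun d => (d, w.1 * w.2 / d), fun _ _ h => congrArg Prod.fst h⟩,
        Nat.map_div_right_divisors]
      refine Finset.card_le_card fun u hu => Nat.mem_divisorsAntidiagonal.2 ⟨?_, by omega⟩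
      have := (Finset.mem_filter.1 hu).2
      zify
      linarith
    calc _ ≤ ((w.1 * w.2).divisors.card : ℝ) := by exact_mod_cast h3
      _ ≤ C * ((w.1 * w.2 : ℕ) : ℝ) ^ (ε / 2) := hC _
      _ ≤ (C + 1) * ((X : ℝ) ^ 2) ^ (ε / 2) := by
        gcongr
        · linarith
        · exact_mod_cast h2
      _ = _ := by
        rw [← Real.rpow_natCast, ← Real.rpow_mul (Nat.cast_nonneg _)]
        congr 2
        push_cast
        ring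
  have hin : ∀ u ∈ B, ∑ w ∈ B, κ ((u.1 : ℤ) * u.2 - (w.1 : ℤ) * w.2) ≤
      (C + 1) * (X : ℝ) ^ ε * ∑ k ∈ Finset.Icc (-(X : ℤ) ^ 2) ((X : ℤ) ^ 2), κ k := by
    intro u hu
    rw [← Finset.sum_fiberwise_of_maps_to (g := fun w : ℕ × ℕ => (u.1 : ℤ) * u.2 - (w.1 : ℤ) * w.2)
      (t := Finset.Icc (-(X : ℤ) ^ 2) ((X : ℤ) ^ 2)) (fun w hw => by
        obtain ⟨h1, h2⟩ := hmem u hu
        obtain ⟨h3, h4⟩ := hmem w hw
        zify at h1 h2 h3 h4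
        exact Finset.mem_Icc.2 ⟨by linarith, by linarith⟩), Finset.mul_sum]
    refine Finset.sum_le_sum fun k _ => ?_
    rw [Finset.sum_congr rfl fun w hw => congrArg κ (Finset.mem_filter.1 hw).2, Finset.sum_const,
      nsmul_eq_mul]
    exact mul_le_mul_of_nonneg_right (hfib _ _) (hκ k)
  let φ : (ℕ × ℕ) × ℕ × ℕ → (ℕ × ℕ) × ℕ × ℕ := fun z => ((x z.1, y z.2), x z.2, y z.1)
  let g : (ℕ × ℕ) × ℕ × ℕ → ℝ := fun z =>
    ρ z.1.1 z.1.2 * κ ((z.1.1 : ℤ) * z.1.2 - (z.2.1 : ℤ) * z.2.2)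
  have hφ : Set.InjOn φ (S ×ˢ S : Finset _) := by
    intro z hz z' hz' h
    simp only [Finset.coe_product, Set.mem_prod] at hz hz'
    simp only [φ, Prod.mk.injEq] at h
    exact Prod.ext (hinj hz.1 hz'.1 (Prod.ext h.1.1 h.2.2)) (hinj hz.2 hz'.2 (Prod.ext h.2.1 h.1.2))
  calc ∑ p ∈ S, ∑ q ∈ S, Fn p q ≤ ∑ z ∈ S ×ˢ S, g (φ z) := by
        rw [Finset.sum_product]
        exact Finset.sum_le_sum fun p hp => Finset.sum_le_sum fun q hq => hF p hp q hq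
    _ = ∑ z ∈ (S ×ˢ S).image φ, g z := (Finset.sum_image hφ).symm
    _ ≤ ∑ z ∈ B ×ˢ B, g z := by
        refine Finset.sum_le_sum_of_subset_of_nonneg (fun z hz => ?_)
          fun z _ _ => mul_nonneg (hρ _ _) (hκ _)
        obtain ⟨w, hw, rfl⟩ := Finset.mem_image.1 hz
        obtain ⟨h1, h2⟩ := Finset.mem_product.1 hw
        exact Finset.mem_product.2 ⟨Finset.mem_product.2 ⟨hx _ h1, hy _ h2⟩,
          Finset.mem_product.2 ⟨hx _ h2, hy _ h1⟩⟩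
    _ ≤ ∑ u ∈ B, ρ u.1 u.2 * ((C + 1) * (X : ℝ) ^ ε *
          ∑ k ∈ Finset.Icc (-(X : ℤ) ^ 2) ((X : ℤ) ^ 2), κ k) := by
        rw [Finset.sum_product]
        refine Finset.sum_le_sum fun u hu => ?_
        simp only [g]
        rw [← Finset.mul_sum]
        exact mul_le_mul_of_nonneg_left (hin u hu) (hρ _ _)
    _ = _ := by
        rw [← Finset.sum_mul, hB, Finset.sum_product]
        ring

/- `harm_le`; the term `k = 0` is zero. -/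
theorem sum_inv_abs (K : ℕ) : ∑ k ∈ Finset.Icc (-(K : ℤ)) K, 1 / |(k : ℝ)| ≤ 2 * (1 + Real.log K) := by
  have h : ∑ k ∈ Finset.Icc (-(K : ℤ)) K, 1 / |(k : ℝ)| = 2 * ∑ n ∈ Finset.Icc 1 K, (1 : ℝ) / n := by
    induction K with
    | zero => simp
    | succ K ih =>
      have e : Finset.Icc (-((K + 1 : ℕ) : ℤ)) (K + 1 : ℕ) =
          insert (-((K : ℤ) + 1)) (insert ((K : ℤ) + 1) (Finset.Icc (-(K : ℤ)) K)) := by
        ext k
        simp only [Finset.mem_Icc, Finset.mem_insert]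
        omega
      rw [e, Finset.sum_insert (by simp only [Finset.mem_Icc, Finset.mem_insert]; omega),
        Finset.sum_insert (by simp only [Finset.mem_Icc]; omega), ih,
        Finset.sum_Icc_succ_top (by omega)]
      push_cast
      rw [abs_neg, abs_of_pos (by positivity : (0 : ℝ) < K + 1)]
      ring
  rw [h]
  exact mul_le_mul_of_nonneg_left (harm_le K) zero_le_two

/- `fr p - fr q = log (p.2 * q.1) - log (p.1 * q.2)`; `inv_log_le`, and `min m n ≤ √(m * n)`, whose inverse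
is `w0 p * w0 q`. -/
theorem kk_le {Y : ℕ} {p q : ℕ × ℕ} (hp : p ∈ Pr Y) (hq : q ∈ Pr Y) {ℓ : ℝ} (hℓ : 0 ≤ ℓ) :
    w0 p * w0 q * KK ℓ (fr p) (fr q) ≤
      ℓ * (if p.2 * q.1 = p.1 * q.2 then w0 p * w0 q else 0) + 2 * (w0 p * w0 q) +
        2 * (1 / |(((p.2 : ℤ) * q.1 - (p.1 : ℤ) * q.2 : ℤ) : ℝ)|) := by
  obtain ⟨a1, a2, -⟩ := mem_Pr.1 hp
  obtain ⟨b1, b2, -⟩ := mem_Pr.1 hq
  have a1' : (0 : ℝ) < p.1 := by exact_mod_cast a1
  have a2' : (0 : ℝ) < p.2 := by exact_mod_cast a2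
  have b1' : (0 : ℝ) < q.1 := by exact_mod_cast b1
  have b2' : (0 : ℝ) < q.2 := by exact_mod_cast b2
  have hm : (0 : ℝ) < (p.2 : ℝ) * q.1 := mul_pos a2' b1'
  have hn : (0 : ℝ) < (p.1 : ℝ) * q.2 := mul_pos a1' b2'
  have hfr : fr p - fr q = Real.log ((p.2 : ℝ) * q.1) - Real.log ((p.1 : ℝ) * q.2) := by
    rw [fr, fr, Real.log_mul a2'.ne' b1'.ne', Real.log_mul a1'.ne' b2'.ne']
    ring
  have hw := mul_nonneg (w0_nonneg p) (w0_nonneg q)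
  by_cases h : p.2 * q.1 = p.1 * q.2
  · have h' : (p.2 : ℝ) * q.1 = (p.1 : ℝ) * q.2 := by exact_mod_cast h
    rw [h', sub_self, sub_eq_zero] at hfr
    rw [KK, if_pos hfr, if_pos h, mul_comm ℓ, add_assoc]
    exact le_add_of_nonneg_right (by positivity)
  · have h' : (p.2 : ℝ) * q.1 ≠ (p.1 : ℝ) * q.2 := by exact_mod_cast h
    have hne : fr p ≠ fr q := fun e => h' (Real.log_injOn_pos hm hn (by
      rw [← sub_eq_zero, ← hfr, e, sub_self]))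
    rw [KK, if_neg hne, if_neg h, hfr]
    push_cast
    have h1 := inv_log_le hm hn h'
    generalize hM : (p.2 : ℝ) * q.1 = M at *
    generalize hN : (p.1 : ℝ) * q.2 = N at *
    have h2 : w0 p * w0 q = (√(M * N))⁻¹ := by
      rw [w0, w0, ← Real.mul_rpow (Nat.cast_nonneg _) (Nat.cast_nonneg _), Real.sqrt_eq_rpow,
        ← Real.rpow_neg (mul_pos hm hn).le, ← hM, ← hN]
      congr 1
      push_cast
      ring
    have h3 : min M N ≤ √(M * N) := by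
      refine Real.le_sqrt_of_sq_le ?_
      rw [sq]
      exact mul_le_mul (min_le_left _ _) (min_le_right _ _) (lt_min hm hn).le hm.le
    have h4 : w0 p * w0 q * min M N ≤ 1 := by
      rw [h2, inv_mul_le_iff₀ (Real.sqrt_pos.2 (mul_pos hm hn)), mul_one]
      exact h3
    have h5 : 0 ≤ 1 / |M - N| := by positivity
    calc w0 p * w0 q * (2 / |Real.log M - Real.log N|)
        = 2 * (w0 p * w0 q * (1 / |Real.log M - Real.log N|)) := by ring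
      _ ≤ 2 * (w0 p * w0 q * (1 + min M N / |M - N|)) := by gcongr
      _ = 2 * (w0 p * w0 q) + 2 * (w0 p * w0 q * min M N * (1 / |M - N|)) := by ring
      _ ≤ 2 * (w0 p * w0 q) + 2 * (1 * (1 / |M - N|)) := by gcongr
      _ = _ := by ring

/- `mvt_abs` (with `θ = fr`) and `kk_le`. -/
theorem ps_gen {Y : ℕ} {S : Finset (ℕ × ℕ)} (hS : S ⊆ Pr Y) {γ : ℕ × ℕ → ℂ} {ω : ℕ × ℕ → ℝ}
    (h0 : ∀ p ∈ S, 0 ≤ ω p) (h : ∀ p ∈ S, ‖γ p‖ ≤ ω p * w0 p) (a : ℝ) {ℓ : ℝ} (hℓ : 0 ≤ ℓ) :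
    ∫ t in a..a + ℓ, ‖PP γ S t‖ ^ 2 ≤
      ℓ * (∑ p ∈ S, ∑ q ∈ S, if p.2 * q.1 = p.1 * q.2 then ω p * w0 p * (ω q * w0 q) else 0) +
        2 * (∑ p ∈ S, ω p * w0 p) ^ 2 +
        2 * ∑ p ∈ S, ∑ q ∈ S, ω p * ω q * (1 / |(((p.2 : ℤ) * q.1 - (p.1 : ℤ) * q.2 : ℤ) : ℝ)|) := by
  refine (mvt_abs S γ fr a hℓ).trans ?_
  rw [sq, Finset.sum_mul_sum, Finset.mul_sum, Finset.mul_sum, Finset.mul_sum,
    ← Finset.sum_add_distrib, ← Finset.sum_add_distrib]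
  refine Finset.sum_le_sum fun p hp => ?_
  rw [Finset.mul_sum, Finset.mul_sum, Finset.mul_sum, ← Finset.sum_add_distrib,
    ← Finset.sum_add_distrib]
  refine Finset.sum_le_sum fun q hq => ?_
  have hK : 0 ≤ KK ℓ (fr p) (fr q) := by
    unfold KK
    split_ifs
    · exact hℓ
    · positivity
  have h1 := mul_le_mul_of_nonneg_left (kk_le (hS hp) (hS hq) hℓ) (mul_nonneg (h0 p hp) (h0 q hq))
  have h2 := mul_le_mul_of_nonneg_right (mul_le_mul (h p hp) (h q hq) (norm_nonneg _)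
    (mul_nonneg (h0 p hp) (w0_nonneg p))) hK
  refine h2.trans ((le_of_eq (by ring)).trans (h1.trans (le_of_eq ?_)))
  split_ifs <;> ring

/- For fixed `a` the sum over `b ≤ Y / a` of `b ^ (-1 / 2)` is at most `C * (Y / a) ^ (1 / 2)`
(`sum_rpow_head`), then `harm_le`, `log_le_rpow`. -/
theorem sum_w0 {ε : ℝ} (hε : 0 < ε) : ∃ C : ℝ, 0 < C ∧ ∀ Y : ℕ, 1 ≤ Y →
    ∑ p ∈ Pr Y, w0 p ≤ C * √Y * (Y : ℝ) ^ ε := by
  obtain ⟨C₁, hC₁, h₁⟩ := sum_rpow_head (β := 1 / 2) (by norm_num)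
  obtain ⟨C₂, hC₂, h₂⟩ := log_le_rpow hε
  refine ⟨C₁ * C₂, by positivity, fun Y hY => ?_⟩
  have hY' : (1 : ℝ) ≤ Y := by exact_mod_cast hY
  have h3 : ∀ a ∈ Finset.Icc 1 Y, ∑ b ∈ Finset.Icc 1 Y, (if a * b ≤ Y then w0 (a, b) else 0) ≤
      C₁ * √Y * (1 / a) := by
    intro a ha
    have ha1 : 0 < a := (Finset.mem_Icc.1 ha).1
    have ha' : (0 : ℝ) < a := by exact_mod_cast ha1
    have e : (Finset.Icc 1 Y).filter (fun b => a * b ≤ Y) = Finset.Icc 1 (Y / a) := by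
      ext b
      simp only [Finset.mem_filter, Finset.mem_Icc, Nat.le_div_iff_mul_le ha1, mul_comm b a]
      exact ⟨fun h => ⟨h.1.1, h.2⟩, fun h => ⟨⟨h.1, (Nat.le_mul_of_pos_left _ ha1).trans h.2⟩, h.2⟩⟩
    rw [← Finset.sum_filter, e]
    calc ∑ b ∈ Finset.Icc 1 (Y / a), w0 (a, b)
        = (a : ℝ) ^ (-(1 / 2) : ℝ) * ∑ b ∈ Finset.Icc 1 (Y / a), (b : ℝ) ^ ((1 / 2 : ℝ) - 1) := by
          rw [Finset.mul_sum]
          refine Finset.sum_congr rfl fun b _ => ?_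
          rw [w0, Nat.cast_mul, Real.mul_rpow (Nat.cast_nonneg _) (Nat.cast_nonneg _)]
          norm_num
      _ ≤ (a : ℝ) ^ (-(1 / 2) : ℝ) * (C₁ * ((Y : ℝ) / a) ^ (1 / 2 : ℝ)) := by
          refine mul_le_mul_of_nonneg_left ((h₁ _).trans ?_) (by positivity)
          gcongr
          exact Nat.cast_div_le
      _ = _ := by
          have e2 : (a : ℝ) ^ (1 / 2 : ℝ) * (a : ℝ) ^ (1 / 2 : ℝ) = a := by
            rw [← Real.rpow_add ha']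
            norm_num
          have e3 : (0 : ℝ) < (a : ℝ) ^ (1 / 2 : ℝ) := by positivity
          rw [Real.div_rpow (by positivity) ha'.le, Real.rpow_neg ha'.le, Real.sqrt_eq_rpow]
          generalize (a : ℝ) ^ (1 / 2 : ℝ) = s at e2 e3
          rw [← e2]
          field_simp
  calc ∑ p ∈ Pr Y, w0 p
      = ∑ a ∈ Finset.Icc 1 Y, ∑ b ∈ Finset.Icc 1 Y, (if a * b ≤ Y then w0 (a, b) else 0) := by
        rw [Pr, Finset.sum_filter, Finset.sum_product]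
    _ ≤ ∑ a ∈ Finset.Icc 1 Y, C₁ * √Y * (1 / a) := Finset.sum_le_sum h3
    _ = C₁ * √Y * ∑ a ∈ Finset.Icc 1 Y, (1 : ℝ) / a := by rw [Finset.mul_sum]
    _ ≤ C₁ * √Y * (C₂ * (Y : ℝ) ^ ε) :=
        mul_le_mul_of_nonneg_left ((harm_le Y).trans (h₂ _ hY')) (by positivity)
    _ = _ := by ring

theorem card_Pr {ε : ℝ} (hε : 0 < ε) : ∃ C : ℝ, 0 < C ∧ ∀ Y : ℕ, 1 ≤ Y →
    ∑ i ∈ Finset.Icc 1 Y, ∑ j ∈ Finset.Icc 1 Y, (if i * j ≤ Y then (1 : ℝ) else 0) ≤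
      C * Y * (Y : ℝ) ^ ε := by
  obtain ⟨C₂, hC₂, h₂⟩ := log_le_rpow hε
  refine ⟨C₂, hC₂, fun Y hY => ?_⟩
  have hY' : (1 : ℝ) ≤ Y := by exact_mod_cast hY
  have h3 : ∀ a ∈ Finset.Icc 1 Y, ∑ b ∈ Finset.Icc 1 Y, (if a * b ≤ Y then (1 : ℝ) else 0) ≤
      Y * (1 / a) := by
    intro a ha
    have ha1 : 0 < a := (Finset.mem_Icc.1 ha).1
    have e : (Finset.Icc 1 Y).filter (fun b => a * b ≤ Y) = Finset.Icc 1 (Y / a) := by
      ext b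
      simp only [Finset.mem_filter, Finset.mem_Icc, Nat.le_div_iff_mul_le ha1, mul_comm b a]
      exact ⟨fun h => ⟨h.1.1, h.2⟩, fun h => ⟨⟨h.1, (Nat.le_mul_of_pos_left _ ha1).trans h.2⟩, h.2⟩⟩
    rw [← Finset.sum_filter, e, Finset.sum_const, Nat.card_Icc, Nat.add_sub_cancel, nsmul_eq_mul,
      mul_one, mul_one_div]
    exact Nat.cast_div_le
  calc _ ≤ ∑ a ∈ Finset.Icc 1 Y, (Y : ℝ) * (1 / a) := Finset.sum_le_sum h3
    _ = Y * ∑ a ∈ Finset.Icc 1 Y, (1 : ℝ) / a := by rw [Finset.mul_sum]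
    _ ≤ Y * (C₂ * (Y : ℝ) ^ ε) :=
        mul_le_mul_of_nonneg_left ((harm_le Y).trans (h₂ _ hY')) (by positivity)
    _ = _ := by ring

/- `w0 (a, a) = 1 / a`; `harm_le`, `log_le_rpow`. -/
theorem dg_le {ε : ℝ} (hε : 0 < ε) : ∃ C : ℝ, 0 < C ∧ ∀ (Y : ℕ) (c : ℕ × ℕ → ℂ) (K : ℝ), 1 ≤ Y →
    0 ≤ K → (∀ p ∈ Pr Y, ‖c p‖ ≤ K * w0 p) → ‖dg c Y‖ ≤ C * K * (Y : ℝ) ^ ε := by
  obtain ⟨C₂, hC₂, h₂⟩ := log_le_rpow hε
  refine ⟨C₂, hC₂, fun Y c K hY hK hc => ?_⟩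
  have hY' : (1 : ℝ) ≤ Y := by exact_mod_cast hY
  have hinj : Set.InjOn (Prod.fst : ℕ × ℕ → ℕ) ((Pr Y).filter fun p => p.1 = p.2 : Finset _) := by
    intro p hp q hq h
    exact Prod.ext h (by rw [← (Finset.mem_filter.1 hp).2, ← (Finset.mem_filter.1 hq).2, h])
  calc ‖dg c Y‖ ≤ ∑ p ∈ (Pr Y).filter fun p => p.1 = p.2, K * (1 / (p.1 : ℝ)) := by
        refine norm_sum_le_of_le _ fun p hp => ?_
        obtain ⟨h1, h3⟩ := Finset.mem_filter.1 hp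
        refine (hc p h1).trans (le_of_eq ?_)
        rw [w0, ← h3, Nat.cast_mul, ← sq, ← Real.rpow_natCast, ← Real.rpow_mul (Nat.cast_nonneg _),
          one_div (p.1 : ℝ), ← Real.rpow_neg_one]
        norm_num
    _ = ∑ a ∈ ((Pr Y).filter fun p => p.1 = p.2).image Prod.fst, K * (1 / (a : ℝ)) :=
        (Finset.sum_image (f := fun a : ℕ => K * (1 / (a : ℝ))) hinj).symm
    _ ≤ ∑ a ∈ Finset.Icc 1 Y, K * (1 / (a : ℝ)) := by
        refine Finset.sum_le_sum_of_subset_of_nonneg (fun a ha => ?_) fun a _ _ => by positivity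
        obtain ⟨p, hp, rfl⟩ := Finset.mem_image.1 ha
        exact (Finset.mem_product.1 (Finset.mem_filter.1 (Finset.mem_filter.1 hp).1).1).1
    _ = K * ∑ a ∈ Finset.Icc 1 Y, (1 : ℝ) / a := by rw [Finset.mul_sum]
    _ ≤ K * (C₂ * (Y : ℝ) ^ ε) := mul_le_mul_of_nonneg_left ((harm_le Y).trans (h₂ _ hY')) hK
    _ = _ := by ring

end Pool.Agent.Lib.MP_2a1a00_nt
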