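import Pool.Agent.Lib.MP_2a1a00_nt.Afe2
import Pool.Agent.Lib.MP_2a1a00_nt.Cnt

/-! The approximate functional equation. -/

namespace Pool.Agent.Lib.MP_2a1a00_nt

open Complex MeasureTheory Set

namespace Sel

variable (F : Sel)

/- `LSeries_differentiableOn`-type facts through `L_eq` and `differentiableAt_L`. -/
theorem afe3_dL {s : ℂ} (hs : 1 < s.re) : DifferentiableAt ℂ (LSeries F.f) s := by
  have h1 : s ≠ 1 := fun h => by simp [h] at hs
  refine (F.differentiableAt_L h1).congr_of_eventuallyEq ?_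
  have : {s : ℂ | 1 < s.re} ∈ nhds s := (isOpen_lt continuous_const continuous_re).mem_nhds hs
  filter_upwards [this] with w hw using (F.L_eq hw).symm

theorem Z_diff (x : ℝ) : DifferentiableOn ℂ (F.Z x) {z | 1 / 2 < z.re} := by
  intro z hz
  have hz' : 1 / 2 < z.re := hz
  have h1 : ∀ w : ℂ, 1 / 2 < w.re →
      DifferentiableAt ℂ (fun u : ℂ => LSeries F.f (1 / 2 + x * I + u)) w := by
    intro w hw
    refine DifferentiableAt.comp (g := LSeries F.f) (f := fun u : ℂ => 1 / 2 + x * I + u) w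
      (F.afe3_dL ?_) (by fun_prop)
    simp
    linarith
  have h2 : DifferentiableAt ℂ ((starRingEnd ℂ) ∘ (fun u : ℂ => LSeries F.f (1 / 2 + x * I + u)) ∘
      (starRingEnd ℂ)) z :=
    differentiableAt_conj_conj_iff.2 (h1 _ (by simpa using hz'))
  exact ((h1 z hz').mul h2).differentiableWithinAt

theorem Z_le {c : ℝ} (hc : 1 / 2 < c) : ∃ C : ℝ, 0 < C ∧ ∀ (x : ℝ) (z : ℂ), c ≤ z.re →
    ‖F.Z x z‖ ≤ C := by
  obtain ⟨C, hC, h⟩ := F.lser_le (σ := 1 / 2 + c) (by linarith)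
  refine ⟨C * C, by positivity, fun x z hz => ?_⟩
  rw [Sel.Z, norm_mul, RCLike.norm_conj]
  refine mul_le_mul (h _ ?_) (h _ ?_) (norm_nonneg _) hC.le
  · simp
    linarith
  · simp
    linarith

theorem P_diff (S : Finset (ℕ × ℕ)) (hS : ∀ p ∈ S, 1 ≤ p.1 * p.2) (x : ℝ) :
    Differentiable ℂ fun z => PP (F.co z) S x := by
  unfold PP Sel.co
  refine Differentiable.fun_sum fun p hp => ?_
  have h0 : ((p.1 * p.2 : ℕ) : ℂ) ≠ 0 := Nat.cast_ne_zero.2 (Nat.one_le_iff_ne_zero.1 (hS p hp))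
  refine Differentiable.mul_const (Differentiable.const_mul ?_ _) _
  exact Differentiable.const_cpow (by fun_prop) (Or.inl h0)

theorem afe3_norm_co (z : ℂ) {p : ℕ × ℕ} (h : 1 ≤ p.1 * p.2) :
    ‖F.co z p‖ = ‖F.f p.1‖ * ‖F.f p.2‖ * ((p.1 * p.2 : ℕ) : ℝ) ^ (-(1 / 2) - z.re) := by
  rw [Sel.co, norm_mul, norm_mul, RCLike.norm_conj, norm_natCast_cpow_of_pos h]
  congr 2
  simp

theorem co_le {η : ℝ} (hη : 0 < η) : ∃ K : ℝ, 0 < K ∧ ∀ (Y : ℕ) (z : ℂ), η ≤ z.re →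
    ∀ p ∈ Pr Y, ‖F.co z p‖ ≤ K * w0 p := by
  obtain ⟨C, hC1, hC⟩ := F.ram' hη
  refine ⟨C * C, by positivity, fun Y z hz p hp => ?_⟩
  obtain ⟨h1, h2, -⟩ := mem_Pr.1 hp
  have h12 : 1 ≤ p.1 * p.2 := Nat.mul_pos h1 h2
  have hr : (1 : ℝ) ≤ ((p.1 * p.2 : ℕ) : ℝ) := by exact_mod_cast h12
  rw [F.afe3_norm_co z h12, w0]
  have e1 : ((p.1 * p.2 : ℕ) : ℝ) ^ (-(1 / 2) - z.re) ≤ ((p.1 * p.2 : ℕ) : ℝ) ^ (-(1 / 2) - η) :=
    Real.rpow_le_rpow_of_exponent_le hr (by linarith)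
  have e2 : ‖F.f p.1‖ * ‖F.f p.2‖ ≤ C * C * ((p.1 * p.2 : ℕ) : ℝ) ^ η := by
    calc ‖F.f p.1‖ * ‖F.f p.2‖ ≤ (C * (p.1 : ℝ) ^ η) * (C * (p.2 : ℝ) ^ η) :=
          mul_le_mul (hC _ h1) (hC _ h2) (norm_nonneg _) (by positivity)
      _ = C * C * ((p.1 * p.2 : ℕ) : ℝ) ^ η := by
          rw [Nat.cast_mul, Real.mul_rpow (Nat.cast_nonneg _) (Nat.cast_nonneg _)]
          ring
  calc ‖F.f p.1‖ * ‖F.f p.2‖ * ((p.1 * p.2 : ℕ) : ℝ) ^ (-(1 / 2) - z.re)
      ≤ C * C * ((p.1 * p.2 : ℕ) : ℝ) ^ η * ((p.1 * p.2 : ℕ) : ℝ) ^ (-(1 / 2) - η) :=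
        mul_le_mul e2 e1 (by positivity) (by positivity)
    _ = C * C * ((p.1 * p.2 : ℕ) : ℝ) ^ (-(1 / 2) : ℝ) := by
        rw [mul_assoc, ← Real.rpow_add (by linarith)]
        congr 2
        ring

/- `Z x z` is the sum over `ℕ × ℕ` of the products of the terms (`tsum_mul_tsum_of_summable_norm`); for
`p ∈ Pr Y` the product is `co z p * osc p x`; the other products vanish or have `Y + 1 ≤ a * b`, and then the
norm is at most `(Y + 1) ^ (1 - re z) * ‖term f (3 / 2) a‖ * ‖term f (3 / 2) b‖`;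
`Summable.sum_add_tsum_compl`, `tsum_of_norm_bounded`. -/
theorem afe3_term (x : ℝ) (z : ℂ) {a b : ℕ} (ha : 1 ≤ a) (hb : 1 ≤ b) :
    LSeries.term F.f (1 / 2 + x * I + z) a *
      (starRingEnd ℂ) (LSeries.term F.f (1 / 2 + x * I + (starRingEnd ℂ) z) b) =
      F.co z (a, b) * osc (a, b) x := by
  have ha0 : a ≠ 0 := Nat.one_le_iff_ne_zero.1 ha
  have hb0 : b ≠ 0 := Nat.one_le_iff_ne_zero.1 hb
  have key : ∀ (n : ℕ), n ≠ 0 → ∀ w : ℂ, (n : ℂ) ^ w = exp ((Real.log n : ℝ) * w) := by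
    intro n hn w
    rw [cpow_def_of_ne_zero (Nat.cast_ne_zero.2 hn), ← natCast_log]
  rw [LSeries.term_of_ne_zero ha0, LSeries.term_of_ne_zero hb0, Sel.co, osc, fr, key a ha0,
    key b hb0, key _ (Nat.mul_ne_zero ha0 hb0), map_div₀, ← exp_conj, Nat.cast_mul,
    Real.log_mul (Nat.cast_ne_zero.2 ha0) (Nat.cast_ne_zero.2 hb0), div_mul_div_comm, ← exp_add,
    div_eq_mul_inv, ← exp_neg, mul_assoc (F.f a * _), ← exp_add]
  congr 2
  have h2 : (starRingEnd ℂ) (2 : ℂ) = 2 := map_ofNat _ 2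
  simp only [map_mul, map_add, map_div₀, map_one, conj_ofReal, conj_I, conj_conj, h2]
  push_cast
  ring

theorem afe3_nt {s : ℂ} {σ : ℝ} (hs : s.re = 1 / 2 + σ) {n : ℕ} (hn : 1 ≤ n) :
    ‖LSeries.term F.f s n‖ = ‖LSeries.term F.f (3 / 2 : ℝ) n‖ * (n : ℝ) ^ (1 - σ) := by
  have hn0 : n ≠ 0 := Nat.one_le_iff_ne_zero.1 hn
  have hp : (0 : ℝ) < n := by exact_mod_cast hn
  rw [LSeries.norm_term_eq, LSeries.norm_term_eq, if_neg hn0, if_neg hn0, hs, ofReal_re,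
    show 1 / 2 + σ = 3 / 2 - (1 - σ) by ring, Real.rpow_sub hp]
  have : (0 : ℝ) < (n : ℝ) ^ (1 - σ) := by positivity
  have : (0 : ℝ) < (n : ℝ) ^ (3 / 2 : ℝ) := by positivity
  field_simp

theorem tail_le : ∃ C : ℝ, 0 < C ∧ ∀ (x : ℝ) (Y : ℕ) (z : ℂ), 1 ≤ z.re →
    ‖F.Z x z - PP (F.co z) (Pr Y) x‖ ≤ C * ((Y : ℝ) + 1) ^ (1 - z.re) := by
  classical
  have hs0 : Summable fun n => ‖LSeries.term F.f (3 / 2 : ℝ) n‖ :=
    (F.summable (s := (3 / 2 : ℝ)) (by rw [ofReal_re]; norm_num)).norm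
  set t : ℕ → ℝ := fun n => ‖LSeries.term F.f (3 / 2 : ℝ) n‖ with ht
  have ht0 : ∀ n, 0 ≤ t n := fun n => norm_nonneg _
  have hs2 : Summable fun p : ℕ × ℕ => t p.1 * t p.2 := hs0.mul_of_nonneg hs0 ht0 ht0
  set M : ℝ := ∑' p : ℕ × ℕ, t p.1 * t p.2 with hM
  have hM0 : 0 ≤ M := tsum_nonneg fun p => mul_nonneg (ht0 _) (ht0 _)
  refine ⟨M + 1, by positivity, fun x Y z hz => ?_⟩
  have r1 : (1 / 2 + x * I + z : ℂ).re = 1 / 2 + z.re := by simp
  have r2 : (1 / 2 + x * I + (starRingEnd ℂ) z : ℂ).re = 1 / 2 + z.re := by simp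
  set A : ℕ → ℂ := fun n => LSeries.term F.f (1 / 2 + x * I + z) n with hA
  set B : ℕ → ℂ := fun n =>
    (starRingEnd ℂ) (LSeries.term F.f (1 / 2 + x * I + (starRingEnd ℂ) z) n) with hB
  have sA : Summable fun n => ‖A n‖ := (F.summable (by rw [r1]; linarith)).norm
  have sB : Summable fun n => ‖B n‖ := by
    simp only [hB, RCLike.norm_conj]
    exact (F.summable (by rw [r2]; linarith)).norm
  have hZ : HasSum (fun p : ℕ × ℕ => A p.1 * B p.2) (F.Z x z) := by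
    have e : F.Z x z = ∑' p : ℕ × ℕ, A p.1 * B p.2 := by
      rw [← tsum_mul_tsum_of_summable_norm sA sB, Sel.Z, LSeries, LSeries, conj_tsum]
    rw [e]
    exact (summable_mul_of_summable_norm sA sB).hasSum
  have hP : HasSum (fun p : ℕ × ℕ => if p ∈ Pr Y then A p.1 * B p.2 else 0)
      (PP (F.co z) (Pr Y) x) := by
    have e : PP (F.co z) (Pr Y) x = ∑ p ∈ Pr Y, if p ∈ Pr Y then A p.1 * B p.2 else 0 := by
      refine Finset.sum_congr rfl fun p hp => ?_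
      obtain ⟨h1, h2, -⟩ := mem_Pr.1 hp
      rw [if_pos hp]
      exact (F.afe3_term x z h1 h2).symm
    rw [e]
    exact hasSum_sum_of_ne_finset_zero fun p hp => if_neg hp
  have hw : (0 : ℝ) ≤ ((Y : ℝ) + 1) ^ (1 - z.re) := by positivity
  have hb := (hZ.sub hP).norm_le_of_bounded (hs2.hasSum.mul_right (((Y : ℝ) + 1) ^ (1 - z.re)))
    (fun p => by
      have hn : 0 ≤ t p.1 * t p.2 * ((Y : ℝ) + 1) ^ (1 - z.re) :=
        mul_nonneg (mul_nonneg (ht0 _) (ht0 _)) hw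
      by_cases hp : p ∈ Pr Y
      · rw [if_pos hp, sub_self, norm_zero]
        exact hn
      rw [if_neg hp, sub_zero]
      rcases Nat.eq_zero_or_pos p.1 with h1 | h1
      · simpa [hA, h1] using hn
      rcases Nat.eq_zero_or_pos p.2 with h2 | h2
      · simpa [hB, h2] using hn
      have h3 : Y + 1 ≤ p.1 * p.2 := by
        by_contra h
        exact hp (mem_Pr.2 ⟨h1, h2, by omega⟩)
      have h4 : (Y : ℝ) + 1 ≤ (p.1 : ℝ) * p.2 := by exact_mod_cast h3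
      rw [norm_mul, hA, hB]
      simp only [RCLike.norm_conj]
      rw [F.afe3_nt r1 h1, F.afe3_nt r2 h2, mul_mul_mul_comm,
        ← Real.mul_rpow (Nat.cast_nonneg _) (Nat.cast_nonneg _)]
      exact mul_le_mul_of_nonneg_left
        (Real.rpow_le_rpow_of_nonpos (by positivity) h4 (by linarith)) (mul_nonneg (ht0 _) (ht0 _)))
  refine hb.trans ?_
  exact mul_le_mul_of_nonneg_right (by linarith) hw

theorem norm_wt {x : ℝ} (hx : 0 < x) (z : ℂ) :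
    ‖F.wt x z‖ = (F.q * x ^ F.deg) ^ z.re * Real.exp (z.re ^ 2 - z.im ^ 2) / ‖z‖ := by
  have hq := F.q_pos
  rw [Sel.wt, norm_div, norm_exp, Real.rpow_def_of_pos (by positivity), ← Real.exp_add,
    Real.log_mul hq.ne' (by positivity), Real.log_rpow hx]
  congr 2
  simp only [add_re, mul_re, ofReal_re, ofReal_im, mul_zero, sub_zero, pow_two]
  ring

theorem dec_wt {x : ℝ} (hx : 0 < x) {h : ℂ → ℂ} {a b K : ℝ} (ha : 0 < a)
    (hd : DifferentiableOn ℂ h (St a b)) (hK : ∀ z ∈ St a b, ‖h z‖ ≤ K) :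
    Dec (fun z => h z * F.wt x z) a b := by
  have hq := F.q_pos
  set y : ℝ := F.q * x ^ F.deg with hy
  have hy0 : 0 < y := by positivity
  refine dec_of_gauss (K := 0) (t := 0)
    (C := K * (Real.exp (|Real.log y| * b) * Real.exp (b ^ 2) / a)) ?_ ?_
  · refine hd.mul ?_
    intro z hz
    have hz0 : z ≠ 0 := fun h0 => by
      have := hz.1
      rw [h0, zero_re] at this
      linarith
    unfold Sel.wt
    exact (DifferentiableAt.div (by fun_prop) differentiableAt_id hz0).differentiableWithinAt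
  · intro z hz
    have h1 : a ≤ z.re := hz.1
    have h2 : z.re ≤ b := hz.2
    have hK0 : 0 ≤ K := (norm_nonneg _).trans (hK z hz)
    rw [norm_mul, F.norm_wt hx, Real.rpow_zero, mul_one, sub_zero, mul_assoc]
    refine mul_le_mul (hK z hz) ?_ (by positivity) hK0
    rw [div_mul_eq_mul_div, mul_assoc, ← Real.exp_add]
    refine div_le_div₀ (by positivity) ?_ ha (h1.trans (re_le_norm z))
    refine mul_le_mul ?_ (Real.exp_le_exp.2 ?_) (by positivity) (by positivity)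
    · rw [← hy, Real.rpow_def_of_pos hy0]
      refine Real.exp_le_exp.2 ?_
      exact mul_le_mul (le_abs_self _) h2 (by linarith) (abs_nonneg _)
    · nlinarith

/- Put `c = 1 / 2 + η`, `Y = ⌊T ^ (deg + η)⌋₊`, `A = (deg + η + 1) / η ≥ 1`.  By `afe_exact`,
`L2 = 2 * Ln (Z * (gt * exp / z - wt)) c + 2 * Ln ((Z - P) * wt) c + 2 * Ln (P * wt) c`.  First term:
`gt_asymp`, `Z_le`, `norm_Ln_le`.  Second term: `Dec.shift` to the line `A`, `tail_le`, `norm_wt`,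
`T ^ (deg + η) ≤ Y + 1`; it is at most `C / T`.  Third term: `Dec.shift` to the line `η`. -/
theorem afe3_Ln : ∃ J : ℝ, 0 < J ∧ ∀ (g : ℂ → ℂ) (σ M : ℝ), 0 ≤ M →
    (∀ v : ℝ, ‖g (σ + v * I)‖ ≤ M * Real.exp (-v ^ 2 / 2)) → ‖Ln g σ‖ ≤ M * J := by
  have hi : Integrable fun v : ℝ => Real.exp (-v ^ 2 / 2) := by
    simpa using integrable_gauss_poly 0
  have h0 : 0 ≤ ∫ v : ℝ, Real.exp (-v ^ 2 / 2) := integral_nonneg fun v => (Real.exp_pos _).le
  refine ⟨(∫ v : ℝ, Real.exp (-v ^ 2 / 2)) + 1, by positivity, fun g σ M hM h => ?_⟩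
  have := norm_Ln_le (g := g) (σ := σ) 0 (hi.const_mul M) fun v => by simpa using h v
  rw [integral_const_mul] at this
  nlinarith

theorem afe3_P_le {η : ℝ} (hη : 0 < η) (Y : ℕ) (x : ℝ) : ∃ K : ℝ, ∀ z : ℂ, η ≤ z.re →
    ‖PP (F.co z) (Pr Y) x‖ ≤ K := by
  obtain ⟨K, -, hK⟩ := F.co_le hη
  refine ⟨∑ p ∈ Pr Y, K * w0 p, fun z hz => ?_⟩
  refine (norm_sum_le _ _).trans (Finset.sum_le_sum fun p hp => ?_)
  rw [norm_mul, norm_osc, mul_one]
  exact hK Y z hz p hp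

theorem afe3_first {c : ℝ} (h0 : 1 / 2 < c) (h1 : c ≤ 1) : ∃ C : ℝ, 0 < C ∧ ∀ T x : ℝ, 1 ≤ T →
    x ∈ Icc T (2 * T) → ∀ v : ℝ,
    ‖F.Z x (c + v * I) * (F.gt x (c + v * I) * exp ((c + v * I : ℂ) ^ 2) / (c + v * I)) -
      F.Z x (c + v * I) * F.wt x (c + v * I)‖ ≤
      C * T ^ (F.deg * c - 1) * Real.exp (-v ^ 2 / 2) := by
  obtain ⟨C₁, hC₁, hZ⟩ := F.Z_le h0
  obtain ⟨C₂, hC₂, hg⟩ := F.gt_asymp
  have hd := F.deg_nonneg
  refine ⟨C₁ * (C₂ * 2 ^ (F.deg * c) * (Real.exp 1 * 2)), by positivity, fun T x hT hx v => ?_⟩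
  set z : ℂ := c + v * I with hz
  have hre : z.re = c := by simp [hz]
  have him : z.im = v := by simp [hz]
  have hx1 : 1 ≤ x := hT.trans hx.1
  have e : F.Z x z * (F.gt x z * exp (z ^ 2) / z) - F.Z x z * F.wt x z =
      F.Z x z * ((F.gt x z - exp (z * (Real.log F.q + F.deg * Real.log x : ℝ))) *
        (exp (z ^ 2) / z)) := by
    rw [Sel.wt, exp_add]
    ring
  have b1 := hZ x z hre.ge
  have b2 := hg x z hx1 (by rw [hre]; linarith) (by rw [hre]; exact h1)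
  rw [hre, him] at b2
  have b3 : x ^ (F.deg * c - 1) ≤ 2 ^ (F.deg * c) * T ^ (F.deg * c - 1) := by
    have hT0 : 0 < T := by linarith
    rw [Real.rpow_sub_one (by linarith), Real.rpow_sub_one hT0.ne', ← mul_div_assoc,
      ← Real.mul_rpow zero_le_two hT0.le]
    exact div_le_div₀ (by positivity)
      (Real.rpow_le_rpow (by linarith) hx.2 (mul_nonneg hd (by linarith))) hT0 hx.1
  have b4 : ‖exp (z ^ 2) / z‖ ≤ Real.exp 1 * 2 * Real.exp (-v ^ 2) := by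
    rw [norm_div, norm_exp]
    have hn : 1 / 2 ≤ ‖z‖ := by
      have := re_le_norm z
      linarith
    have : (z ^ 2).re ≤ 1 + -v ^ 2 := by
      rw [pow_two, mul_re, hre, him]
      nlinarith
    calc Real.exp (z ^ 2).re / ‖z‖ ≤ Real.exp (1 + -v ^ 2) / (1 / 2) :=
          div_le_div₀ (by positivity) (Real.exp_le_exp.2 this) (by norm_num) hn
      _ = Real.exp 1 * 2 * Real.exp (-v ^ 2) := by
          rw [Real.exp_add]
          ring
  have b5 : Real.exp (v ^ 2 / 2) * Real.exp (-v ^ 2) = Real.exp (-v ^ 2 / 2) := by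
    rw [← Real.exp_add]
    congr 1
    ring
  have hT0 : 0 < T := by linarith
  rw [e, norm_mul, norm_mul]
  calc ‖F.Z x z‖ * (‖F.gt x z - exp (z * (Real.log F.q + F.deg * Real.log x : ℝ))‖ *
        ‖exp (z ^ 2) / z‖)
      ≤ C₁ * ((C₂ * (2 ^ (F.deg * c) * T ^ (F.deg * c - 1)) * Real.exp (v ^ 2 / 2)) *
          (Real.exp 1 * 2 * Real.exp (-v ^ 2))) := by
        refine mul_le_mul b1 (mul_le_mul (b2.trans ?_) b4 (norm_nonneg _) (by positivity))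
          (by positivity) hC₁.le
        gcongr
    _ = _ := by
        rw [← b5]
        ring

theorem afe3_second {η : ℝ} (h0 : 0 < η) (h1 : η ≤ 1 / 2) : ∃ C : ℝ, 0 < C ∧ ∀ T x : ℝ, 1 ≤ T →
    x ∈ Icc T (2 * T) → ∀ v : ℝ,
    ‖(F.Z x (((F.deg + η + 1) / η : ℝ) + v * I) -
        PP (F.co (((F.deg + η + 1) / η : ℝ) + v * I)) (Pr ⌊T ^ (F.deg + η)⌋₊) x) *
      F.wt x (((F.deg + η + 1) / η : ℝ) + v * I)‖ ≤ C * T ^ (-1 : ℝ) * Real.exp (-v ^ 2 / 2) := by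
  obtain ⟨C₁, hC₁, hZ⟩ := F.tail_le
  have hd := F.deg_nonneg
  have hq := F.q_pos
  set A : ℝ := (F.deg + η + 1) / η with hA
  have hA1 : 1 ≤ A := by
    rw [hA, le_div_iff₀ h0]
    linarith
  have hA2 : η * A = F.deg + η + 1 := by
    rw [hA]
    field_simp
  refine ⟨C₁ * (F.q ^ A * 2 ^ (F.deg * A) * Real.exp (A ^ 2)), by positivity,
    fun T x hT hx v => ?_⟩
  set z : ℂ := A + v * I with hz
  have hre : z.re = A := by simp [hz]
  have him : z.im = v := by simp [hz]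
  have hT0 : 0 < T := by linarith
  have hx0 : 0 < x := hT0.trans_le hx.1
  have b1 := hZ x ⌊T ^ (F.deg + η)⌋₊ z (by rw [hre]; exact hA1)
  rw [hre] at b1
  have b2 : ((⌊T ^ (F.deg + η)⌋₊ : ℝ) + 1) ^ (1 - A) ≤ T ^ ((F.deg + η) * (1 - A)) := by
    rw [Real.rpow_mul hT0.le]
    exact Real.rpow_le_rpow_of_nonpos (by positivity) (Nat.lt_floor_add_one _).le (by linarith)
  have b3 : ‖F.wt x z‖ ≤
      F.q ^ A * 2 ^ (F.deg * A) * T ^ (F.deg * A) * (Real.exp (A ^ 2) * Real.exp (-v ^ 2 / 2)) := by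
    rw [F.norm_wt hx0, hre, him]
    have hn : 1 ≤ ‖z‖ := by
      have := re_le_norm z
      linarith
    refine (div_le_self (by positivity) hn).trans ?_
    refine mul_le_mul ?_ ?_ (by positivity) (by positivity)
    · rw [Real.mul_rpow hq.le (by positivity), ← Real.rpow_mul hx0.le, mul_assoc,
        ← Real.mul_rpow zero_le_two hT0.le]
      exact mul_le_mul_of_nonneg_left
        (Real.rpow_le_rpow hx0.le hx.2 (mul_nonneg hd (by linarith))) (by positivity)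
    · rw [← Real.exp_add]
      refine Real.exp_le_exp.2 ?_
      nlinarith [sq_nonneg v]
  have b4 : T ^ ((F.deg + η) * (1 - A)) * T ^ (F.deg * A) = T ^ (-1 : ℝ) := by
    rw [← Real.rpow_add hT0]
    congr 1
    linear_combination -hA2
  rw [norm_mul]
  calc ‖F.Z x z - PP (F.co z) (Pr ⌊T ^ (F.deg + η)⌋₊) x‖ * ‖F.wt x z‖
      ≤ C₁ * T ^ ((F.deg + η) * (1 - A)) * (F.q ^ A * 2 ^ (F.deg * A) * T ^ (F.deg * A) *
          (Real.exp (A ^ 2) * Real.exp (-v ^ 2 / 2))) :=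
        mul_le_mul (b1.trans (mul_le_mul_of_nonneg_left b2 hC₁.le)) b3 (norm_nonneg _)
          (by positivity)
    _ = _ := by
        rw [← b4]
        ring

theorem afe {η : ℝ} (h0 : 0 < η) (h1 : η ≤ 1 / 2) : ∃ C : ℝ, 0 < C ∧ ∀ T x : ℝ, 1 ≤ T →
    x ∈ Icc T (2 * T) →
    ‖F.L2 x - 2 * Ln (fun z => PP (F.co z) (Pr ⌊T ^ (F.deg + η)⌋₊) x * F.wt x z) η‖ ≤
      C * T ^ (F.deg * (1 / 2 + η) - 1) := by
  obtain ⟨J, hJ, hLn⟩ := afe3_Ln
  have hc0 : (1 : ℝ) / 2 < 1 / 2 + η := by linarith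
  have hc1 : 1 / 2 + η ≤ 1 := by linarith
  obtain ⟨C₁, hC₁, hf⟩ := F.afe3_first hc0 hc1
  obtain ⟨C₂, hC₂, hs⟩ := F.afe3_second h0 h1
  obtain ⟨C₃, -, hZ⟩ := F.Z_le hc0
  have hd := F.deg_nonneg
  refine ⟨2 * (C₁ * J) + 2 * (C₂ * J), by positivity, fun T x hT hx => ?_⟩
  have hT0 : 0 < T := by linarith
  have hx0 : 0 < x := hT0.trans_le hx.1
  set c : ℝ := 1 / 2 + η with hc
  set A : ℝ := (F.deg + η + 1) / η with hA
  set Y : ℕ := ⌊T ^ (F.deg + η)⌋₊ with hY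
  have hA1 : 1 ≤ A := by
    rw [hA, le_div_iff₀ h0]
    linarith
  have hcA : c ≤ A := hc1.trans hA1
  have hηc : η ≤ c := by linarith
  obtain ⟨K, hK⟩ := F.afe3_P_le h0 Y x
  have hPd : Differentiable ℂ fun z => PP (F.co z) (Pr Y) x :=
    F.P_diff _ (fun p hp => Nat.mul_pos (mem_Pr.1 hp).1 (mem_Pr.1 hp).2.1) x
  have hZd : DifferentiableOn ℂ (F.Z x) (St c A) :=
    (F.Z_diff x).mono fun z hz => lt_of_lt_of_le hc0 hz.1
  have d1 : Dec (fun z => F.Z x z * F.wt x z) c A :=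
    F.dec_wt hx0 (by linarith) hZd fun z hz => hZ x z hz.1
  have d2 : Dec (fun z => PP (F.co z) (Pr Y) x * F.wt x z) η c :=
    F.dec_wt hx0 h0 hPd.differentiableOn fun z hz => hK z hz.1
  have d3 : Dec (fun z => (F.Z x z - PP (F.co z) (Pr Y) x) * F.wt x z) c A :=
    F.dec_wt (K := C₃ + K) hx0 (by linarith) (hZd.sub hPd.differentiableOn) fun z hz =>
      (norm_sub_le _ _).trans (add_le_add (hZ x z hz.1) (hK z (hηc.trans hz.1)))
  obtain ⟨hi, hL⟩ := F.afe_exact x hc0 hc1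
  have e1 := Ln_sub (g₁ := fun z => F.Z x z * (F.gt x z * exp (z ^ 2) / z))
    (g₂ := fun z => F.Z x z * F.wt x z) (σ := c) hi (d1.integrable le_rfl hcA)
  have e2 := Ln_sub (g₁ := fun z => F.Z x z * F.wt x z)
    (g₂ := fun z => PP (F.co z) (Pr Y) x * F.wt x z) (σ := c) (d1.integrable le_rfl hcA)
    (d2.integrable hηc le_rfl)
  have e3 : Ln (fun z => F.Z x z * F.wt x z - PP (F.co z) (Pr Y) x * F.wt x z) c =
      Ln (fun z => (F.Z x z - PP (F.co z) (Pr Y) x) * F.wt x z) A := by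
    rw [← d3.shift hcA]
    exact Ln_congr fun v => by ring
  have e4 := d2.shift hηc
  have n1 := hLn (fun z => F.Z x z * (F.gt x z * exp (z ^ 2) / z) - F.Z x z * F.wt x z) c
    (C₁ * T ^ (F.deg * c - 1)) (by positivity) (hf T x hT hx)
  have n2 := hLn (fun z => (F.Z x z - PP (F.co z) (Pr Y) x) * F.wt x z) A
    (C₂ * T ^ (-1 : ℝ)) (by positivity) (hs T x hT hx)
  have e : F.L2 x - 2 * Ln (fun z => PP (F.co z) (Pr Y) x * F.wt x z) η =
      2 * Ln (fun z => F.Z x z * (F.gt x z * exp (z ^ 2) / z) - F.Z x z * F.wt x z) c +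
        2 * Ln (fun z => (F.Z x z - PP (F.co z) (Pr Y) x) * F.wt x z) A := by
    rw [hL, e1, ← e3, e2, e4]
    ring
  have hT1 : T ^ (-1 : ℝ) ≤ T ^ (F.deg * c - 1) :=
    Real.rpow_le_rpow_of_exponent_le hT (by nlinarith [mul_nonneg hd (by linarith : 0 ≤ c)])
  rw [e]
  refine (norm_add_le _ _).trans ?_
  rw [norm_mul, norm_mul, norm_ofNat]
  have n3 : C₂ * T ^ (-1 : ℝ) * J ≤ C₂ * T ^ (F.deg * c - 1) * J := by gcongr
  nlinarith

end Sel

end Pool.Agent.Lib.MP_2a1a00_nt
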