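import Pool.Agent.Lib.MP_2a1a00_nt.Dy

/-! The bilinear bound. -/

namespace Pool.Agent.Lib.MP_2a1a00_nt

open Complex MeasureTheory Set

/- At most `1` and at most `2 / |τ|` (`integral_exp_mul_complex`). -/
theorem four_ind {a b : ℝ} (h0 : a ≤ b) (h1 : b ≤ a + 1) (τ : ℝ) :
    ‖four ((Ioc a b).indicator fun _ => (1 : ℂ)) τ‖ ≤ 4 / jb τ := by
  have e : four ((Ioc a b).indicator fun _ => (1 : ℂ)) τ = ∫ t in a..b, exp (I * τ * t) := by
    rw [intervalIntegral.integral_of_le h0, ← integral_indicator measurableSet_Ioc, four]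
    refine integral_congr_ae (.of_forall fun t => ?_)
    by_cases ht : t ∈ Ioc a b
    · simp [ht, mul_assoc, mul_comm (t : ℂ)]
    · simp [ht]
  have n1 : ∀ t : ℝ, ‖exp (I * τ * t)‖ = 1 := fun t => by
    rw [mul_assoc, ← ofReal_mul, norm_exp_I_mul_ofReal]
  rw [e, le_div_iff₀ (jb_pos τ), jb]
  have h2 : ‖∫ t in a..b, exp (I * τ * t)‖ ≤ 1 := by
    refine (intervalIntegral.norm_integral_le_of_norm_le_const fun t _ => (n1 t).le).trans ?_
    rw [one_mul, abs_of_nonneg (sub_nonneg.2 h0)]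
    linarith
  have h3 : ‖∫ t in a..b, exp (I * τ * t)‖ * |τ| ≤ 2 := by
    by_cases hτ : τ = 0
    · simp [hτ]
    rw [integral_exp_mul_complex (mul_ne_zero I_ne_zero (ofReal_ne_zero.2 hτ)), norm_div, norm_mul,
      norm_I, one_mul, norm_real, Real.norm_eq_abs, div_mul_cancel₀ _ (abs_ne_zero.2 hτ)]
    refine (norm_sub_le _ _).trans ?_
    rw [n1, n1]
    norm_num
  linarith

/- Put `a = jb t`, `a' = jb t'`, `k = jb (t + t')`; each is at most the sum of the other two.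
(1) `a' ≤ V`, `k ≤ 3 V`: `1 / k ≤ (3 V) ^ ε * k ^ (-1 - ε)`.  (2) `a' ≤ V`, `3 V < k`: then `a ≥ 2 k / 3`.
(3) `V < a' ≤ 2 a`: `k ≤ 3 a`, the left side is at most `V ^ (1 - ε) * a ^ (ε - 1) / k`.
(4) `V < a'`, `2 a < a'`: `k ≥ a' / 2`, use the second summand and `a ^ (2 ε) ≤ a' ^ (2 ε)`. -/
theorem bil_ker {ε : ℝ} (h0 : 0 < ε) (h1 : ε ≤ 1 / 4) {V : ℝ} (hV : 1 ≤ V) (t t' : ℝ) :
    min 1 (V / jb t) ^ (1 - ε) / jb (t + t') ≤ 6 * V ^ ε * min 1 (V / jb t') ^ (1 - 2 * ε) *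
      (jb (t + t') ^ (-1 - ε) + jb t ^ (-1 - ε)) := by
  have hV0 : 0 < V := one_pos.trans_le hV
  have p1 := jb_pos t
  have p2 := jb_pos t'
  have p3 := jb_pos (t + t')
  have t1 : jb (t + t') ≤ jb t + jb t' := by
    have := abs_add_le t t'
    unfold jb
    linarith
  have t2 : jb t ≤ jb (t + t') + jb t' := by
    have := abs_sub (t + t') t'
    rw [add_sub_cancel_right] at this
    unfold jb
    linarith
  have t3 : jb t' ≤ jb (t + t') + jb t := by
    have := abs_sub (t + t') t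
    rw [add_sub_cancel_left] at this
    unfold jb
    linarith
  have q1 : 0 < min 1 (V / jb t) := lt_min one_pos (div_pos hV0 p1)
  have q2 : 0 < min 1 (V / jb t') := lt_min one_pos (div_pos hV0 p2)
  have m1 : Real.log (min 1 (V / jb t)) ≤ 0 := Real.log_nonpos q1.le (min_le_left _ _)
  have m2 : Real.log (min 1 (V / jb t)) ≤ Real.log V - Real.log (jb t) := by
    rw [← Real.log_div hV0.ne' p1.ne']
    exact Real.log_le_log q1 (min_le_right _ _)
  have l2 : 0 < Real.log 2 := Real.log_pos one_lt_two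
  have l3 : Real.log 2 ≤ Real.log 3 := Real.log_le_log two_pos (by norm_num)
  have lg : ∀ {x y c : ℝ}, 0 < x → 0 < y → 0 < c → x ≤ c * y →
      Real.log x ≤ Real.log c + Real.log y := fun hx hy hc h => by
    rw [← Real.log_mul hc.ne' hy.ne']
    exact Real.log_le_log hx h
  have key : ∀ x : ℝ, 0 < x → Real.log (min 1 (V / jb t)) * (1 - ε) - Real.log (jb (t + t')) ≤
      Real.log 2 + Real.log 3 + Real.log V * ε + Real.log (min 1 (V / jb t')) * (1 - 2 * ε) +
        Real.log x * (-1 - ε) → min 1 (V / jb t) ^ (1 - ε) / jb (t + t') ≤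
      6 * V ^ ε * min 1 (V / jb t') ^ (1 - 2 * ε) * x ^ (-1 - ε) := fun x hx h => by
    have h := Real.exp_le_exp.2 h
    rwa [Real.exp_sub, Real.exp_add, Real.exp_add, Real.exp_add, Real.exp_add, Real.exp_log two_pos,
      Real.exp_log three_pos, Real.exp_log p3, ← Real.rpow_def_of_pos q1,
      ← Real.rpow_def_of_pos q2, ← Real.rpow_def_of_pos hV0, ← Real.rpow_def_of_pos hx,
      show (2 : ℝ) * 3 = 6 by norm_num] at h
  have hc : 0 ≤ 6 * V ^ ε * min 1 (V / jb t') ^ (1 - 2 * ε) := by positivity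
  have k1 := fun h => (key _ p3 h).trans (mul_le_mul_of_nonneg_left
    (le_add_of_nonneg_right (Real.rpow_nonneg p1.le (-1 - ε))) hc)
  have k2 := fun h => (key _ p1 h).trans (mul_le_mul_of_nonneg_left
    (le_add_of_nonneg_left (Real.rpow_nonneg p3.le (-1 - ε))) hc)
  have e1 : 0 ≤ 1 - ε := by linarith
  have e2 : 0 ≤ 1 - 2 * ε := by linarith
  rcases le_total (jb t') V with c1 | c1
  · rw [min_eq_left ((one_le_div p2).2 c1)] at k1 ⊢
    rw [Real.log_one] at k1
    refine k1 ?_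
    rcases le_total (jb (t + t')) (3 * V) with c2 | c2
    · have := lg p3 hV0 three_pos c2
      nlinarith [mul_nonneg e1 (neg_nonneg.2 m1)]
    · have := lg p3 p1 two_pos (by linarith)
      have := Real.log_le_log hV0 (show V ≤ jb (t + t') by linarith)
      nlinarith [mul_nonneg e1 (sub_nonneg.2 m2), mul_nonneg e2 (sub_nonneg.2 this)]
  · rw [min_eq_right ((div_le_one p2).2 c1)] at k1 k2 ⊢
    rw [Real.log_div hV0.ne' p2.ne'] at k1 k2
    rcases le_total (jb t') (2 * jb t) with c2 | c2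
    · have h2 := lg p2 p1 two_pos c2
      have h3 := lg p3 p1 three_pos (by linarith)
      refine k1 ?_
      nlinarith [mul_nonneg e1 (sub_nonneg.2 m2), mul_nonneg e2 (sub_nonneg.2 h2),
        mul_nonneg h0.le (sub_nonneg.2 h3)]
    · have h2 := lg p2 p3 two_pos (by linarith)
      have h3 := Real.log_le_log p1 (show jb t ≤ jb t' by linarith)
      refine k2 ?_
      nlinarith [mul_nonneg e1 (sub_nonneg.2 m2), mul_nonneg h0.le (sub_nonneg.2 h3)]

/- `four_mul` with the indicator function of `Ioc a b`, `four_ind`, `bil_ker`; the function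
`jb t ^ (-1 - ε)` is integrable (`integrable_one_add_norm`), `lintegral_add_right_eq_self`. -/
theorem bil {ε : ℝ} (h0 : 0 < ε) (h1 : ε ≤ 1 / 4) : ∃ C : ℝ, 0 < C ∧
    ∀ (Ψ₁ Ψ₂ : ℝ → ℂ) (V M B a b : ℝ), Integrable Ψ₁ → Integrable Ψ₂ → 1 ≤ V → 0 ≤ M → 0 ≤ B →
    a ≤ b → b ≤ a + 1 → (∀ t, ‖Ψ₁ t‖ ≤ M * min 1 (V / jb t) ^ (1 - ε)) →
    ∫⁻ t, ‖Ψ₂ t‖ₑ * ENNReal.ofReal (min 1 (V / jb t) ^ (1 - 2 * ε)) ≤ ENNReal.ofReal B →
    ‖∫ u in a..b, four Ψ₁ u * four Ψ₂ u‖ ≤ C * M * V ^ ε * B := by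
  have hI : Integrable fun t : ℝ => jb t ^ (-1 - ε) := by
    have h := integrable_one_add_norm (E := ℝ) (μ := volume) (r := 1 + ε) (by simpa using h0)
    rwa [neg_add'] at h
  have hI0 : ∀ t : ℝ, 0 ≤ jb t ^ (-1 - ε) := fun t => Real.rpow_nonneg (jb_pos t).le _
  have hJ := ofReal_integral_eq_lintegral_ofReal hI (.of_forall hI0)
  have hJ0 : 0 ≤ ∫ t : ℝ, jb t ^ (-1 - ε) := integral_nonneg hI0
  set J := ∫ t : ℝ, jb t ^ (-1 - ε)
  refine ⟨48 * J + 1, by positivity, fun Ψ₁ Ψ₂ V M B a b i1 i2 hV hM hB hab hba b1 b2 => ?_⟩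
  have hV' : 0 ≤ V ^ ε := Real.rpow_nonneg (zero_le_one.trans hV) _
  have e : ∫ u in a..b, four Ψ₁ u * four Ψ₂ u =
      ∫ u, four Ψ₁ u * four Ψ₂ u * (Ioc a b).indicator (fun _ => (1 : ℂ)) u := by
    rw [intervalIntegral.integral_of_le hab, ← integral_indicator measurableSet_Ioc]
    refine integral_congr_ae (.of_forall fun t => ?_)
    by_cases ht : t ∈ Ioc a b <;> simp [ht]
  have hm : Measurable fun t : ℝ => ENNReal.ofReal (jb t ^ (-1 - ε)) := by
    unfold jb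
    fun_prop
  have h2 : ∀ t', ∫⁻ t, ‖Ψ₁ t‖ₑ * ‖Ψ₂ t'‖ₑ * ‖four ((Ioc a b).indicator fun _ => (1 : ℂ)) (t + t')‖ₑ ≤
      ENNReal.ofReal (48 * J * M * V ^ ε) *
        (‖Ψ₂ t'‖ₑ * ENNReal.ofReal (min 1 (V / jb t') ^ (1 - 2 * ε))) := by
    intro t'
    have q : 0 ≤ min 1 (V / jb t') ^ (1 - 2 * ε) :=
      Real.rpow_nonneg (le_min zero_le_one (div_nonneg (zero_le_one.trans hV) (jb_pos _).le)) _
    calc _ ≤ ∫⁻ t, ‖Ψ₂ t'‖ₑ * ENNReal.ofReal (24 * M * V ^ ε * min 1 (V / jb t') ^ (1 - 2 * ε)) *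
          (ENNReal.ofReal (jb (t + t') ^ (-1 - ε)) + ENNReal.ofReal (jb t ^ (-1 - ε))) := by
          refine lintegral_mono fun t => ?_
          rw [mul_comm ‖Ψ₁ t‖ₑ, mul_assoc, mul_assoc, ← ENNReal.ofReal_add (hI0 _) (hI0 _),
            ← ENNReal.ofReal_mul (by positivity), ← ofReal_norm (Ψ₁ t), ← ofReal_norm (four _ _),
            ← ENNReal.ofReal_mul (norm_nonneg _)]
          refine mul_le_mul_right (ENNReal.ofReal_le_ofReal ?_) _
          refine (mul_le_mul (b1 t) (four_ind hab hba _) (norm_nonneg _)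
            ((norm_nonneg _).trans (b1 t))).trans ?_
          have h3 := mul_le_mul_of_nonneg_left (bil_ker h0 h1 hV t t') (by positivity : 0 ≤ 4 * M)
          refine le_trans (le_of_eq ?_) (h3.trans (le_of_eq ?_)) <;> ring
      _ = _ := by
          rw [lintegral_const_mul' _ _ (ENNReal.mul_ne_top enorm_ne_top ENNReal.ofReal_ne_top),
            lintegral_add_right _ hm,
            lintegral_add_right_eq_self (fun t => ENNReal.ofReal (jb t ^ (-1 - ε))), ← hJ,
            ← ENNReal.ofReal_add hJ0 hJ0, mul_assoc, ← ENNReal.ofReal_mul (by positivity),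
            mul_left_comm (ENNReal.ofReal _), ← ENNReal.ofReal_mul (by positivity)]
          congr 2
          ring
  have h3 := (four_mul i1 i2 ((integrable_indicator_iff measurableSet_Ioc).2
    (integrableOn_const measure_Ioc_lt_top.ne))).trans (lintegral_mono h2)
  rw [lintegral_const_mul' _ _ ENNReal.ofReal_ne_top, ← e, ← ofReal_norm] at h3
  have h4 := h3.trans (mul_le_mul_right b2 _)
  rw [← ENNReal.ofReal_mul (by positivity), ENNReal.ofReal_le_ofReal_iff (by positivity)] at h4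
  refine h4.trans ?_
  gcongr
  linarith

end Pool.Agent.Lib.MP_2a1a00_nt
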