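import Pool.Agent.Lib.MP_2a1a00_nt.Defs

/-! Bounded measurable functions on a dyadic interval. -/

namespace Pool.Agent.Lib.MP_2a1a00_nt

open Complex MeasureTheory Set

variable {f g f' g' : ℝ → ℂ} {T : ℝ}

theorem Bm.of_cont (h : ContinuousOn f (Icc T (2 * T))) : Bm f T := by
  exact ⟨(h.mono Ioc_subset_Icc_self).aestronglyMeasurable measurableSet_Ioc,
    isCompact_Icc.exists_bound_of_continuousOn h⟩

theorem Bm.add (hf : Bm f T) (hg : Bm g T) : Bm (fun x => f x + g x) T := by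
  obtain ⟨K, hK⟩ := hf.bdd
  obtain ⟨L, hL⟩ := hg.bdd
  exact ⟨hf.meas.add hg.meas, K + L, fun x hx =>
    (norm_add_le _ _).trans (add_le_add (hK x hx) (hL x hx))⟩

theorem Bm.sub (hf : Bm f T) (hg : Bm g T) : Bm (fun x => f x - g x) T := by
  obtain ⟨K, hK⟩ := hf.bdd
  obtain ⟨L, hL⟩ := hg.bdd
  exact ⟨hf.meas.sub hg.meas, K + L, fun x hx =>
    (norm_sub_le _ _).trans (add_le_add (hK x hx) (hL x hx))⟩

theorem Bm.mul (hf : Bm f T) (hg : Bm g T) : Bm (fun x => f x * g x) T := by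
  obtain ⟨K, hK⟩ := hf.bdd
  obtain ⟨L, hL⟩ := hg.bdd
  exact ⟨hf.meas.mul hg.meas, K * L, fun x hx => (norm_mul_le _ _).trans
    (mul_le_mul (hK x hx) (hL x hx) (norm_nonneg _) ((norm_nonneg _).trans (hK x hx)))⟩

theorem Bm.int (hf : Bm f T) {y : ℝ} (hy : y ∈ Icc T (2 * T)) : IntervalIntegrable f volume T y := by
  obtain ⟨K, hK⟩ := hf.bdd
  have h1 : IntegrableOn f (Ioc T (2 * T)) :=
    IntegrableOn.of_bound measure_Ioc_lt_top hf.meas K
      ((ae_restrict_iff' measurableSet_Ioc).2 (Filter.Eventually.of_forall fun x hx =>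
        hK x (Ioc_subset_Icc_self hx)))
  exact (intervalIntegrable_iff_integrableOn_Ioc_of_le hy.1).2
    (h1.mono_set (Ioc_subset_Ioc_right hy.2))

theorem Bm.int_sq (hf : Bm f T) (hT : 0 ≤ T) :
    IntervalIntegrable (fun x => ‖f x‖ ^ 2) volume T (2 * T) := by
  have h1 := ((hf.mul hf).int (y := 2 * T) ⟨by linarith, le_rfl⟩).norm
  simpa only [norm_mul, pow_two] using h1

theorem Nice.bm0 (h : Nice f f' T) : Bm f T := Bm.of_cont h.cont

theorem Nice.sub (hf : Nice f f' T) (hg : Nice g g' T) :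
    Nice (fun x => f x - g x) (fun x => f' x - g' x) T := by
  exact ⟨hf.cont.sub hg.cont, fun x hx => (hf.der x hx).sub (hg.der x hx), hf.bm.sub hg.bm⟩

theorem Nice.mul (hf : Nice f f' T) (hg : Nice g g' T) :
    Nice (fun x => f x * g x) (fun x => f' x * g x + f x * g' x) T := by
  exact ⟨hf.cont.mul hg.cont, fun x hx => (hf.der x hx).mul (hg.der x hx),
    (hf.bm.mul hg.bm0).add (hf.bm0.mul hg.bm)⟩

theorem nice_one (T : ℝ) : Nice (fun _ => 1) (fun _ => 0) T := by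
  exact ⟨continuousOn_const, fun x _ => hasDerivWithinAt_const _ _ _,
    Bm.of_cont continuousOn_const⟩

theorem nm_der (w : ℂ) {x : ℝ} (hx : 0 < x) :
    HasDerivAt (fun x : ℝ => exp (w * (Real.log x : ℝ))) (w / x * exp (w * (Real.log x : ℝ))) x := by
  have h1 := (((Real.hasDerivAt_log hx.ne').ofReal_comp).const_mul w).cexp
  convert h1 using 1
  push_cast
  ring

theorem nm_cont (hT : 0 < T) (w : ℂ) :
    ContinuousOn (fun x : ℝ => w / x * exp (w * (Real.log x : ℝ))) (Icc T (2 * T)) := fun x hx => by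
  have hx0 : 0 < x := hT.trans_le hx.1
  exact ((continuousAt_const.div continuous_ofReal.continuousAt
    (ofReal_ne_zero.2 hx0.ne')).mul (nm_der w hx0).continuousAt).continuousWithinAt

theorem nice_exp (hT : 0 < T) (w : ℂ) :
    Nice (fun x => exp (w * (Real.log x : ℝ))) (fun x => w / x * exp (w * (Real.log x : ℝ))) T := by
  have h1 : ContinuousOn (fun x : ℝ => exp (w * (Real.log x : ℝ))) (Icc T (2 * T)) :=
    fun x hx => (nm_der w (hT.trans_le hx.1)).continuousAt.continuousWithinAt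
  exact ⟨h1, fun x hx => (nm_der w (hT.trans hx.1)).hasDerivWithinAt,
    Bm.of_cont (nm_cont hT w)⟩

theorem norm_exp_log (hT : 0 < T) {w : ℂ} (hw : 0 ≤ w.re) {x : ℝ} (hx : x ∈ Icc T (2 * T)) :
    ‖exp (w * (Real.log x : ℝ))‖ ≤ (2 * T) ^ w.re := by
  have hx0 : 0 < x := hT.trans_le hx.1
  rw [Complex.norm_exp, Complex.re_mul_ofReal, mul_comm, ← Real.rpow_def_of_pos hx0]
  exact Real.rpow_le_rpow hx0.le hx.2 hw

theorem nm_nonneg (f : ℝ → ℂ) (T : ℝ) : 0 ≤ nm f T := Real.sqrt_nonneg _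

theorem nm_le_of_sq {B : ℝ} (hB : 0 ≤ B) (h : Sq f T ≤ B ^ 2) : nm f T ≤ B :=
  Real.sqrt_le_iff.2 ⟨hB, h⟩

theorem nm_sq0 (hT : 0 ≤ T) : 0 ≤ Sq f T :=
  intervalIntegral.integral_nonneg (by linarith) fun _ _ => sq_nonneg _

theorem nm_sq (hT : 0 ≤ T) : nm f T ^ 2 = Sq f T := Real.sq_sqrt (nm_sq0 hT)

theorem nm_int (hT : 0 ≤ T) (hf : Bm f T) (hg : Bm g T) :
    IntervalIntegrable (fun x => ‖f x‖ * ‖g x‖) volume T (2 * T) := by
  have h1 := ((hf.mul hg).int (y := 2 * T) ⟨by linarith, le_rfl⟩).norm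
  simpa only [norm_mul] using h1

theorem nm_quad (hT : 0 ≤ T) (hf : Bm f T) (hg : Bm g T) (t : ℝ) :
    ∫ x in T..2 * T, (t * ‖f x‖ + ‖g x‖) ^ 2 =
      Sq f T * (t * t) + (2 * ∫ x in T..2 * T, ‖f x‖ * ‖g x‖) * t + Sq g T := by
  have h1 : ∀ x, (t * ‖f x‖ + ‖g x‖) ^ 2 =
      t * t * ‖f x‖ ^ 2 + 2 * t * (‖f x‖ * ‖g x‖) + ‖g x‖ ^ 2 := fun x => by ring
  simp only [h1]
  rw [intervalIntegral.integral_add (((hf.int_sq hT).const_mul _).add
      ((nm_int hT hf hg).const_mul _)) (hg.int_sq hT),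
    intervalIntegral.integral_add ((hf.int_sq hT).const_mul _) ((nm_int hT hf hg).const_mul _),
    intervalIntegral.integral_const_mul, intervalIntegral.integral_const_mul, Sq, Sq]
  ring

theorem nm_cs (hT : 0 ≤ T) (hf : Bm f T) (hg : Bm g T) :
    ∫ x in T..2 * T, ‖f x‖ * ‖g x‖ ≤ nm f T * nm g T := by
  have h1 := discrim_le_zero (a := Sq f T) (b := 2 * ∫ x in T..2 * T, ‖f x‖ * ‖g x‖)
    (c := Sq g T) fun t => by
      rw [← nm_quad hT hf hg t]
      exact intervalIntegral.integral_nonneg (by linarith) fun _ _ => sq_nonneg _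
  refine (abs_le_of_sq_le_sq' ?_ (mul_nonneg (nm_nonneg _ _) (nm_nonneg _ _))).2
  rw [mul_pow, nm_sq hT, nm_sq hT]
  unfold discrim at h1
  linarith

theorem nm_tri {h : ℝ → ℂ} (hT : 0 ≤ T) (hf : Bm f T) (hg : Bm g T) (hh : Bm h T)
    (hle : ∀ x, ‖h x‖ ≤ ‖f x‖ + ‖g x‖) : nm h T ≤ nm f T + nm g T := by
  refine nm_le_of_sq (add_nonneg (nm_nonneg _ _) (nm_nonneg _ _)) ?_
  have h1 := nm_quad hT hf hg 1
  have h2 := nm_cs hT hf hg
  have h3 : Sq h T ≤ ∫ x in T..2 * T, (1 * ‖f x‖ + ‖g x‖) ^ 2 := by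
    refine intervalIntegral.integral_mono_on (by linarith) (hh.int_sq hT) ?_ fun x _ => ?_
    · have h4 : ∀ x, (1 * ‖f x‖ + ‖g x‖) ^ 2 =
          ‖f x‖ ^ 2 + 2 * (‖f x‖ * ‖g x‖) + ‖g x‖ ^ 2 := fun x => by ring
      simp only [h4]
      exact ((hf.int_sq hT).add ((nm_int hT hf hg).const_mul _)).add (hg.int_sq hT)
    · rw [one_mul]
      exact pow_le_pow_left₀ (norm_nonneg _) (hle x) 2
  rw [add_sq, nm_sq hT, nm_sq hT]
  linarith

/-- The Cauchy-Schwarz inequality.  Integrate `2 * a * b ≤ ρ * a ^ 2 + b ^ 2 / ρ`, or use the discriminant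
(`discrim_le_zero`), or `MeasureTheory.integral_mul_norm_le_Lp_mul_Lq`. -/
theorem cs (hT : 0 ≤ T) (hf : Bm f T) (hg : Bm g T) {y : ℝ} (hy : y ∈ Icc T (2 * T)) :
    ‖∫ x in T..y, f x * g x‖ ≤ nm f T * nm g T := by
  have hT2 : T ≤ 2 * T := by linarith
  refine (intervalIntegral.norm_integral_le_integral_norm hy.1).trans (le_trans ?_ (nm_cs hT hf hg))
  simp only [norm_mul]
  exact intervalIntegral.integral_mono_interval le_rfl hy.1 hy.2
    (Filter.Eventually.of_forall fun x => mul_nonneg (norm_nonneg _) (norm_nonneg _))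
    (nm_int hT hf hg)

theorem nm_add (hT : 0 ≤ T) (hf : Bm f T) (hg : Bm g T) :
    nm (fun x => f x + g x) T ≤ nm f T + nm g T := by
  exact nm_tri hT hf hg (hf.add hg) fun x => norm_add_le _ _

theorem nm_mono (hT : 0 ≤ T) (hf : Bm f T) (hg : Bm g T) {K : ℝ} (hK : 0 ≤ K)
    (h : ∀ x ∈ Icc T (2 * T), ‖f x‖ ≤ K * ‖g x‖) : nm f T ≤ K * nm g T := by
  refine nm_le_of_sq (mul_nonneg hK (nm_nonneg _ _)) ?_
  rw [mul_pow, nm_sq hT, Sq, Sq, ← intervalIntegral.integral_const_mul]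
  refine intervalIntegral.integral_mono_on (by linarith) (hf.int_sq hT)
    ((hg.int_sq hT).const_mul _) fun x hx => ?_
  rw [← mul_pow]
  exact pow_le_pow_left₀ (norm_nonneg _) (h x hx) 2

theorem nm_sub (hT : 0 ≤ T) (hf : Bm f T) (hg : Bm g T) :
    nm (fun x => f x - g x) T ≤ nm f T + nm g T := by
  exact nm_tri hT hf hg (hf.sub hg) fun x => norm_sub_le _ _

theorem nm_sup (hT : 0 ≤ T) (hf : Bm f T) {K : ℝ} (h : ∀ x ∈ Icc T (2 * T), ‖f x‖ ≤ K) :
    nm f T ≤ K * √T := by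
  have hK : 0 ≤ K := (norm_nonneg _).trans (h T ⟨le_rfl, by linarith⟩)
  refine nm_le_of_sq (mul_nonneg hK (Real.sqrt_nonneg _)) ?_
  have h1 := intervalIntegral.integral_mono_on (μ := volume) (by linarith : T ≤ 2 * T)
    (hf.int_sq hT) (intervalIntegrable_const (c := K ^ 2))
    fun x hx => pow_le_pow_left₀ (norm_nonneg _) (h x hx) 2
  rw [intervalIntegral.integral_const, smul_eq_mul] at h1
  rw [mul_pow, Real.sq_sqrt hT, Sq]
  linarith

/- `intervalIntegral.integral_mul_deriv_eq_deriv_mul_of_hasDeriv_right` and `cs`. -/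
theorem Nice.parts (hT : 0 ≤ T) (h : Nice f f' T) {Φ φ : ℝ → ℂ} (hφ : Continuous φ)
    (hΦ : ∀ x, HasDerivAt Φ (φ x) x) {K M : ℝ} (hK : ∀ x ∈ Icc T (2 * T), ‖f x‖ ≤ K)
    (hM : ∀ x, ‖Φ x‖ ≤ M) :
    ‖∫ x in T..2 * T, f x * φ x‖ ≤ 2 * K * M + nm f' T * nm Φ T := by
  have hT2 : T ≤ 2 * T := by linarith
  have hc : Continuous Φ := continuous_iff_continuousAt.2 fun x => (hΦ x).continuousAt
  have h1 := intervalIntegral.integral_mul_deriv_eq_deriv_mul_of_hasDeriv_right (a := T)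
    (b := 2 * T) (u := f) (v := Φ) (u' := f') (v' := φ) (by rw [uIcc_of_le hT2]; exact h.cont)
    hc.continuousOn (by rw [min_eq_left hT2, max_eq_right hT2]; exact h.der)
    (fun x _ => (hΦ x).hasDerivWithinAt) (h.bm.int ⟨hT2, le_rfl⟩) (hφ.intervalIntegrable _ _)
  have h2 := cs hT h.bm (Bm.of_cont hc.continuousOn) ⟨hT2, le_rfl⟩
  have h3 : ∀ x ∈ Icc T (2 * T), ‖f x * Φ x‖ ≤ K * M := fun x hx => (norm_mul_le _ _).trans
    (mul_le_mul (hK x hx) (hM x) (norm_nonneg _) ((norm_nonneg _).trans (hK x hx)))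
  have h4 := h3 T ⟨le_rfl, hT2⟩
  have h5 := h3 (2 * T) ⟨hT2, le_rfl⟩
  rw [h1]
  refine (norm_sub_le _ _).trans (add_le_add ((norm_sub_le _ _).trans ?_) h2)
  linarith

/- Integrate by parts with the primitive `y ↦ ∫ x in a..y, g x`
(`intervalIntegral.integral_mul_deriv_eq_deriv_mul_of_hasDeriv_right`,
`intervalIntegral.integral_hasDerivWithinAt_right`, `intervalIntegral.continuousOn_primitive_interval`). -/
theorem parts {w w' : ℝ → ℂ} {a b Z W₀ W₁ : ℝ} (hab : a ≤ b) (hg : ContinuousOn g (Icc a b))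
    (hw : ∀ x ∈ Icc a b, HasDerivAt w (w' x) x) (hw' : ContinuousOn w' (Icc a b))
    (hZ : ∀ y ∈ Icc a b, ‖∫ x in a..y, g x‖ ≤ Z) (h0 : ‖w b‖ ≤ W₀) (h1 : ∀ x ∈ Icc a b, ‖w' x‖ ≤ W₁) :
    ‖∫ x in a..b, g x * w x‖ ≤ (W₀ + (b - a) * W₁) * Z := by
  have hi : ∀ y ∈ Icc a b, IntervalIntegrable g volume a y := fun y hy =>
    (hg.mono (Icc_subset_Icc_right hy.2)).intervalIntegrable_of_Icc hy.1
  have h2 := intervalIntegral.integral_mul_deriv_eq_deriv_mul_of_hasDerivAt (a := a) (b := b)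
    (u := w) (v := fun y => ∫ x in a..y, g x) (u' := w') (v' := g)
    (by
      rw [uIcc_of_le hab]
      exact fun x hx => (hw x hx).continuousAt.continuousWithinAt)
    (intervalIntegral.continuousOn_primitive_interval' (hi b ⟨hab, le_rfl⟩) left_mem_uIcc)
    (by
      rw [min_eq_left hab, max_eq_right hab]
      exact fun x hx => hw x (Ioo_subset_Icc_self hx))
    (by
      rw [min_eq_left hab, max_eq_right hab]
      exact fun x hx => intervalIntegral.integral_hasDerivAt_right (hi x (Ioo_subset_Icc_self hx))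
        ((hg.mono Ioo_subset_Icc_self).stronglyMeasurableAtFilter isOpen_Ioo x hx)
        (hg.continuousAt (Icc_mem_nhds hx.1 hx.2)))
    (hw'.intervalIntegrable_of_Icc hab) (hi b ⟨hab, le_rfl⟩)
  have h3 : ‖∫ x in a..b, w' x * ∫ t in a..x, g t‖ ≤ W₁ * Z * |b - a| :=
    intervalIntegral.norm_integral_le_of_norm_le_const fun x hx => by
      have hx' : x ∈ Icc a b := Ioc_subset_Icc_self (by rwa [uIoc_of_le hab] at hx)
      exact (norm_mul_le _ _).trans
        (mul_le_mul (h1 x hx') (hZ x hx') (norm_nonneg _) ((norm_nonneg _).trans (h1 x hx')))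
  have h4 : ‖w b * ∫ x in a..b, g x‖ ≤ W₀ * Z := (norm_mul_le _ _).trans
    (mul_le_mul h0 (hZ b ⟨hab, le_rfl⟩) (norm_nonneg _) ((norm_nonneg _).trans h0))
  rw [abs_of_nonneg (sub_nonneg.2 hab)] at h3
  simp only [mul_comm (g _)]
  rw [h2, intervalIntegral.integral_same, mul_zero, sub_zero]
  refine (norm_sub_le _ _).trans ?_
  linarith

theorem parts_log (hT : 0 < T) (hg : ContinuousOn g (Icc T (2 * T))) {w : ℂ} (hw : 0 ≤ w.re) {Z : ℝ}
    (hZ : ∀ y ∈ Icc T (2 * T), ‖∫ x in T..y, g x‖ ≤ Z) :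
    ‖∫ x in T..2 * T, g x * exp (w * (Real.log x : ℝ))‖ ≤ (1 + ‖w‖) * (2 * T) ^ w.re * Z := by
  have h1 := parts (W₀ := (2 * T) ^ w.re) (W₁ := ‖w‖ / T * (2 * T) ^ w.re) (by linarith) hg
    (fun x hx => nm_der w (hT.trans_le hx.1)) (nm_cont hT w) hZ
    (norm_exp_log hT hw ⟨by linarith, le_rfl⟩) fun x hx => by
      rw [norm_mul, norm_div, Complex.norm_real, Real.norm_of_nonneg (hT.le.trans hx.1)]
      exact mul_le_mul (div_le_div_of_nonneg_left (norm_nonneg _) hT hx.1) (norm_exp_log hT hw hx)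
        (norm_nonneg _) (by positivity)
  refine h1.trans (le_of_eq ?_)
  field_simp
  ring

end Pool.Agent.Lib.MP_2a1a00_nt
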