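import Pool.Agent.Lib.MP_2a1a00_nt.Gam
import Pool.Agent.Lib.MP_2a1a00_nt.Div

/-! The powers of the zeta function belong to the class. -/

namespace Pool.Agent.Lib.MP_2a1a00_nt

open Complex MeasureTheory Set

/-- The entire function `(s - 1) * ζ s`. -/
noncomputable def zG (s : ℂ) : ℂ :=
  (s * (s - 1) * completedRiemannZeta₀ s + 1) * ((Real.pi : ℂ) ^ (s / 2) * (Gamma (s / 2 + 1))⁻¹ / 2)

/- `differentiable_completedZeta₀`, `Complex.differentiable_one_div_Gamma`. -/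
theorem zG_diff : Differentiable ℂ zG := by
  have h0 := differentiable_completedZeta₀
  have h1 : Differentiable ℂ fun s : ℂ => (Gamma (s / 2 + 1))⁻¹ :=
    differentiable_one_div_Gamma.comp (f := fun s : ℂ => s / 2 + 1) (by fun_prop)
  have h2 : Differentiable ℂ fun s : ℂ => (Real.pi : ℂ) ^ (s / 2) :=
    Differentiable.const_cpow (by fun_prop) (Or.inl (ofReal_ne_zero.2 Real.pi_ne_zero))
  exact (((differentiable_id.mul (differentiable_id.sub_const 1)).mul h0).add_const 1).mul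
    ((h2.mul h1).div_const 2)

/- `riemannZeta_def_of_ne_zero`, `completedRiemannZeta_eq`, `Complex.Gamma_add_one`; if `Gamma (s / 2) = 0`
both sides vanish; `riemannZeta_zero`. -/
theorem zG_eq {s : ℂ} (hs : s ≠ 1) : zG s = (s - 1) * riemannZeta s := by
  have h1 : (1 : ℂ) - s ≠ 0 := sub_ne_zero.2 hs.symm
  have h2 : (Real.pi : ℂ) ^ (s / 2) ≠ 0 := by
    rw [Ne, cpow_eq_zero_iff, not_and_or]
    exact Or.inl (ofReal_ne_zero.2 Real.pi_ne_zero)
  rw [riemannZeta_eq_mul_completedRiemannZeta₀, zG, neg_div, cpow_neg, div_eq_mul_inv _ (2 * _ * _),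
    mul_inv, mul_inv, inv_inv]
  generalize (Gamma (s / 2 + 1))⁻¹ = g
  field_simp
  ring

theorem zeta_mellin {f : ℝ → ℂ} {a b : ℝ} (ha : MellinConvergent f a) (hb : MellinConvergent f b) :
    ∃ C : ℝ, ∀ s : ℂ, a ≤ s.re → s.re ≤ b → ‖mellin f s‖ ≤ C := by
  refine ⟨∫ t in Ioi (0 : ℝ), (‖(t : ℂ) ^ ((a : ℂ) - 1) • f t‖ + ‖(t : ℂ) ^ ((b : ℂ) - 1) • f t‖),
    fun s h1 h2 => ?_⟩
  refine norm_integral_le_of_norm_le (ha.norm.add hb.norm) ?_
  refine (ae_restrict_iff' measurableSet_Ioi).2 (Filter.Eventually.of_forall fun t ht => ?_)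
  have ht' : (0 : ℝ) < t := ht
  simp only [norm_smul, norm_cpow_eq_rpow_re_of_pos ht', sub_re, ofReal_re, one_re]
  rw [← add_mul]
  refine mul_le_mul_of_nonneg_right ?_ (norm_nonneg _)
  have p1 : 0 ≤ t ^ (a - 1) := by positivity
  have p2 : 0 ≤ t ^ (b - 1) := by positivity
  rcases le_total t 1 with h | h
  · have := Real.rpow_le_rpow_of_exponent_ge ht' h (show a - 1 ≤ s.re - 1 by linarith)
    linarith
  · have := Real.rpow_le_rpow_of_exponent_le h (show s.re - 1 ≤ b - 1 by linarith)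
    linarith

/- `completedRiemannZeta₀ s = (hurwitzEvenFEPair 0).Λ₀ (s / 2) / 2` is a Mellin transform that converges
everywhere (`WeakFEPair.toStrongFEPair`, `StrongFEPair.hasMellin`); `t ^ (σ - 1) ≤ t ^ (a - 1) + t ^ (b - 1)`. -/
theorem zeta0_le (a b : ℝ) : ∃ C : ℝ, ∀ s : ℂ, a ≤ s.re → s.re ≤ b → ‖completedRiemannZeta₀ s‖ ≤ C := by
  have hP := (HurwitzZeta.hurwitzEvenFEPair 0).isStrongFEPair_toStrongFEPair
  obtain ⟨C, hC⟩ := zeta_mellin (f := (HurwitzZeta.hurwitzEvenFEPair 0).f_modif) (a := a / 2)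
    (b := b / 2) (hP.hasMellin _).1 (hP.hasMellin _).1
  refine ⟨C / 2, fun s h1 h2 => ?_⟩
  have e : completedRiemannZeta₀ s = mellin (HurwitzZeta.hurwitzEvenFEPair 0).f_modif (s / 2) / 2 :=
    rfl
  have e2 : (s / 2).re = s.re / 2 := by simp
  rw [e, norm_div, Complex.norm_two]
  exact div_le_div_of_nonneg_right (hC _ (by rw [e2]; linarith) (by rw [e2]; linarith)) zero_le_two

/- `zeta0_le`, `gam_inv_le`. -/
theorem zG_le (a b : ℝ) : ∃ C : ℝ, 0 < C ∧ ∀ s : ℂ, a ≤ s.re → s.re ≤ b →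
    ‖zG s‖ ≤ C * Real.exp (4 * ‖s‖) := by
  obtain ⟨C, hC⟩ := zeta0_le a b
  obtain ⟨D, hD, hG⟩ := gam_inv_le (a / 2 + 1) (b / 2 + 1)
  have hpi : (1 : ℝ) ≤ Real.pi := by linarith [Real.two_le_pi]
  have hm : 0 < max C 0 + 1 := by linarith [le_max_right C 0]
  refine ⟨(max C 0 + 1) * (Real.pi ^ (b / 2) * D / 2), by positivity, fun s h1 h2 => ?_⟩
  have e2 : (s / 2).re = s.re / 2 := by simp
  have e3 : (s / 2 + 1).re = s.re / 2 + 1 := by simp
  have e4 : (s / 2 + 1).im = s.im / 2 := by simp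
  have a0 := norm_nonneg s
  have a1 : (‖s‖ + 1) ^ 2 ≤ Real.exp (2 * ‖s‖) := by
    rw [show 2 * ‖s‖ = ((2 : ℕ) : ℝ) * ‖s‖ by norm_num, Real.exp_nat_mul]
    exact pow_le_pow_left₀ (by linarith) (Real.add_one_le_exp _) 2
  have a2 : ‖s * (s - 1) * completedRiemannZeta₀ s + 1‖ ≤ (max C 0 + 1) * Real.exp (2 * ‖s‖) := by
    have b1 : ‖s - 1‖ ≤ ‖s‖ + 1 := by simpa using norm_sub_le s 1
    have b2 : ‖completedRiemannZeta₀ s‖ ≤ max C 0 := (hC s h1 h2).trans (le_max_left _ _)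
    have b3 : ‖s * (s - 1) * completedRiemannZeta₀ s‖ ≤ (‖s‖ + 1) ^ 2 * max C 0 := by
      rw [norm_mul, norm_mul, sq]
      gcongr
      linarith
    have b4 := norm_add_le (s * (s - 1) * completedRiemannZeta₀ s) 1
    rw [norm_one] at b4
    have b5 : (‖s‖ + 1) ^ 2 * max C 0 ≤ Real.exp (2 * ‖s‖) * max C 0 :=
      mul_le_mul_of_nonneg_right a1 (le_max_right _ _)
    have b6 : 1 ≤ Real.exp (2 * ‖s‖) := Real.one_le_exp (by linarith)
    nlinarith
  have a3 : ‖(Real.pi : ℂ) ^ (s / 2)‖ ≤ Real.pi ^ (b / 2) := by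
    rw [norm_cpow_eq_rpow_re_of_pos Real.pi_pos, e2]
    exact Real.rpow_le_rpow_of_exponent_le hpi (by linarith)
  have a4 : ‖(Gamma (s / 2 + 1))⁻¹‖ ≤ D * Real.exp (2 * ‖s‖) := by
    refine (hG _ (by rw [e3]; linarith) (by rw [e3]; linarith)).trans ?_
    refine mul_le_mul_of_nonneg_left (Real.exp_le_exp.2 ?_) hD.le
    have := abs_im_le_norm s
    rw [e4, abs_div, abs_two]
    linarith
  rw [zG, norm_mul, norm_div, norm_mul, Complex.norm_two]
  calc _ ≤ (max C 0 + 1) * Real.exp (2 * ‖s‖) *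
        (Real.pi ^ (b / 2) * (D * Real.exp (2 * ‖s‖)) / 2) := by gcongr
    _ = _ := by
      rw [show 4 * ‖s‖ = 2 * ‖s‖ + 2 * ‖s‖ by ring, Real.exp_add]
      ring

/- Induction on `k`: `(ζ ^ (k + 1)) n = ∑ (a, b) ∈ divisorsAntidiagonal n, (ζ ^ k) a * ζ b`, and
`card_divisors_le`. -/
theorem dk_le (k : ℕ) {ε : ℝ} (hε : 0 < ε) : ∃ C : ℝ, ∀ n : ℕ, 1 ≤ n →
    (((ArithmeticFunction.zeta ^ k) n : ℕ) : ℝ) ≤ C * (n : ℝ) ^ ε := by
  induction k generalizing ε with
  | zero =>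
    refine ⟨1, fun n hn => ?_⟩
    have h1 : (1 : ℝ) ≤ (n : ℝ) ^ ε := Real.one_le_rpow (by exact_mod_cast hn) hε.le
    rw [pow_zero, ArithmeticFunction.one_apply, one_mul]
    split_ifs
    · simpa using h1
    · simp only [Nat.cast_zero]
      linarith
  | succ k ih =>
    obtain ⟨C, hC⟩ := ih (half_pos hε)
    obtain ⟨D, hD, hd⟩ := card_divisors_le (ε / 2) (half_pos hε)
    refine ⟨D * max C 0, fun n hn => ?_⟩
    have hn' : (0 : ℝ) < n := by exact_mod_cast hn
    rw [pow_succ, ArithmeticFunction.mul_zeta_apply, Nat.cast_sum]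
    have h1 : ∀ i ∈ n.divisors, (((ArithmeticFunction.zeta ^ k) i : ℕ) : ℝ) ≤
        max C 0 * (n : ℝ) ^ (ε / 2) := by
      intro i hi
      have hi1 : 1 ≤ i := Nat.pos_of_mem_divisors hi
      have hi2 : (i : ℝ) ≤ n := by exact_mod_cast Nat.divisor_le hi
      refine (hC i hi1).trans ?_
      have := le_max_left C 0
      have := le_max_right C 0
      gcongr
    refine (Finset.sum_le_card_nsmul _ _ _ h1).trans ?_
    rw [nsmul_eq_mul]
    have := le_max_right C 0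
    calc _ ≤ D * (n : ℝ) ^ (ε / 2) * (max C 0 * (n : ℝ) ^ (ε / 2)) :=
          mul_le_mul_of_nonneg_right (hd n) (by positivity)
      _ = D * max C 0 * ((n : ℝ) ^ (ε / 2) * (n : ℝ) ^ (ε / 2)) := by ring
      _ = _ := by rw [← Real.rpow_add hn', add_halves]

theorem zeta_ser (k : ℕ) {s : ℂ} (hs : 1 < s.re) :
    LSeriesHasSum (fun n => (((ArithmeticFunction.zeta ^ k) n : ℕ) : ℂ)) s (riemannZeta s ^ k) := by
  induction k with
  | zero =>
    have e : (fun n => (((ArithmeticFunction.zeta ^ 0) n : ℕ) : ℂ)) = LSeries.delta := by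
      funext n
      simp [ArithmeticFunction.one_apply, LSeries.delta]
    rw [e, pow_zero]
    have h1 : LSeriesSummable LSeries.delta s :=
      LSeriesSummable_of_bounded_of_one_lt_re (m := 1) (fun n _ => by
        simp only [LSeries.delta]
        split_ifs <;> simp) hs
    simpa [LSeries_delta] using h1.LSeriesHasSum
  | succ k ih =>
    have e : (fun n => (((ArithmeticFunction.zeta ^ (k + 1)) n : ℕ) : ℂ)) =
        LSeries.convolution (fun n => (((ArithmeticFunction.zeta ^ k) n : ℕ) : ℂ))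
          fun n => ((ArithmeticFunction.zeta n : ℕ) : ℂ) := by
      funext n
      rw [LSeries.convolution_def, pow_succ, ArithmeticFunction.mul_apply]
      push_cast
      rfl
    rw [e, pow_succ]
    exact ih.convolution (ArithmeticFunction.LSeriesHasSum_zeta hs)

/- Induction on `k` with `ArithmeticFunction.LSeries_mul'` and `ArithmeticFunction.LSeries_zeta_eq_riemannZeta`
(or `LSeries_convolution'`). -/
theorem dk_ser (k : ℕ) {s : ℂ} (hs : 1 < s.re) :
    LSeries (fun n => (((ArithmeticFunction.zeta ^ k) n : ℕ) : ℂ)) s = riemannZeta s ^ k := by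
  exact (zeta_ser k hs).LSeries_eq

theorem zeta_gam (k : ℕ) (s : ℂ) :
    gam (Real.exp (-(k / 2) * Real.log Real.pi)) (fun _ : Fin k => 1 / 2) (fun _ => 0) s =
      Gammaℝ s ^ k := by
  have h1 : ((Real.exp (-(k / 2) * Real.log Real.pi) : ℝ) : ℂ) ^ s =
      ((Real.pi : ℂ) ^ (-s / 2)) ^ k := by
    rw [cpow_def_of_ne_zero (ofReal_ne_zero.2 (Real.exp_pos _).ne'),
      cpow_def_of_ne_zero (ofReal_ne_zero.2 Real.pi_ne_zero), ← ofReal_log (Real.exp_pos _).le,
      Real.log_exp, ← ofReal_log Real.pi_pos.le, ← Complex.exp_nat_mul]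
    congr 1
    push_cast
    ring
  have h2 : (((1 / 2 : ℝ) : ℂ) * s + 0) = s / 2 := by
    push_cast
    ring
  rw [gam, h1, Finset.prod_const, Finset.card_univ, Fintype.card_fin, h2, Gammaℝ_def, mul_pow]

theorem zeta_gam_conj (s : ℂ) : Gammaℝ ((starRingEnd ℂ) s) = (starRingEnd ℂ) (Gammaℝ s) := by
  have h1 : (Real.pi : ℂ).arg ≠ Real.pi := by
    rw [arg_ofReal_of_nonneg Real.pi_pos.le]
    exact Real.pi_ne_zero.symm
  have h2 : -(starRingEnd ℂ) s / 2 = (starRingEnd ℂ) (-s / 2) := by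
    rw [map_div₀, map_neg, map_ofNat]
  have h3 : (starRingEnd ℂ) s / 2 = (starRingEnd ℂ) (s / 2) := by rw [map_div₀, map_ofNat]
  rw [Gammaℝ_def, Gammaℝ_def, map_mul, h2, h3, cpow_conj _ _ h1, conj_ofReal, Gamma_conj]

theorem zeta_L (k : ℕ) {s : ℂ} (hs : s ≠ 1) : zG s ^ k / (s - 1) ^ k = riemannZeta s ^ k := by
  rw [zG_eq hs, mul_pow, mul_div_cancel_left₀ _ (pow_ne_zero _ (sub_ne_zero.2 hs))]

theorem zeta_comp {s : ℂ} (hs : 0 < s.re) :
    riemannZeta s * Gammaℝ s = completedRiemannZeta s := by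
  have h0 : s ≠ 0 := fun h => by simp [h] at hs
  rw [riemannZeta_def_of_ne_zero h0, div_mul_cancel₀ _ (Gammaℝ_ne_zero_of_re_pos hs)]

/- Take `m = k`, `G s = zG s ^ k`, `Q = π ^ (-k / 2)`, `R = k`, `lam = 1 / 2`, `mu = 0`, `om = 1`.  Then
`G s / (s - 1) ^ k * gam .. s = completedRiemannZeta s ^ k` in the strip; `completedRiemannZeta_one_sub` and
conjugation (`riemannZeta_conj` if present; otherwise the identity theorem for `zG`).  For the order:
`exp (4 * k * r) ≤ exp (4 * k ^ 2) * exp (r ^ 2)`. -/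
theorem zeta_pow (k : ℕ) : ∃ F : Sel, F.deg = k ∧
    (∀ n, F.f n = (((ArithmeticFunction.zeta ^ k) n : ℕ) : ℂ)) ∧
    ∀ s : ℂ, s ≠ 1 → F.L s = riemannZeta s ^ k := by
  refine ⟨{
    f := fun n => (((ArithmeticFunction.zeta ^ k) n : ℕ) : ℂ)
    m := k
    G := fun s => zG s ^ k
    Q := Real.exp (-(k / 2) * Real.log Real.pi)
    R := k
    lam := fun _ => 1 / 2
    mu := fun _ => 0
    om := 1
    ram := fun ε hε => ?_
    ent := zG_diff.pow k
    ord := fun a b => ?_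
    ser := fun s hs => ?_
    Q_pos := Real.exp_pos _
    lam_pos := fun _ => by norm_num
    mu_re := fun _ => by simp
    om_norm := norm_one
    fe := fun s h0 h1 => ?_ }, ?_, fun _ => rfl, fun s hs => zeta_L k hs⟩
  · obtain ⟨C, hC⟩ := dk_le k hε
    exact ⟨C, fun n hn => by simpa only [Complex.norm_natCast] using hC n hn⟩
  · obtain ⟨C, hC, h⟩ := zG_le a b
    refine ⟨2, C ^ k * Real.exp (4 * (k : ℝ) ^ 2), fun s h1 h2 => ?_⟩
    rw [norm_pow]
    refine (pow_le_pow_left₀ (norm_nonneg _) (h s h1 h2) k).trans ?_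
    rw [mul_pow, ← Real.exp_nat_mul, mul_assoc, ← Real.exp_add, Real.rpow_two]
    refine mul_le_mul_of_nonneg_left (Real.exp_le_exp.2 ?_) (by positivity)
    nlinarith [sq_nonneg (2 * (k : ℝ) - ‖s‖)]
  · have h1 : s ≠ 1 := fun h => by simp [h] at hs
    rw [dk_ser k hs, zG_eq h1, mul_pow]
  · have a1 : s ≠ 1 := fun h => by simp [h] at h1
    have a2 : 1 - (starRingEnd ℂ) s ≠ 1 := fun h => by
      have := congrArg re h
      simp at this
      linarith
    have a3 : 1 - (starRingEnd ℂ) s = (starRingEnd ℂ) (1 - s) := by rw [map_sub, map_one]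
    have a4 : 0 < (1 - s).re := by simpa using h1
    rw [zeta_L k a1, zeta_L k a2, zeta_gam, zeta_gam, ← mul_pow, ← mul_pow, one_mul, a3,
      riemannZeta_conj, zeta_gam_conj, ← map_mul, map_pow, conj_conj, zeta_comp h0, zeta_comp a4,
      completedRiemannZeta_one_sub]
  · simp only [Sel.deg, Finset.sum_const, Finset.card_univ, Fintype.card_fin, nsmul_eq_mul]
    ring

end Pool.Agent.Lib.MP_2a1a00_nt
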