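import Pool.Agent.Lib.MP_2a1a00_nt.Shift

/-! Residues between two vertical lines. -/

namespace Pool.Agent.Lib.MP_2a1a00_nt

open Complex MeasureTheory Set

variable {g : ℂ → ℂ} {a b : ℝ}

theorem res_inner (b y : ℝ) :
    ∫ v : ℝ, exp ((b + v * I) ^ 2) * exp (-(b + v * I) * y) =
      ((√Real.pi * Real.exp (-(1 / 4) * y ^ 2) : ℝ) : ℂ) := by
  have h := integral_cexp_quadratic (b := -1) (by simp) ((2 * b - y) * I) (b ^ 2 - b * y)
  have e : (fun v : ℝ => exp ((b + v * I) ^ 2) * exp (-(b + v * I) * y)) =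
      fun v : ℝ => exp (-1 * (v : ℂ) ^ 2 + (2 * b - y) * I * v + (b ^ 2 - b * y)) := by
    funext v
    rw [← exp_add]
    congr 1
    linear_combination (v : ℂ) ^ 2 * I_mul_I
  rw [e, h]
  have e2 : ((Real.pi : ℂ) / - -1) ^ (1 / 2 : ℂ) = (√Real.pi : ℝ) := by
    rw [neg_neg, div_one, Real.sqrt_eq_rpow, ofReal_cpow Real.pi_pos.le]
    norm_num
  rw [e2]
  push_cast
  congr 2
  linear_combination ((2 * b - y : ℂ) ^ 2 / 4) * I_mul_I

theorem res_prod (hb : 0 < b) :
    Integrable (Function.uncurry fun (v : ℝ) (y : ℝ) =>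
      exp ((b + v * I) ^ 2) * exp (-(b + v * I) * y))
      (volume.prod (volume.restrict (Ioi 0))) := by
  have h1 : Integrable fun v : ℝ => Real.exp (b ^ 2) * Real.exp (-1 * v ^ 2) :=
    (integrable_exp_neg_mul_sq one_pos).const_mul _
  have h2 : Integrable (fun y : ℝ => Real.exp (-b * y)) (volume.restrict (Ioi 0)) :=
    exp_neg_integrableOn_Ioi 0 hb
  refine (h1.mul_prod h2).mono' ?_ (Filter.Eventually.of_forall fun p => le_of_eq ?_)
  · exact (by fun_prop : Continuous (Function.uncurry fun (v : ℝ) (y : ℝ) =>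
      exp ((b + v * I) ^ 2) * exp (-(b + v * I) * y))).aestronglyMeasurable
  · simp only [Function.uncurry, norm_mul, norm_exp, ← Real.exp_add]
    congr 1
    simp [sq]
    ring

/- `1 / u = ∫ y > 0, exp (-u y)` (`integral_exp_mul_complex_Ioi`), Fubini, then
`∫ v, exp (u ^ 2 - u y) = √π * exp (-y ^ 2 / 4)` on the line `u = b + i v` (`integral_cexp_quadratic`),
and `integral_gaussian_Ioi`. -/
theorem Ln_gauss (hb : 0 < b) : Ln (fun u => exp (u ^ 2) / u) b = 1 / 2 := by
  have e : (fun v : ℝ => exp ((b + v * I) ^ 2) / (b + v * I)) =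
      fun v : ℝ => ∫ y in Ioi (0 : ℝ), exp ((b + v * I) ^ 2) * exp (-(b + v * I) * y) := by
    funext v
    rw [integral_const_mul, integral_exp_mul_complex_Ioi (by simpa using hb)]
    rw [ofReal_zero, mul_zero, exp_zero, neg_div_neg_eq, mul_one_div]
  unfold Ln
  rw [e, integral_integral_swap (res_prod hb)]
  simp_rw [res_inner]
  rw [integral_complex_ofReal, integral_const_mul, integral_gaussian_Ioi]
  have h4 : √(Real.pi / (1 / 4)) = 2 * √Real.pi := by
    rw [show Real.pi / (1 / 4) = 2 ^ 2 * Real.pi by ring, Real.sqrt_mul (by norm_num),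
      Real.sqrt_sq (by norm_num)]
  have h5 : √Real.pi * √Real.pi = Real.pi := Real.mul_self_sqrt Real.pi_pos.le
  have h6 : (1 / (2 * Real.pi)) * (√Real.pi * (√(Real.pi / (1 / 4)) / 2)) = 1 / 2 := by
    rw [h4, show √Real.pi * (2 * √Real.pi / 2) = √Real.pi * √Real.pi by ring, h5]
    field_simp
  have h7 := congrArg (fun x : ℝ => (x : ℂ)) h6
  simp only [ofReal_mul] at h7
  simpa using h7

theorem res_dec (a b c : ℝ) : Dec (fun s => exp ((s - c) ^ 2)) a b := by
  refine dec_of_gauss (by fun_prop) (C := Real.exp ((|a| + |b| + |c|) ^ 2)) (K := 0) (t := 0) ?_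
  intro s hs
  rw [Real.rpow_zero, mul_one, norm_exp, ← Real.exp_add]
  refine Real.exp_le_exp.2 ?_
  have h1 : ((s - c) ^ 2).re = (s.re - c) ^ 2 - s.im ^ 2 := by simp [sq]
  have h2 : (s.re - c) ^ 2 ≤ (|a| + |b| + |c|) ^ 2 := by
    obtain ⟨h3, h4⟩ := hs
    refine sq_le_sq' ?_ ?_ <;>
      linarith [abs_nonneg a, abs_nonneg b, le_abs_self c, neg_abs_le c, le_abs_self b,
        neg_abs_le a]
  rw [h1, sub_zero]
  linarith

theorem res_der (c : ℂ) (k : ℕ) {s : ℂ} (hs : s ≠ c) :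
    HasDerivAt (fun s => exp ((s - c) ^ 2) / (s - c) ^ (k + 1))
      (2 * (exp ((s - c) ^ 2) / (s - c) ^ k) -
        (k + 1) * (exp ((s - c) ^ 2) / (s - c) ^ (k + 2))) s := by
  have h0 : s - c ≠ 0 := sub_ne_zero.2 hs
  have h1 : HasDerivAt (fun s : ℂ => s - c) 1 s := (hasDerivAt_id s).sub_const c
  have h2 := ((h1.pow 2).cexp).div (h1.pow (k + 1)) (pow_ne_zero _ h0)
  refine h2.congr_deriv ?_
  simp only [Pi.pow_apply, Nat.add_sub_cancel]
  push_cast
  field_simp
  ring

theorem res_line {σ c : ℝ} (hc : σ ≠ c) (k : ℕ) :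
    2 * Ln (fun s => exp ((s - c) ^ 2) / (s - c) ^ k) σ =
      (k + 1) * Ln (fun s => exp ((s - c) ^ 2) / (s - c) ^ (k + 2)) σ := by
  have hi := fun j => (res_dec σ σ c).integrable_div le_rfl le_rfl hc j
  have hne : ∀ v : ℝ, (σ + v * I : ℂ) ≠ c := fun v h => hc (by simpa using congrArg re h)
  have h := integral_eq_zero_of_hasDerivAt_of_integrable
    (f := fun v : ℝ => exp (((σ + v * I : ℂ) - c) ^ 2) / ((σ + v * I : ℂ) - c) ^ (k + 1))
    (f' := fun v : ℝ => (2 * (exp (((σ + v * I : ℂ) - c) ^ 2) / ((σ + v * I : ℂ) - c) ^ k) -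
        (k + 1) * (exp (((σ + v * I : ℂ) - c) ^ 2) / ((σ + v * I : ℂ) - c) ^ (k + 2))) * I)
    (fun v => ?_) ((((hi k).const_mul 2).sub ((hi (k + 2)).const_mul _)).mul_const I) (hi (k + 1))
  · rw [integral_mul_const, integral_sub ((hi k).const_mul 2) ((hi (k + 2)).const_mul _),
      integral_const_mul, integral_const_mul] at h
    have h' := sub_eq_zero.1 ((mul_eq_zero.1 h).resolve_right I_ne_zero)
    unfold Ln
    linear_combination ((1 / (2 * Real.pi) : ℝ) : ℂ) * h'
  · have h1 : HasDerivAt (fun w : ℂ => (σ + w * I : ℂ)) I v := by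
      simpa using ((hasDerivAt_id (v : ℂ)).mul_const I).const_add (σ : ℂ)
    exact ((res_der c k (hne v)).comp (v : ℂ) h1).comp_ofReal

theorem res_ne {c : ℂ} {r : ℝ} (hr : 0 < r) {s : ℂ} (hs : s ∈ Metric.sphere c r) : s ≠ c := by
  rintro rfl
  simp at hs
  exact hr.ne hs

theorem res_ci {c : ℂ} {r : ℝ} (hr : 0 < r) (h : ContinuousOn g (Metric.sphere c r)) (k : ℕ) :
    CircleIntegrable (fun s => g s / (s - c) ^ k) c r := by
  refine ContinuousOn.circleIntegrable hr.le (h.div (by fun_prop) fun s hs => ?_)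
  exact pow_ne_zero _ (sub_ne_zero.2 (res_ne hr hs))

theorem res_cm {c : ℂ} {r : ℝ} (h : CircleIntegrable g c r) (w : ℂ) :
    CircleIntegrable (fun s => w * g s) c r :=
  IntervalIntegrable.const_mul h w

theorem res_circ {c : ℂ} {r : ℝ} (hr : 0 < r) (k : ℕ) :
    2 * (∮ s in C(c, r), exp ((s - c) ^ 2) / (s - c) ^ k) =
      (k + 1) * ∮ s in C(c, r), exp ((s - c) ^ 2) / (s - c) ^ (k + 2) := by
  have hi := fun j => res_ci (g := fun s => exp ((s - c) ^ 2)) (c := c) hr (by fun_prop) j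
  have h := circleIntegral.integral_eq_zero_of_hasDerivWithinAt (c := c) hr.le
    fun s hs => (res_der c k (res_ne hr hs)).hasDerivWithinAt
  rw [circleIntegral.integral_sub (res_cm (hi k) 2) (res_cm (hi (k + 2)) _),
    circleIntegral.integral_const_mul, circleIntegral.integral_const_mul] at h
  exact sub_eq_zero.1 h

theorem res_cauchy {c : ℂ} {r : ℝ} (hr : 0 < r) (h : DifferentiableOn ℂ g (Metric.closedBall c r)) :
    (2 * Real.pi * I)⁻¹ * ∮ s in C(c, r), g s / (s - c) ^ 1 = g c := by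
  have h1 := h.circleIntegral_sub_inv_smul (Metric.mem_ball_self hr)
  simp only [smul_eq_mul] at h1
  simp only [pow_one, div_eq_inv_mul]
  rw [h1, ← mul_assoc, inv_mul_cancel₀ two_pi_I_ne_zero, one_mul]

theorem res_zero {c : ℂ} {r : ℝ} (hr : 0 < r) (h : DifferentiableOn ℂ g (Metric.closedBall c r)) :
    ∮ s in C(c, r), g s = 0 :=
  circleIntegral_eq_zero_of_differentiable_on_off_countable hr.le countable_empty h.continuousOn
    fun _ hz => h.differentiableAt (Metric.closedBall_mem_nhds_of_mem hz.1)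

theorem res_tr (g : ℂ → ℂ) (σ c : ℝ) : Ln (fun s => g (s - c)) σ = Ln g (σ - c) := by
  unfold Ln
  congr 1
  refine integral_congr_ae (Filter.Eventually.of_forall fun v => ?_)
  simp only [ofReal_sub]
  congr 1
  ring

/- Let `Λ k` be left side minus right side.  `Λ 0 = 0` by `Dec.shift` and the Cauchy theorem for a
circle; `Λ 1 = 0` by `Ln_gauss`, `Ln_neg` and the Cauchy formula.  For `k ≥ 1` the derivative of
`exp ((s - c) ^ 2) / (s - c) ^ k` is `2 * exp (..) / (s - c) ^ (k - 1) - k * exp (..) / (s - c) ^ (k + 1)`,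
and its integrals over the lines (`integral_eq_zero_of_hasDerivAt_of_integrable`) and the circle
(`circleIntegral.integral_eq_zero_of_hasDerivWithinAt`) vanish, so `k * Λ (k + 1) = 2 * Λ (k - 1)`. -/
theorem pole_model {c r : ℝ} (hr : 0 < r) (h1 : a < c) (h2 : c < b) (k : ℕ) :
    Ln (fun s => exp ((s - c) ^ 2) / (s - c) ^ k) b - Ln (fun s => exp ((s - c) ^ 2) / (s - c) ^ k) a =
      (2 * Real.pi * I)⁻¹ * ∮ s in C(c, r), exp ((s - c) ^ 2) / (s - c) ^ k := by
  induction k using Nat.twoStepInduction with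
  | zero =>
    simp only [pow_zero, div_one]
    rw [res_zero hr (by fun_prop), (res_dec a b c).shift (h1.trans h2).le]
    simp
  | one =>
    rw [res_cauchy (g := fun s => exp ((s - c) ^ 2)) hr (by fun_prop)]
    simp only [pow_one]
    have e1 := res_tr (fun u => exp (u ^ 2) / u) b c
    have e2 := res_tr (fun u => exp (u ^ 2) / u) a c
    have e3 := Ln_neg (fun u => exp (u ^ 2) / u) (c - a)
    have e4 := Ln_const_mul (-1) (fun u => exp (u ^ 2) / u) (c - a)
    have e5 : (fun s : ℂ => exp ((-s) ^ 2) / -s) = fun s => -1 * (exp (s ^ 2) / s) := by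
      funext s
      rw [neg_sq, div_neg, neg_one_mul]
    rw [e5, e4, neg_sub, Ln_gauss (sub_pos.2 h1)] at e3
    rw [e1, e2, ← e3, Ln_gauss (sub_pos.2 h2)]
    norm_num
  | more k ih _ =>
    have hk : (k + 1 : ℂ) ≠ 0 := Nat.cast_add_one_ne_zero k
    apply mul_left_cancel₀ hk
    linear_combination 2 * ih - res_line h2.ne' k + res_line h1.ne k +
      (2 * Real.pi * I)⁻¹ * res_circ (c := c) hr k

/- `g₁ = dslope (fun s => g s - g c * exp ((s - c) ^ 2)) c` is again `Dec`
(`Complex.differentiableOn_dslope`; bounded on the compact part `|im s| ≤ 1` of the strip). -/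
theorem Dec.peel (h : Dec g a b) {c : ℝ} (h1 : a < c) (h2 : c < b) :
    ∃ g₁ : ℂ → ℂ, Dec g₁ a b ∧ ∀ s, g s = g c * exp ((s - c) ^ 2) + (s - c) * g₁ s := by
  set φ : ℂ → ℂ := fun s => g s - g c * exp ((s - c) ^ 2) with hφ
  have hid : ∀ s, (s - c) * dslope φ c s = φ s := by
    intro s
    have := sub_smul_dslope φ c s
    rw [smul_eq_mul] at this
    rw [this]
    simp [hφ]
  have hn : St a b ∈ nhds (c : ℂ) := by
    have ho : IsOpen {s : ℂ | a < s.re ∧ s.re < b} :=
      (isOpen_lt continuous_const continuous_re).inter (isOpen_lt continuous_re continuous_const)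
    exact Filter.mem_of_superset (ho.mem_nhds ⟨by simpa using h1, by simpa using h2⟩)
      fun s hs => ⟨hs.1.le, hs.2.le⟩
  have hd : DifferentiableOn ℂ (dslope φ c) (St a b) :=
    (differentiableOn_dslope hn).2 (h.diff.sub (by fun_prop))
  refine ⟨dslope φ c, ⟨hd, ?_⟩, fun s => by rw [hid]; simp [hφ]⟩
  obtain ⟨C1, hC1⟩ := h.le
  obtain ⟨C2, hC2⟩ := (res_dec a b c).le
  have hK : IsCompact (Icc a b ×ℂ Icc (-1 : ℝ) 1) := isCompact_Icc.reProdIm isCompact_Icc
  obtain ⟨M, hM⟩ := hK.exists_bound_of_continuousOn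
    (hd.continuousOn.mono fun s hs => (mem_reProdIm.1 hs).1)
  refine ⟨max (|M| * Real.exp 1) (C1 + ‖g c‖ * C2), fun s hs => ?_⟩
  have he := Real.exp_pos (-|s.im|)
  rcases le_total |s.im| 1 with h3 | h3
  · have h4 := hM s (mem_reProdIm.2 ⟨hs, abs_le.1 h3⟩)
    have h5 : 1 ≤ Real.exp 1 * Real.exp (-|s.im|) := by
      rw [← Real.exp_add]
      exact Real.one_le_exp (by linarith)
    calc _ ≤ |M| * 1 := by rw [mul_one]; exact h4.trans (le_abs_self M)
      _ ≤ |M| * (Real.exp 1 * Real.exp (-|s.im|)) := by gcongr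
      _ = |M| * Real.exp 1 * Real.exp (-|s.im|) := by ring
      _ ≤ _ := by gcongr; exact le_max_left _ _
  · have h4 : 1 ≤ ‖s - c‖ := h3.trans (by simpa using abs_im_le_norm (s - c))
    have h5 : ‖φ s‖ ≤ (C1 + ‖g c‖ * C2) * Real.exp (-|s.im|) := by
      have h6 := mul_le_mul_of_nonneg_left (hC2 s hs) (norm_nonneg (g c))
      calc _ ≤ ‖g s‖ + ‖g c * exp ((s - c) ^ 2)‖ := norm_sub_le _ _
        _ ≤ _ := by rw [norm_mul]; linarith [hC1 s hs]
    calc _ = 1 * ‖dslope φ c s‖ := (one_mul _).symm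
      _ ≤ ‖s - c‖ * ‖dslope φ c s‖ := by gcongr
      _ = ‖φ s‖ := by rw [← norm_mul, hid]
      _ ≤ _ := h5
      _ ≤ _ := by gcongr; exact le_max_right _ _

theorem res_ball {c r : ℝ} (h1 : a ≤ c - r) (h2 : c + r ≤ b) :
    Metric.closedBall (c : ℂ) r ⊆ St a b := by
  intro s hs
  have h3 : |s.re - c| ≤ r := by
    simpa using (abs_re_le_norm (s - c)).trans (mem_closedBall_iff_norm.1 hs)
  obtain ⟨h4, h5⟩ := abs_le.1 h3
  exact ⟨by linarith, by linarith⟩

/- Induction on `k` (for all `g`) with `peel` and `pole_model`. -/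
theorem Dec.pole (h : Dec g a b) {c r : ℝ} (hr : 0 < r) (h1 : a ≤ c - r) (h2 : c + r ≤ b) (k : ℕ) :
    Ln (fun s => g s / (s - c) ^ k) b - Ln (fun s => g s / (s - c) ^ k) a =
      (2 * Real.pi * I)⁻¹ * ∮ s in C(c, r), g s / (s - c) ^ k := by
  have hac : a < c := by linarith
  have hcb : c < b := by linarith
  have hab : a ≤ b := (hac.trans hcb).le
  induction k generalizing g with
  | zero =>
    simp only [pow_zero, div_one]
    rw [res_zero hr (h.diff.mono (res_ball h1 h2)), h.shift hab]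
    simp
  | succ k ih =>
    obtain ⟨g₁, hg₁, e⟩ := h.peel hac hcb
    have e1 : ∀ s : ℂ, s ≠ c → g s / (s - c) ^ (k + 1) =
        g c * (exp ((s - c) ^ 2) / (s - c) ^ (k + 1)) + g₁ s / (s - c) ^ k := by
      intro s hs
      have h0 : s - c ≠ 0 := sub_ne_zero.2 hs
      rw [e s]
      field_simp
      ring
    have e2 : ∀ σ : ℝ, a ≤ σ → σ ≤ b → σ ≠ c → Ln (fun s => g s / (s - c) ^ (k + 1)) σ =
        g c * Ln (fun s => exp ((s - c) ^ 2) / (s - c) ^ (k + 1)) σ +
          Ln (fun s => g₁ s / (s - c) ^ k) σ := by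
      intro σ h3 h4 h5
      rw [← Ln_const_mul, ← Ln_add (((res_dec a b c).integrable_div h3 h4 h5 (k + 1)).const_mul _)
        (hg₁.integrable_div h3 h4 h5 k)]
      exact Ln_congr fun v => e1 _ fun h6 => h5 (by simpa using congrArg re h6)
    have e3 : (∮ s in C(c, r), g s / (s - c) ^ (k + 1)) =
        g c * (∮ s in C(c, r), exp ((s - c) ^ 2) / (s - c) ^ (k + 1)) +
          ∮ s in C(c, r), g₁ s / (s - c) ^ k := by
      rw [← circleIntegral.integral_const_mul, ← circleIntegral.integral_add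
        (res_cm (res_ci (g := fun s => exp ((s - c) ^ 2)) hr (by fun_prop) (k + 1)) _)
        (res_ci hr (hg₁.diff.continuousOn.mono
          (Metric.sphere_subset_closedBall.trans (res_ball h1 h2))) k)]
      exact circleIntegral.integral_congr hr.le fun s hs => e1 s (res_ne hr hs)
    rw [e2 b hab le_rfl hcb.ne', e2 a le_rfl hab hac.ne, e3]
    linear_combination ih hg₁ + g c * pole_model hr hac hcb (k + 1)

/- `peel`, `Ln_gauss`, `Ln_neg`, `Dec.shift`. -/
theorem Dec.simple (h : Dec g a b) (h1 : a < 0) (h2 : 0 < b) :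
    Ln (fun s => g s / s) b - Ln (fun s => g s / s) a = g 0 := by
  have hr : 0 < min (-a) b := lt_min (neg_pos.2 h1) h2
  have h3 : a ≤ 0 - min (-a) b := by linarith [min_le_left (-a) b]
  have h4 : 0 + min (-a) b ≤ b := by linarith [min_le_right (-a) b]
  have h5 := h.pole hr h3 h4 1
  rw [res_cauchy hr (h.diff.mono (res_ball h3 h4))] at h5
  simpa using h5

end Pool.Agent.Lib.MP_2a1a00_nt
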