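import Pool.Agent.Lib.MP_2a1a00_nt.Defs

/-! The conjugate series. -/

namespace Pool.Agent.Lib.MP_2a1a00_nt

open Complex MeasureTheory Set

open ComplexConjugate in
theorem cj_cpow (x : ℝ) (hx : 0 ≤ x) (s : ℂ) : conj ((x : ℂ) ^ conj s) = (x : ℂ) ^ s := by
  have h : (x : ℂ).arg ≠ Real.pi := by
    rw [arg_ofReal_of_nonneg hx]; exact Real.pi_ne_zero.symm
  rw [← conj_cpow _ _ h, conj_ofReal]

open ComplexConjugate in
theorem cj_gam (Q : ℝ) (hQ : 0 < Q) {R : ℕ} (lam : Fin R → ℝ) (mu : Fin R → ℂ) (s : ℂ) :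
    gam Q lam (fun i => conj (mu i)) s = conj (gam Q lam mu (conj s)) := by
  unfold gam
  rw [map_mul, cj_cpow Q hQ.le, map_prod]
  congr 1
  refine Finset.prod_congr rfl fun i _ => ?_
  rw [← Gamma_conj]
  simp

open ComplexConjugate in
theorem cj_ser (f : ℕ → ℂ) (s : ℂ) :
    LSeries (fun n => conj (f n)) s = conj (LSeries f (conj s)) := by
  unfold LSeries
  rw [conj_tsum]
  refine tsum_congr fun n => ?_
  rcases eq_or_ne n 0 with rfl | hn
  · simp
  · rw [LSeries.term_of_ne_zero hn, LSeries.term_of_ne_zero hn, map_div₀]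
    have := cj_cpow (n : ℝ) (Nat.cast_nonneg n) s
    rw [ofReal_natCast] at this
    rw [this]

open ComplexConjugate in
/-- The conjugate series. -/
noncomputable def Sel.cj (F : Sel) : Sel where
  f n := conj (F.f n)
  m := F.m
  G s := conj (F.G (conj s))
  Q := F.Q
  R := F.R
  lam := F.lam
  mu i := conj (F.mu i)
  om := conj F.om
  ram ε hε := by
    obtain ⟨C, hC⟩ := F.ram ε hε
    exact ⟨C, fun n hn => by rw [RCLike.norm_conj]; exact hC n hn⟩
  ent := fun s => differentiableAt_conj_conj_iff.mpr (F.ent _)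
  ord a b := by
    obtain ⟨A, B, h⟩ := F.ord a b
    refine ⟨A, B, fun s h1 h2 => ?_⟩
    have := h (conj s) (by simpa using h1) (by simpa using h2)
    rwa [RCLike.norm_conj, ← RCLike.norm_conj (F.G _)] at this
  ser s hs := by
    rw [F.ser (conj s) (by simpa using hs), cj_ser]
    simp
  Q_pos := F.Q_pos
  lam_pos := F.lam_pos
  mu_re i := by simpa using F.mu_re i
  om_norm := by rw [RCLike.norm_conj]; exact F.om_norm
  fe s h0 h1 := by
    have h := congrArg conj (F.fe (conj s) (by simpa using h0) (by simpa using h1))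
    rw [cj_gam _ F.Q_pos, cj_gam _ F.Q_pos]
    simpa using h

/- Take `f n = conj (F.f n)`, `G s = conj (F.G (conj s))`, the same `m`, `Q`, `R`, `lam`, and the conjugates
of `mu` and `om`.  `gam Q lam (conj mu) s = conj (gam Q lam mu (conj s))` (`Complex.Gamma_conj`,
`Complex.conj_cpow` or `Complex.cpow_conj`); `LSeries` of the conjugate coefficients: `Complex.conj_tsum` or
`tsum_star`; the functional equation is the conjugate of `F.fe` at `conj s`. -/
theorem Sel.exists_cj (F : Sel) : ∃ G : Sel, G.deg = F.deg ∧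
    ∀ t : ℝ, ‖G.L (1 / 2 + t * I)‖ = ‖F.L (1 / 2 + (-t : ℝ) * I)‖ := by
  refine ⟨F.cj, rfl, fun t => ?_⟩
  have h : (starRingEnd ℂ) (1 / 2 + t * I) = 1 / 2 + (-t : ℝ) * I := by
    apply Complex.ext <;> simp
  rw [← h, ← RCLike.norm_conj (F.L _)]
  congr 1
  simp [Sel.L, Sel.cj]

end Pool.Agent.Lib.MP_2a1a00_nt
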