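import Pool.Agent.Lib.MP_2a1a00_nt.En

/-! The integrals of the modulus over the blocks. -/

namespace Pool.Agent.Lib.MP_2a1a00_nt

open Complex MeasureTheory Set

/- No measurability is needed: `x ≤ ρ⁻¹ * x ^ 2 + ρ` with `ρ = B / U`; `lintegral_add_right`,
`lintegral_const_mul'`, `volume_Bl`. -/
theorem l1_of_sq {f : ℝ → ℂ} {U B : ℝ} (hU : 1 ≤ U) (hB : 0 < B)
    (h : ∫⁻ t in Bl U, ‖f t‖ₑ ^ 2 ≤ ENNReal.ofReal (B ^ 2 / U)) :
    ∫⁻ t in Bl U, ‖f t‖ₑ ≤ ENNReal.ofReal (5 * B) := by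
  have hU0 : 0 < U := by linarith
  have hρ : 0 < B / U := div_pos hB hU0
  have key : ∀ t, ‖f t‖ₑ ≤ ENNReal.ofReal (U / B) * ‖f t‖ₑ ^ 2 + ENNReal.ofReal (B / U) := by
    intro t
    rw [← ofReal_norm, ← ENNReal.ofReal_pow (norm_nonneg _),
      ← ENNReal.ofReal_mul (by positivity), ← ENNReal.ofReal_add (by positivity) hρ.le]
    refine ENNReal.ofReal_le_ofReal ?_
    have h1 : U / B * (B / U) = 1 := by field_simp
    have h2 : 0 < U / B := div_pos hU0 hB
    have h3 := norm_nonneg (f t)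
    have h4 : 0 ≤ U / B * (‖f t‖ - B / U) ^ 2 := by positivity
    have h5 : U / B * (‖f t‖ - B / U) ^ 2 =
        U / B * ‖f t‖ ^ 2 - 2 * ‖f t‖ * (U / B * (B / U)) + (U / B * (B / U)) * (B / U) := by ring
    rw [h5, h1] at h4
    linarith
  calc ∫⁻ t in Bl U, ‖f t‖ₑ
      ≤ ∫⁻ t in Bl U, (ENNReal.ofReal (U / B) * ‖f t‖ₑ ^ 2 + ENNReal.ofReal (B / U)) :=
        lintegral_mono key
    _ = ENNReal.ofReal (U / B) * (∫⁻ t in Bl U, ‖f t‖ₑ ^ 2) +
        ENNReal.ofReal (B / U) * volume (Bl U) := by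
        rw [lintegral_add_right _ measurable_const,
          lintegral_const_mul' _ _ ENNReal.ofReal_ne_top, setLIntegral_const]
    _ ≤ ENNReal.ofReal (U / B) * ENNReal.ofReal (B ^ 2 / U) +
        ENNReal.ofReal (B / U) * ENNReal.ofReal (4 * U) := by
        gcongr
        exact volume_Bl hU
    _ = ENNReal.ofReal (5 * B) := by
        rw [← ENNReal.ofReal_mul (by positivity), ← ENNReal.ofReal_mul hρ.le,
          ← ENNReal.ofReal_add (by positivity) (by positivity)]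
        congr 1
        field_simp
        ring

namespace Sel

/- `en_sq`, `l1_of_sq`; `U * bb deg T U ≤ T * U ^ 2 + U ^ 4 ≤ (U * (√T + U)) ^ 2`. -/
theorem L1_deg (F : Sel) (h : F.deg ≤ 3) : F.L1 fun T U => √T + U := by
  intro ε hε
  obtain ⟨C, hC, hb⟩ := F.en_sq (ε := 2 * ε) (by linarith)
  refine ⟨5 * √C, by positivity, fun m₁ T U μ hm hT hU hμ hM => ?_⟩
  have hU0 : 0 < U := by linarith
  have hT0 : 0 ≤ T := by linarith
  have hB : 0 < √C * U ^ ε * (μ * U * (√T + U) + U⁻¹) := by positivity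
  have h1 := l1_of_sq (f := F.Psi m₁ T) hU hB ((hb m₁ T U μ hm hT hU hμ hM).trans
    (ENNReal.ofReal_le_ofReal ?_))
  · refine h1.trans (le_of_eq ?_)
    congr 1
    ring
  · have e1 : U ^ (2 * ε) = (U ^ ε) ^ 2 := by
      rw [← Real.rpow_natCast, ← Real.rpow_mul hU0.le]
      congr 1
      push_cast
      ring
    have e2 : U ^ (-3 : ℝ) = U⁻¹ ^ 2 / U := by
      rw [show (-3 : ℝ) = -((3 : ℕ) : ℝ) by norm_num, Real.rpow_neg hU0.le, Real.rpow_natCast]
      field_simp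
    have e3 : U ^ F.deg ≤ U ^ 3 := by
      have := Real.rpow_le_rpow_of_exponent_le hU h
      rwa [show (3 : ℝ) = ((3 : ℕ) : ℝ) by norm_num, Real.rpow_natCast] at this
    have e4 : bb F.deg T U ≤ (U * (√T + U)) ^ 2 / U := by
      have hs := Real.sq_sqrt hT0
      have hs0 := Real.sqrt_nonneg T
      have e5 : bb F.deg T U ≤ T * U + U ^ 3 := add_le_add (min_le_left _ _) e3
      have e6 : (U * (√T + U)) ^ 2 / U = √T ^ 2 * U + 2 * √T * U ^ 2 + U ^ 3 := by
        field_simp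
        ring
      rw [e6, hs]
      have : 0 ≤ 2 * √T * U ^ 2 := by positivity
      linarith
    have e7 : (√C * U ^ ε * (μ * U * (√T + U) + U⁻¹)) ^ 2 / U =
        C * (U ^ ε) ^ 2 * (μ ^ 2 * ((U * (√T + U)) ^ 2 / U) + U⁻¹ ^ 2 / U +
          2 * (μ * U * (√T + U)) * U⁻¹ / U) := by
      rw [mul_pow, mul_pow, Real.sq_sqrt hC.le]
      ring
    rw [e1, e2, e7]
    refine mul_le_mul_of_nonneg_left ?_ (by positivity)
    have e8 : 0 ≤ 2 * (μ * U * (√T + U)) * U⁻¹ / U := by positivity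
    have e9 := mul_le_mul_of_nonneg_left e4 (sq_nonneg μ)
    linarith

/- The entire functions `F.G s * (s - 1) ^ (G.m + H.m)` and `G.G s * H.G s * (s - 1) ^ F.m` agree for
`re s > 1` (`AnalyticOnNhd.eq_of_eventuallyEq`). -/
theorem prod_ext {F G H : Sel} (h : ∀ s : ℂ, 1 < s.re → F.L s = G.L s * H.L s) {s : ℂ} (hs : s ≠ 1) :
    F.L s = G.L s * H.L s := by
  have hA : AnalyticOnNhd ℂ (fun s : ℂ => F.G s * (s - 1) ^ (G.m + H.m)) univ :=
    (F.ent.mul (by fun_prop)).differentiableOn.analyticOnNhd isOpen_univ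
  have hB : AnalyticOnNhd ℂ (fun s : ℂ => G.G s * H.G s * (s - 1) ^ F.m) univ :=
    ((G.ent.mul H.ent).mul (by fun_prop)).differentiableOn.analyticOnNhd isOpen_univ
  have hev : (fun s : ℂ => F.G s * (s - 1) ^ (G.m + H.m)) =ᶠ[nhds 2]
      fun s : ℂ => G.G s * H.G s * (s - 1) ^ F.m := by
    have ho : IsOpen {s : ℂ | 1 < s.re} := isOpen_lt continuous_const continuous_re
    filter_upwards [ho.mem_nhds (show (2 : ℂ) ∈ {s : ℂ | 1 < s.re} by simp)] with z hz
    have hz' : 1 < z.re := hz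
    have h0 : z - 1 ≠ 0 := sub_ne_zero.2 fun h => by simp [h] at hz'
    have h1 := h z hz'
    simp only [Sel.L] at h1
    field_simp at h1
    rw [pow_add]
    linear_combination h1
  have h2 := congrFun (hA.eq_of_eventuallyEq hB hev) s
  have h0 : s - 1 ≠ 0 := sub_ne_zero.2 hs
  simp only [Sel.L]
  rw [pow_add] at h2
  field_simp
  linear_combination h2

/- `2 * a * b ≤ X ^ θ * a ^ 2 + X ^ (-θ) * b ^ 2` gives `∫ t in -X..X, ‖L‖ ≤ K * X ^ (1 + θ + ε)`;
`psi_le_half`, `gav_one`. -/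
theorem L1_prod {F G H : Sel} {θ : ℝ} (h0 : 0 ≤ θ) (hG : G.MS 1) (hH : H.MS (1 + 2 * θ))
    (h : ∀ s : ℂ, s ≠ 1 → F.L s = G.L s * H.L s) : F.L1 fun T U => √T * U ^ θ := by
  intro ε hε
  obtain ⟨C₁, hC₁, h₁⟩ := hG ε hε
  obtain ⟨C₂, hC₂, h₂⟩ := hH ε hε
  obtain ⟨C₃, hC₃, h₃⟩ := gav_one (κ := 1 + θ + ε) (by linarith)
  obtain ⟨C₄, hC₄, h₄⟩ := F.psi_le_half
  have hne : ∀ t : ℝ, (1 / 2 + t * I : ℂ) ≠ 1 := fun t ht => by
    have := congrArg re ht
    norm_num at this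
  have hX : ∀ X : ℝ, 1 ≤ X → ∫ t in -X..X, ‖F.L (1 / 2 + t * I)‖ ≤ (C₁ + C₂) * X ^ (1 + θ + ε) := by
    intro X hX
    have hX0 : 0 < X := by linarith
    have c1 : Continuous fun t : ℝ => ‖G.L (1 / 2 + t * I)‖ ^ 2 := G.continuous_L_half.norm.pow 2
    have c2 : Continuous fun t : ℝ => ‖H.L (1 / 2 + t * I)‖ ^ 2 := H.continuous_L_half.norm.pow 2
    have hp : 0 < X ^ θ := Real.rpow_pos_of_pos hX0 _
    have hq : 0 < X ^ (-θ) := Real.rpow_pos_of_pos hX0 _
    have hpq : X ^ θ * X ^ (-θ) = 1 := by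
      rw [← Real.rpow_add hX0, add_neg_cancel, Real.rpow_zero]
    calc ∫ t in -X..X, ‖F.L (1 / 2 + t * I)‖
        ≤ ∫ t in -X..X, (X ^ θ * ‖G.L (1 / 2 + t * I)‖ ^ 2 +
            X ^ (-θ) * ‖H.L (1 / 2 + t * I)‖ ^ 2) := by
          refine intervalIntegral.integral_mono_on (by linarith)
            (F.continuous_L_half.norm.intervalIntegrable _ _)
            (((c1.const_mul _).add (c2.const_mul _)).intervalIntegrable _ _) fun t _ => ?_
          rw [h _ (hne t), norm_mul]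
          set a := ‖G.L (1 / 2 + t * I)‖
          set b := ‖H.L (1 / 2 + t * I)‖
          have ha : 0 ≤ a := norm_nonneg _
          have hb : 0 ≤ b := norm_nonneg _
          have h5 : 0 ≤ X ^ θ * (a - X ^ (-θ) * b) ^ 2 := by positivity
          have h6 : X ^ θ * (a - X ^ (-θ) * b) ^ 2 = X ^ θ * a ^ 2 -
              2 * (a * b) * (X ^ θ * X ^ (-θ)) + (X ^ θ * X ^ (-θ)) * (X ^ (-θ) * b ^ 2) := by ring
          rw [h6, hpq] at h5
          have := mul_nonneg ha hb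
          linarith
      _ = X ^ θ * (∫ t in -X..X, ‖G.L (1 / 2 + t * I)‖ ^ 2) +
            X ^ (-θ) * ∫ t in -X..X, ‖H.L (1 / 2 + t * I)‖ ^ 2 := by
          rw [intervalIntegral.integral_add ((c1.const_mul _).intervalIntegrable _ _)
            ((c2.const_mul _).intervalIntegrable _ _), intervalIntegral.integral_const_mul,
            intervalIntegral.integral_const_mul]
      _ ≤ X ^ θ * (C₁ * X ^ (1 + ε)) + X ^ (-θ) * (C₂ * X ^ (1 + 2 * θ + ε)) :=
          add_le_add (mul_le_mul_of_nonneg_left (h₁ X hX) hp.le)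
            (mul_le_mul_of_nonneg_left (h₂ X hX) hq.le)
      _ = (C₁ + C₂) * X ^ (1 + θ + ε) := by
          have e1 : X ^ θ * X ^ (1 + ε) = X ^ (1 + θ + ε) := by
            rw [← Real.rpow_add hX0]
            congr 1
            ring
          have e2 : X ^ (-θ) * X ^ (1 + 2 * θ + ε) = X ^ (1 + θ + ε) := by
            rw [← Real.rpow_add hX0]
            congr 1
            ring
          linear_combination C₁ * e1 + C₂ * e2
  refine ⟨C₄ * (C₃ * (C₁ + C₂)), by positivity, fun m₁ T U μ hm hT hU hμ hM => ?_⟩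
  have hU0 : 0 < U := by linarith
  have h5 := h₃ (fun t : ℝ => ‖F.L (1 / 2 + t * I)‖) (C₁ + C₂) U F.continuous_L_half.norm
    (fun _ => norm_nonneg _) (by positivity) hU hX
  have hc : 0 ≤ C₄ * μ * √T := by positivity
  calc ∫⁻ t in Bl U, ‖F.Psi m₁ T t‖ₑ
      ≤ ∫⁻ t in Bl U, ENNReal.ofReal (C₄ * μ * √T) * ENNReal.ofReal
          (∫ v : ℝ, ‖F.L (1 / 2 + (t + v : ℝ) * I)‖ * Real.exp (-v ^ 2 / 2)) := by
        refine setLIntegral_mono' (measurableSet_Bl U) fun t ht => ?_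
        rw [← ofReal_norm, ← ENNReal.ofReal_mul hc]
        exact ENNReal.ofReal_le_ofReal (h₄ m₁ T U μ t hm hT hμ hM ht).2
    _ ≤ ENNReal.ofReal (C₄ * μ * √T) * ENNReal.ofReal (C₃ * (C₁ + C₂) * U ^ (1 + θ + ε)) := by
        rw [lintegral_const_mul' _ _ ENNReal.ofReal_ne_top]
        exact mul_le_mul_right h5 _
    _ ≤ _ := by
        rw [← ENNReal.ofReal_mul hc]
        refine ENNReal.ofReal_le_ofReal ?_
        rw [Real.rpow_add hU0, Real.rpow_add hU0, Real.rpow_one]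
        have e1 : 0 ≤ C₄ * (C₃ * (C₁ + C₂)) * U ^ ε * U⁻¹ := by positivity
        nlinarith [e1]

end Sel

end Pool.Agent.Lib.MP_2a1a00_nt
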