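import Pool.Agent.Lib.MP_2a1a00_nt.Defs

/-! Dyadic blocks and Fourier integrals. -/

namespace Pool.Agent.Lib.MP_2a1a00_nt

open Complex MeasureTheory Set

/- The blocks `Bl (2 ^ j)` cover the line (`exists_nat_pow_near`); `lintegral_iUnion_le`,
`ENNReal.ofReal_tsum_of_nonneg`, geometric series. -/
theorem dy {ε : ℝ} (hε : 0 < ε) : ∃ C : ℝ, 0 < C ∧ ∀ (f : ℝ → ENNReal) (B : ℝ), 0 ≤ B →
    (∀ U : ℝ, 1 ≤ U → ∫⁻ t in Bl U, f t ≤ ENNReal.ofReal (B * U ^ (-ε))) →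
    ∫⁻ t, f t ≤ ENNReal.ofReal (C * B) := by
  have hr0 : (0 : ℝ) ≤ (2 : ℝ) ^ (-ε) := by positivity
  have hr1 : (2 : ℝ) ^ (-ε) < 1 := Real.rpow_lt_one_of_one_lt_of_neg one_lt_two (by linarith)
  refine ⟨(1 - (2 : ℝ) ^ (-ε))⁻¹, inv_pos.2 (by linarith), fun f B hB h => ?_⟩
  have hcov : (⋃ j : ℕ, Bl (2 ^ j)) = univ := by
    refine eq_univ_of_forall fun t => ?_
    obtain ⟨j, h1, h2⟩ := exists_nat_pow_near (one_le_jb t) (one_lt_two (α := ℝ))
    exact mem_iUnion.2 ⟨j, h1, by rw [pow_succ] at h2; linarith⟩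
  have hpow : ∀ j : ℕ, ((2 : ℝ) ^ j) ^ (-ε) = ((2 : ℝ) ^ (-ε)) ^ j := fun j => by
    rw [← Real.rpow_natCast, ← Real.rpow_natCast, ← Real.rpow_mul zero_le_two,
      ← Real.rpow_mul zero_le_two, mul_comm]
  calc ∫⁻ t, f t = ∫⁻ t in ⋃ j : ℕ, Bl (2 ^ j), f t := by rw [hcov, Measure.restrict_univ]
    _ ≤ ∑' j : ℕ, ∫⁻ t in Bl (2 ^ j), f t := lintegral_iUnion_le _ _
    _ ≤ ∑' j : ℕ, ENNReal.ofReal (B * ((2 : ℝ) ^ (-ε)) ^ j) :=
      ENNReal.tsum_le_tsum fun j => by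
        rw [← hpow]
        exact h _ (one_le_pow₀ one_le_two)
    _ = ENNReal.ofReal (∑' j : ℕ, B * ((2 : ℝ) ^ (-ε)) ^ j) :=
      (ENNReal.ofReal_tsum_of_nonneg (fun j => by positivity)
        ((summable_geometric_of_lt_one hr0 hr1).mul_left B)).symm
    _ = _ := by rw [tsum_mul_left, tsum_geometric_of_lt_one hr0 hr1, mul_comm]

theorem Bl_subset {U : ℝ} (hU : 1 ≤ U) : Bl U ⊆ Ioc (-(2 * U)) (-(2 * U) + 4 * U) := by
  rintro t ⟨-, h2⟩
  unfold jb at h2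
  have := abs_le.1 (show |t| ≤ 2 * U - 1 by linarith)
  constructor <;> linarith [this.1, this.2]

theorem volume_Bl {U : ℝ} (hU : 1 ≤ U) : volume (Bl U) ≤ ENNReal.ofReal (4 * U) := by
  refine (measure_mono (Bl_subset hU)).trans ?_
  rw [Real.volume_Ioc, add_sub_cancel_left]

/- Induction on `n` for `X ≤ 2 ^ n`, with the constant
`max (∫ x in 1..2, ‖f x‖) (C / (2 ^ c - 1))`; `integral_add_adjacent_intervals` at `X / 2`. -/
theorem dsum {f : ℝ → ℂ} (hf : ∀ a b : ℝ, 1 ≤ a → 1 ≤ b → IntervalIntegrable f volume a b)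
    {c C : ℝ} (hc : 0 < c) (h : ∀ T : ℝ, 1 ≤ T → ‖∫ x in T..2 * T, f x‖ ≤ C * T ^ c) :
    ∃ C' : ℝ, 0 < C' ∧ ∀ X : ℝ, 1 ≤ X → ‖∫ x in (1 : ℝ)..X, f x‖ ≤ C' * X ^ c := by
  have h2c : (1 : ℝ) < 2 ^ c := Real.one_lt_rpow one_lt_two hc
  set M : ℝ := ∫ x in (1 : ℝ)..2, ‖f x‖ with hM
  set C' : ℝ := max (max M (C / (2 ^ c - 1))) 1 with hC'
  have hC1 : 1 ≤ C' := le_max_right _ _
  have hCM : M ≤ C' := (le_max_left _ _).trans (le_max_left _ _)
  have hCC : C ≤ C' * (2 ^ c - 1) :=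
    (div_le_iff₀ (by linarith)).1 ((le_max_right _ _).trans (le_max_left _ _))
  have base : ∀ X : ℝ, 1 ≤ X → X ≤ 2 → ‖∫ x in (1 : ℝ)..X, f x‖ ≤ C' * X ^ c := by
    intro X h1 h2
    have hX : 1 ≤ X ^ c := Real.one_le_rpow h1 hc.le
    calc ‖∫ x in (1 : ℝ)..X, f x‖ ≤ ∫ x in (1 : ℝ)..X, ‖f x‖ :=
          intervalIntegral.norm_integral_le_integral_norm h1
      _ ≤ M := intervalIntegral.integral_mono_interval le_rfl h1 h2
          (Filter.Eventually.of_forall fun x => norm_nonneg _) (hf 1 2 le_rfl one_le_two).norm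
      _ ≤ C' * 1 := by linarith
      _ ≤ C' * X ^ c := by gcongr
  have key : ∀ n : ℕ, ∀ X : ℝ, 1 ≤ X → X ≤ 2 ^ n → ‖∫ x in (1 : ℝ)..X, f x‖ ≤ C' * X ^ c := by
    intro n
    induction n with
    | zero => exact fun X h1 h2 => base X h1 (by rw [pow_zero] at h2; linarith)
    | succ n ih =>
      intro X h1 h2
      rcases le_total X 2 with h3 | h3
      · exact base X h1 h3
      have hX2 : 1 ≤ X / 2 := by linarith
      have e1 := ih (X / 2) hX2 (by rw [pow_succ] at h2; linarith)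
      have e2 := h (X / 2) hX2
      rw [show 2 * (X / 2) = X by ring] at e2
      have e3 : X ^ c = (X / 2) ^ c * 2 ^ c := by
        rw [← Real.mul_rpow (by linarith) zero_le_two, div_mul_cancel₀ _ two_ne_zero]
      have e4 : 0 ≤ (X / 2) ^ c := by positivity
      rw [← intervalIntegral.integral_add_adjacent_intervals (hf 1 (X / 2) le_rfl hX2)
        (hf (X / 2) X hX2 h1)]
      refine (norm_add_le _ _).trans ?_
      rw [e3]
      nlinarith [mul_le_mul_of_nonneg_right hCC e4]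
  refine ⟨C', by linarith, fun X hX => ?_⟩
  obtain ⟨n, -, hn⟩ := exists_nat_pow_near hX (one_lt_two (α := ℝ))
  exact key (n + 1) X hX hn.le

/- Induction on `n`: `‖J V‖ ≤ (n + 1) * K` for `a ≤ V ≤ min (2 ^ n * a) b`; take `n` with
`2 ^ n ≤ b < 2 ^ (n + 1)`, and `n + 2 ≤ C * (2 ^ n) ^ ε`. -/
theorem chain {ε : ℝ} (hε : 0 < ε) : ∃ C : ℝ, 0 < C ∧ ∀ (J : ℝ → ℂ) (a b K : ℝ), 1 ≤ a → a ≤ b →
    ‖J a‖ ≤ K → (∀ V W : ℝ, a ≤ V → V ≤ W → W ≤ 2 * V → W ≤ b → ‖J W - J V‖ ≤ K) →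
    ‖J b‖ ≤ C * b ^ ε * K := by
  have h2 : (1 : ℝ) < 2 ^ ε := Real.one_lt_rpow one_lt_two hε
  set δ : ℝ := 2 ^ ε - 1 with hδ
  have hδ0 : 0 < δ := by linarith
  refine ⟨2 + δ⁻¹, by positivity, fun J a b K ha hab hK h => ?_⟩
  have hK0 : 0 ≤ K := (norm_nonneg _).trans hK
  have key : ∀ n : ℕ, ∀ V : ℝ, a ≤ V → V ≤ 2 ^ n * a → V ≤ b → ‖J V‖ ≤ (n + 1) * K := by
    intro n
    induction n with
    | zero =>
      intro V h1 h2 _
      rw [pow_zero, one_mul] at h2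
      rw [le_antisymm h2 h1]
      simpa using hK
    | succ n ih =>
      intro V h1 h2 h3
      have hp : (1 : ℝ) ≤ 2 ^ n := one_le_pow₀ one_le_two
      have hV : max a (V / 2) ≤ V := max_le h1 (by linarith)
      have e1 := ih (max a (V / 2)) (le_max_left _ _)
        (max_le (by nlinarith) (by rw [pow_succ] at h2; linarith)) (hV.trans h3)
      have e2 := h (max a (V / 2)) V (le_max_left _ _) hV
        (by linarith [le_max_right a (V / 2)]) h3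
      have e3 : ‖J V‖ ≤ ‖J V - J (max a (V / 2))‖ + ‖J (max a (V / 2))‖ := by
        simpa using norm_add_le (J V - J (max a (V / 2))) (J (max a (V / 2)))
      push_cast
      linarith
  obtain ⟨n, hn1, hn2⟩ := exists_nat_pow_near (ha.trans hab) (one_lt_two (α := ℝ))
  have hp : (0 : ℝ) ≤ 2 ^ (n + 1) := by positivity
  refine (key (n + 1) b hab (by nlinarith) le_rfl).trans (mul_le_mul_of_nonneg_right ?_ hK0)
  have e1 : 1 + n * δ ≤ b ^ ε := by
    calc 1 + n * δ ≤ (1 + δ) ^ n := one_add_mul_le_pow (by linarith) n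
      _ = ((2 : ℝ) ^ n) ^ ε := by
        rw [hδ, add_sub_cancel, ← Real.rpow_natCast, ← Real.rpow_natCast,
          ← Real.rpow_mul zero_le_two, ← Real.rpow_mul zero_le_two, mul_comm]
      _ ≤ b ^ ε := by gcongr
  have e2 : (2 + δ⁻¹) * (1 + n * δ) = 2 + 2 * (n * δ) + δ⁻¹ + n := by
    field_simp
    ring
  have e3 : 0 ≤ n * δ := by positivity
  have e4 : 0 < δ⁻¹ := by positivity
  push_cast
  calc (n : ℝ) + 1 + 1 ≤ (2 + δ⁻¹) * (1 + n * δ) := by rw [e2]; linarith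
    _ ≤ _ := by gcongr

variable {Ψ Ψ₁ Ψ₂ : ℝ → ℂ}

theorem dy_norm_exp (x : ℝ) : ‖exp (I * x)‖ = 1 := by
  rw [mul_comm, norm_exp_ofReal_mul_I]

theorem dy_enorm_exp (x : ℝ) : ‖exp (I * x)‖ₑ = 1 := by
  rw [← ofReal_norm, dy_norm_exp, ENNReal.ofReal_one]

/- `continuous_of_dominated`. -/
theorem continuous_four (h : Integrable Ψ) : Continuous (four Ψ) := by
  refine continuous_of_dominated (bound := fun t => ‖Ψ t‖)
    (fun u => h.aestronglyMeasurable.mul (Continuous.aestronglyMeasurable (by fun_prop)))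
    (fun u => Filter.Eventually.of_forall fun t => ?_) h.norm
    (Filter.Eventually.of_forall fun t => by fun_prop)
  rw [norm_mul, dy_norm_exp, mul_one]

theorem four_sup {B : ℝ} (hB : 0 ≤ B) (h : ∫⁻ t, ‖Ψ t‖ₑ ≤ ENNReal.ofReal B) (u : ℝ) :
    ‖four Ψ u‖ ≤ B := by
  rw [← ENNReal.ofReal_le_ofReal_iff hB, ofReal_norm]
  refine (enorm_integral_le_lintegral_enorm _).trans (le_trans (le_of_eq ?_) h)
  refine lintegral_congr fun t => ?_
  rw [enorm_mul, dy_enorm_exp, mul_one]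

/- `integral_prod_mul` writes the product as an integral over the plane; Fubini for
`(u, p) ↦ Ψ₁ p.1 * Ψ₂ p.2 * (k u * exp (i (p.1 + p.2) u))` (`Integrable.mul_prod`,
`integral_integral_swap`); `enorm_integral_le_lintegral_enorm`, `lintegral_prod_symm`. -/
theorem four_mul {k : ℝ → ℂ} (h1 : Integrable Ψ₁) (h2 : Integrable Ψ₂) (hk : Integrable k) :
    ‖∫ u : ℝ, four Ψ₁ u * four Ψ₂ u * k u‖ₑ ≤
      ∫⁻ t', ∫⁻ t, ‖Ψ₁ t‖ₑ * ‖Ψ₂ t'‖ₑ * ‖four k (t + t')‖ₑ := by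
  have hp : Integrable (fun p : ℝ × ℝ => Ψ₁ p.1 * Ψ₂ p.2) (volume.prod volume) := h1.mul_prod h2
  have hF : Integrable (Function.uncurry fun (u : ℝ) (p : ℝ × ℝ) =>
      Ψ₁ p.1 * Ψ₂ p.2 * (k u * exp (I * (u * (p.1 + p.2) : ℝ))))
      (volume.prod (volume.prod volume)) := by
    have := (hk.mul_prod hp).mul_bdd (c := 1)
      (g := fun q : ℝ × ℝ × ℝ => exp (I * (q.1 * (q.2.1 + q.2.2) : ℝ)))
      (Continuous.aestronglyMeasurable (by fun_prop))
      (Filter.Eventually.of_forall fun q => (dy_norm_exp _).le)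
    refine this.congr (Filter.Eventually.of_forall fun q => ?_)
    simp only [Function.uncurry]
    ring
  have e1 : ∀ u : ℝ, four Ψ₁ u * four Ψ₂ u * k u = ∫ p : ℝ × ℝ,
      Ψ₁ p.1 * Ψ₂ p.2 * (k u * exp (I * (u * (p.1 + p.2) : ℝ))) ∂(volume.prod volume) := by
    intro u
    unfold four
    rw [← integral_prod_mul, ← integral_mul_const]
    refine integral_congr_ae (Filter.Eventually.of_forall fun p => ?_)
    have : (I * (u * (p.1 + p.2) : ℝ) : ℂ) = I * (p.1 * u : ℝ) + I * (p.2 * u : ℝ) := by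
      push_cast
      ring
    simp only [this, exp_add]
    ring
  have e2 : ∀ p : ℝ × ℝ, ∫ u : ℝ, Ψ₁ p.1 * Ψ₂ p.2 * (k u * exp (I * (u * (p.1 + p.2) : ℝ))) =
      Ψ₁ p.1 * Ψ₂ p.2 * four k (p.1 + p.2) := fun p => by
    rw [integral_const_mul]
    rfl
  simp only [e1]
  rw [integral_integral_swap hF]
  simp only [e2]
  refine (enorm_integral_le_lintegral_enorm _).trans (le_of_eq ?_)
  rw [lintegral_prod_symm]
  · simp only [enorm_mul]
  · exact (hp.aestronglyMeasurable.mul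
      (((continuous_four hk).comp (by fun_prop)).aestronglyMeasurable)).enorm

theorem dy_mul_le (x y : ENNReal) : x * y ≤ x ^ 2 + y ^ 2 := by
  rcases le_total x y with h | h
  · exact (mul_le_mul_left h y).trans (by rw [← pow_two]; exact le_add_self)
  · exact (mul_le_mul_right h x).trans (by rw [← pow_two]; exact le_self_add)

theorem dy_four_conj (Ψ : ℝ → ℂ) (u : ℝ) :
    four (fun t => (starRingEnd ℂ) (Ψ (-t))) u = (starRingEnd ℂ) (four Ψ u) := by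
  unfold four
  rw [← integral_conj, ← integral_neg_eq_self]
  refine integral_congr_ae (Filter.Eventually.of_forall fun t => ?_)
  simp only [neg_neg, map_mul, ← exp_conj, conj_I, conj_ofReal]
  congr 2
  push_cast
  ring

theorem dy_four_gauss (a τ : ℝ) :
    ‖four (fun u => ((Real.exp (-(u - a) ^ 2) : ℝ) : ℂ)) τ‖ =
      ‖((Real.pi : ℂ) / -(-1)) ^ (1 / 2 : ℂ)‖ * Real.exp (-(1 / 4) * τ ^ 2) := by
  have h := integral_cexp_quadratic (b := -1) (by simp) (2 * a + I * τ) (-a ^ 2)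
  have e : four (fun u => ((Real.exp (-(u - a) ^ 2) : ℝ) : ℂ)) τ =
      ∫ x : ℝ, exp (-1 * x ^ 2 + (2 * a + I * τ) * x + -a ^ 2) := by
    unfold four
    refine integral_congr_ae (Filter.Eventually.of_forall fun x => ?_)
    simp only [ofReal_exp, ← exp_add]
    congr 1
    push_cast
    ring
  rw [e, h, norm_mul, norm_exp]
  congr 2
  have : (-(a : ℂ) ^ 2 - (2 * a + I * τ) ^ 2 / (4 * -1)) =
      ((-(1 / 4) * τ ^ 2 : ℝ) : ℂ) + ((a * τ : ℝ) : ℂ) * I := by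
    push_cast
    linear_combination (τ : ℂ) ^ 2 / 4 * I_sq
  rw [this, add_re, ofReal_re, re_ofReal_mul, I_re, mul_zero, add_zero]

/- Majorise the indicator function by `e * exp (-(u - a) ^ 2)`; `four_mul` with
`Ψ₂ t = conj (Ψ (-t))`, so that `four Ψ₂ u = conj (four Ψ u)`, and `k u = exp (-(u - a) ^ 2)`, so that
`‖four k τ‖ = √π * exp (-τ ^ 2 / 4)` (`integral_cexp_quadratic`); `x * y ≤ x ^ 2 + y ^ 2`. -/
theorem l2 : ∃ C : ℝ, 0 < C ∧ ∀ (Ψ : ℝ → ℂ) (B a : ℝ), Integrable Ψ → 0 ≤ B →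
    ∫⁻ t, ‖Ψ t‖ₑ ^ 2 ≤ ENNReal.ofReal B → ∫ u in a..a + 1, ‖four Ψ u‖ ^ 2 ≤ C * B := by
  set c : ℝ := ‖((Real.pi : ℂ) / -(-1)) ^ (1 / 2 : ℂ)‖ with hc
  have hc0 : 0 ≤ c := norm_nonneg _
  set g : ℝ → ENNReal := fun τ => ENNReal.ofReal (c * Real.exp (-(1 / 4) * τ ^ 2)) with hg
  have hgm : Measurable g := by rw [hg]; fun_prop
  set G : ℝ := ∫ τ : ℝ, c * Real.exp (-(1 / 4) * τ ^ 2) with hG
  have hG0 : 0 ≤ G := integral_nonneg fun τ => by positivity
  have hgG : ∫⁻ τ, g τ = ENNReal.ofReal G :=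
    (ofReal_integral_eq_lintegral_ofReal ((integrable_exp_neg_mul_sq (by norm_num)).const_mul c)
      (Filter.Eventually.of_forall fun τ => by positivity)).symm
  refine ⟨Real.exp 1 * (2 * G) + 1, by positivity, fun Ψ B a hΨ hB h => ?_⟩
  set Ψ₂ : ℝ → ℂ := fun t => (starRingEnd ℂ) (Ψ (-t)) with hΨ₂
  have hΨ' : Integrable fun t => Ψ (-t) := hΨ.comp_neg
  have h2 : Integrable Ψ₂ := (conjCLE.integrable_comp_iff (φ := fun t => Ψ (-t))).2 hΨ'
  set k : ℝ → ℂ := fun u => ((Real.exp (-(u - a) ^ 2) : ℝ) : ℂ) with hk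
  have hkr : Integrable fun u : ℝ => Real.exp (-(u - a) ^ 2) := by
    have := (integrable_exp_neg_mul_sq one_pos).comp_sub_right a
    simpa using this
  have hki : Integrable k := hkr.ofReal
  have hm := four_mul hΨ h2 hki
  have hn2 : ∀ t, ‖Ψ₂ t‖ₑ = ‖Ψ (-t)‖ₑ := fun t => by
    rw [← ofReal_norm, ← ofReal_norm, hΨ₂, RCLike.norm_conj]
  have ha1 : AEMeasurable (fun t => ‖Ψ t‖ₑ ^ 2) volume := hΨ.aestronglyMeasurable.enorm.pow_const 2
  have ha2 : AEMeasurable (fun t => ‖Ψ (-t)‖ₑ ^ 2) volume :=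
    hΨ'.aestronglyMeasurable.enorm.pow_const 2
  have hb1 : ∫⁻ t', ∫⁻ t, ‖Ψ t‖ₑ ^ 2 * g (t + t') ≤ ENNReal.ofReal (B * G) := by
    rw [lintegral_lintegral_swap
      (((ha1.comp_snd).mul (hgm.comp (by fun_prop)).aemeasurable))]
    have : ∀ t : ℝ, ∫⁻ t', ‖Ψ t‖ₑ ^ 2 * g (t + t') = ‖Ψ t‖ₑ ^ 2 * ENNReal.ofReal G := fun t => by
      rw [lintegral_const_mul _ (f := fun t' => g (t + t')) (by fun_prop),
        lintegral_add_left_eq_self g t, hgG]
    simp only [this]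
    rw [lintegral_mul_const' _ _ ENNReal.ofReal_ne_top, ENNReal.ofReal_mul hB]
    gcongr
  have hb2 : ∫⁻ t', ∫⁻ t, ‖Ψ (-t')‖ₑ ^ 2 * g (t + t') ≤ ENNReal.ofReal (B * G) := by
    have : ∀ t' : ℝ, ∫⁻ t, ‖Ψ (-t')‖ₑ ^ 2 * g (t + t') = ‖Ψ (-t')‖ₑ ^ 2 * ENNReal.ofReal G :=
      fun t' => by
        rw [lintegral_const_mul _ (f := fun t => g (t + t')) (by fun_prop),
          lintegral_add_right_eq_self g t', hgG]
    simp only [this]
    rw [lintegral_mul_const' _ _ ENNReal.ofReal_ne_top, ENNReal.ofReal_mul hB,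
      lintegral_neg_eq_self fun t => ‖Ψ t‖ₑ ^ 2]
    gcongr
  have hb : ∫⁻ t', ∫⁻ t, ‖Ψ t‖ₑ * ‖Ψ₂ t'‖ₑ * ‖four k (t + t')‖ₑ ≤ ENNReal.ofReal (2 * G * B) := by
    calc ∫⁻ t', ∫⁻ t, ‖Ψ t‖ₑ * ‖Ψ₂ t'‖ₑ * ‖four k (t + t')‖ₑ
        ≤ ∫⁻ t', ((∫⁻ t, ‖Ψ t‖ₑ ^ 2 * g (t + t')) + ∫⁻ t, ‖Ψ (-t')‖ₑ ^ 2 * g (t + t')) := by
          refine lintegral_mono fun t' => ?_
          rw [← lintegral_add_right _ (g := fun t => ‖Ψ (-t')‖ₑ ^ 2 * g (t + t')) (by fun_prop)]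
          refine lintegral_mono fun t => ?_
          rw [hn2, ← add_mul, ← ofReal_norm (four k _), hk, dy_four_gauss]
          exact mul_le_mul_left (dy_mul_le _ _) _
      _ = (∫⁻ t', ∫⁻ t, ‖Ψ t‖ₑ ^ 2 * g (t + t')) + ∫⁻ t', ∫⁻ t, ‖Ψ (-t')‖ₑ ^ 2 * g (t + t') := by
          refine lintegral_add_right' _ ?_
          have : ∀ t' : ℝ, ∫⁻ t, ‖Ψ (-t')‖ₑ ^ 2 * g (t + t') =
              ‖Ψ (-t')‖ₑ ^ 2 * ENNReal.ofReal G := fun t' => by
            rw [lintegral_const_mul _ (f := fun t => g (t + t')) (by fun_prop),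
              lintegral_add_right_eq_self g t', hgG]
          simp only [this]
          exact ha2.mul_const _
      _ ≤ ENNReal.ofReal (B * G) + ENNReal.ofReal (B * G) := add_le_add hb1 hb2
      _ = _ := by
          rw [← ENNReal.ofReal_add (by positivity) (by positivity)]
          congr 1
          ring
  have e1 : ∀ u : ℝ, four Ψ u * four Ψ₂ u * k u =
      ((‖four Ψ u‖ ^ 2 * Real.exp (-(u - a) ^ 2) : ℝ) : ℂ) := fun u => by
    rw [hΨ₂, dy_four_conj, mul_conj, normSq_eq_norm_sq, hk, ofReal_mul]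
  have hle := hm.trans hb
  simp only [e1] at hle
  rw [integral_complex_ofReal, ← ofReal_norm, ENNReal.ofReal_le_ofReal_iff (by positivity)] at hle
  have hle2 : ∫ u : ℝ, ‖four Ψ u‖ ^ 2 * Real.exp (-(u - a) ^ 2) ≤ 2 * G * B := by
    refine le_trans ?_ hle
    exact (le_abs_self _).trans (le_of_eq (RCLike.norm_ofReal (K := ℂ) _).symm)
  have hcont : Continuous fun u => ‖four Ψ u‖ ^ 2 := (continuous_four hΨ).norm.pow 2
  have hint : Integrable fun u : ℝ => ‖four Ψ u‖ ^ 2 * Real.exp (-(u - a) ^ 2) := by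
    refine hkr.bdd_mul (c := (∫ t, ‖Ψ t‖) ^ 2) hcont.aestronglyMeasurable
      (Filter.Eventually.of_forall fun u => ?_)
    rw [Real.norm_of_nonneg (by positivity)]
    refine pow_le_pow_left₀ (norm_nonneg _) (four_sup (integral_nonneg fun t => norm_nonneg _)
      (le_of_eq ?_) u) 2
    exact (ofReal_integral_norm_eq_lintegral_enorm hΨ).symm
  calc ∫ u in a..a + 1, ‖four Ψ u‖ ^ 2
      ≤ ∫ u in a..a + 1, Real.exp 1 * (‖four Ψ u‖ ^ 2 * Real.exp (-(u - a) ^ 2)) := by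
        refine intervalIntegral.integral_mono_on (by linarith) (hcont.intervalIntegrable _ _)
          (hint.const_mul _).intervalIntegrable fun u hu => ?_
        have h1 : (u - a) ^ 2 ≤ 1 := by nlinarith [hu.1, hu.2]
        have h3 : 1 ≤ Real.exp 1 * Real.exp (-(u - a) ^ 2) := by
          rw [← Real.exp_add]
          exact Real.one_le_exp (by linarith)
        nlinarith [sq_nonneg ‖four Ψ u‖]
    _ ≤ ∫ u, Real.exp 1 * (‖four Ψ u‖ ^ 2 * Real.exp (-(u - a) ^ 2)) := by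
        rw [intervalIntegral.integral_of_le (by linarith)]
        exact setIntegral_le_integral (hint.const_mul _)
          (Filter.Eventually.of_forall fun u => by positivity)
    _ ≤ Real.exp 1 * (2 * G * B) := by
        rw [integral_const_mul]
        gcongr
    _ ≤ _ := by nlinarith

end Pool.Agent.Lib.MP_2a1a00_nt
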