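import Pool.Agent.Lib.MP_2a1a00_nt.Tw
import Pool.Agent.Lib.MP_2a1a00_nt.Cj
import Pool.Agent.Lib.MP_2a1a00_nt.Dy
import Pool.Agent.Lib.MP_2a1a00_nt.Nm

/-! The mean square on the critical line. -/

namespace Pool.Agent.Lib.MP_2a1a00_nt

open Complex MeasureTheory Set

namespace Sel

variable (F : Sel)

theorem continuous_L2 : Continuous F.L2 :=
  continuous_ofReal.comp (F.continuous_L_half.norm.pow 2)

/- `tw` with `G = 1` (`nice_one`), `lam = 1 / T`, `B₀ = T`, `B₁ = 1`, `B₂ = √T`, `B₃ = 0`. -/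
theorem ms_dy {ε : ℝ} (hε : 0 < ε) : ∃ C : ℝ, 0 < C ∧ ∀ T : ℝ, 1 ≤ T →
    ‖∫ x in T..2 * T, F.L2 x‖ ≤ C * T ^ (max 1 (F.deg / 2) + ε) := by
  obtain ⟨C, hC, h⟩ := F.tw hε
  refine ⟨4 * C, by positivity, fun T hT => ?_⟩
  obtain ⟨M, hM, hA, hB⟩ := h T hT
  have hT0 : 0 < T := by linarith
  have hle : T ≤ 2 * T := by linarith
  have h1 := hA (fun _ => 1) T continuousOn_const (fun y hy => by
    rw [intervalIntegral.integral_const, real_smul, mul_one, norm_real, Real.norm_eq_abs,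
      abs_of_nonneg (by linarith [hy.1])]
    linarith [hy.2])
  have h2 := hB (fun _ => 1) (fun _ => 0) (1 / T) 1 (√T) 0 (nice_one T) le_rfl
    (by rw [div_le_one hT0]; exact hT) (fun x _ => by simp)
    (by
      simp only [nm, Sq, norm_one, one_pow, intervalIntegral.integral_const, smul_eq_mul, mul_one]
      rw [show 2 * T - T = T by ring])
    (by simp [nm, Sq])
  simp only [one_mul, mul_one, mul_zero, add_zero] at h1 h2
  have iM : IntervalIntegrable M volume T (2 * T) :=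
    ContinuousOn.intervalIntegrable (by rwa [uIcc_of_le hle])
  have iL : IntervalIntegrable F.L2 volume T (2 * T) := F.continuous_L2.intervalIntegrable _ _
  rw [intervalIntegral.integral_sub iL iM] at h2
  set κ := max 1 (F.deg / 2) with hκ
  have k1 : T ≤ T ^ κ := by
    simpa using Real.rpow_le_rpow_of_exponent_le hT (le_max_left 1 (F.deg / 2))
  have k2 : T ^ (F.deg / 2) ≤ T ^ κ := Real.rpow_le_rpow_of_exponent_le hT (le_max_right _ _)
  have k0 : 0 < T ^ (F.deg / 2) := Real.rpow_pos_of_pos hT0 _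
  have k3 : T ^ F.deg = T ^ (F.deg / 2) * T ^ (F.deg / 2) := by
    rw [← Real.rpow_add hT0]; congr 1; ring
  have k4 : √((T + T ^ F.deg) * (1 / T)) * √T ≤ 2 * T ^ κ := by
    rw [← Real.sqrt_mul (by positivity), mul_assoc, one_div_mul_cancel hT0.ne', mul_one]
    refine Real.sqrt_le_iff.2 ⟨by positivity, ?_⟩
    rw [k3]
    nlinarith [mul_le_mul k2 k2 k0.le (k0.le.trans k2)]
  have hp : 0 < C * T ^ ε := by positivity
  calc ‖∫ x in T..2 * T, F.L2 x‖
      = ‖(∫ x in T..2 * T, M x) + ((∫ x in T..2 * T, F.L2 x) - ∫ x in T..2 * T, M x)‖ := by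
        congr 1; ring
    _ ≤ C * T ^ ε * T + C * T ^ ε * (T ^ (F.deg / 2) + √((T + T ^ F.deg) * (1 / T)) * √T) :=
        (norm_add_le _ _).trans (add_le_add h1 h2)
    _ ≤ C * T ^ ε * T ^ κ + C * T ^ ε * (T ^ κ + 2 * T ^ κ) := by
        gcongr
    _ = 4 * C * T ^ (κ + ε) := by rw [Real.rpow_add hT0]; ring

theorem ms_half {κ : ℝ} (h1 : 1 ≤ κ) (h2 : F.deg ≤ 2 * κ) {ε : ℝ} (hε : 0 < ε) :
    ∃ C : ℝ, 0 < C ∧ ∀ X : ℝ, 1 ≤ X →
      ∫ t in (0 : ℝ)..X, ‖F.L (1 / 2 + t * I)‖ ^ 2 ≤ C * X ^ (κ + ε) := by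
  obtain ⟨C, hC, h⟩ := F.ms_dy hε
  have hm : max 1 (F.deg / 2) ≤ κ := max_le h1 (by linarith)
  obtain ⟨C', hC', h'⟩ := dsum (f := F.L2) (c := κ + ε) (C := C)
    (fun a b _ _ => F.continuous_L2.intervalIntegrable a b) (by linarith) (fun T hT =>
      (h T hT).trans (mul_le_mul_of_nonneg_left
        (Real.rpow_le_rpow_of_exponent_le hT (by linarith)) hC.le))
  have hc : Continuous fun t : ℝ => ‖F.L (1 / 2 + t * I)‖ ^ 2 := F.continuous_L_half.norm.pow 2
  set K := ∫ t in (0 : ℝ)..1, ‖F.L (1 / 2 + t * I)‖ ^ 2 with hK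
  refine ⟨|K| + C', by positivity, fun X hX => ?_⟩
  have hX1 : 1 ≤ X ^ (κ + ε) := Real.one_le_rpow hX (by linarith)
  have e := h' X hX
  unfold L2 at e
  rw [intervalIntegral.integral_ofReal, norm_real, Real.norm_eq_abs] at e
  rw [← intervalIntegral.integral_add_adjacent_intervals (b := 1) (hc.intervalIntegrable _ _)
    (hc.intervalIntegrable _ _), ← hK, add_mul]
  refine add_le_add ((le_abs_self K).trans ?_) ((le_abs_self _).trans e)
  exact le_mul_of_one_le_right (abs_nonneg K) hX1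

/- `dsum` for `F` and for the conjugate series (`exists_cj`, `intervalIntegral.integral_comp_neg`); the
integral over `[-1, 1]` is a constant. -/
theorem ms {κ : ℝ} (h1 : 1 ≤ κ) (h2 : F.deg ≤ 2 * κ) : F.MS κ := by
  intro ε hε
  obtain ⟨G, hG, hGL⟩ := F.exists_cj
  obtain ⟨C₁, hC₁, k₁⟩ := F.ms_half h1 h2 hε
  obtain ⟨C₂, hC₂, k₂⟩ := G.ms_half h1 (hG ▸ h2) hε
  have hc : Continuous fun t : ℝ => ‖F.L (1 / 2 + t * I)‖ ^ 2 := F.continuous_L_half.norm.pow 2
  refine ⟨C₂ + C₁, by positivity, fun X hX => ?_⟩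
  rw [← intervalIntegral.integral_add_adjacent_intervals (b := 0) (hc.intervalIntegrable _ _)
    (hc.intervalIntegrable _ _), add_mul]
  refine add_le_add ?_ (k₁ X hX)
  have e := k₂ X hX
  simp only [hGL] at e
  rw [intervalIntegral.integral_comp_neg (fun t : ℝ => ‖F.L (1 / 2 + t * I)‖ ^ 2), neg_zero] at e
  exact e

end Sel

end Pool.Agent.Lib.MP_2a1a00_nt
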