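import Pool.Agent.Lib.MP_2a1a00_nt.Nm

/-! From the variable `log x` back to the variable `x`. -/

namespace Pool.Agent.Lib.MP_2a1a00_nt

open Complex MeasureTheory Set

theorem x_log {T x : ℝ} (hT : 1 ≤ T) (hx : x ∈ Icc T (2 * T)) :
    0 ≤ Real.log x - Real.log T ∧ Real.log x - Real.log T ≤ 1 := by
  have h0 : 0 < T := by linarith
  have h1 := Real.log_le_log h0 hx.1
  have h2 := Real.log_le_log (h0.trans_le hx.1) hx.2
  rw [Real.log_mul two_ne_zero h0.ne'] at h2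
  have h3 := Real.log_le_sub_one_of_pos (show (0 : ℝ) < 2 by norm_num)
  constructor <;> linarith

theorem x_pt {B φ : ℝ → ℂ} {T x : ℝ} (hT : 1 ≤ T) (h : Loc B φ T) (hx : x ∈ Icc T (2 * T)) :
    ‖B x‖ ≤ 2 * ‖φ (Real.log x)‖ := by
  obtain ⟨h1, h2⟩ := x_log hT hx
  have h3 : 1 ≤ √Real.pi := Real.one_le_sqrt.2 (by linarith [Real.pi_gt_three])
  have h4 := Real.add_one_le_exp (-(Real.log x - Real.log T) ^ 2 / 4)
  have h5 : 1 / 2 ≤ Real.exp (-(Real.log x - Real.log T) ^ 2 / 4) := by nlinarith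
  have h6 := mul_le_mul h3 h5 (by norm_num) (by positivity)
  rw [← h x (by linarith [hx.1]), norm_mul, norm_real, Real.norm_of_nonneg (by positivity)]
  nlinarith [norm_nonneg (B x)]

theorem x_sub {E : Type} [NormedAddCommGroup E] [NormedSpace ℝ E] {ψ : ℝ → E}
    (hψ : Continuous ψ) {T y : ℝ} (hT : 0 < T) (hy : T ≤ y) :
    ∫ x in T..y, x⁻¹ • ψ (Real.log x) = ∫ u in Real.log T..Real.log y, ψ u := by
  have h : ∀ x ∈ uIcc T y, x ≠ 0 := fun x hx => by
    rw [uIcc_of_le hy] at hx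
    exact (hT.trans_le hx.1).ne'
  exact intervalIntegral.integral_deriv_smul_comp (fun x hx => Real.hasDerivAt_log (h x hx))
    (continuousOn_id.inv₀ h) hψ

theorem x_cont {E : Type} [NormedAddCommGroup E] [NormedSpace ℝ E] {ψ : ℝ → E}
    (hψ : Continuous ψ) {T y : ℝ} (hT : 0 < T) :
    ContinuousOn (fun x => x⁻¹ • ψ (Real.log x)) (Icc T y) := by
  have h : ∀ x ∈ Icc T y, x ≠ 0 := fun x hx => (hT.trans_le hx.1).ne'
  exact (continuousOn_id.inv₀ h).smul (hψ.comp_continuousOn (continuousOn_id.log h))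

/- For `x ∈ [T, 2 T]` the number `log x - log T` lies in `[0, log 2]`, and `log 2 ≤ 1`. -/
theorem x_sup : ∃ C : ℝ, 0 < C ∧ ∀ (B φ : ℝ → ℂ) (T Z : ℝ), 1 ≤ T → Loc B φ T →
    (∀ u, ‖φ u‖ ≤ Z) → ∀ x ∈ Icc T (2 * T), ‖B x‖ ≤ C * Z := by
  exact ⟨2, two_pos, fun B φ T Z hT h hZ x hx =>
    (x_pt hT h hx).trans (mul_le_mul_of_nonneg_left (hZ _) zero_le_two)⟩

/- `‖B x‖ ^ 2 ≤ C * T * (‖φ (log x)‖ ^ 2 * x⁻¹)`; substitute `u = log x`
(`intervalIntegral.integral_comp_mul_deriv'''`), `intervalIntegral.integral_mono_interval`. -/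
theorem x_l2 : ∃ C : ℝ, 0 < C ∧ ∀ (B φ : ℝ → ℂ) (T Z : ℝ), 1 ≤ T → Continuous φ → Loc B φ T →
    ∫ u in Real.log T..Real.log T + 1, ‖φ u‖ ^ 2 ≤ Z → Sq B T ≤ C * T * Z := by
  refine ⟨8, by norm_num, fun B φ T Z hT hφ h hZ => ?_⟩
  have h0 : 0 < T := by linarith
  have h2 : T ≤ 2 * T := by linarith
  have hψ : Continuous fun u => ‖φ u‖ ^ 2 := hφ.norm.pow 2
  have h3 : ‖∫ x in T..2 * T, ‖B x‖ ^ 2‖ ≤
      ∫ x in T..2 * T, 8 * T * (x⁻¹ • ‖φ (Real.log x)‖ ^ 2) := by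
    refine intervalIntegral.norm_integral_le_of_norm_le h2
      (Filter.Eventually.of_forall fun x hx => ?_)
      (((x_cont hψ h0).intervalIntegrable_of_Icc h2).const_mul _)
    have h4 := pow_le_pow_left₀ (norm_nonneg _) (x_pt hT h ⟨hx.1.le, hx.2⟩) 2
    have h5 : 1 ≤ 2 * T * x⁻¹ := by
      rw [← div_eq_mul_inv, le_div_iff₀ (h0.trans hx.1)]
      linarith [hx.2]
    have h6 := mul_le_mul_of_nonneg_right h5 (sq_nonneg ‖φ (Real.log x)‖)
    rw [Real.norm_of_nonneg (sq_nonneg _), smul_eq_mul]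
    linarith
  rw [intervalIntegral.integral_const_mul, x_sub hψ h0 h2] at h3
  obtain ⟨h4, h5⟩ := x_log hT ⟨h2, le_rfl⟩
  refine ((le_abs_self _).trans h3).trans (mul_le_mul_of_nonneg_left (le_trans ?_ hZ)
    (by positivity))
  exact intervalIntegral.integral_mono_interval le_rfl (by linarith) (by linarith)
    (Filter.Eventually.of_forall fun u => sq_nonneg _) (hψ.intervalIntegrable _ _)

/- `B₁ x * B₂ x = g x * w x` with `g x = φ₁ (log x) * φ₂ (log x) * x⁻¹` and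
`w x = x * exp ((log x - log T) ^ 2 / 2) / π`, `‖w x‖ ≤ C * T`, `‖w' x‖ ≤ C`; `parts` on `[T, y]`. -/
theorem x_bil : ∃ C : ℝ, 0 < C ∧ ∀ (B₁ B₂ φ₁ φ₂ : ℝ → ℂ) (T Z : ℝ), 1 ≤ T → Continuous φ₁ →
    Continuous φ₂ → Loc B₁ φ₁ T → Loc B₂ φ₂ T →
    (∀ b ∈ Icc (Real.log T) (Real.log T + 1), ‖∫ u in Real.log T..b, φ₁ u * φ₂ u‖ ≤ Z) →
    ∀ y ∈ Icc T (2 * T), ‖∫ x in T..y, B₁ x * B₂ x‖ ≤ C * T * Z := by
  refine ⟨4, by norm_num, fun B₁ B₂ φ₁ φ₂ T Z hT h₁ h₂ l₁ l₂ hZ y hy => ?_⟩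
  have h0 : 0 < T := by linarith
  have hψ : Continuous fun u => φ₁ u * φ₂ u := h₁.mul h₂
  have hZ0 : 0 ≤ Z := (norm_nonneg _).trans (hZ _ ⟨le_rfl, by linarith⟩)
  have hs : ∀ x ∈ Icc T y, x ∈ Icc T (2 * T) := fun x hx => ⟨hx.1, hx.2.trans hy.2⟩
  have hn : ∀ x ∈ Icc T y, x ≠ 0 := fun x hx => (h0.trans_le hx.1).ne'
  have he : ∀ x ∈ Icc T (2 * T), Real.exp ((Real.log x - Real.log T) ^ 2 / 2) / Real.pi ≤ 1 := by
    intro x hx
    obtain ⟨h3, h4⟩ := x_log hT hx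
    have h5 : Real.exp ((Real.log x - Real.log T) ^ 2 / 2) ≤ Real.exp 1 :=
      Real.exp_le_exp.2 (by nlinarith)
    rw [div_le_one Real.pi_pos]
    linarith [Real.exp_one_lt_three, Real.pi_gt_three]
  have h3 : ∫ x in T..y, B₁ x * B₂ x = ∫ x in T..y, (x⁻¹ • (φ₁ (Real.log x) * φ₂ (Real.log x))) *
      ((x * (Real.exp ((Real.log x - Real.log T) ^ 2 / 2) / Real.pi) : ℝ) : ℂ) := by
    refine intervalIntegral.integral_congr fun x hx => ?_
    rw [uIcc_of_le hy.1] at hx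
    have hx0 : 0 < x := h0.trans_le hx.1
    have h4 : x⁻¹ * ((√Real.pi * Real.exp (-(Real.log x - Real.log T) ^ 2 / 4)) ^ 2 *
        (x * (Real.exp ((Real.log x - Real.log T) ^ 2 / 2) / Real.pi))) = 1 := by
      have h5 : Real.exp (-(Real.log x - Real.log T) ^ 2 / 4) ^ 2 *
          Real.exp ((Real.log x - Real.log T) ^ 2 / 2) = 1 := by
        rw [sq, ← Real.exp_add, ← Real.exp_add, Real.exp_eq_one_iff]
        ring
      rw [mul_pow, Real.sq_sqrt Real.pi_pos.le]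
      generalize Real.exp (-(Real.log x - Real.log T) ^ 2 / 4) = e at h5
      field_simp
      linarith
    have h5 := congrArg (fun r : ℝ => (r : ℂ)) h4
    simp only [ofReal_mul x⁻¹, ofReal_mul (_ ^ 2), ofReal_pow, ofReal_one] at h5
    simp only [← l₁ x hx0, ← l₂ x hx0, real_smul]
    linear_combination -(B₁ x * B₂ x) * h5
  rw [h3]
  refine (parts (W₀ := 2 * T) (W₁ := 2) (Z := Z)
    (w' := fun x => ((Real.exp ((Real.log x - Real.log T) ^ 2 / 2) / Real.pi *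
      (1 + (Real.log x - Real.log T)) : ℝ) : ℂ)) hy.1 (x_cont hψ h0) (fun x hx => ?_) ?_
    (fun z hz => ?_) ?_ fun x hx => ?_).trans ?_
  · have h4 := (hasDerivAt_id x).mul
      ((((((Real.hasDerivAt_log (hn x hx)).sub_const (Real.log T)).pow 2).div_const 2).exp).div_const
        Real.pi)
    refine HasDerivAt.ofReal_comp (h4.congr_deriv ?_)
    have h5 := hn x hx
    simp only [id, Pi.pow_apply]
    field_simp
    ring
  · have h4 : ContinuousOn (fun x => Real.log x - Real.log T) (Icc T y) :=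
      (continuousOn_id.log hn).sub continuousOn_const
    exact continuous_ofReal.comp_continuousOn
      ((((h4.pow 2).div_const 2).rexp.div_const _).mul (continuousOn_const.add h4))
  · rw [x_sub hψ h0 hz.1]
    obtain ⟨h4, h5⟩ := x_log hT (hs z hz)
    exact hZ _ ⟨by linarith, by linarith⟩
  · have h4 : 0 < y := h0.trans_le hy.1
    rw [norm_real, Real.norm_of_nonneg (by positivity)]
    exact (mul_le_of_le_one_right h4.le (he y hy)).trans hy.2
  · obtain ⟨h4, h5⟩ := x_log hT (hs x hx)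
    rw [norm_real, Real.norm_of_nonneg (by positivity)]
    exact (mul_le_of_le_one_left (by linarith) (he x (hs x hx))).trans (by linarith)
  · exact mul_le_mul_of_nonneg_right (by linarith [hy.2]) hZ0

end Pool.Agent.Lib.MP_2a1a00_nt
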