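import Pool.Agent.Lib.MP_2a1a00_nt.Defs

/-! The size of the multipliers. -/

namespace Pool.Agent.Lib.MP_2a1a00_nt

open Complex MeasureTheory Set

theorem mulx_ne {V : ℝ} (hV : 1 ≤ V) {s : ℂ} (hs : -1 < s.re) : s + V ≠ 0 := fun h => by
  have h1 := congrArg re h
  rw [add_re, ofReal_re, zero_re] at h1
  linarith

theorem mulx_two {V : ℝ} (hV : 1 ≤ V) {s : ℂ} (hs : -1 / 2 ≤ s.re) : ‖(V : ℂ) / (s + V)‖ ≤ 2 := by
  have h1 := re_le_norm (s + V)
  rw [add_re, ofReal_re] at h1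
  rw [norm_div, Complex.norm_of_nonneg (by linarith), div_le_iff₀ (by linarith)]
  linarith

theorem mulx_min {U V : ℝ} (hU : 1 ≤ U) (hV : 1 ≤ V) :
    0 < min 1 (V / U) ∧ U * min 1 (V / U) ≤ V :=
  ⟨lt_min one_pos (by positivity), (le_div_iff₀' (by positivity)).1 (min_le_right _ _)⟩

theorem mulx_rpow {δ κ U V : ℝ} (h0 : 0 ≤ δ) (h1 : δ ≤ κ) (hU : 1 ≤ U) (hV : 1 ≤ V) :
    U ^ δ * min 1 (V / U) ^ κ ≤ V ^ δ := by
  obtain ⟨a, b⟩ := mulx_min hU hV
  refine (mul_le_mul_of_nonneg_left (Real.rpow_le_rpow_of_exponent_ge a (min_le_left _ _) h1)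
    (by positivity)).trans ?_
  rw [← Real.mul_rpow (by positivity) a.le]
  exact Real.rpow_le_rpow (by positivity) b h0

theorem adm_mu1 {α β V W : ℝ} (h : |α + β| ≤ 1) (hV : 1 ≤ V) (hW : 1 ≤ W) : Adm (mu1 α β V W) := by
  refine ⟨fun s hs => ?_, ⟨|α| * 2 + |β| * 2, fun s hs => ?_⟩, ?_⟩
  · have h1 := mulx_ne hV hs
    have h2 := mulx_ne hW hs
    refine DifferentiableAt.differentiableWithinAt ?_
    unfold mu1
    fun_prop (disch := assumption)
  · refine (norm_add_le _ _).trans ?_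
    rw [norm_mul, norm_mul, norm_real, norm_real]
    exact add_le_add (mul_le_mul_of_nonneg_left (mulx_two hV hs) (abs_nonneg _))
      (mul_le_mul_of_nonneg_left (mulx_two hW hs) (abs_nonneg _))
  · rw [mu1, zero_add, zero_add, div_self (ofReal_ne_zero.2 (by linarith)),
      div_self (ofReal_ne_zero.2 (by linarith)), mul_one, mul_one, ← ofReal_add, norm_real]
    exact h

/- `‖z‖ ≥ (|re z| + |im z|) / √2` and `(1 + |t + v|) * (1 + |v|) ≥ 1 + |t| ≥ U`. -/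
theorem mul_low {U t v σ : ℝ} (ht : t ∈ Bl U) (hσ : σ = 1 / 2 ∨ σ = -1 / 2) :
    U ≤ 3 * (1 + |v|) * ‖(σ + (t + v : ℝ) * I : ℂ)‖ := by
  have h1 := abs_re_le_norm (σ + (t + v : ℝ) * I : ℂ)
  have h2 := abs_im_le_norm (σ + (t + v : ℝ) * I : ℂ)
  have e1 : (σ + (t + v : ℝ) * I : ℂ).re = σ := by simp
  have e2 : (σ + (t + v : ℝ) * I : ℂ).im = t + v := by simp
  have h3 : 1 / 2 ≤ |σ| := by rcases hσ with h | h <;> rw [h] <;> norm_num [abs_of_nonneg, abs_of_neg]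
  have h4 : U ≤ 1 + |t| := ht.1
  have h5 := abs_sub (t + v) v
  rw [add_sub_cancel_right] at h5
  rw [e1] at h1
  rw [e2] at h2
  nlinarith [abs_nonneg v, abs_nonneg (t + v)]

/- The real part is at least `V - 1 / 2 ≥ (V + 1) / 4`. -/
theorem mul_low' {U V t v σ : ℝ} (ht : t ∈ Bl U) (hσ : σ = 1 / 2 ∨ σ = -1 / 2) (hV : 1 ≤ V) :
    V + U ≤ 6 * (1 + |v|) * ‖(σ + (t + v : ℝ) * I + V : ℂ)‖ := by
  have h1 := re_le_norm (σ + (t + v : ℝ) * I + V : ℂ)
  have h2 := abs_im_le_norm (σ + (t + v : ℝ) * I + V : ℂ)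
  have e1 : (σ + (t + v : ℝ) * I + V : ℂ).re = σ + V := by simp
  have e2 : (σ + (t + v : ℝ) * I + V : ℂ).im = t + v := by simp
  have h3 : -1 / 2 ≤ σ := by rcases hσ with h | h <;> linarith
  have h4 : U ≤ 1 + |t| := ht.1
  have h5 := abs_sub (t + v) v
  rw [add_sub_cancel_right] at h5
  rw [e1] at h1
  rw [e2] at h2
  nlinarith [abs_nonneg v, abs_nonneg (t + v)]

theorem mulx_inv {a c : ℝ} (ha : 0 < a) {s : ℂ} (h : a ≤ c * ‖s‖) : ‖s⁻¹‖ ≤ c * a⁻¹ := by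
  have hs : 0 < ‖s‖ := norm_pos_iff.2 fun e => by
    rw [e, norm_zero, mul_zero] at h
    linarith
  rw [norm_inv, ← div_eq_mul_inv, le_div_iff₀ ha, inv_mul_le_iff₀ hs, mul_comm]
  exact h

theorem mulx_q {U V t v σ : ℝ} (ht : t ∈ Bl U) (hσ : σ = 1 / 2 ∨ σ = -1 / 2) (hV : 1 ≤ V)
    (hU : 1 ≤ U) :
    ‖(V : ℂ) / (σ + (t + v : ℝ) * I + V)‖ ≤ 6 * (1 + |v|) * min 1 (V / U) := by
  have h := mulx_inv (by positivity) (mul_low' (v := v) ht hσ hV)
  have h2 : V * (V + U)⁻¹ ≤ min 1 (V / U) := by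
    rw [← div_eq_mul_inv]
    exact le_min ((div_le_one (by positivity)).2 (by linarith))
      (div_le_div_of_nonneg_left (by linarith) (by linarith) (by linarith))
  rw [div_eq_mul_inv, norm_mul, Complex.norm_of_nonneg (by linarith)]
  refine (mul_le_mul_of_nonneg_left h (by linarith)).trans ?_
  rw [mul_left_comm]
  exact mul_le_mul_of_nonneg_left h2 (by positivity)

theorem mulx_re {t σ : ℝ} (hσ : σ = 1 / 2 ∨ σ = -1 / 2) :
    -1 < (σ + t * I : ℂ).re ∧ (σ + t * I : ℂ) ≠ 0 := by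
  have e : (σ + t * I : ℂ).re = σ := by simp
  refine ⟨?_, fun h => ?_⟩
  · rcases hσ with h | h <;> linarith
  · rw [h, zero_re] at e
    rcases hσ with h | h <;> linarith

theorem mulx_cube (v : ℝ) : (1 + |v|) ^ 2 ≤ (1 + |v|) ^ 3 :=
  pow_le_pow_right₀ (le_add_of_nonneg_right (abs_nonneg v)) (by norm_num)

/- `V / (V + U) ≤ min 1 (V / U)`. -/
theorem hm_a : ∃ C : ℝ, 0 < C ∧ ∀ V U : ℝ, 1 ≤ V → 1 ≤ U →
    HM (mu1 1 0 V V) U (C * U⁻¹ * min 1 (V / U)) := by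
  refine ⟨18, by norm_num, fun V U hV hU t ht v σ hσ => ?_⟩
  have h1 := mulx_q (v := v) ht hσ hV hU
  have h2 := mulx_inv (by positivity) (mul_low (v := v) ht hσ)
  have h3 := (mulx_min hU hV).1
  rw [mu1, ofReal_one, ofReal_zero, one_mul, zero_mul, add_zero, div_eq_mul_inv, norm_mul]
  refine (mul_le_mul h1 h2 (norm_nonneg _) (by positivity)).trans (le_of_eq_of_le ?_
    (mul_le_mul_of_nonneg_left (mulx_cube v) (by positivity)))
  ring

/- `mu1 1 (-1) W V s / s = (W - V) / ((s + W) * (s + V))`. -/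
theorem hm_b : ∃ C : ℝ, 0 < C ∧ ∀ V W U : ℝ, 1 ≤ V → V ≤ W → 1 ≤ U →
    HM (mu1 1 (-1) W V) U (C * (V + U)⁻¹ * min 1 (W / U)) := by
  refine ⟨36, by norm_num, fun V W U hV hW hU t ht v σ hσ => ?_⟩
  have hW' := hV.trans hW
  have h1 := mulx_q (v := v) ht hσ hW' hU
  have h2 := mulx_inv (by positivity) (mul_low' (v := v) ht hσ hV)
  have h3 := (mulx_min hU hW').1
  obtain ⟨h4, h5⟩ := mulx_re (t := t + v) hσ
  have h6 := mulx_ne hV h4
  have h7 := mulx_ne hW' h4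
  have h8 : (W : ℂ) ≠ 0 := ofReal_ne_zero.2 (by linarith)
  generalize (σ + (t + v : ℝ) * I : ℂ) = s at *
  have e : mu1 1 (-1) W V s / s = ((W - V) / W : ℝ) * (W / (s + W) * (s + V)⁻¹) := by
    rw [mu1]
    push_cast
    field_simp
    ring
  have h9 : ‖(((W - V) / W : ℝ) : ℂ)‖ ≤ 1 := by
    rw [Complex.norm_of_nonneg (div_nonneg (by linarith) (by linarith)), div_le_one (by linarith)]
    linarith
  rw [e, norm_mul, norm_mul]
  refine (mul_le_of_le_one_left (by positivity) h9).trans ((mul_le_mul h1 h2 (norm_nonneg _)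
    (by positivity)).trans (le_of_eq_of_le ?_
      (mul_le_mul_of_nonneg_left (mulx_cube v) (by positivity))))
  ring

/- `mu1 2 (-1) W (2 * W) s = 2 * W ^ 2 / ((s + W) * (s + 2 * W))`. -/
theorem hm_c : ∃ C : ℝ, 0 < C ∧ ∀ W U : ℝ, 1 ≤ W → 1 ≤ U →
    HM (mu1 2 (-1) W (2 * W)) U (C * U⁻¹ * min 1 (W / U) ^ 2) := by
  refine ⟨216, by norm_num, fun W U hW hU t ht v σ hσ => ?_⟩
  have hW' : 1 ≤ 2 * W := by linarith
  have h1 := mulx_q (v := v) ht hσ hW hU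
  have h2 := mulx_inv (by positivity) (mul_low (v := v) ht hσ)
  have h3 := (mulx_min hU hW).1
  have h0 : min 1 (2 * W / U) ≤ 2 * min 1 (W / U) := by
    rw [mul_min_of_nonneg _ _ zero_le_two, mul_div_assoc]
    exact min_le_min_right _ (by norm_num)
  have h1' := (mulx_q (v := v) ht hσ hW' hU).trans (mul_le_mul_of_nonneg_left h0 (by positivity))
  obtain ⟨h4, h5⟩ := mulx_re (t := t + v) hσ
  have h6 := mulx_ne hW' h4
  have h7 := mulx_ne hW h4
  generalize (σ + (t + v : ℝ) * I : ℂ) = s at *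
  have e : mu1 2 (-1) W (2 * W) s / s =
      W / (s + W) * ((2 * W : ℝ) / (s + (2 * W : ℝ))) * s⁻¹ := by
    rw [mu1, div_eq_mul_inv _ s]
    congr 1
    field_simp
    push_cast
    ring
  rw [e, norm_mul, norm_mul]
  refine (mul_le_mul (mul_le_mul h1 h1' (norm_nonneg _) (by positivity)) h2 (norm_nonneg _)
    (by positivity)).trans (le_of_eq ?_)
  ring

theorem slow_deg : Slow fun T U => √T + U := by
  refine ⟨fun T U hT hU => le_add_of_nonneg_of_le (Real.sqrt_nonneg T) hU,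
    fun T U V hT hU hV => ?_⟩
  beta_reduce
  rw [add_mul]
  exact add_le_add (mul_le_of_le_one_right (Real.sqrt_nonneg T) (min_le_left _ _))
    (mulx_min hU hV).2

theorem slow_prod {θ : ℝ} (h0 : 0 ≤ θ) (h1 : θ ≤ 1) : Slow fun T U => √T * U ^ θ := by
  refine ⟨fun T U hT hU => one_le_mul_of_one_le_of_one_le (Real.one_le_sqrt.2 hT)
    (Real.one_le_rpow hU h0), fun T U V hT hU hV => ?_⟩
  have h := mulx_rpow h0 h1 hU hV
  rw [Real.rpow_one] at h
  beta_reduce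
  rw [mul_assoc]
  exact mul_le_mul_of_nonneg_left h (Real.sqrt_nonneg T)

/-- A small power is absorbed by the cut-off. -/
theorem rpow_min_le {δ κ U V : ℝ} (h0 : 0 ≤ δ) (h1 : δ ≤ κ) (hU : 1 ≤ U) (hV : 1 ≤ V) :
    U ^ δ * min 1 (V / U) ^ κ ≤ V ^ δ := by
  exact mulx_rpow h0 h1 hU hV

theorem rpow_min_eq {δ U V : ℝ} (h0 : 0 ≤ δ) (h1 : δ ≤ 1) (hU : 1 ≤ U) (hV : 1 ≤ V) :
    U ^ δ * min 1 (V / U) ≤ V ^ δ * min 1 (V / U) ^ (1 - δ) := by
  have a := (mulx_min hU hV).1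
  refine le_of_eq_of_le ?_ (mul_le_mul_of_nonneg_right (mulx_rpow h0 le_rfl hU hV)
    (Real.rpow_nonneg a.le (1 - δ)))
  rw [mul_assoc, ← Real.rpow_add a, add_sub_cancel, Real.rpow_one]

end Pool.Agent.Lib.MP_2a1a00_nt
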