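import Pool.Agent.Lib.MP_2a1a00_nt.Defs

/-! Shifting vertical lines of integration. -/

namespace Pool.Agent.Lib.MP_2a1a00_nt

open Complex MeasureTheory Set

variable {g : ℂ → ℂ} {a b : ℝ}

theorem shift_int : Integrable fun v : ℝ => Real.exp (-|v|) := by
  refine (integrable_inv_one_add_sq.const_mul 2).mono' (by fun_prop)
    (Filter.Eventually.of_forall fun v => ?_)
  have h1 := Real.quadratic_le_exp_of_nonneg (abs_nonneg v)
  rw [sq_abs] at h1
  rw [Real.norm_of_nonneg (Real.exp_pos _).le, Real.exp_neg, ← div_eq_mul_inv,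
    le_div_iff₀ (by positivity), inv_mul_le_iff₀ (Real.exp_pos _)]
  linarith [abs_nonneg v]

theorem shift_mem {σ : ℝ} (h1 : a ≤ σ) (h2 : σ ≤ b) (v : ℝ) : (σ + v * I : ℂ) ∈ St a b := by
  simp [St, h1, h2]

theorem shift_pow (K v : ℝ) : (1 + |v|) ^ K ≤ Real.exp (|K| * |v|) := by
  have h0 : 0 ≤ |v| := abs_nonneg v
  have h1 : (1 + |v|) ^ K ≤ (1 + |v|) ^ |K| :=
    Real.rpow_le_rpow_of_exponent_le (by linarith) (le_abs_self K)
  refine h1.trans ?_
  rw [mul_comm, Real.exp_mul]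
  exact Real.rpow_le_rpow (by linarith) (by linarith [Real.add_one_le_exp |v|]) (abs_nonneg K)

theorem Dec.mono (h : Dec g a b) {a' b' : ℝ} (ha : a ≤ a') (hb : b' ≤ b) : Dec g a' b' := by
  have hs : St a' b' ⊆ St a b := fun s hs => ⟨ha.trans hs.1, hs.2.trans hb⟩
  obtain ⟨C, hC⟩ := h.le
  exact ⟨h.diff.mono hs, C, fun s h1 => hC s (hs h1)⟩

/- Continuity along the line and domination by `C * exp (-|v|)`. -/
theorem Dec.integrable (h : Dec g a b) {σ : ℝ} (h1 : a ≤ σ) (h2 : σ ≤ b) :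
    Integrable fun v : ℝ => g (σ + v * I) := by
  obtain ⟨C, hC⟩ := h.le
  have hc : Continuous fun v : ℝ => g (σ + v * I) :=
    h.diff.continuousOn.comp_continuous (by fun_prop) (shift_mem h1 h2)
  refine (shift_int.const_mul C).mono' hc.aestronglyMeasurable
    (Filter.Eventually.of_forall fun v => ?_)
  simpa using hC _ (shift_mem h1 h2 v)

/- `Complex.integral_boundary_rect_eq_zero_of_differentiableOn` for the rectangle with corners
`a - R i`, `b + R i`; the horizontal sides are at most `(b - a) * C * exp (-R)`;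
`intervalIntegral_tendsto_integral` for the vertical sides. -/
theorem Dec.shift (h : Dec g a b) (hab : a ≤ b) : Ln g a = Ln g b := by
  obtain ⟨C, hC⟩ := h.le
  have h1 := intervalIntegral_tendsto_integral (h.integrable le_rfl hab)
    Filter.tendsto_neg_atTop_atBot Filter.tendsto_id
  have h2 := intervalIntegral_tendsto_integral (h.integrable hab le_rfl)
    Filter.tendsto_neg_atTop_atBot Filter.tendsto_id
  have hb : ∀ y : ℝ, ‖∫ x : ℝ in a..b, g (x + y * I)‖ ≤ C * Real.exp (-|y|) * |b - a| :=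
    fun y => intervalIntegral.norm_integral_le_of_norm_le_const fun x hx => by
      rw [uIoc_of_le hab] at hx
      simpa using hC _ (shift_mem hx.1.le hx.2 y)
  have h3 : Filter.Tendsto (fun R : ℝ => C * Real.exp (-|R|) * |b - a|) Filter.atTop
      (nhds 0) := by
    have h4 := ((Real.tendsto_exp_neg_atTop_nhds_zero.comp
      Filter.tendsto_abs_atTop_atTop).const_mul C).mul_const |b - a|
    simpa using h4
  have h4 : Filter.Tendsto (fun R : ℝ => ∫ x : ℝ in a..b, g (x + R * I)) Filter.atTop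
      (nhds 0) := squeeze_zero_norm hb h3
  have h5 : Filter.Tendsto (fun R : ℝ => ∫ x : ℝ in a..b, g (x + (-R : ℝ) * I)) Filter.atTop
      (nhds 0) := squeeze_zero_norm (fun R => by simpa using hb (-R)) h3
  have h6 := ((h5.sub h4).add (h2.const_smul I)).sub (h1.const_smul I)
  have h7 : ∀ R : ℝ, (∫ x : ℝ in a..b, g (x + (-R : ℝ) * I)) - (∫ x : ℝ in a..b, g (x + R * I)) +
      I • (∫ y : ℝ in (-R)..R, g (b + y * I)) - I • (∫ y : ℝ in (-R)..R, g (a + y * I)) = 0 :=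
    fun R => integral_boundary_rect_eq_zero_of_differentiableOn g ⟨a, -R⟩ ⟨b, R⟩
      (h.diff.mono fun s hs => by
        have h8 := hs.1
        simp only [uIcc_of_le hab] at h8
        exact h8)
  have h8 := tendsto_nhds_unique h6 (tendsto_const_nhds.congr fun R => (h7 R).symm)
  simp only [sub_self, zero_add, sub_eq_zero, smul_eq_mul] at h8
  rw [Ln, Ln, mul_left_cancel₀ I_ne_zero h8]

/- `(1 + |y|) ^ K ≤ exp (|K| * |y|)` and `|K| * |y| - (y - t) ^ 2 ≤ const - |y|`. -/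
theorem dec_of_gauss (hd : DifferentiableOn ℂ g (St a b)) {C K t : ℝ}
    (h : ∀ s ∈ St a b, ‖g s‖ ≤ C * (1 + |s.im|) ^ K * Real.exp (-(s.im - t) ^ 2)) : Dec g a b := by
  refine ⟨hd, |C| * Real.exp ((|K| + 1) ^ 2 + (|K| + 1) * |t|), fun s hs => (h s hs).trans ?_⟩
  have h1 : C * (1 + |s.im|) ^ K ≤ |C| * Real.exp (|K| * |s.im|) :=
    mul_le_mul (le_abs_self C) (shift_pow K _) (by positivity) (abs_nonneg C)
  refine (mul_le_mul_of_nonneg_right h1 (Real.exp_pos _).le).trans ?_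
  rw [mul_assoc, mul_assoc, ← Real.exp_add, ← Real.exp_add]
  refine mul_le_mul_of_nonneg_left (Real.exp_le_exp.2 ?_) (abs_nonneg C)
  have h2 : |s.im| ≤ |s.im - t| + |t| := by simpa using abs_add_le (s.im - t) t
  have h3 := mul_le_mul_of_nonneg_left h2 (show 0 ≤ |K| + 1 by positivity)
  rw [← sq_abs (s.im - t)]
  nlinarith [sq_nonneg (|s.im - t| - (|K| + 1)), sq_nonneg (|s.im - t|), sq_nonneg (|K| + 1)]

/- On the line `‖s - c‖ ≥ |σ - c| > 0`. -/
theorem Dec.integrable_div (h : Dec g a b) {σ c : ℝ} (h1 : a ≤ σ) (h2 : σ ≤ b) (hc : σ ≠ c) (k : ℕ) :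
    Integrable fun v : ℝ => g (σ + v * I) / ((σ + v * I : ℂ) - c) ^ k := by
  have h0 : 0 < |σ - c| := abs_pos.2 (sub_ne_zero.2 hc)
  have h3 : ∀ v : ℝ, |σ - c| ≤ ‖(σ + v * I : ℂ) - c‖ := fun v => by
    simpa using abs_re_le_norm ((σ + v * I : ℂ) - c)
  have h4 : Continuous fun v : ℝ => (((σ + v * I : ℂ) - c) ^ k)⁻¹ :=
    Continuous.inv₀ (by fun_prop) fun v =>
      pow_ne_zero _ (norm_pos_iff.1 (h0.trans_le (h3 v)))
  simp only [div_eq_mul_inv]
  refine (h.integrable h1 h2).mul_bdd (c := (|σ - c| ^ k)⁻¹) h4.aestronglyMeasurable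
    (Filter.Eventually.of_forall fun v => ?_)
  rw [norm_inv, norm_pow]
  exact inv_anti₀ (pow_pos h0 k) (pow_le_pow_left₀ h0.le (h3 v) k)

theorem Ln_add {g₁ g₂ : ℂ → ℂ} {σ : ℝ} (h1 : Integrable fun v : ℝ => g₁ (σ + v * I))
    (h2 : Integrable fun v : ℝ => g₂ (σ + v * I)) :
    Ln (fun s => g₁ s + g₂ s) σ = Ln g₁ σ + Ln g₂ σ := by
  rw [Ln, Ln, Ln, integral_add h1 h2, mul_add]

theorem Ln_sub {g₁ g₂ : ℂ → ℂ} {σ : ℝ} (h1 : Integrable fun v : ℝ => g₁ (σ + v * I))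
    (h2 : Integrable fun v : ℝ => g₂ (σ + v * I)) :
    Ln (fun s => g₁ s - g₂ s) σ = Ln g₁ σ - Ln g₂ σ := by
  rw [Ln, Ln, Ln, integral_sub h1 h2, mul_sub]

theorem Ln_const_mul (c : ℂ) (g : ℂ → ℂ) (σ : ℝ) : Ln (fun s => c * g s) σ = c * Ln g σ := by
  rw [Ln, Ln, integral_const_mul]
  ring

theorem Ln_congr {g₁ g₂ : ℂ → ℂ} {σ : ℝ} (h : ∀ v : ℝ, g₁ (σ + v * I) = g₂ (σ + v * I)) :
    Ln g₁ σ = Ln g₂ σ := by
  simp only [Ln, h]

/- `integral_neg_eq_self`. -/
theorem Ln_neg (g : ℂ → ℂ) (σ : ℝ) : Ln (fun s => g (-s)) σ = Ln g (-σ) := by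
  rw [Ln, Ln, ← integral_neg_eq_self]
  congr 2
  ext v
  congr 1
  push_cast
  ring

/- `norm_integral_le_of_norm_le`, `integral_add_left_eq_self`, and `1 / (2 π) ≤ 1`. -/
theorem norm_Ln_le {σ : ℝ} (t : ℝ) {k : ℝ → ℝ} (hk : Integrable k)
    (h : ∀ v : ℝ, ‖g (σ + (t + v : ℝ) * I)‖ ≤ k v) : ‖Ln g σ‖ ≤ ∫ v, k v := by
  have h1 : ‖∫ v : ℝ, g (σ + v * I)‖ ≤ ∫ v, k v := by
    rw [← integral_add_left_eq_self (fun v : ℝ => g (σ + v * I)) t]
    exact norm_integral_le_of_norm_le hk (Filter.Eventually.of_forall h)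
  have h2 : 1 / (2 * Real.pi) ≤ 1 := by
    rw [div_le_one (by positivity)]
    linarith [Real.pi_gt_three]
  rw [Ln, norm_mul, norm_real, Real.norm_of_nonneg (by positivity)]
  exact (mul_le_of_le_one_left (norm_nonneg _) h2).trans h1

theorem norm_ker {T : ℝ} (hT : 0 < T) (t : ℝ) (s : ℂ) :
    ‖ker T t s‖ = T ^ s.re * Real.exp (s.re ^ 2 - (s.im - t) ^ 2) := by
  rw [ker, norm_exp, Real.rpow_def_of_pos hT, ← Real.exp_add]
  congr 1
  simp [sq]
  ring

theorem differentiable_ker (T t : ℝ) : Differentiable ℂ (ker T t) := by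
  unfold ker
  fun_prop

/-- A polynomial is absorbed by half of the Gaussian. -/
theorem gauss_absorb (K : ℝ) : ∃ C : ℝ, 0 < C ∧ ∀ v : ℝ,
    (1 + |v|) ^ K * Real.exp (-v ^ 2) ≤ C * Real.exp (-v ^ 2 / 2) := by
  refine ⟨Real.exp (K ^ 2), Real.exp_pos _, fun v => ?_⟩
  refine (mul_le_mul_of_nonneg_right (shift_pow K v) (Real.exp_pos _).le).trans ?_
  rw [← Real.exp_add, ← Real.exp_add, Real.exp_le_exp, ← sq_abs v, ← sq_abs K]
  nlinarith [sq_nonneg (|v| - |K|), sq_nonneg |K|]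

theorem integrable_gauss_poly (K : ℝ) :
    Integrable fun v : ℝ => (1 + |v|) ^ K * Real.exp (-v ^ 2 / 2) := by
  have hc : Continuous fun v : ℝ => (1 + |v|) ^ K * Real.exp (-v ^ 2 / 2) :=
    (Continuous.rpow_const (by fun_prop) fun v => Or.inl (by positivity)).mul (by fun_prop)
  refine (shift_int.const_mul (Real.exp ((|K| + 1) ^ 2))).mono' hc.aestronglyMeasurable
    (Filter.Eventually.of_forall fun v => ?_)
  rw [Real.norm_of_nonneg (by positivity)]
  refine (mul_le_mul_of_nonneg_right (shift_pow K v) (Real.exp_pos _).le).trans ?_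
  rw [← Real.exp_add, ← Real.exp_add, Real.exp_le_exp, ← sq_abs v]
  nlinarith [sq_nonneg (|v| - (|K| + 1)), sq_nonneg (|K| + 1)]

end Pool.Agent.Lib.MP_2a1a00_nt
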