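import Pool.Agent.Lib.MP_2a1a00_nt.Triv
import Pool.Agent.Lib.MP_2a1a00_nt.Shift
import Pool.Agent.Lib.MP_2a1a00_nt.Chi

/-! The Fourier representation of the localised smoothed error terms. -/

namespace Pool.Agent.Lib.MP_2a1a00_nt

open Complex MeasureTheory Set

theorem rep_ne {V : ℝ} (hV : 1 ≤ V) {s : ℂ} (hs : 0 < s.re) : s ≠ 0 ∧ s + V ≠ 0 :=
  ⟨fun h => by simp [h] at hs, fun h => by
    have := congrArg re h
    simp only [add_re, ofReal_re, zero_re] at this
    linarith⟩

theorem rep_two (v : ℝ) : (((2 : ℝ) : ℂ) + v * I).re = 2 := by simp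

theorem rep_aV {V : ℝ} (hV : 1 ≤ V) :
    Integrable fun v : ℝ => (V / (((2 : ℝ) + v * I) * ((2 : ℝ) + v * I + V)) : ℂ) := by
  refine (integrable_inv_one_add_sq.const_mul V).mono' ?_ (Filter.Eventually.of_forall fun v => ?_)
  · exact Measurable.aestronglyMeasurable (by fun_prop)
  · have h1 : √(1 + v ^ 2) ≤ ‖((2 : ℝ) : ℂ) + v * I‖ := by
      rw [norm_add_mul_I]
      exact Real.sqrt_le_sqrt (by linarith)
    have h2 : √(1 + v ^ 2) ≤ ‖((2 : ℝ) : ℂ) + v * I + V‖ := by
      rw [add_right_comm, ← ofReal_add, norm_add_mul_I]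
      exact Real.sqrt_le_sqrt (by nlinarith)
    have h3 := mul_le_mul h1 h2 (Real.sqrt_nonneg _) (norm_nonneg _)
    rw [Real.mul_self_sqrt (by positivity)] at h3
    rw [norm_div, norm_mul, norm_real, Real.norm_of_nonneg (by linarith), ← div_eq_mul_inv]
    exact div_le_div_of_nonneg_left (by linarith) (by positivity) h3

theorem rep_xa {V x : ℝ} (hV : 1 ≤ V) (hx : 0 < x) : Integrable fun v : ℝ =>
    (x : ℂ) ^ (((2 : ℝ) : ℂ) + v * I) * (V / (((2 : ℝ) + v * I) * ((2 : ℝ) + v * I + V)) : ℂ) := by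
  refine (rep_aV hV).bdd_mul (c := x ^ (2 : ℝ)) (Measurable.aestronglyMeasurable (by fun_prop))
    (Filter.Eventually.of_forall fun v => ?_)
  rw [norm_cpow_eq_rpow_re_of_pos hx, rep_two]

/- `mellin_inversion` for `f x = (1 - x ^ V)` on `Ioc 0 1`, zero elsewhere (`hasMellin_one_Ioc`,
`hasMellin_cpow_Ioc`), at the point `y⁻¹`. -/
theorem perron {V y : ℝ} (hV : 1 ≤ V) (hy : 0 < y) :
    (((if 1 ≤ y then 1 - y ^ (-V) else 0 : ℝ)) : ℂ) =
      Ln (fun s => (y : ℂ) ^ s * (V / (s * (s + V)))) 2 := by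
  have hm : ∀ s : ℂ, 0 < s.re → HasMellin (fun t => indicator (Ioc 0 1) (fun _ => 1 : ℝ → ℂ) t -
      indicator (Ioc 0 1) (fun t => (t : ℂ) ^ (V : ℂ) : ℝ → ℂ) t) s (V / (s * (s + V))) := by
    intro s hs
    have a1 := hasMellin_one_Ioc hs
    have a2 := hasMellin_cpow_Ioc (V : ℂ) (s := s) (by rw [ofReal_re]; linarith)
    have a3 := hasMellin_sub a1.1 a2.1
    obtain ⟨b1, b2⟩ := rep_ne hV hs
    rwa [a1.2, a2.2, div_sub_div _ _ b1 b2, one_mul, mul_one, add_sub_cancel_left] at a3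
  have he : ∀ t : ℝ, 0 < t → indicator (Ioc 0 1) (fun _ => 1 : ℝ → ℂ) t -
      indicator (Ioc 0 1) (fun t => (t : ℂ) ^ (V : ℂ) : ℝ → ℂ) t = ((max 0 (1 - t ^ V) : ℝ) : ℂ) := by
    intro t ht
    rcases le_or_gt t 1 with h | h
    · rw [indicator_of_mem (show t ∈ Ioc 0 1 from ⟨ht, h⟩),
        indicator_of_mem (show t ∈ Ioc 0 1 from ⟨ht, h⟩), ← ofReal_cpow ht.le,
        max_eq_right (sub_nonneg.2 (Real.rpow_le_one ht.le h (by linarith))), ofReal_sub, ofReal_one]
    · rw [indicator_of_notMem fun h' => h.not_ge h'.2, indicator_of_notMem fun h' => h.not_ge h'.2,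
        max_eq_left (sub_nonpos.2 (Real.one_le_rpow h.le (by linarith))), sub_zero, ofReal_zero]
  have hy' := inv_pos.2 hy
  have key := mellinInv_mellin_eq 2 _ hy' (hm _ (by simp)).1
    ((rep_aV hV).congr (Filter.Eventually.of_forall fun v =>
      (hm _ (by rw [rep_two]; norm_num)).2.symm)) (by
      refine ContinuousAt.congr (f := fun t : ℝ => ((max 0 (1 - t ^ V) : ℝ) : ℂ)) ?_ ?_
      · exact continuous_ofReal.continuousAt.comp (continuousAt_const.max
          (continuousAt_const.sub (Real.continuousAt_rpow_const _ _ (Or.inl hy'.ne'))))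
      · filter_upwards [lt_mem_nhds hy'] with t ht using (he t ht).symm)
  rw [he _ hy', Real.inv_rpow hy.le, ← Real.rpow_neg hy.le] at key
  have e : (if 1 ≤ y then 1 - y ^ (-V) else 0) = max 0 (1 - y ^ (-V)) := by
    split_ifs with h
    · exact (max_eq_right (sub_nonneg.2
        (Real.rpow_le_one_of_one_le_of_nonpos h (by linarith)))).symm
    · exact (max_eq_left (sub_nonpos.2
        (Real.one_le_rpow_of_pos_of_le_one_of_nonpos hy (not_le.1 h).le (by linarith)))).symm
  rw [e, ← key, mellinInv, Ln, real_smul]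
  congr 1
  refine integral_congr_ae (Filter.Eventually.of_forall fun v => ?_)
  simp only
  rw [(hm _ (by rw [rep_two]; norm_num)).2, smul_eq_mul, ofReal_inv,
    inv_cpow _ _ (by rw [arg_ofReal_of_nonneg hy.le]; exact Real.pi_pos.ne), cpow_neg, inv_inv]

/- The norm is at most `1 / ‖s‖` times `V / ‖s‖`, which is at most `V / (1 + v ^ 2)`. -/
theorem integrable_aV {V : ℝ} (hV : 1 ≤ V) :
    Integrable fun v : ℝ => (V / (((2 : ℝ) + v * I) * ((2 : ℝ) + v * I + V)) : ℂ) := by
  exact rep_aV hV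

theorem rep_ker (T u t : ℝ) (s : ℂ) : ker T t s * exp (I * (t * u : ℝ)) =
    exp (-1 * (t : ℂ) ^ 2 + I * (u - Real.log T - 2 * s) * t + (s * Real.log T + s ^ 2)) := by
  rw [ker, ← exp_add]
  congr 1
  push_cast
  linear_combination (t : ℂ) ^ 2 * I_sq

/- `integral_cexp_quadratic`. -/
theorem four_ker (T u : ℝ) (s : ℂ) : four (fun t => ker T t s) u =
    exp (s * u) * ((√Real.pi * Real.exp (-(u - Real.log T) ^ 2 / 4) : ℝ) : ℂ) := by
  simp only [four, rep_ker]
  rw [integral_cexp_quadratic (by simp), neg_neg, div_one, mul_comm (exp _), ofReal_mul, mul_assoc,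
    ofReal_exp, ← exp_add, Real.sqrt_eq_rpow, ofReal_cpow Real.pi_pos.le]
  congr 2
  · simp
  · push_cast
    linear_combination (u - (Real.log T : ℂ) - 2 * s) ^ 2 / 4 * I_sq

theorem rep_e {α : Type} [MeasurableSpace α] {μ : Measure α} {G : α → ℂ} (hG : Integrable G μ)
    {t : α → ℝ} (ht : Measurable t) (u : ℝ) :
    Integrable (fun a => G a * exp (I * (t a * u : ℝ))) μ :=
  hG.mul_bdd (c := 1) (Measurable.aestronglyMeasurable (by fun_prop))
    (Filter.Eventually.of_forall fun a => (norm_exp_I_mul_ofReal _).le)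

/- The function `(ω, t) ↦ h ω * ker T t (s ω)` is integrable on the product
(`integrable_prod_iff`, `norm_ker`: the inner integral is at most a constant times `‖h ω‖`);
`Integrable.integral_prod_right`, `integral_integral_swap`, `four_ker`. -/
theorem loc_int {Ω : Type} [MeasurableSpace Ω] (ν : Measure Ω) [SFinite ν] {s h : Ω → ℂ}
    (hs : Measurable s) (hh : Integrable h ν) {K T : ℝ} (hT : 0 < T) (hK : ∀ ω, |(s ω).re| ≤ K) :
    Integrable (fun t : ℝ => ∫ ω, h ω * ker T t (s ω) ∂ν) ∧ ∀ u : ℝ,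
      four (fun t => ∫ ω, h ω * ker T t (s ω) ∂ν) u = (∫ ω, h ω * exp (s ω * u) ∂ν) *
        ((√Real.pi * Real.exp (-(u - Real.log T) ^ 2 / 4) : ℝ) : ℂ) := by
  have hm : AEStronglyMeasurable (fun p : Ω × ℝ => h p.1 * ker T p.2 (s p.1)) (ν.prod volume) :=
    hh.1.comp_fst.mul (Measurable.aestronglyMeasurable (by unfold ker; fun_prop))
  have hG : Integrable (fun p : Ω × ℝ => h p.1 * ker T p.2 (s p.1)) (ν.prod volume) := by
    refine (integrable_prod_iff hm).2 ⟨Filter.Eventually.of_forall fun a => ?_, ?_⟩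
    · have := integrable_cexp_quadratic' (b := -1) (by simp) (I * ((0 : ℝ) - Real.log T - 2 * s a))
        (s a * Real.log T + s a ^ 2)
      refine (this.congr (g := fun t => ker T t (s a))
        (Filter.Eventually.of_forall fun t => ?_)).const_mul (h a)
      simpa using (rep_ker T 0 t (s a)).symm
    · refine (hh.norm.mul_const (Real.exp (|Real.log T| * K + K ^ 2) * √Real.pi)).mono'
        hm.norm.integral_prod_right' (Filter.Eventually.of_forall fun a => ?_)
      have e := integral_sub_left_eq_self (fun x : ℝ => Real.exp (-1 * x ^ 2)) volume (s a).im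
      rw [integral_gaussian, div_one] at e
      simp only [neg_mul, one_mul] at e
      simp only [norm_mul, norm_ker hT, sub_eq_add_neg (_ ^ 2), Real.exp_add, integral_const_mul, e]
      rw [norm_norm, Real.norm_of_nonneg (by positivity), Real.norm_of_nonneg (by positivity),
        Real.norm_of_nonneg (by positivity), Real.rpow_def_of_pos hT, mul_assoc (Real.exp _)]
      have b1 : Real.log T * (s a).re ≤ |Real.log T| * K :=
        (le_abs_self _).trans (by rw [abs_mul]; gcongr; exact hK a)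
      have b2 : (s a).re ^ 2 ≤ K ^ 2 := by
        rw [← sq_abs]
        exact pow_le_pow_left₀ (abs_nonneg _) (hK a) 2
      gcongr
  refine ⟨hG.integral_prod_right, fun u => ?_⟩
  simp only [four, ← integral_mul_const]
  rw [← integral_integral_swap (f := fun a t => h a * ker T t (s a) * exp (I * (t * u : ℝ)))
    (rep_e hG measurable_snd u)]
  refine integral_congr_ae (Filter.Eventually.of_forall fun a => ?_)
  simp only [mul_assoc (h a), integral_const_mul]
  rw [← four_ker, four]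

namespace Sel

variable (F : Sel)

theorem rep_intL {k : ℝ → ℂ} (hk : Integrable k) :
    Integrable fun v : ℝ => F.L ((2 : ℝ) + v * I) * k v := by
  obtain ⟨C, -, hC⟩ := F.lser_le one_lt_two
  have hc : Continuous fun v : ℝ => F.L ((2 : ℝ) + v * I) :=
    continuous_iff_continuousAt.2 fun v =>
      ContinuousAt.comp (f := fun v : ℝ => (((2 : ℝ) : ℂ) + v * I))
        (F.differentiableAt_L fun h => by have := congrArg re h; norm_num at this).continuousAt
        (by fun_prop)
  refine hk.bdd_mul (c := C) hc.aestronglyMeasurable (Filter.Eventually.of_forall fun v => ?_)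
  rw [F.L_eq (by rw [rep_two]; norm_num)]
  exact hC _ (rep_two v).ge

theorem rep_Ln (g k : ℂ → ℂ) : Ln (fun s => F.L s * (g s * k s)) 2 = ∫ v : ℝ,
    ((1 / (2 * Real.pi) : ℝ) * (F.L ((2 : ℝ) + v * I) * g ((2 : ℝ) + v * I))) *
      k ((2 : ℝ) + v * I) := by
  rw [Ln, ← integral_const_mul]
  simp only [mul_assoc]

theorem rep_res (g k : ℂ → ℂ) : F.res (fun s => g s * k s) = ∫ θ in Ioc 0 (2 * Real.pi),
    ((2 * Real.pi * I)⁻¹ * (deriv (circleMap 1 (1 / 2)) θ •
      (F.L (circleMap 1 (1 / 2) θ) * g (circleMap 1 (1 / 2) θ)))) * k (circleMap 1 (1 / 2) θ) := by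
  rw [res, circleIntegral, intervalIntegral.integral_of_le (by positivity), ← integral_const_mul]
  simp only [mul_assoc, smul_eq_mul]

theorem rep_sph {s : ℂ} (hs : s ∈ Metric.sphere (1 : ℂ) (1 / 2)) : 1 / 2 ≤ s.re ∧ s.re ≤ 2 := by
  have h := abs_re_le_norm (s - 1)
  rw [mem_sphere_iff_norm.1 hs, sub_re, one_re, abs_le] at h
  constructor <;> linarith [h.1, h.2]

theorem rep_ca {V : ℝ} (hV : 1 ≤ V) :
    ContinuousOn (fun s : ℂ => V / (s * (s + V))) (Metric.sphere 1 (1 / 2)) :=
  continuousOn_const.div (by fun_prop) fun s hs =>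
    have h := rep_ne hV (one_half_pos.trans_le (rep_sph hs).1)
    mul_ne_zero h.1 h.2

theorem rep_mu (α β V W : ℝ) (s : ℂ) :
    mu1 α β V W s / s = α * (V / (s * (s + V))) + β * (W / (s * (s + W))) := by
  rw [mu1, add_div, mul_div_assoc, mul_div_assoc, div_div, div_div, mul_comm (s + V),
    mul_comm (s + W)]

/- `perron` at `y = x / n`, `hasSum_integral_of_summable_integral_norm` or `integral_tsum`, `L_eq`. -/
theorem sum_perron {V x : ℝ} (hV : 1 ≤ V) (hx : 0 < x) :
    ∑ n ∈ Finset.Icc 1 ⌊x⌋₊, F.f n * ((1 - (n / x) ^ V : ℝ) : ℂ) =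
      Ln (fun s => F.L s * ((x : ℂ) ^ s * (V / (s * (s + V))))) 2 := by
  have h2 : ∀ v : ℝ, 1 < (((2 : ℝ) : ℂ) + v * I).re := fun v => by rw [rep_two]; norm_num
  have hn : ∀ (n : ℕ) (v : ℝ), ‖LSeries.term F.f ((2 : ℝ) + v * I) n‖ = ‖LSeries.term F.f 2 n‖ :=
    fun n v => by simp [LSeries.norm_term_eq]
  have key := hasSum_integral_of_summable_integral_norm (μ := volume)
    (F := fun (n : ℕ) (v : ℝ) => LSeries.term F.f ((2 : ℝ) + v * I) n *
      ((x : ℂ) ^ (((2 : ℝ) : ℂ) + v * I) * (V / (((2 : ℝ) + v * I) * ((2 : ℝ) + v * I + V)))))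
    (fun n => (rep_xa hV hx).bdd_mul (c := ‖LSeries.term F.f 2 n‖)
      (Measurable.aestronglyMeasurable (by unfold LSeries.term; split_ifs <;> fun_prop))
      (Filter.Eventually.of_forall fun v => (hn n v).le)) (by
      simp only [norm_mul (LSeries.term _ _ _), hn, integral_const_mul]
      exact (F.summable (s := 2) (by simp)).norm.mul_right _)
  simp only [tsum_mul_right] at key
  have k2 := key.mul_left ((1 / (2 * Real.pi) : ℝ) : ℂ)
  have ht : ∀ n : ℕ, n ≠ 0 → ((1 / (2 * Real.pi) : ℝ) : ℂ) *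
      ∫ v : ℝ, LSeries.term F.f ((2 : ℝ) + v * I) n * ((x : ℂ) ^ (((2 : ℝ) : ℂ) + v * I) *
        (V / (((2 : ℝ) + v * I) * ((2 : ℝ) + v * I + V)))) =
      F.f n * ((if 1 ≤ x / n then 1 - (x / n) ^ (-V) else 0 : ℝ) : ℂ) := fun n hn0 => by
    have hp : (0 : ℝ) < n := by positivity
    rw [perron hV (div_pos hx hp), ← Ln_const_mul, Ln]
    congr 1
    refine integral_congr_ae (Filter.Eventually.of_forall fun v => ?_)
    simp only
    rw [LSeries.term_of_ne_zero hn0, div_eq_mul_inv x, ofReal_mul,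
      mul_cpow_ofReal_nonneg hx.le (inv_pos.2 hp).le, ofReal_inv,
      inv_cpow _ _ (by rw [arg_ofReal_of_nonneg hp.le]; exact Real.pi_pos.ne), ofReal_natCast]
    ring
  have k3 := (hasSum_sum_of_ne_finset_zero (s := Finset.Icc 1 ⌊x⌋₊) fun n hn1 => ?_).unique k2
  · rw [Ln]
    simp only [F.L_eq (h2 _)]
    refine Eq.trans (Finset.sum_congr rfl fun n hn1 => ?_) k3
    obtain ⟨a1, a2⟩ := Finset.mem_Icc.1 hn1
    have hp : (0 : ℝ) < n := by exact_mod_cast a1
    rw [ht n (by omega), if_pos ((one_le_div hp).2 ((Nat.le_floor_iff hx.le).1 a2)),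
      Real.rpow_neg (div_pos hx hp).le, ← Real.inv_rpow (div_pos hx hp).le, inv_div]
  · rcases eq_or_ne n 0 with rfl | h0
    · simp
    · have hp : (0 : ℝ) < n := by positivity
      rw [ht n h0, if_neg, ofReal_zero, mul_zero]
      exact fun h => hn1 (Finset.mem_Icc.2
        ⟨by omega, (Nat.le_floor_iff hx.le).2 ((one_le_div hp).1 h)⟩)

/- `loc_int` twice: for the line with `ν = volume`, `s v = 2 + v i`, and for the circle with
`ν = volume.restrict (Ioc 0 (2 π))`, `s = circleMap 1 (1 / 2)`;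
`mu1 α β V W s / s = α * (V / (s * (s + V))) + β * (W / (s * (s + W)))`; `sum_perron`, `res_add`, `Ln_add`. -/
theorem rep (α β : ℝ) {V W T : ℝ} (hV : 1 ≤ V) (hW : 1 ≤ W) (hT : 1 ≤ T) :
    Integrable (F.Psi (mu1 α β V W) T) ∧
      Loc (fun x => α * F.A V x + β * F.A W x) (four (F.Psi (mu1 α β V W) T)) T := by
  have hT0 : 0 < T := by linarith
  have i1 : Integrable fun v : ℝ => ((1 / (2 * Real.pi) : ℝ) : ℂ) * (F.L ((2 : ℝ) + v * I) *
      (mu1 α β V W ((2 : ℝ) + v * I) / ((2 : ℝ) + v * I))) := by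
    simp only [rep_mu]
    exact (F.rep_intL (((rep_aV hV).const_mul _).add ((rep_aV hW).const_mul _))).const_mul _
  have c1 : ContinuousOn (fun s => mu1 α β V W s / s) (Metric.sphere 1 (1 / 2)) := by
    simp only [rep_mu]
    exact (continuousOn_const.mul (rep_ca hV)).add (continuousOn_const.mul (rep_ca hW))
  obtain ⟨a1, a2⟩ := loc_int volume (s := fun v : ℝ => ((2 : ℝ) : ℂ) + v * I) (by fun_prop) i1
    (K := 2) hT0 fun v => by rw [rep_two, abs_two]
  obtain ⟨b1, b2⟩ := loc_int (volume.restrict (Ioc 0 (2 * Real.pi))) (s := circleMap 1 (1 / 2))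
    (measurable_circleMap _ _) ((F.circ_int c1).out.1.const_mul (2 * Real.pi * I)⁻¹) (K := 2) hT0
    fun θ => by
      have := rep_sph (circleMap_mem_sphere 1 (by norm_num) θ)
      rw [abs_le]
      constructor <;> linarith [this.1, this.2]
  simp only [← F.rep_Ln (fun s => mu1 α β V W s / s) (ker T _)] at a1 a2
  simp only [← F.rep_res (fun s => mu1 α β V W s / s) (ker T _)] at b1 b2
  refine ⟨a1.sub b1, fun x hx => ?_⟩
  have e := integral_sub (rep_e a1 measurable_id (Real.log x)) (rep_e b1 measurable_id (Real.log x))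
  simp only [← sub_mul, id] at e
  have a3 := a2 (Real.log x)
  have b3 := b2 (Real.log x)
  rw [← F.rep_Ln (fun s => mu1 α β V W s / s) fun s => exp (s * Real.log x)] at a3
  rw [← F.rep_res (fun s => mu1 α β V W s / s) fun s => exp (s * Real.log x)] at b3
  refine Eq.trans ?_ (e.trans (congrArg₂ _ a3 b3)).symm
  have hx' : ∀ s : ℂ, mu1 α β V W s / s * exp (s * Real.log x) =
      α * ((x : ℂ) ^ s * (V / (s * (s + V)))) + β * ((x : ℂ) ^ s * (W / (s * (s + W)))) := by
    intro s
    rw [rep_mu, cpow_def_of_ne_zero (ofReal_ne_zero.2 hx.ne'), ← ofReal_log hx.le,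
      mul_comm (Real.log x : ℂ) s]
    ring
  have cx : ContinuousOn (fun s : ℂ => (x : ℂ) ^ s) (Metric.sphere 1 (1 / 2)) :=
    (continuous_id.const_cpow (Or.inl (ofReal_ne_zero.2 hx.ne'))).continuousOn
  simp only [hx', mul_add (F.L _), mul_left_comm (F.L _) (α : ℂ), mul_left_comm (F.L _) (β : ℂ)]
  rw [F.res_add _ _ (cx.fun_mul (rep_ca hV)) (cx.fun_mul (rep_ca hW)),
    Ln_add ((F.rep_intL (rep_xa hV hx)).const_mul _) ((F.rep_intL (rep_xa hW hx)).const_mul _),
    Ln_const_mul, Ln_const_mul, ← F.sum_perron hV hx, ← F.sum_perron hW hx, A, A]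
  ring

end Sel

end Pool.Agent.Lib.MP_2a1a00_nt
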