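import Pool.Agent.Lib.MP_2a1a00_nt.En2
import Pool.Agent.Lib.MP_2a1a00_nt.Rep
import Pool.Agent.Lib.MP_2a1a00_nt.Mul
import Pool.Agent.Lib.MP_2a1a00_nt.X
import Pool.Agent.Lib.MP_2a1a00_nt.Bil

/-! The supremum and the bilinear form. -/

namespace Pool.Agent.Lib.MP_2a1a00_nt

open Complex MeasureTheory Set

theorem pk2_pos {U V : ℝ} (hU : 1 ≤ U) (hV : 1 ≤ V) : 0 < min 1 (V / U) :=
  lt_min one_pos (by positivity)

theorem pk2_inv {U V : ℝ} (hU : 1 ≤ U) (hV : 1 ≤ V) : U⁻¹ ≤ min 1 (V / U) := by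
  refine le_min (inv_le_one_of_one_le₀ hU) ?_
  rw [← one_div]
  exact div_le_div_of_nonneg_right hV (by linarith)

theorem pk2_one {δ U V : ℝ} (h0 : 0 ≤ δ) (h1 : δ ≤ 1) (hU : 1 ≤ U) (hV : 1 ≤ V) :
    U ^ δ * min 1 (V / U) ≤ V ^ δ := by
  have h := rpow_min_le h0 h1 hU hV
  rwa [Real.rpow_one] at h

/-- The block bound in the form needed for the dyadic sum. -/
theorem pk2_blk {δ U C₁ C₂ m G w Z : ℝ} (hU : 1 ≤ U) (h₁ : 0 < C₁) (h₂ : 0 < C₂) (hG : 1 ≤ G)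
    (hm : U⁻¹ ≤ m) (hw : 0 ≤ w) (h : U ^ (2 * δ) * (G * m) * w ≤ Z) :
    C₁ * U ^ δ * (C₂ * U⁻¹ * m * U * G + U⁻¹) * w ≤ C₁ * (C₂ + 1) * Z * U ^ (-δ) := by
  have hU0 : 0 < U := by linarith
  have hm0 : 0 ≤ m := (inv_pos.2 hU0).le.trans hm
  have e1 : U ^ δ = U ^ (2 * δ) * U ^ (-δ) := by
    rw [← Real.rpow_add hU0]
    congr 1
    ring
  have e2 : C₂ * U⁻¹ * m * U * G = C₂ * (G * m) := by field_simp
  have h3 : U⁻¹ ≤ G * m := hm.trans (le_mul_of_one_le_left hm0 hG)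
  calc C₁ * U ^ δ * (C₂ * U⁻¹ * m * U * G + U⁻¹) * w
      ≤ C₁ * U ^ δ * (C₂ * (G * m) + G * m) * w := by rw [e2]; gcongr
    _ = C₁ * (C₂ + 1) * (U ^ (2 * δ) * (G * m) * w) * U ^ (-δ) := by rw [e1]; ring
    _ ≤ _ := by gcongr

theorem pk2_key {g : ℝ → ℝ → ℝ} (hg : Slow g) {δ U V W T : ℝ} (h0 : 0 < δ) (h1 : δ ≤ 1 / 4)
    (hU : 1 ≤ U) (hV : 1 ≤ V) (hVT : V ≤ T) (hW : 1 ≤ W) (hWT : W ≤ T) :
    U ^ (2 * δ) * (g T U * min 1 (W / U)) * min 1 (V / U) ^ (1 - 2 * δ) ≤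
      T ^ (4 * δ) * g T (min V W) := by
  have hT : 1 ≤ T := hV.trans hVT
  have hU0 : 0 < U := by linarith
  have mV := pk2_pos hU hV
  have mW := pk2_pos hU hW
  have gU : 0 ≤ g T U := zero_le_one.trans (hg.1 T U hT hU)
  rcases le_total W V with h | h
  · rw [min_eq_right h, mul_right_comm]
    refine mul_le_mul ((rpow_min_le (by linarith) (by linarith) hU hV).trans ?_)
      (hg.2 T U W hT hU hW) (by positivity) (by positivity)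
    exact (Real.rpow_le_rpow (by linarith) hVT (by linarith)).trans
      (Real.rpow_le_rpow_of_exponent_le hT (by linarith))
  · rw [min_eq_left h]
    have h2 : min 1 (V / U) ^ (1 - 2 * δ) ≤ min 1 (V / U) * U ^ (2 * δ) := by
      rw [Real.rpow_sub mV, Real.rpow_one, div_eq_mul_inv]
      refine mul_le_mul_of_nonneg_left ?_ mV.le
      rw [inv_le_comm₀ (by positivity) (by positivity), ← Real.inv_rpow hU0.le]
      exact Real.rpow_le_rpow (by positivity) (pk2_inv hU hV) (by linarith)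
    have e : U ^ (2 * δ) * U ^ (2 * δ) = U ^ (4 * δ) := by
      rw [← Real.rpow_add hU0]
      congr 1
      ring
    calc U ^ (2 * δ) * (g T U * min 1 (W / U)) * min 1 (V / U) ^ (1 - 2 * δ)
        ≤ U ^ (2 * δ) * (g T U * min 1 (W / U)) * (min 1 (V / U) * U ^ (2 * δ)) := by gcongr
      _ = U ^ (4 * δ) * min 1 (W / U) * (g T U * min 1 (V / U)) := by rw [← e]; ring
      _ ≤ T ^ (4 * δ) * g T V := mul_le_mul ((pk2_one (by linarith) (by linarith) hU hW).trans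
          (Real.rpow_le_rpow (by linarith) hWT (by linarith))) (hg.2 T U V hT hU hV)
          (by positivity) (by positivity)

theorem pk2_rep (F : Sel) {V T : ℝ} (hV : 1 ≤ V) (hT : 1 ≤ T) :
    Integrable (F.Psi (mu1 1 0 V V) T) ∧ Loc (F.A V) (four (F.Psi (mu1 1 0 V V) T)) T := by
  have h := F.rep 1 0 hV hV hT
  have e : (fun x => ((1 : ℝ) : ℂ) * F.A V x + ((0 : ℝ) : ℂ) * F.A V x) = F.A V := by
    funext x
    simp
  rwa [e] at h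

namespace Sel

/- Reduce to `ε ≤ 1`.  `E = (2 * A W - A (2 * W)) + 2 * (E - A W) - (E - A (2 * W))`; `R_le` for the last two
terms.  For the first: `hm_c`, `F.L1 g` with `ε / 2`, `g T U * min 1 (W / U) ≤ g T W`,
`U ^ ε * min 1 (W / U) ≤ W ^ ε` (`rpow_min_le`), `dy` with `ε / 2`, `four_sup`, `rep`, `x_sup`. -/
theorem sup_E (F : Sel) {g : ℝ → ℝ → ℝ} (hg : Slow g) (h : F.L1 g) {ε : ℝ} (hε : 0 < ε) :
    ∃ C : ℝ, 0 < C ∧ ∀ W T : ℝ, 1 ≤ W → W ≤ T → ∀ x ∈ Icc T (2 * T),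
      ‖F.E x‖ ≤ C * T ^ ε * (T / W + g T W) := by
  obtain ⟨η, h0, h1, h2⟩ : ∃ η : ℝ, 0 < η ∧ 2 * η ≤ ε ∧ 2 * η ≤ 1 :=
    ⟨min ε 1 / 2, half_pos (lt_min hε one_pos), by linarith [min_le_left ε 1],
      by linarith [min_le_right ε 1]⟩
  obtain ⟨C₁, p₁, H₁⟩ := h η h0
  obtain ⟨C₂, p₂, H₂⟩ := hm_c
  obtain ⟨C₃, p₃, H₃⟩ := dy h0
  obtain ⟨C₄, p₄, H₄⟩ := x_sup
  obtain ⟨C₅, p₅, H₅⟩ := F.R_le hε
  refine ⟨C₄ * (C₃ * (C₁ * (C₂ + 1))) + 6 * (C₅ * 2 ^ ε), by positivity,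
    fun W T hW hWT x hx => ?_⟩
  have hT : 1 ≤ T := hW.trans hWT
  have hW2 : 1 ≤ 2 * W := by linarith
  have gW := hg.1 T W hT hW
  have hB : 0 ≤ C₁ * (C₂ + 1) * (T ^ ε * g T W) := by positivity
  have h3 := H₃ (fun t => ‖F.Psi (mu1 2 (-1) W (2 * W)) T t‖ₑ) _ hB fun U hU => by
    have mW := pk2_pos hU hW
    have gU := hg.1 T U hT hU
    refine (H₁ _ T U _ (adm_mu1 (by norm_num) hW hW2) hT hU (by positivity) (H₂ W U hW hU)).trans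
      (ENNReal.ofReal_le_ofReal ?_)
    have h4 : U ^ (2 * η) * min 1 (W / U) ≤ T ^ ε :=
      (pk2_one (by linarith) h2 hU hW).trans ((Real.rpow_le_rpow (by linarith) hWT
        (by linarith)).trans (Real.rpow_le_rpow_of_exponent_le hT h1))
    have h5 := hg.2 T U W hT hU hW
    have hU0 : 0 < U := by linarith
    have e1 : U ^ η = U ^ (2 * η) * U ^ (-η) := by
      rw [← Real.rpow_add hU0]
      congr 1
      ring
    have e2 : C₂ * U⁻¹ * min 1 (W / U) ^ 2 * U * g T U =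
        min 1 (W / U) * (C₂ * (g T U * min 1 (W / U))) := by field_simp
    have h6 : U⁻¹ ≤ min 1 (W / U) * g T W := (pk2_inv hU hW).trans (le_mul_of_one_le_right mW.le gW)
    calc C₁ * U ^ η * (C₂ * U⁻¹ * min 1 (W / U) ^ 2 * U * g T U + U⁻¹)
        ≤ C₁ * U ^ η * (min 1 (W / U) * (C₂ * g T W) + min 1 (W / U) * g T W) := by
          rw [e2]; gcongr
      _ = C₁ * (C₂ + 1) * (U ^ (2 * η) * min 1 (W / U) * g T W) * U ^ (-η) := by rw [e1]; ring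
      _ ≤ _ := by gcongr
  have h4 := H₄ _ _ T _ hT (F.rep 2 (-1) hW hW2 hT).2 (four_sup (by positivity) h3) x hx
  have hx1 : 1 ≤ x := hT.trans hx.1
  have h5 : ∀ V, W ≤ V → ‖F.E x - F.A V x‖ ≤ 2 * (C₅ * 2 ^ ε * T ^ ε * (T / W + g T W)) :=
    fun V hV => by
      have h6 : x ^ ε ≤ 2 ^ ε * T ^ ε := by
        rw [← Real.mul_rpow zero_le_two (by linarith)]
        exact Real.rpow_le_rpow (by linarith) hx.2 hε.le
      have h7 : x / V ≤ 2 * (T / W) := by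
        rw [← mul_div_assoc]
        exact div_le_div₀ (by linarith) hx.2 (by linarith) hV
      calc ‖F.E x - F.A V x‖ ≤ C₅ * x ^ ε * (x / V + 1) := H₅ x V hx1 (hW.trans hV)
        _ ≤ C₅ * (2 ^ ε * T ^ ε) * (2 * (T / W) + 2 * g T W) :=
          mul_le_mul (mul_le_mul_of_nonneg_left h6 p₅.le) (by linarith)
            (add_nonneg (div_nonneg (by linarith) (by linarith)) zero_le_one) (by positivity)
        _ = _ := by ring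
  have e : F.E x = (((2 : ℝ) : ℂ) * F.A W x + ((-1 : ℝ) : ℂ) * F.A (2 * W) x) +
      2 * (F.E x - F.A W x) - (F.E x - F.A (2 * W) x) := by
    push_cast
    ring
  have h6 := h5 W le_rfl
  have h7 := h5 (2 * W) (by linarith)
  have h8 : 0 ≤ C₄ * (C₃ * (C₁ * (C₂ + 1))) * T ^ ε * (T / W) := by positivity
  rw [e]
  refine (norm_sub_le _ _).trans ((add_le_add_left (norm_add_le _ _) _).trans ?_)
  rw [norm_mul, Complex.norm_ofNat]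
  linarith

/- `en_sup` at `U = jb t`, `hm_a`, `U ^ (deg / 2) ≤ U`, `U⁻¹ ≤ min 1 (V / U)`, `rpow_min_eq`. -/
theorem psi_sup (F : Sel) (h : F.deg ≤ 2) {δ : ℝ} (h0 : 0 < δ) (h1 : δ ≤ 1) : ∃ C : ℝ, 0 < C ∧
    ∀ V T t : ℝ, 1 ≤ V → 1 ≤ T →
      ‖F.Psi (mu1 1 0 V V) T t‖ ≤ C * V ^ δ * min 1 (V / jb t) ^ (1 - δ) := by
  obtain ⟨C₁, p₁, H₁⟩ := F.en_sup h0
  obtain ⟨C₂, p₂, H₂⟩ := hm_a
  refine ⟨C₁ * (C₂ + 1), by positivity, fun V T t hV hT => ?_⟩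
  have hU := one_le_jb t
  have hU0 := jb_pos t
  have mV := pk2_pos hU hV
  have h2 : jb t ^ (F.deg / 2) ≤ jb t :=
    (Real.rpow_le_rpow_of_exponent_le hU (by linarith)).trans_eq (Real.rpow_one _)
  have h3 := pk2_inv hU hV
  have h4 := rpow_min_eq h0.le h1 hU hV
  calc ‖F.Psi (mu1 1 0 V V) T t‖
      ≤ C₁ * jb t ^ δ * (C₂ * (jb t)⁻¹ * min 1 (V / jb t) * jb t ^ (F.deg / 2) + (jb t)⁻¹) :=
        H₁ _ T _ _ t (adm_mu1 (by norm_num) hV hV) hT hU (by positivity) (H₂ V _ hV hU)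
          ⟨le_rfl, by linarith⟩
    _ ≤ C₁ * jb t ^ δ * (C₂ * (jb t)⁻¹ * min 1 (V / jb t) * jb t + min 1 (V / jb t)) := by gcongr
    _ = C₁ * (C₂ + 1) * (jb t ^ δ * min 1 (V / jb t)) := by field_simp
    _ ≤ C₁ * (C₂ + 1) * (V ^ δ * min 1 (V / jb t) ^ (1 - δ)) := by gcongr
    _ = _ := by ring

/- On `Bl U` the weight is at most `min 1 (V / U) ^ (1 - 2 * δ)`.  `F.L1 g` with `δ`, `hm_a`, `dy` with `δ`.
If `W ≤ V` use `g T U * min 1 (W / U) ≤ g T W` and `U ^ (2 δ) * min 1 (V / U) ^ (1 - 2 δ) ≤ V ^ (2 δ)`.  If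
`V ≤ W` use `min 1 (V / U) ^ (1 - 2 δ) ≤ min 1 (V / U) * U ^ (2 δ)`, `g T U * min 1 (V / U) ≤ g T V` and
`U ^ (4 δ) * min 1 (W / U) ≤ W ^ (4 δ)`. -/
theorem psi_wt (F : Sel) {g : ℝ → ℝ → ℝ} (hg : Slow g) (h : F.L1 g) {δ : ℝ} (h0 : 0 < δ)
    (h1 : δ ≤ 1 / 4) : ∃ C : ℝ, 0 < C ∧ ∀ V W T : ℝ, 1 ≤ V → V ≤ T → 1 ≤ W → W ≤ T →
      ∫⁻ t, ‖F.Psi (mu1 1 0 W W) T t‖ₑ * ENNReal.ofReal (min 1 (V / jb t) ^ (1 - 2 * δ)) ≤
        ENNReal.ofReal (C * T ^ (4 * δ) * g T (min V W)) := by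
  obtain ⟨C₁, p₁, H₁⟩ := h δ h0
  obtain ⟨C₂, p₂, H₂⟩ := hm_a
  obtain ⟨C₃, p₃, H₃⟩ := dy h0
  refine ⟨C₃ * (C₁ * (C₂ + 1)), by positivity, fun V W T hV hVT hW hWT => ?_⟩
  have hT : 1 ≤ T := hV.trans hVT
  have gm := hg.1 T _ hT (le_min hV hW)
  refine (H₃ _ (C₁ * (C₂ + 1) * (T ^ (4 * δ) * g T (min V W))) (by positivity)
    fun U hU => ?_).trans_eq (congrArg _ (by ring))
  have mV := pk2_pos hU hV
  have mW := pk2_pos hU hW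
  have gU := hg.1 T U hT hU
  calc ∫⁻ t in Bl U, ‖F.Psi (mu1 1 0 W W) T t‖ₑ * ENNReal.ofReal (min 1 (V / jb t) ^ (1 - 2 * δ))
      ≤ ∫⁻ t in Bl U, ‖F.Psi (mu1 1 0 W W) T t‖ₑ * ENNReal.ofReal (min 1 (V / U) ^ (1 - 2 * δ)) := by
        refine setLIntegral_mono' (measurableSet_Bl U) fun t ht => mul_le_mul_right
          (ENNReal.ofReal_le_ofReal (Real.rpow_le_rpow (pk2_pos (one_le_jb t) hV).le
            (min_le_min le_rfl ?_) (by linarith))) _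
        exact div_le_div_of_nonneg_left (by linarith) (by linarith) ht.1
    _ ≤ ENNReal.ofReal (C₁ * U ^ δ * (C₂ * U⁻¹ * min 1 (W / U) * U * g T U + U⁻¹)) *
        ENNReal.ofReal (min 1 (V / U) ^ (1 - 2 * δ)) := by
        rw [lintegral_mul_const' _ _ ENNReal.ofReal_ne_top]
        exact mul_le_mul_left (H₁ _ T U _ (adm_mu1 (by norm_num) hW hW) hT hU (by positivity)
          (H₂ W U hW hU)) _
    _ ≤ _ := by
        rw [← ENNReal.ofReal_mul (by positivity)]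
        exact ENNReal.ofReal_le_ofReal (pk2_blk hU p₁ p₂ gU (pk2_inv hU hW) (by positivity)
          (pk2_key hg h0 h1 hU hV hVT hW hWT))

/- `δ = min (1 / 4) (ε / 6)`; `rep`, `psi_sup`, `psi_wt`, `bil`, `x_bil`. -/
theorem bil_x {F₁ F₂ : Sel} (h1 : F₁.deg ≤ 2) {g : ℝ → ℝ → ℝ} (hg : Slow g) (h2 : F₂.L1 g) {ε : ℝ}
    (hε : 0 < ε) : ∃ C : ℝ, 0 < C ∧ ∀ V W T : ℝ, 1 ≤ V → V ≤ T → 1 ≤ W → W ≤ T →
      ∀ y ∈ Icc T (2 * T), ‖∫ x in T..y, F₁.A V x * F₂.A W x‖ ≤ C * T ^ ε * (T * g T (min V W)) := by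
  obtain ⟨δ, d0, d1, d2⟩ : ∃ δ : ℝ, 0 < δ ∧ δ ≤ 1 / 4 ∧ 6 * δ ≤ ε :=
    ⟨min (1 / 4) (ε / 6), lt_min (by norm_num) (by positivity), min_le_left _ _,
      by linarith [min_le_right (1 / 4) (ε / 6)]⟩
  obtain ⟨C₁, p₁, H₁⟩ := F₁.psi_sup h1 d0 (by linarith)
  obtain ⟨C₂, p₂, H₂⟩ := F₂.psi_wt hg h2 d0 d1
  obtain ⟨C₃, p₃, H₃⟩ := bil d0 d1
  obtain ⟨C₄, p₄, H₄⟩ := x_bil
  refine ⟨C₄ * (C₃ * C₁ * C₂), by positivity, fun V W T hV hVT hW hWT y hy => ?_⟩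
  have hT : 1 ≤ T := hV.trans hVT
  have hT0 : 0 < T := by linarith
  have gm := hg.1 T _ hT (le_min hV hW)
  obtain ⟨i₁, l₁⟩ := pk2_rep F₁ hV hT
  obtain ⟨i₂, l₂⟩ := pk2_rep F₂ hW hT
  have h3 : V ^ δ ≤ T ^ δ := Real.rpow_le_rpow (by linarith) hVT d0.le
  have h4 : T ^ δ * T ^ δ * T ^ (4 * δ) ≤ T ^ ε := by
    rw [← Real.rpow_add hT0, ← Real.rpow_add hT0]
    exact Real.rpow_le_rpow_of_exponent_le hT (by linarith)
  calc ‖∫ x in T..y, F₁.A V x * F₂.A W x‖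
      ≤ C₄ * T * (C₃ * (C₁ * V ^ δ) * V ^ δ * (C₂ * T ^ (4 * δ) * g T (min V W))) :=
        H₄ _ _ _ _ T _ hT (continuous_four i₁) (continuous_four i₂) l₁ l₂ (fun b hb =>
          H₃ _ _ V _ _ _ b i₁ i₂ hV (by positivity) (by positivity) hb.1 hb.2
            (fun t => H₁ V T t hV hT) (H₂ V W T hV hVT hW hWT)) y hy
    _ ≤ C₄ * T * (C₃ * (C₁ * T ^ δ) * T ^ δ * (C₂ * T ^ (4 * δ) * g T (min V W))) := by gcongr
    _ = C₄ * (C₃ * C₁ * C₂) * (T ^ δ * T ^ δ * T ^ (4 * δ)) * (T * g T (min V W)) := by ring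
    _ ≤ _ := by gcongr

end Sel

end Pool.Agent.Lib.MP_2a1a00_nt
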