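import Pool.Agent.Lib.MP_2a1a00_nt.Pk1
import Pool.Agent.Lib.MP_2a1a00_nt.Pk2

/-! The integral of the product of the two smoothed error terms. -/

namespace Pool.Agent.Lib.MP_2a1a00_nt

open Complex MeasureTheory Set

namespace Sel

/- `S₁ S₂ = A₁ V * S₂ + S₁ * A₂ V - A₁ V * A₂ V + (S₁ - A₁ V) * (S₂ - A₂ V)` with `S = A T`; `bil_x` three times,
`cs` and `sq_diff2`. -/
theorem untw {F₁ F₂ : Sel} (h1 : F₁.deg ≤ 2) {g : ℝ → ℝ → ℝ} (hg : Slow g) (h2 : F₂.L1 g) {ε : ℝ}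
    (hε : 0 < ε) : ∃ C : ℝ, 0 < C ∧ ∀ V T r : ℝ, 1 ≤ V → V ≤ T →
      nm (fun x => F₂.A T x - F₂.A V x) T ≤ r → ∀ y ∈ Icc T (2 * T),
      ‖∫ x in T..y, F₁.A T x * F₂.A T x‖ ≤ C * T ^ ε * (T * g T V + T / √V * r) := by
  obtain ⟨C1, hC1, hb⟩ := bil_x h1 hg h2 hε
  obtain ⟨C2, hC2, hs⟩ := F₁.sq_diff2 h1 hε
  refine ⟨3 * C1 + C2, by positivity, fun V T r hV hVT hr y hy => ?_⟩
  have hT : 1 ≤ T := hV.trans hVT
  have hT0 : 0 ≤ T := by linarith
  have a1 := (F₁.nice_A hV hT).bm0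
  have a2 := (F₂.nice_A hV hT).bm0
  have s1 := (F₁.nice_A hT hT).bm0
  have s2 := (F₂.nice_A hT hT).bm0
  have e : ∫ x in T..y, F₁.A T x * F₂.A T x =
      (∫ x in T..y, F₁.A V x * F₂.A T x) + (∫ x in T..y, F₁.A T x * F₂.A V x) -
        (∫ x in T..y, F₁.A V x * F₂.A V x) +
        ∫ x in T..y, (F₁.A T x - F₁.A V x) * (F₂.A T x - F₂.A V x) := by
    rw [← intervalIntegral.integral_add ((a1.mul s2).int hy) ((s1.mul a2).int hy),
      ← intervalIntegral.integral_sub (((a1.mul s2).add (s1.mul a2)).int hy) ((a1.mul a2).int hy),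
      ← intervalIntegral.integral_add ((((a1.mul s2).add (s1.mul a2)).sub (a1.mul a2)).int hy)
        (((s1.sub a1).mul (s2.sub a2)).int hy)]
    congr 1
    ext x
    ring
  have b1 := hb V T T hV hVT hT le_rfl y hy
  have b2 := hb T V T hT le_rfl hV hVT y hy
  have b3 := hb V V T hV hVT hV hVT y hy
  rw [min_eq_left hVT] at b1
  rw [min_eq_right hVT] at b2
  rw [min_self] at b3
  have b4 := (cs hT0 (s1.sub a1) (s2.sub a2) hy).trans
    (mul_le_mul (hs V T hV hVT) hr (nm_nonneg _ _) (by positivity))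
  have hr0 : 0 ≤ r := (nm_nonneg _ _).trans hr
  have hg0 : 0 ≤ g T V := zero_le_one.trans (hg.1 T V hT hV)
  rw [e]
  refine (norm_add_le _ _).trans ((add_le_add ((norm_sub_le _ _).trans (add_le_add
    ((norm_add_le _ _).trans (add_le_add b1 b2)) b3)) b4).trans ?_)
  have p1 : 0 ≤ C1 * T ^ ε * (T / √V * r) := by positivity
  have p2 : 0 ≤ C2 * T ^ ε * (T * g T V) := by positivity
  nlinarith

theorem R_le' (F : Sel) {ε : ℝ} (hε : 0 < ε) : ∃ C : ℝ, 0 < C ∧ ∀ V T : ℝ, 1 ≤ V → V ≤ T →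
    ∀ x ∈ Icc T (2 * T), ‖F.E x - F.A V x‖ ≤ C * T ^ ε * (T / V) := by
  obtain ⟨C, hC, h⟩ := F.R_le hε
  refine ⟨C * 2 ^ ε * 3, by positivity, fun V T hV hVT x hx => ?_⟩
  have hT : 1 ≤ T := hV.trans hVT
  have hV0 : 0 < V := by linarith
  have h1 : x ^ ε ≤ 2 ^ ε * T ^ ε := by
    rw [← Real.mul_rpow (by norm_num) (by linarith)]
    exact Real.rpow_le_rpow (by linarith [hx.1]) hx.2 hε.le
  have h2 : x / V + 1 ≤ 3 * (T / V) := by
    have h3 : 1 ≤ T / V := (one_le_div hV0).2 hVT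
    have h4 : x / V ≤ 2 * T / V := div_le_div_of_nonneg_right hx.2 hV0.le
    rw [mul_div_assoc] at h4
    linarith
  have hx0 : 0 ≤ x := by linarith [hx.1]
  calc _ ≤ C * x ^ ε * (x / V + 1) := h x V (hT.trans hx.1) hV
    _ ≤ C * (2 ^ ε * T ^ ε) * (3 * (T / V)) := by gcongr
    _ = _ := by ring

theorem bm_E (F : Sel) {T : ℝ} (hT : 1 ≤ T) : Bm F.E T := by
  obtain ⟨K, hK⟩ := F.E_bdd (2 * T)
  exact ⟨F.E_meas.mono_set fun x hx => lt_trans (by linarith) hx.1,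
    K, fun x hx => hK x ⟨hT.trans hx.1, hx.2⟩⟩

/- `A W - A V = (E - A V) - (E - A W)`, `R_le`, `nm_sup`. -/
theorem nm_triv (F : Sel) {ε : ℝ} (hε : 0 < ε) : ∃ C : ℝ, 0 < C ∧ ∀ V W T : ℝ, 1 ≤ V → V ≤ W → W ≤ T →
    nm (fun x => F.A W x - F.A V x) T ≤ C * T ^ ε * (T / V * √T) := by
  obtain ⟨C, hC, h⟩ := F.R_le' hε
  refine ⟨2 * C, by positivity, fun V W T hV hVW hWT => ?_⟩
  have hW : 1 ≤ W := hV.trans hVW
  have hT : 1 ≤ T := hW.trans hWT
  refine (nm_sup (by linarith) ((F.nice_A hW hT).bm0.sub (F.nice_A hV hT).bm0)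
    (K := 2 * C * T ^ ε * (T / V)) fun x hx => ?_).trans (le_of_eq (by ring))
  rw [show F.A W x - F.A V x = (F.E x - F.A V x) - (F.E x - F.A W x) by ring]
  refine (norm_sub_le _ _).trans ?_
  have h1 := h V T hV (hVW.trans hWT) x hx
  have h2 := h W T hW hWT x hx
  have h3 : T / W ≤ T / V := div_le_div_of_nonneg_left (by linarith) (by linarith) hVW
  have h4 : C * T ^ ε * (T / W) ≤ C * T ^ ε * (T / V) :=
    mul_le_mul_of_nonneg_left h3 (by positivity)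
  linarith

/-- The facts about the error term of degree two.  `sup_E` with `L1_deg`, `slow_deg`, `W = √T`; `R_le`;
for the derivative `E - A V = (E - A T) + (A T - A V)`, `nm_mono`, `nm_add`, `nm_sup`, `sq_diff2`. -/
theorem facts (F : Sel) (h : F.deg ≤ 2) {ε : ℝ} (hε : 0 < ε) : ∃ K : ℝ, 0 < K ∧ ∀ T : ℝ, 1 ≤ T →
    nm (F.A √T) T ≤ K * T ^ ε * (T / √√T) ∧ ∀ V : ℝ, √T ≤ V → V ≤ T →
      (∀ x ∈ Icc T (2 * T), ‖F.A V x‖ ≤ K * T ^ ε * √T) ∧
      nm (fun x => V * (F.E x - F.A V x) / x) T ≤ K * T ^ ε * √V ∧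
      nm (fun x => F.A T x - F.A V x) T ≤ K * T ^ ε * (T / √V) := by
  obtain ⟨C1, hC1, h1⟩ := F.sup_E slow_deg (F.L1_deg (by linarith)) hε
  obtain ⟨C2, hC2, h2⟩ := F.R_le' hε
  obtain ⟨C3, hC3, h3⟩ := F.sq_diff2 h hε
  obtain ⟨C4, hC4, h4⟩ := F.sq_low2 h hε
  refine ⟨3 * C1 + C2 + C3 + C4, by positivity, fun T hT => ⟨(h4 T hT).trans ?_, fun V hV hVT => ?_⟩⟩
  · gcongr
    linarith
  have hT0 : 0 < T := by linarith
  have hs1 : 1 ≤ √T := Real.one_le_sqrt.2 hT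
  have hV1 : 1 ≤ V := hs1.trans hV
  have hsT : √T ≤ T := hV.trans hVT
  have hτ : 0 < T ^ ε := Real.rpow_pos_of_pos hT0 ε
  have hV0 : 0 < V := by linarith
  have hsV : 0 < √V := Real.sqrt_pos.2 hV0
  refine ⟨fun x hx => ?_, ?_, (h3 V T hV1 hVT).trans ?_⟩
  · have k1 := h1 √T T hs1 hsT x hx
    have k2 := h2 V T hV1 hVT x hx
    have k3 : T / V ≤ √T :=
      (div_le_div_of_nonneg_left hT0.le (by linarith) hV).trans (le_of_eq (Real.div_sqrt))
    have k4 : C2 * T ^ ε * (T / V) ≤ C2 * T ^ ε * √T := mul_le_mul_of_nonneg_left k3 (by positivity)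
    rw [Real.div_sqrt] at k1
    rw [show F.A V x = F.E x - (F.E x - F.A V x) by ring]
    refine (norm_sub_le _ _).trans ?_
    have p : 0 ≤ (C3 + C4) * T ^ ε * √T := by positivity
    nlinarith
  · have bE := F.bm_E hT
    have bT := (F.nice_A hT hT).bm0
    have bV := (F.nice_A hV1 hT).bm0
    have k1 : nm (fun x => V * (F.E x - F.A V x) / x) T ≤ V / T * nm (fun x => F.E x - F.A V x) T := by
      refine nm_mono hT0.le (F.nice_A hV1 hT).bm (bE.sub bV) (by positivity) fun x hx => ?_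
      have hx0 : 0 < x := by linarith [hx.1]
      rw [norm_div, norm_mul, Complex.norm_real, Complex.norm_real, Real.norm_of_nonneg hV0.le,
        Real.norm_of_nonneg hx0.le, div_mul_eq_mul_div]
      exact div_le_div_of_nonneg_left (by positivity) hT0 hx.1
    have k2 : nm (fun x => F.E x - F.A V x) T ≤
        nm (fun x => F.E x - F.A T x) T + nm (fun x => F.A T x - F.A V x) T := by
      refine le_trans (le_of_eq ?_) (nm_add hT0.le (bE.sub bT) (bT.sub bV))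
      congr 1
      ext x
      ring
    have k3 := nm_sup hT0.le (bE.sub bT) (h2 T T hT le_rfl)
    rw [div_self hT0.ne', mul_one] at k3
    have k4 : √T ≤ T / √V := by
      rw [le_div_iff₀ hsV]
      calc √T * √V ≤ √T * √T := mul_le_mul_of_nonneg_left (Real.sqrt_le_sqrt hVT) (by positivity)
        _ = T := Real.mul_self_sqrt hT0.le
    have k5 : V / T * (T / √V) = √V := by
      rw [div_mul_div_comm, mul_comm V T, mul_div_mul_left _ _ hT0.ne', Real.div_sqrt]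
    have k6 : nm (fun x => F.E x - F.A V x) T ≤ (C2 + C3) * T ^ ε * (T / √V) := by
      have := mul_le_mul_of_nonneg_left k4 (by positivity : 0 ≤ C2 * T ^ ε)
      linarith [h3 V T hV1 hVT]
    calc _ ≤ V / T * ((C2 + C3) * T ^ ε * (T / √V)) :=
          k1.trans (mul_le_mul_of_nonneg_left k6 (by positivity))
      _ = (C2 + C3) * T ^ ε * (V / T * (T / √V)) := by ring
      _ ≤ _ := by
        rw [k5]
        exact mul_le_mul_of_nonneg_right (mul_le_mul_of_nonneg_right (by linarith) hτ.le) hsV.le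
  · gcongr
    linarith

end Sel

end Pool.Agent.Lib.MP_2a1a00_nt
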