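import Pool.Agent.Lib.MP_2a1a00_nt.Defs

/-! Elementary properties of the error term and of its smoothed versions. -/

namespace Pool.Agent.Lib.MP_2a1a00_nt

open Complex MeasureTheory Set

namespace Sel

variable (F : Sel)

theorem triv_ball {s : ℂ} {r : ℝ} (hs : s ∈ Metric.closedBall (1 : ℂ) r) :
    1 - r ≤ s.re ∧ s.re ≤ 1 + r := by
  have h := abs_le.1 ((abs_re_le_norm (s - 1)).trans (mem_closedBall_iff_norm.1 hs))
  rw [sub_re, one_re] at h
  exact ⟨by linarith [h.1], by linarith [h.2]⟩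

theorem triv_ne {s : ℂ} {r : ℝ} (hr : 0 < r) (hs : s ∉ Metric.ball (1 : ℂ) r) : s ≠ 1 :=
  fun h => hs (h ▸ Metric.mem_ball_self hr)

theorem triv_L {r : ℝ} (hr : 0 < r) : ContinuousOn F.L (Metric.sphere 1 r) := fun _ hs =>
  (F.differentiableAt_L (triv_ne hr fun h =>
    (Metric.mem_ball.1 h).ne (Metric.mem_sphere.1 hs))).continuousAt.continuousWithinAt

theorem triv_sph {s : ℂ} (hs : s ∈ Metric.sphere (1 : ℂ) (1 / 2)) {V : ℝ} (hV : 0 ≤ V) :
    s ≠ 0 ∧ s + V ≠ 0 := by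
  have h := (triv_ball (Metric.sphere_subset_closedBall hs)).1
  refine ⟨fun e => ?_, fun e => ?_⟩
  · rw [e, zero_re] at h
    linarith
  · have := congrArg re e
    rw [add_re, ofReal_re, zero_re] at this
    linarith

theorem triv_cpow {x : ℝ} (hx : 0 < x) : Continuous fun s : ℂ => (x : ℂ) ^ s :=
  continuous_id.const_cpow (Or.inl (ofReal_ne_zero.2 hx.ne'))

theorem triv_c1 {V : ℝ} (hV : 0 ≤ V) :
    ContinuousOn (fun s : ℂ => (V : ℂ) / (s * (s + V))) (Metric.sphere 1 (1 / 2)) :=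
  continuousOn_const.div (by fun_prop) fun _ hs => mul_ne_zero (triv_sph hs hV).1 (triv_sph hs hV).2

theorem triv_c2 {V : ℝ} (hV : 0 ≤ V) :
    ContinuousOn (fun s : ℂ => 1 / (s + V)) (Metric.sphere 1 (1 / 2)) :=
  continuousOn_const.div (by fun_prop) fun _ hs => (triv_sph hs hV).2

theorem circ_int {h : ℂ → ℂ} (hh : ContinuousOn h (Metric.sphere 1 (1 / 2))) :
    CircleIntegrable (fun s => F.L s * h s) 1 (1 / 2) := by
  exact ((F.triv_L (by norm_num)).mul hh).circleIntegrable (by norm_num)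

theorem res_add {h₁ h₂ : ℂ → ℂ} (c₁ c₂ : ℂ) (k1 : ContinuousOn h₁ (Metric.sphere 1 (1 / 2)))
    (k2 : ContinuousOn h₂ (Metric.sphere 1 (1 / 2))) :
    F.res (fun s => c₁ * h₁ s + c₂ * h₂ s) = c₁ * F.res h₁ + c₂ * F.res h₂ := by
  have e : (fun s => F.L s * (c₁ * h₁ s + c₂ * h₂ s)) =
      fun s => F.L s * (c₁ * h₁ s) + F.L s * (c₂ * h₂ s) := funext fun s => mul_add _ _ _
  unfold res
  rw [e, circleIntegral.integral_add (F.circ_int (continuousOn_const.fun_mul k1))
    (F.circ_int (continuousOn_const.fun_mul k2))]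
  simp only [mul_left_comm (F.L _), circleIntegral.integral_const_mul]
  ring

theorem res_congr {h₁ h₂ : ℂ → ℂ} (h : ∀ s ∈ Metric.sphere (1 : ℂ) (1 / 2), h₁ s = h₂ s) :
    F.res h₁ = F.res h₂ := by
  unfold res
  rw [circleIntegral.integral_congr (by norm_num) fun s hs => congrArg (F.L s * ·) (h s hs)]

/- Shrink the circle to the radius `r = min ε (1 / 2)`
(`Complex.circleIntegral_eq_of_differentiable_on_annulus_off_countable`), then
`circleIntegral.norm_integral_le_of_norm_le_const`. -/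
theorem res_le {ε : ℝ} (hε : 0 < ε) : ∃ C : ℝ, 0 < C ∧ ∀ (x K : ℝ) (h : ℂ → ℂ), 1 ≤ x →
    DifferentiableOn ℂ h (Metric.closedBall 1 (1 / 2)) →
    (∀ s ∈ Metric.closedBall (1 : ℂ) (1 / 2), ‖h s‖ ≤ K) →
    ‖F.res fun s => (x : ℂ) ^ s * h s‖ ≤ C * x ^ (1 + ε) * K := by
  obtain ⟨r, hr, hrε, hr2⟩ : ∃ r : ℝ, 0 < r ∧ r ≤ ε ∧ r ≤ 1 / 2 :=
    ⟨min ε (1 / 2), by positivity, min_le_left _ _, min_le_right _ _⟩
  obtain ⟨M, hM⟩ := (isCompact_sphere (1 : ℂ) r).exists_bound_of_continuousOn (F.triv_L hr)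
  refine ⟨|M| + 1, by positivity, fun x K h hx hd hK => ?_⟩
  have hx0 : 0 < x := by linarith
  have hK0 : 0 ≤ K := (norm_nonneg _).trans (hK 1 (Metric.mem_closedBall_self (by norm_num)))
  have hp : Differentiable ℂ fun s : ℂ => (x : ℂ) ^ s :=
    differentiable_id.const_cpow (Or.inl (ofReal_ne_zero.2 hx0.ne'))
  unfold res
  rw [circleIntegral_eq_of_differentiable_on_annulus_off_countable hr hr2
    (f := fun s => F.L s * ((x : ℂ) ^ s * h s)) countable_empty
    (fun s hs => (F.differentiableAt_L (triv_ne hr hs.2)).continuousAt.continuousWithinAt.mul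
      ((hp s).continuousAt.continuousWithinAt.mul ((hd.continuousOn s hs.1).mono sdiff_subset)))
    (fun s hs => (F.differentiableAt_L (triv_ne hr fun e =>
      hs.1.2 (Metric.ball_subset_closedBall e))).mul ((hp s).mul (hd.differentiableAt
        (Filter.mem_of_superset (Metric.isOpen_ball.mem_nhds hs.1.1)
          Metric.ball_subset_closedBall))))]
  refine (circleIntegral.norm_two_pi_i_inv_smul_integral_le_of_norm_le_const hr.le
    (C := |M| * (x ^ (1 + ε) * K)) fun s hs => ?_).trans ?_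
  · have h1 := Metric.sphere_subset_closedBall hs
    rw [norm_mul, norm_mul, norm_cpow_eq_rpow_re_of_pos hx0]
    exact mul_le_mul ((hM s hs).trans (le_abs_self M)) (mul_le_mul
      (Real.rpow_le_rpow_of_exponent_le hx (by linarith [(triv_ball h1).2]))
      (hK s (Metric.closedBall_subset_closedBall hr2 h1)) (norm_nonneg _) (by positivity))
      (by positivity) (abs_nonneg _)
  · have h1 : 0 ≤ x ^ (1 + ε) * K := by positivity
    have h2 := abs_nonneg M
    nlinarith [mul_nonneg h2 h1]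

/- Differentiation under the circle integral
(`intervalIntegral.hasDerivAt_integral_of_dominated_loc_of_deriv_le`). -/
theorem res_deriv {h : ℂ → ℂ} (hh : ContinuousOn h (Metric.sphere 1 (1 / 2))) {x : ℝ} (hx : 0 < x) :
    HasDerivAt (fun y : ℝ => F.res fun s => (y : ℂ) ^ s * h s)
      ((F.res fun s => (x : ℂ) ^ s * (s * h s)) / x) x := by
  have hm : ∀ θ, circleMap 1 (1 / 2) θ ∈ Metric.sphere (1 : ℂ) (1 / 2) := fun θ =>
    circleMap_mem_sphere _ (by norm_num) θ
  have c0 : Continuous fun θ => deriv (circleMap 1 (1 / 2)) θ := by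
    simp only [deriv_circleMap]
    fun_prop
  have c1 : Continuous fun θ => F.L (circleMap 1 (1 / 2) θ) :=
    (F.triv_L (by norm_num)).comp_continuous (continuous_circleMap _ _) hm
  have c2 : Continuous fun θ => h (circleMap 1 (1 / 2) θ) :=
    hh.comp_continuous (continuous_circleMap _ _) hm
  have c3 : ∀ y : ℝ, 0 < y → Continuous fun θ => deriv (circleMap 1 (1 / 2)) θ •
      (F.L (circleMap 1 (1 / 2) θ) * ((y : ℂ) ^ circleMap 1 (1 / 2) θ *
        h (circleMap 1 (1 / 2) θ))) := fun y hy =>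
    c0.smul (c1.mul (((triv_cpow hy).comp (continuous_circleMap _ _)).mul c2))
  have c4 : ContinuousOn (fun q : ℝ × ℝ => deriv (circleMap 1 (1 / 2)) q.2 •
      (F.L (circleMap 1 (1 / 2) q.2) * (circleMap 1 (1 / 2) q.2 *
        (q.1 : ℂ) ^ (circleMap 1 (1 / 2) q.2 - 1) * h (circleMap 1 (1 / 2) q.2))))
      (Ioi 0 ×ˢ univ) :=
    (c0.comp continuous_snd).continuousOn.smul ((c1.comp continuous_snd).continuousOn.mul
      ((((continuous_circleMap _ _).comp continuous_snd).continuousOn.mul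
        ((continuous_ofReal.comp continuous_fst).continuousOn.cpow
          (((continuous_circleMap _ _).comp continuous_snd).sub continuous_const).continuousOn
          fun q hq => ofReal_mem_slitPlane.2 hq.1)).mul (c2.comp continuous_snd).continuousOn))
  have hpos : ∀ y ∈ Icc (x / 2) (2 * x), 0 < y := fun y hy => by linarith [hy.1]
  obtain ⟨B, hB⟩ := ((isCompact_Icc (a := x / 2) (b := 2 * x)).prod
    (isCompact_uIcc (a := 0) (b := 2 * Real.pi))).exists_bound_of_continuousOn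
    (c4.mono fun q hq => ⟨hpos _ hq.1, trivial⟩)
  have key := (intervalIntegral.hasDerivAt_integral_of_dominated_loc_of_deriv_le (μ := volume)
    (a := 0) (b := 2 * Real.pi) (bound := fun _ => B)
    (F := fun (y : ℝ) θ => deriv (circleMap 1 (1 / 2)) θ • (F.L (circleMap 1 (1 / 2) θ) *
      ((y : ℂ) ^ circleMap 1 (1 / 2) θ * h (circleMap 1 (1 / 2) θ))))
    (F' := fun (y : ℝ) θ => deriv (circleMap 1 (1 / 2)) θ • (F.L (circleMap 1 (1 / 2) θ) *
      (circleMap 1 (1 / 2) θ * (y : ℂ) ^ (circleMap 1 (1 / 2) θ - 1) * h (circleMap 1 (1 / 2) θ))))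
    (Icc_mem_nhds (by linarith : x / 2 < x) (by linarith : x < 2 * x))
    (Filter.eventually_of_mem (Ioi_mem_nhds hx) fun y hy => (c3 y hy).aestronglyMeasurable)
    ((c3 x hx).intervalIntegrable _ _)
    (c4.comp_continuous (Continuous.prodMk_right x) fun θ => ⟨hx, trivial⟩).aestronglyMeasurable
    (Filter.Eventually.of_forall fun θ hθ y hy => hB (y, θ) ⟨hy, uIoc_subset_uIcc hθ⟩)
    intervalIntegrable_const
    (Filter.Eventually.of_forall fun θ _ y hy => (((hasDerivAt_ofReal_cpow_const (hpos y hy).ne'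
      (triv_sph (hm θ) le_rfl).1).mul_const _).const_mul _).fun_const_smul _)).2
  refine (key.const_mul ((2 * Real.pi * I)⁻¹ : ℂ)).congr_deriv ?_
  unfold res circleIntegral
  rw [mul_div_assoc, ← intervalIntegral.integral_div]
  congr 2
  funext θ
  rw [cpow_sub _ _ (ofReal_ne_zero.2 hx.ne'), cpow_one, smul_eq_mul, smul_eq_mul]
  ring

/- `1 / s - V / (s * (s + V)) = 1 / (s + V)`. -/
theorem E_sub_A {V x : ℝ} (hV : 1 ≤ V) (hx : 0 < x) : F.E x - F.A V x =
    ∑ n ∈ Finset.Icc 1 ⌊x⌋₊, F.f n * (((n / x) ^ V : ℝ) : ℂ) -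
      F.res fun s => (x : ℂ) ^ s * (1 / (s + V)) := by
  have hV0 : 0 ≤ V := by linarith
  have e := F.res_add 1 1 ((triv_cpow hx).continuousOn.mul (triv_c1 hV0))
    ((triv_cpow hx).continuousOn.mul (triv_c2 hV0))
  have e2 : F.res (fun s => (x : ℂ) ^ s / s) = F.res fun s =>
      1 * ((x : ℂ) ^ s * (V / (s * (s + V)))) + 1 * ((x : ℂ) ^ s * (1 / (s + V))) :=
    F.res_congr fun s hs => by
      have := triv_sph hs hV0
      field_simp [this.1, this.2]
      ring
  simp only [Pi.mul_def] at e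
  rw [E, A, e2, e]
  simp only [ofReal_sub, ofReal_one, mul_sub, mul_one, Finset.sum_sub_distrib]
  ring

theorem triv_sum {x V : ℝ} (hx : 1 ≤ x) (hV : 1 ≤ V) :
    ∑ n ∈ Finset.Icc 1 ⌊x⌋₊, ((n : ℝ) / x) ^ V ≤ x / V + 1 := by
  have hx0 : 0 < x := by linarith
  have hN : (⌊x⌋₊ : ℝ) ≤ x := Nat.floor_le hx0.le
  have hN0 : (0 : ℝ) ≤ ⌊x⌋₊ := Nat.cast_nonneg _
  have h1 : ∑ n ∈ Finset.range ⌊x⌋₊, (n : ℝ) ^ V ≤ x ^ V * (x / V) := by
    have h2 := MonotoneOn.sum_le_integral (f := fun t : ℝ => t ^ V) (x₀ := 0) (a := ⌊x⌋₊)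
      fun a ha b _ hab => Real.rpow_le_rpow ha.1 hab (by linarith)
    simp only [zero_add] at h2
    rw [integral_rpow (Or.inl (by linarith)), Real.zero_rpow (by linarith), sub_zero] at h2
    refine h2.trans ?_
    rw [← mul_div_assoc, ← Real.rpow_add_one hx0.ne']
    exact div_le_div₀ (by positivity) (Real.rpow_le_rpow hN0 hN (by linarith)) (by linarith)
      (by linarith)
  calc _ ≤ ∑ n ∈ Finset.range (⌊x⌋₊ + 1), ((n : ℝ) / x) ^ V :=
        Finset.sum_le_sum_of_subset_of_nonneg (fun n hn => Finset.mem_range.2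
          (Nat.lt_succ_of_le (Finset.mem_Icc.1 hn).2)) fun n _ _ => by positivity
    _ ≤ _ := by
        rw [Finset.sum_range_succ]
        refine add_le_add ?_ (Real.rpow_le_one (by positivity) ((div_le_one hx0).2 hN) (by linarith))
        simp only [fun n : ℕ => Real.div_rpow (Nat.cast_nonneg (α := ℝ) n) hx0.le V]
        rw [← Finset.sum_div, div_le_iff₀ (by positivity), mul_comm]
        exact h1

/- `∑ n ≤ x, (n / x) ^ V ≤ 1 + x / V` (`MonotoneOn.sum_le_integral` or a telescoping sum). -/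
theorem R_le {ε : ℝ} (hε : 0 < ε) : ∃ C : ℝ, 0 < C ∧ ∀ x V : ℝ, 1 ≤ x → 1 ≤ V →
    ‖F.E x - F.A V x‖ ≤ C * x ^ ε * (x / V + 1) := by
  obtain ⟨C₁, hC₁, h₁⟩ := F.ram' hε
  obtain ⟨C₂, hC₂, h₂⟩ := F.res_le hε
  refine ⟨C₁ + C₂, by linarith, fun x V hx hV => ?_⟩
  have hx0 : 0 < x := by linarith
  have hV0 : 0 < V := by linarith
  have hre : ∀ s ∈ Metric.closedBall (1 : ℂ) (1 / 2), V ≤ ‖s + V‖ := fun s hs => by
    have := re_le_norm (s + V)
    rw [add_re, ofReal_re] at this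
    linarith [(triv_ball hs).1]
  have a1 := h₂ x (1 / V) (fun s => 1 / (s + V)) hx
    ((differentiableOn_const _).div (by fun_prop) fun s hs => norm_pos_iff.1 (hV0.trans_le (hre s hs)))
    fun s hs => by
      rw [norm_div, norm_one]
      exact one_div_le_one_div_of_le hV0 (hre s hs)
  have a2 : ‖∑ n ∈ Finset.Icc 1 ⌊x⌋₊, F.f n * (((n / x) ^ V : ℝ) : ℂ)‖ ≤
      C₁ * x ^ ε * (x / V + 1) := by
    refine (norm_sum_le_of_le _ (n := fun n : ℕ => C₁ * x ^ ε * ((n : ℝ) / x) ^ V)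
      fun n hn => ?_).trans ?_
    · obtain ⟨e1, e2⟩ := Finset.mem_Icc.1 hn
      rw [norm_mul, norm_real, Real.norm_of_nonneg (by positivity)]
      refine mul_le_mul_of_nonneg_right ((h₁ n e1).trans (mul_le_mul_of_nonneg_left
        (Real.rpow_le_rpow (Nat.cast_nonneg _) ((Nat.le_floor_iff hx0.le).1 e2) hε.le)
        (by linarith))) (by positivity)
    · rw [← Finset.mul_sum]
      exact mul_le_mul_of_nonneg_left (triv_sum hx hV) (by positivity)
  rw [F.E_sub_A hV hx0]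
  refine (norm_sub_le_of_le a2 a1).trans ?_
  have a3 : C₂ * x ^ (1 + ε) * (1 / V) = C₂ * x ^ ε * (x / V) := by
    rw [Real.rpow_add hx0, Real.rpow_one]
    ring
  have a4 : 0 ≤ C₂ * x ^ ε := by positivity
  rw [a3]
  nlinarith

theorem triv_res_cont {h : ℂ → ℂ} (hh : ContinuousOn h (Metric.sphere 1 (1 / 2))) :
    ContinuousOn (fun y : ℝ => F.res fun s => (y : ℂ) ^ s * h s) (Ioi 0) := fun _ hx =>
  (F.res_deriv hh hx).continuousAt.continuousWithinAt

/- For `x < N` the sum is `∑ n ∈ Icc 1 N, f n * max 0 (1 - (n / x) ^ V)`. -/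
theorem A_cont {V : ℝ} (hV : 1 ≤ V) : ContinuousOn (F.A V) (Ioi 0) := by
  refine ContinuousOn.sub (fun x hx => ContinuousAt.continuousWithinAt ?_)
    (F.triv_res_cont (triv_c1 (by linarith)))
  have hx0 : 0 < x := hx
  obtain ⟨N, hN⟩ := exists_nat_gt x
  have c : ContinuousAt (fun y : ℝ =>
      ∑ n ∈ Finset.Icc 1 N, F.f n * ((max 0 (1 - (n / y) ^ V) : ℝ) : ℂ)) x :=
    tendsto_finsetSum _ fun n _ => continuousAt_const.mul (continuous_ofReal.continuousAt.comp
      (continuousAt_const.max (continuousAt_const.sub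
        ((continuousAt_const.div continuousAt_id hx0.ne').rpow_const (Or.inr (by linarith))))))
  refine c.congr ?_
  filter_upwards [Ioo_mem_nhds hx0 hN] with y hy
  rw [← Finset.sum_subset (Finset.Icc_subset_Icc_right (Nat.floor_le_of_le hy.2.le))
    fun n hn hn' => ?_]
  · refine Finset.sum_congr rfl fun n hn => ?_
    rw [max_eq_right (sub_nonneg.2 (Real.rpow_le_one (div_nonneg (Nat.cast_nonneg _) hy.1.le)
      ((div_le_one hy.1).2 ((Nat.le_floor_iff hy.1.le).1 (Finset.mem_Icc.1 hn).2)) (by linarith)))]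
  · have h1 : y ≤ n := ((Nat.floor_lt hy.1.le).1 (not_le.1 fun e =>
      hn' (Finset.mem_Icc.2 ⟨(Finset.mem_Icc.1 hn).1, e⟩))).le
    rw [max_eq_left (sub_nonpos.2 (Real.one_le_rpow ((one_le_div hy.1).2 h1) (by linarith))),
      ofReal_zero, mul_zero]

/- The floor is constant to the right of `x`; `res_deriv`, `E_sub_A`. -/
theorem A_deriv {V x : ℝ} (hV : 1 ≤ V) (hx : 0 < x) :
    HasDerivWithinAt (F.A V) (V * (F.E x - F.A V x) / x) (Ioi x) x := by
  have hV0 : 0 ≤ V := by linarith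
  have d1 : HasDerivAt (fun y : ℝ => ∑ n ∈ Finset.Icc 1 ⌊x⌋₊, F.f n * ((1 - (n / y) ^ V : ℝ) : ℂ))
      (∑ n ∈ Finset.Icc 1 ⌊x⌋₊, F.f n * ((V * (n / x) ^ V / x : ℝ) : ℂ)) x := by
    refine HasDerivAt.fun_sum fun n hn => (HasDerivAt.ofReal_comp ?_).const_mul _
    have hn0 : (0 : ℝ) < n := Nat.cast_pos.2 (Finset.mem_Icc.1 hn).1
    refine ((((hasDerivAt_const x (n : ℝ)).fun_div (hasDerivAt_id' x) hx.ne').rpow_const
      (Or.inr hV)).const_sub 1).congr_deriv ?_
    rw [Real.rpow_sub_one (by positivity)]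
    field_simp
    ring
  have d2 := d1.sub (F.res_deriv (triv_c1 hV0) hx)
  have e1 : F.res (fun s => (x : ℂ) ^ s * (s * (V / (s * (s + V))))) =
      V * F.res fun s => (x : ℂ) ^ s * (1 / (s + V)) := by
    have e := F.res_add V 0 ((triv_cpow hx).continuousOn.mul (triv_c2 hV0))
      ((triv_cpow hx).continuousOn.mul (triv_c2 hV0))
    simp only [Pi.mul_def] at e
    rw [zero_mul, add_zero] at e
    rw [← e]
    refine F.res_congr fun s hs => ?_
    have := triv_sph hs hV0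
    field_simp [this.1, this.2]
    ring
  refine (d2.hasDerivWithinAt.congr_of_eventuallyEq (f₁ := F.A V) ?_ rfl).congr_deriv ?_
  · filter_upwards [Ioo_mem_nhdsGT (Nat.lt_floor_add_one x)] with y hy
    have : ⌊y⌋₊ = ⌊x⌋₊ := (Nat.floor_eq_iff (hx.trans hy.1).le).2
      ⟨(Nat.floor_le hx.le).trans hy.1.le, hy.2⟩
    rw [A, this]
    rfl
  · rw [e1, F.E_sub_A hV hx, mul_sub, sub_div, Finset.mul_sum, Finset.sum_div]
    congr 1
    refine Finset.sum_congr rfl fun n _ => ?_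
    push_cast
    ring

/- The sum is a function of `⌊x⌋₊` (`measurable_from_top`, `Nat.measurable_floor`), the residue is
continuous on `Ioi 0`. -/
theorem E_meas : AEStronglyMeasurable F.E (volume.restrict (Ioi 0)) := by
  refine AEStronglyMeasurable.sub ((measurable_from_top (f := fun N : ℕ =>
    ∑ n ∈ Finset.Icc 1 N, F.f n)).comp Nat.measurable_floor).aestronglyMeasurable ?_
  simp only [div_eq_mul_inv]
  exact (F.triv_res_cont (continuousOn_id.inv₀ fun s hs =>
    (triv_sph hs le_rfl).1)).aestronglyMeasurable measurableSet_Ioi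

theorem E_bdd (X : ℝ) : ∃ K : ℝ, ∀ x ∈ Icc 1 X, ‖F.E x‖ ≤ K := by
  obtain ⟨C, hC, h⟩ := F.R_le one_pos
  obtain ⟨K, hK⟩ := (isCompact_Icc (a := 1) (b := X)).exists_bound_of_continuousOn
    ((F.A_cont le_rfl).mono fun x hx => one_pos.trans_le hx.1)
  refine ⟨C * X * (X + 1) + K, fun x hx => ?_⟩
  have h1 := h x 1 hx.1 le_rfl
  rw [Real.rpow_one, div_one] at h1
  have h2 : C * x * (x + 1) ≤ C * X * (X + 1) := by
    have := hx.1
    have := hx.2
    have : 0 ≤ X := by linarith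
    gcongr
  rw [← sub_add_cancel (F.E x) (F.A 1 x)]
  exact norm_add_le_of_le (h1.trans h2) (hK x hx)

theorem nice_A {V T : ℝ} (hV : 1 ≤ V) (hT : 1 ≤ T) :
    Nice (F.A V) (fun x => V * (F.E x - F.A V x) / x) T := by
  have hs : Icc T (2 * T) ⊆ Ioi 0 := fun x hx => one_pos.trans_le (hT.trans hx.1)
  have hs' : Ioc T (2 * T) ⊆ Ioi 0 := Ioc_subset_Icc_self.trans hs
  refine ⟨(F.A_cont hV).mono hs, fun x hx => F.A_deriv hV (hs (Ioo_subset_Icc_self hx)), ?_, ?_⟩
  · simp only [div_eq_mul_inv]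
    exact (((F.E_meas.mono_set hs').sub (((F.A_cont hV).mono hs').aestronglyMeasurable
      measurableSet_Ioc)).const_mul _).mul measurable_ofReal.inv.aestronglyMeasurable
  · obtain ⟨K₁, h₁⟩ := F.E_bdd (2 * T)
    obtain ⟨K₂, h₂⟩ := isCompact_Icc.exists_bound_of_continuousOn ((F.A_cont hV).mono hs)
    refine ⟨V * (K₁ + K₂), fun x hx => ?_⟩
    have h1 : 1 ≤ x := hT.trans hx.1
    rw [norm_div, norm_mul, norm_real, norm_real, Real.norm_of_nonneg (by linarith),
      Real.norm_of_nonneg (by linarith)]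
    exact (div_le_self (mul_nonneg (by linarith) (norm_nonneg _)) h1).trans
      (mul_le_mul_of_nonneg_left (norm_sub_le_of_le (h₁ x ⟨h1, hx.2⟩) (h₂ x hx)) (by linarith))

end Sel

theorem hyb_int (F₁ F₂ L : Sel) {a b : ℝ} (ha : 1 ≤ a) (hb : 1 ≤ b) :
    IntervalIntegrable (hyb F₁ F₂ L) volume a b := by
  have hs : uIoc a b ⊆ Icc 1 (max a b) := fun x hx => ⟨(le_min ha hb).trans hx.1.le, hx.2⟩
  have hs' : uIoc a b ⊆ Ioi 0 := fun x hx => one_pos.trans_le (hs hx).1
  have c : Continuous fun x : ℝ => ((‖L.L (1 / 2 + x * I)‖ ^ 2 : ℝ) : ℂ) :=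
    continuous_ofReal.comp (L.continuous_L_half.norm.pow 2)
  obtain ⟨K₁, h₁⟩ := F₁.E_bdd (max a b)
  obtain ⟨K₂, h₂⟩ := F₂.E_bdd (max a b)
  obtain ⟨K₃, h₃⟩ := (isCompact_Icc (a := 1) (b := max a b)).exists_bound_of_continuousOn
    c.continuousOn
  refine intervalIntegrable_iff.2 (IntegrableOn.of_bound measure_Ioc_lt_top
    (((F₁.E_meas.mono_set hs').mul (F₂.E_meas.mono_set hs')).mul c.aestronglyMeasurable)
    (K₁ * K₂ * K₃) ((ae_restrict_iff' measurableSet_uIoc).2 (Filter.Eventually.of_forall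
      fun x hx => ?_)))
  have e1 := (norm_nonneg _).trans (h₁ x (hs hx))
  have e2 := (norm_nonneg _).trans (h₂ x (hs hx))
  exact norm_mul_le_of_le (norm_mul_le_of_le (h₁ x (hs hx)) (h₂ x (hs hx))) (h₃ x (hs hx))

end Pool.Agent.Lib.MP_2a1a00_nt
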