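import Pool.Agent.Lib.MP_2a1a00_nt.PS3
import Pool.Agent.Lib.MP_2a1a00_nt.Nm

/-! The off-diagonal terms against a test function. -/

namespace Pool.Agent.Lib.MP_2a1a00_nt

open Complex MeasureTheory Set

theorem twz_one {ε : ℝ} (hε : 0 < ε) : ∃ C : ℝ, 0 < C ∧ ∀ (Y : ℕ) (c : ℕ × ℕ → ℂ)
    (T lam B₁ B₂ B₃ : ℝ) (w : ℂ) (G G' : ℝ → ℂ), 1 ≤ Y → (∀ p ∈ Pr Y, ‖c p‖ ≤ w0 p) →
    1 ≤ T → 0 ≤ w.re → Nice G G' T → 1 / T ≤ lam → lam ≤ 1 → (∀ x ∈ Icc T (2 * T), ‖G x‖ ≤ B₁) →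
    nm G T ≤ B₂ → nm G' T ≤ B₃ →
    ‖∫ x in T..2 * T, G x * ((PP c (Pr Y) x - dg c Y) * exp (w * (Real.log x : ℝ)))‖ ≤
      C * (Y : ℝ) ^ ε * (1 + ‖w‖) * (2 * T) ^ w.re *
        (√Y * B₁ + √((T + Y) * lam) * B₂ + √((T + Y) / lam) * B₃) := by
  obtain ⟨C, hC, h⟩ := ps_split hε
  refine ⟨2 * (1 + C), by positivity, fun Y c T lam B₁ B₂ B₃ w G G' hY hc hT hw hG hl hl1 h1 h2 h3 => ?_⟩
  have hT0 : 0 < T := one_pos.trans_le hT
  have hl0 : 0 < lam := (one_div_pos.2 hT0).trans_le hl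
  obtain ⟨N, Φ, φ, hN, hφ, hΦ, hsum, hsup, hsq⟩ := h Y c lam hY hl0 hl1 hc
  obtain ⟨hN2, hΦ2⟩ := hsq T T hT0.le
  rw [← two_mul] at hN2 hΦ2
  have hY1 : (1 : ℝ) ≤ (Y : ℝ) ^ ε := Real.one_le_rpow (by exact_mod_cast hY) hε.le
  set y : ℝ := (Y : ℝ) ^ ε
  set D : ℝ := (1 + C) * y with hD
  have hCD : C * y ≤ D := by rw [hD]; nlinarith
  have hD1 : 1 ≤ D := by rw [hD]; nlinarith
  have hCD2 : C * y ≤ D ^ 2 := by nlinarith
  have hTY : 0 ≤ T + Y := by positivity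
  set s₁ : ℝ := √((T + Y) * lam) with hs₁
  set s₂ : ℝ := √((T + Y) / lam) with hs₂
  have s10 : 0 ≤ s₁ := Real.sqrt_nonneg _
  have s20 : 0 ≤ s₂ := Real.sqrt_nonneg _
  have q1 : s₁ ^ 2 = (T + Y) * lam := Real.sq_sqrt (by positivity)
  have q2 : s₂ ^ 2 = (T + Y) / lam := Real.sq_sqrt (by positivity)
  have s12 : s₁ = lam * s₂ := by
    refine (pow_left_inj₀ s10 (by positivity) two_ne_zero).1 ?_
    rw [mul_pow, q1, q2]
    field_simp
  have nN : nm N T ≤ D * s₁ := nm_le_of_sq (by positivity) (by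
    rw [mul_pow, q1]
    refine hN2.trans ?_
    rw [mul_assoc (C * y)]
    exact mul_le_mul_of_nonneg_right hCD2 (by positivity))
  have nΦ : nm Φ T ≤ D * s₂ := nm_le_of_sq (by positivity) (by
    rw [mul_pow, q2]
    refine hΦ2.trans ?_
    rw [mul_div_assoc]
    exact mul_le_mul_of_nonneg_right hCD2 (by positivity))
  have hsup' : ∀ t, ‖Φ t‖ ≤ D * √Y := fun t =>
    (hsup t).trans (mul_le_mul_of_nonneg_right hCD (Real.sqrt_nonneg _))
  set P : ℝ := (2 * T) ^ w.re with hP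
  have hP0 : 0 < P := by positivity
  set e : ℝ → ℂ := fun x => exp (w * (Real.log x : ℝ)) with he
  have hE : Nice e (fun x => w / x * e x) T := nice_exp hT0 w
  have heP : ∀ x ∈ Icc T (2 * T), ‖e x‖ ≤ P := fun x hx => norm_exp_log hT0 hw hx
  have hH := hG.mul hE
  have B10 : 0 ≤ B₁ := (norm_nonneg _).trans (h1 T ⟨le_rfl, by linarith⟩)
  have B20 : 0 ≤ B₂ := (nm_nonneg _ _).trans h2
  have B30 : 0 ≤ B₃ := (nm_nonneg _ _).trans h3
  have nH : nm (fun x => G x * e x) T ≤ P * B₂ :=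
    (nm_mono hT0.le hH.bm0 hG.bm0 hP0.le fun x hx => by
      rw [norm_mul, mul_comm]
      exact mul_le_mul_of_nonneg_right (heP x hx) (norm_nonneg _)).trans
      (mul_le_mul_of_nonneg_left h2 hP0.le)
  have nH' : nm (fun x => G' x * e x + G x * (w / x * e x)) T ≤ P * B₃ + ‖w‖ * lam * P * B₂ := by
    refine (nm_add hT0.le (hG.bm.mul hE.bm0) (hG.bm0.mul hE.bm)).trans (add_le_add ?_ ?_)
    · exact (nm_mono hT0.le (hG.bm.mul hE.bm0) hG.bm hP0.le fun x hx => by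
        rw [norm_mul, mul_comm]
        exact mul_le_mul_of_nonneg_right (heP x hx) (norm_nonneg _)).trans
        (mul_le_mul_of_nonneg_left h3 hP0.le)
    · refine (nm_mono hT0.le (hG.bm0.mul hE.bm) hG.bm0 (K := ‖w‖ * lam * P) (by positivity)
        fun x hx => ?_).trans (mul_le_mul_of_nonneg_left h2 (by positivity))
      have hx0 : 0 < x := hT0.trans_le hx.1
      rw [norm_mul, mul_comm, norm_mul, norm_div, norm_real, Real.norm_of_nonneg hx0.le]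
      refine mul_le_mul_of_nonneg_right (mul_le_mul ?_ (heP x hx) (norm_nonneg _) (by positivity))
        (norm_nonneg _)
      rw [div_eq_mul_one_div]
      exact mul_le_mul_of_nonneg_left ((one_div_le_one_div_of_le hT0 hx.1).trans hl) (norm_nonneg _)
  have hm : 2 * T ∈ Icc T (2 * T) := ⟨by linarith, le_rfl⟩
  have bN : Bm N T := Bm.of_cont hN.continuousOn
  have bφ : Bm φ T := Bm.of_cont hφ.continuousOn
  have i1 := cs hT0.le hH.bm0 bN hm
  have i2 := hH.parts hT0.le hφ hΦ (K := B₁ * P) (fun x hx => by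
    rw [norm_mul]
    exact mul_le_mul (h1 x hx) (heP x hx) (norm_nonneg _) B10) hsup'
  have heq : ∫ x in T..2 * T, G x * ((PP c (Pr Y) x - dg c Y) * exp (w * (Real.log x : ℝ))) =
      (∫ x in T..2 * T, G x * e x * N x) + ∫ x in T..2 * T, G x * e x * φ x := by
    rw [← intervalIntegral.integral_add ((hH.bm0.mul bN).int hm) ((hH.bm0.mul bφ).int hm)]
    refine intervalIntegral.integral_congr fun x _ => ?_
    simp only [hsum, he]
    ring
  rw [heq]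
  have j1 : nm (fun x => G x * e x) T * nm N T ≤ P * B₂ * (D * s₁) :=
    mul_le_mul nH nN (nm_nonneg _ _) (by positivity)
  have j2 : nm (fun x => G' x * e x + G x * (w / x * e x)) T * nm Φ T ≤
      (P * B₃ + ‖w‖ * lam * P * B₂) * (D * s₂) :=
    mul_le_mul nH' nΦ (nm_nonneg _ _) (by positivity)
  have hW := norm_nonneg w
  have hs := Real.sqrt_nonneg (Y : ℝ)
  have key : P * B₂ * (D * s₁) + (2 * (B₁ * P) * (D * √Y) +
      (P * B₃ + ‖w‖ * lam * P * B₂) * (D * s₂)) ≤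
      2 * (1 + C) * y * (1 + ‖w‖) * P * (√Y * B₁ + s₁ * B₂ + s₂ * B₃) := by
    have k1 : P * B₂ * (D * s₁) + (2 * (B₁ * P) * (D * √Y) +
        (P * B₃ + ‖w‖ * lam * P * B₂) * (D * s₂)) =
        D * P * (2 * (√Y * B₁) + (1 + ‖w‖) * (s₁ * B₂) + s₂ * B₃) := by rw [s12]; ring
    have k2 : 2 * (1 + C) * y * (1 + ‖w‖) * P * (√Y * B₁ + s₁ * B₂ + s₂ * B₃) =
        D * P * (2 * (1 + ‖w‖) * (√Y * B₁ + s₁ * B₂ + s₂ * B₃)) := by rw [hD]; ring
    rw [k1, k2]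
    refine mul_le_mul_of_nonneg_left ?_ (by positivity)
    have a1 := mul_nonneg hs B10
    have a2 := mul_nonneg s10 B20
    have a3 := mul_nonneg s20 B30
    nlinarith [mul_nonneg hW a1, mul_nonneg hW a2, mul_nonneg hW a3]
  linarith [norm_add_le (∫ x in T..2 * T, G x * e x * N x) (∫ x in T..2 * T, G x * e x * φ x)]

/- If `K = 0` the polynomial vanishes; otherwise apply `ps_split` to `c / K`.  With
`H x = G x * exp (w * log x)` (`Nice.mul`, `nice_exp`, `norm_exp_log`): `cs` for `H * N`, `Nice.parts` for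
`H * φ`; `nm H' T ≤ (2 T) ^ re w * (B₃ + ‖w‖ / T * B₂)` (`nm_add`, `nm_mono`) and
`√((T + Y) / lam) / T ≤ √((T + Y) * lam)` because `1 / T ≤ lam`. -/
theorem tw_z {ε : ℝ} (hε : 0 < ε) : ∃ C : ℝ, 0 < C ∧ ∀ (Y : ℕ) (c : ℕ × ℕ → ℂ)
    (K T lam B₁ B₂ B₃ : ℝ) (w : ℂ) (G G' : ℝ → ℂ), 1 ≤ Y → 0 ≤ K → (∀ p ∈ Pr Y, ‖c p‖ ≤ K * w0 p) →
    1 ≤ T → 0 ≤ w.re → Nice G G' T → 1 / T ≤ lam → lam ≤ 1 → (∀ x ∈ Icc T (2 * T), ‖G x‖ ≤ B₁) →
    nm G T ≤ B₂ → nm G' T ≤ B₃ →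
    ‖∫ x in T..2 * T, G x * ((PP c (Pr Y) x - dg c Y) * exp (w * (Real.log x : ℝ)))‖ ≤
      C * K * (Y : ℝ) ^ ε * (1 + ‖w‖) * (2 * T) ^ w.re *
        (√Y * B₁ + √((T + Y) * lam) * B₂ + √((T + Y) / lam) * B₃) := by
  obtain ⟨C, hC, h⟩ := twz_one hε
  refine ⟨C, hC, fun Y c K T lam B₁ B₂ B₃ w G G' hY hK hc hT hw hG hl hl1 h1 h2 h3 => ?_⟩
  rcases hK.eq_or_lt with rfl | hK
  · have h0 : ∀ p ∈ Pr Y, c p = 0 := fun p hp => by simpa using hc p hp
    have e1 : ∀ x, PP c (Pr Y) x = 0 := fun x =>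
      Finset.sum_eq_zero fun p hp => by rw [h0 p hp, zero_mul]
    have e2 : dg c Y = 0 := Finset.sum_eq_zero fun p hp => h0 p (Finset.mem_filter.1 hp).1
    simp [e1, e2]
  · have hK' : (K : ℂ) ≠ 0 := by exact_mod_cast hK.ne'
    have k := h Y (fun p => c p / K) T lam B₁ B₂ B₃ w G G' hY (fun p hp => by
      rw [norm_div, norm_real, Real.norm_of_nonneg hK.le, div_le_iff₀' hK]
      exact hc p hp) hT hw hG hl hl1 h1 h2 h3
    have e1 : ∀ x, PP c (Pr Y) x = K * PP (fun p => c p / K) (Pr Y) x := fun x => by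
      simp only [PP, Finset.mul_sum]
      exact Finset.sum_congr rfl fun p _ => by field_simp
    have e2 : dg c Y = K * dg (fun p => c p / K) Y := by
      simp only [dg, Finset.mul_sum]
      exact Finset.sum_congr rfl fun p _ => by field_simp
    have e3 : ∫ x in T..2 * T, G x * ((PP c (Pr Y) x - dg c Y) * exp (w * (Real.log x : ℝ))) =
        K * ∫ x in T..2 * T, G x * ((PP (fun p => c p / K) (Pr Y) x - dg (fun p => c p / K) Y) *
          exp (w * (Real.log x : ℝ))) := by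
      rw [← intervalIntegral.integral_const_mul]
      refine intervalIntegral.integral_congr fun x _ => ?_
      simp only [e1, e2]
      ring
    rw [e3, norm_mul, norm_real, Real.norm_of_nonneg hK.le]
    refine (mul_le_mul_of_nonneg_left k hK.le).trans_eq ?_
    ring

end Pool.Agent.Lib.MP_2a1a00_nt
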