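import Pool.Agent.Lib.MP_2a1a00_nt.Fub
import Pool.Agent.Lib.MP_2a1a00_nt.Twz

/-! The square of the modulus against a test function. -/

namespace Pool.Agent.Lib.MP_2a1a00_nt

open Complex MeasureTheory Set

namespace Sel

variable (F : Sel)

theorem Tw_co {Y : ℕ} {p : ℕ × ℕ} (hp : p ∈ Pr Y) (η : ℝ) :
    Continuous fun v : ℝ => F.co (η + v * I) p := by
  obtain ⟨h1, h2, -⟩ := mem_Pr.1 hp
  have h : ((p.1 * p.2 : ℕ) : ℂ) ≠ 0 := Nat.cast_ne_zero.2 (by positivity)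
  unfold co
  exact continuous_const.mul (Continuous.const_cpow (by fun_prop) (Or.inl h))

theorem Tw_dg (Y : ℕ) (η : ℝ) : Continuous fun v : ℝ => dg (F.co (η + v * I)) Y :=
  continuous_finsetSum _ fun _ hp => F.Tw_co (Finset.mem_filter.1 hp).1 η

theorem Tw_PP (Y : ℕ) (η : ℝ) :
    Continuous fun q : ℝ × ℝ => PP (F.co (η + q.1 * I)) (Pr Y) q.2 := by
  refine continuous_finsetSum _ fun p hp => ((F.Tw_co hp η).comp continuous_fst).mul ?_
  unfold osc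
  fun_prop

theorem Tw_w {η : ℝ} (h0 : 0 < η) (h1 : η ≤ 1 / 2) (v : ℝ) :
    ((η + v * I : ℂ) * F.deg).re = η * F.deg ∧
      1 + ‖(η + v * I : ℂ) * F.deg‖ ≤ (1 + |v|) * (1 + F.deg) := by
  have hd := F.deg_nonneg
  refine ⟨by simp, ?_⟩
  have h2 : ‖(η + v * I : ℂ)‖ ≤ η + |v| := by
    refine (norm_add_le _ _).trans (le_of_eq ?_)
    simp [abs_of_pos h0]
  rw [norm_mul, Complex.norm_real, Real.norm_of_nonneg hd]
  have h3 := mul_le_mul_of_nonneg_right h2 hd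
  nlinarith [abs_nonneg v]

theorem Tw_pow {d η ε T Y : ℝ} (hd : 0 ≤ d) (h0 : 0 < η) (h1 : η ≤ 1 / 2)
    (h2 : η * (2 * d + 2) ≤ ε) (hT : 1 ≤ T) (hY0 : 0 ≤ Y) (hY : Y ≤ T ^ (d + η)) :
    Y ^ η * (2 * T) ^ (η * d) * T ^ η ≤ 2 ^ d * T ^ ε := by
  have hT0 : 0 < T := one_pos.trans_le hT
  have e1 : Y ^ η ≤ T ^ ((d + η) * η) := by
    rw [Real.rpow_mul hT0.le]
    exact Real.rpow_le_rpow hY0 hY h0.le
  have e2 : (2 : ℝ) ^ (η * d) ≤ 2 ^ d :=
    Real.rpow_le_rpow_of_exponent_le one_le_two (by nlinarith)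
  have e3 : T ^ ((d + η) * η) * T ^ (η * d) * T ^ η ≤ T ^ ε := by
    rw [← Real.rpow_add hT0, ← Real.rpow_add hT0]
    exact Real.rpow_le_rpow_of_exponent_le hT (by nlinarith)
  rw [Real.mul_rpow zero_le_two hT0.le]
  calc Y ^ η * (2 ^ (η * d) * T ^ (η * d)) * T ^ η
      ≤ T ^ ((d + η) * η) * (2 ^ d * T ^ (η * d)) * T ^ η := by gcongr
    _ = 2 ^ d * (T ^ ((d + η) * η) * T ^ (η * d) * T ^ η) := by ring
    _ ≤ _ := by gcongr

theorem Tw_sqrt {d η T Y : ℝ} (h0 : 0 < η) (hT : 1 ≤ T) (hY : Y ≤ T ^ (d + η)) :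
    √Y ≤ T ^ η * T ^ (d / 2) ∧
      ∀ u : ℝ, 0 ≤ u → √((T + Y) * u) ≤ T ^ η * √((T + T ^ d) * u) := by
  have hT0 : 0 < T := one_pos.trans_le hT
  have hE : 1 ≤ T ^ η := Real.one_le_rpow hT h0.le
  refine ⟨?_, fun u hu => ?_⟩
  · refine (Real.sqrt_le_sqrt hY).trans ?_
    rw [Real.sqrt_eq_rpow, ← Real.rpow_mul hT0.le, ← Real.rpow_add hT0]
    exact Real.rpow_le_rpow_of_exponent_le hT (by linarith)
  · have hd : 0 < T ^ d := Real.rpow_pos_of_pos hT0 _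
    rw [Real.rpow_add hT0] at hY
    have h1 : T + Y ≤ (T ^ η) ^ 2 * (T + T ^ d) := by
      have h2 : T + Y ≤ T ^ η * (T + T ^ d) := by nlinarith
      have h3 : T ^ η ≤ (T ^ η) ^ 2 := by nlinarith
      exact h2.trans (mul_le_mul_of_nonneg_right h3 (by positivity))
    refine (Real.sqrt_le_sqrt (mul_le_mul_of_nonneg_right h1 hu)).trans (le_of_eq ?_)
    rw [mul_assoc, Real.sqrt_mul (sq_nonneg _), Real.sqrt_sq (by positivity)]


/- Put `η = min (1 / 2) (ε / (2 * deg + 2))`, `Y = ⌊T ^ (deg + η)⌋₊ ≥ 1`,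
`M x = 2 * Ln (fun z => dg (co z) Y * wt x z) η`.  First bound: `fub`, `parts_log`, `dg_le`, `co_le`.  Second
bound: `L2 - M = (L2 - 2 * Ln (P * wt)) + 2 * Ln ((P - dg) * wt)` (`Ln_sub`); `afe` for the first part
(`intervalIntegral.norm_integral_le_of_norm_le_const`), `fub` and `tw_z` for the second part;
`Y ≤ T ^ deg * T ^ η`, `T + Y ≤ T ^ η * (T + T ^ deg)`. -/
theorem tw {ε : ℝ} (hε : 0 < ε) : ∃ C : ℝ, 0 < C ∧ ∀ T : ℝ, 1 ≤ T → ∃ M : ℝ → ℂ,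
    ContinuousOn M (Icc T (2 * T)) ∧
    (∀ (G : ℝ → ℂ) (B₀ : ℝ), ContinuousOn G (Icc T (2 * T)) →
      (∀ y ∈ Icc T (2 * T), ‖∫ x in T..y, G x‖ ≤ B₀) →
      ‖∫ x in T..2 * T, G x * M x‖ ≤ C * T ^ ε * B₀) ∧
    ∀ (G G' : ℝ → ℂ) (lam B₁ B₂ B₃ : ℝ), Nice G G' T → 1 / T ≤ lam → lam ≤ 1 →
      (∀ x ∈ Icc T (2 * T), ‖G x‖ ≤ B₁) → nm G T ≤ B₂ → nm G' T ≤ B₃ →
      ‖∫ x in T..2 * T, G x * (F.L2 x - M x)‖ ≤ C * T ^ ε * (T ^ (F.deg / 2) * B₁ +
        √((T + T ^ F.deg) * lam) * B₂ + √((T + T ^ F.deg) / lam) * B₃) := by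
  have hd := F.deg_nonneg
  obtain ⟨η, h0, h1, h2⟩ : ∃ η : ℝ, 0 < η ∧ η ≤ 1 / 2 ∧ η * (2 * F.deg + 2) ≤ ε :=
    ⟨min (1 / 2) (ε / (2 * F.deg + 2)), by positivity, min_le_left _ _,
      (le_div_iff₀ (by positivity)).1 (min_le_right _ _)⟩
  obtain ⟨Cf, hCf, Hf⟩ := F.fub h0
  obtain ⟨K, hK, HK⟩ := F.co_le h0
  obtain ⟨Cd, hCd, Hd⟩ := dg_le h0
  obtain ⟨Ct, hCt, Ht⟩ := tw_z h0
  obtain ⟨Ca, hCa, Ha⟩ := F.afe h0 h1
  refine ⟨Ca + 2 * Cf * ((Cd + Ct) * K * (1 + F.deg) * 2 ^ F.deg), by positivity, fun T hT => ?_⟩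
  have hT0 : 0 < T := one_pos.trans_le hT
  have hTT : T ≤ 2 * T := by linarith
  have hTm : T ∈ Icc T (2 * T) := ⟨le_rfl, hTT⟩
  have hE : 1 ≤ T ^ η := Real.one_le_rpow hT h0.le
  obtain ⟨Y, hYe⟩ : ∃ Y : ℕ, Y = ⌊T ^ (F.deg + η)⌋₊ := ⟨_, rfl⟩
  have hY1 : 1 ≤ Y := hYe ▸ (Nat.one_le_floor_iff _).2 (Real.one_le_rpow hT (by positivity))
  have hY : (Y : ℝ) ≤ T ^ (F.deg + η) := hYe ▸ Nat.floor_le (by positivity)
  have hpow := Tw_pow hd h0 h1 h2 hT (Nat.cast_nonneg Y) hY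
  obtain ⟨hs1, hs2⟩ := Tw_sqrt h0 hT hY
  have hco : ∀ v : ℝ, ∀ p ∈ Pr Y, ‖F.co (η + v * I) p‖ ≤ K * w0 p := fun v =>
    HK Y _ (by simp)
  have hdg : ∀ v : ℝ, ‖dg (F.co (η + v * I)) Y‖ ≤ Cd * K * (Y : ℝ) ^ η := fun v =>
    Hd Y _ K hY1 hK.le (hco v)
  obtain ⟨c1, i1, b1⟩ := Hf T _ (fun z _ => dg (F.co z) Y) hT
    ((F.Tw_dg Y η).comp continuous_fst) fun v _ => hdg v
  obtain ⟨c2, i2, b2⟩ := Hf T (∑ p ∈ Pr Y, K * w0 p + Cd * K * (Y : ℝ) ^ η)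
    (fun z x => PP (F.co z) (Pr Y) x - dg (F.co z) Y) hT
    ((F.Tw_PP Y η).sub ((F.Tw_dg Y η).comp continuous_fst)) fun v x => by
      refine (norm_sub_le _ _).trans (add_le_add ?_ (hdg v))
      refine (norm_sum_le _ _).trans (Finset.sum_le_sum fun p hp => ?_)
      rw [norm_mul, norm_osc, mul_one]
      exact hco v p hp
  refine ⟨fun x => 2 * Ln (fun z => dg (F.co z) Y * F.wt x z) η, continuousOn_const.mul c1,
    fun G B₀ hG hB => ?_, fun G G' lam B₁ B₂ B₃ hG hl0 hl1 hB1 hB2 hB3 => ?_⟩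
  · have hB0 : 0 ≤ B₀ := (norm_nonneg _).trans (hB T hTm)
    have h3 := b1 G (Cd * K * (Y : ℝ) ^ η * ((1 + F.deg) * (2 * T) ^ (η * F.deg) * B₀)) hG
      fun v => by
        obtain ⟨w1, w2⟩ := F.Tw_w h0 h1 v
        have h4 := parts_log hT0 hG (w := (η + v * I) * F.deg) (by rw [w1]; positivity) hB
        rw [w1] at h4
        simp only [mul_left_comm (G _) (dg _ Y)]
        rw [intervalIntegral.integral_const_mul, norm_mul]
        calc _ ≤ Cd * K * (Y : ℝ) ^ η *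
              ((1 + |v|) * (1 + F.deg) * (2 * T) ^ (η * F.deg) * B₀) :=
            mul_le_mul (hdg v) (h4.trans (by gcongr)) (norm_nonneg _) (by positivity)
          _ = _ := by ring
    simp only [mul_left_comm (G _) (2 : ℂ)]
    rw [intervalIntegral.integral_const_mul, norm_mul, Complex.norm_ofNat]
    have h5 : (Y : ℝ) ^ η * (2 * T) ^ (η * F.deg) ≤ 2 ^ F.deg * T ^ ε :=
      (le_mul_of_one_le_right (by positivity) hE).trans hpow
    calc _ ≤ 2 * (Cf * (Cd * K * (Y : ℝ) ^ η * ((1 + F.deg) * (2 * T) ^ (η * F.deg) * B₀))) := by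
          gcongr
      _ = 2 * Cf * (Cd * K * (1 + F.deg)) * ((Y : ℝ) ^ η * (2 * T) ^ (η * F.deg)) * B₀ := by ring
      _ ≤ 2 * Cf * ((Cd + Ct) * K * (1 + F.deg)) * (2 ^ F.deg * T ^ ε) * B₀ := by
          gcongr
          linarith
      _ = (0 + 2 * Cf * ((Cd + Ct) * K * (1 + F.deg) * 2 ^ F.deg)) * T ^ ε * B₀ := by ring
      _ ≤ _ := by gcongr
  · have hl : 0 < lam := (one_div_pos.2 hT0).trans_le hl0
    have p1 : 0 ≤ B₁ := (norm_nonneg _).trans (hB1 T hTm)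
    have p2 : 0 ≤ B₂ := (nm_nonneg _ _).trans hB2
    have p3 : 0 ≤ B₃ := (nm_nonneg _ _).trans hB3
    obtain ⟨R, hR⟩ : ∃ R : ℝ, R = T ^ (F.deg / 2) * B₁ + √((T + T ^ F.deg) * lam) * B₂ +
      √((T + T ^ F.deg) / lam) * B₃ := ⟨_, rfl⟩
    have hR0 : 0 ≤ R := by rw [hR]; positivity
    have hR1 : T ^ (F.deg / 2) * B₁ ≤ R := by
      rw [hR, add_assoc]
      exact le_add_of_nonneg_right (by positivity)
    have hR2 : √Y * B₁ + √((T + Y) * lam) * B₂ + √((T + Y) / lam) * B₃ ≤ T ^ η * R := by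
      have q2 := hs2 lam hl.le
      have q3 := hs2 lam⁻¹ (inv_nonneg.2 hl.le)
      simp only [← div_eq_mul_inv] at q3
      rw [hR, mul_add, mul_add, ← mul_assoc, ← mul_assoc, ← mul_assoc]
      gcongr
    rw [← hR]
    have h3 := b2 G (Ct * K * (Y : ℝ) ^ η * (1 + F.deg) * (2 * T) ^ (η * F.deg) * (T ^ η * R))
      hG.cont fun v => by
        obtain ⟨w1, w2⟩ := F.Tw_w h0 h1 v
        have h4 := Ht Y _ K T lam B₁ B₂ B₃ ((η + v * I) * F.deg) G G' hY1 hK.le (hco v) hT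
          (by rw [w1]; positivity) hG hl0 hl1 hB1 hB2 hB3
        rw [w1] at h4
        refine h4.trans ?_
        calc _ ≤ Ct * K * (Y : ℝ) ^ η * ((1 + |v|) * (1 + F.deg)) * (2 * T) ^ (η * F.deg) *
              (T ^ η * R) := by gcongr
          _ = _ := by ring
    have hL : Continuous F.L2 :=
      Complex.continuous_ofReal.comp (F.continuous_L_half.norm.pow 2)
    have e1 : ∀ x ∈ Icc T (2 * T), Ln (fun z => PP (F.co z) (Pr Y) x * F.wt x z) η =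
        Ln (fun z => (PP (F.co z) (Pr Y) x - dg (F.co z) Y) * F.wt x z) η +
          Ln (fun z => dg (F.co z) Y * F.wt x z) η := fun x hx => by
      rw [← Ln_add (i2 x hx) (i1 x hx)]
      exact Ln_congr fun v => by ring
    have c3 : ContinuousOn (fun x => G x * (F.L2 x - 2 * Ln (fun z => dg (F.co z) Y * F.wt x z) η -
        2 * Ln (fun z => (PP (F.co z) (Pr Y) x - dg (F.co z) Y) * F.wt x z) η)) (Icc T (2 * T)) :=
      hG.cont.mul ((hL.continuousOn.sub (continuousOn_const.mul c1)).sub (continuousOn_const.mul c2))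
    have c4 : ContinuousOn (fun x => 2 * (G x *
        Ln (fun z => (PP (F.co z) (Pr Y) x - dg (F.co z) Y) * F.wt x z) η)) (Icc T (2 * T)) :=
      continuousOn_const.mul (hG.cont.mul c2)
    have e2 : ∫ x in T..2 * T, G x * (F.L2 x - 2 * Ln (fun z => dg (F.co z) Y * F.wt x z) η) =
        (∫ x in T..2 * T, G x * (F.L2 x - 2 * Ln (fun z => dg (F.co z) Y * F.wt x z) η -
          2 * Ln (fun z => (PP (F.co z) (Pr Y) x - dg (F.co z) Y) * F.wt x z) η)) +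
        2 * ∫ x in T..2 * T, G x *
          Ln (fun z => (PP (F.co z) (Pr Y) x - dg (F.co z) Y) * F.wt x z) η := by
      rw [← intervalIntegral.integral_const_mul, ← intervalIntegral.integral_add
        (c3.intervalIntegrable_of_Icc hTT) (c4.intervalIntegrable_of_Icc hTT)]
      exact intervalIntegral.integral_congr fun x _ => by ring
    have h6 : ‖∫ x in T..2 * T, G x * (F.L2 x - 2 * Ln (fun z => dg (F.co z) Y * F.wt x z) η -
        2 * Ln (fun z => (PP (F.co z) (Pr Y) x - dg (F.co z) Y) * F.wt x z) η)‖ ≤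
        B₁ * (Ca * T ^ (F.deg * (1 / 2 + η) - 1)) * |2 * T - T| := by
      refine intervalIntegral.norm_integral_le_of_norm_le_const fun x hx => ?_
      rw [uIoc_of_le hTT] at hx
      have hx' : x ∈ Icc T (2 * T) := Ioc_subset_Icc_self hx
      have h7 := Ha T x hT hx'
      rw [← hYe, e1 x hx', mul_add, add_comm, ← sub_sub] at h7
      rw [norm_mul]
      exact mul_le_mul (hB1 x hx') h7 (norm_nonneg _) p1
    have h8 : T ^ (F.deg * (1 / 2 + η) - 1) * T ≤ T ^ ε * T ^ (F.deg / 2) := by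
      rw [← Real.rpow_add_one hT0.ne', ← Real.rpow_add hT0]
      exact Real.rpow_le_rpow_of_exponent_le hT (by nlinarith)
    rw [show 2 * T - T = T by ring, abs_of_pos hT0] at h6
    rw [e2]
    refine (norm_add_le _ _).trans ?_
    rw [norm_mul, Complex.norm_ofNat, add_mul, add_mul]
    refine add_le_add (h6.trans ?_) ?_
    · calc B₁ * (Ca * T ^ (F.deg * (1 / 2 + η) - 1)) * T
          = Ca * (T ^ (F.deg * (1 / 2 + η) - 1) * T) * B₁ := by ring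
        _ ≤ Ca * (T ^ ε * T ^ (F.deg / 2)) * B₁ := by gcongr
        _ = Ca * T ^ ε * (T ^ (F.deg / 2) * B₁) := by ring
        _ ≤ _ := by gcongr
    · calc _ ≤ 2 * (Cf * (Ct * K * (Y : ℝ) ^ η * (1 + F.deg) * (2 * T) ^ (η * F.deg) *
            (T ^ η * R))) := by gcongr
        _ = 2 * Cf * (Ct * K * (1 + F.deg)) * ((Y : ℝ) ^ η * (2 * T) ^ (η * F.deg) * T ^ η) * R := by
            ring
        _ ≤ 2 * Cf * ((Cd + Ct) * K * (1 + F.deg)) * (2 ^ F.deg * T ^ ε) * R := by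
            gcongr
            linarith
        _ = _ := by ring

end Sel

end Pool.Agent.Lib.MP_2a1a00_nt
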