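import Pool.Agent.Lib.MP_2a1a00_nt.Dy
import Pool.Agent.Lib.MP_2a1a00_nt.Shift

/-! Gaussian averages. -/

namespace Pool.Agent.Lib.MP_2a1a00_nt

open Complex MeasureTheory Set

theorem gav_int : Integrable fun v : ℝ => Real.exp (-v ^ 2 / 2) := by
  simpa using integrable_gauss_poly 0

theorem gav_pos : 0 < ∫ v : ℝ, Real.exp (-v ^ 2 / 2) :=
  integral_exp_pos gav_int

theorem gav_ofReal_le {f : ℝ → ℝ} (hf : ∀ v, 0 ≤ f v) :
    ENNReal.ofReal (∫ v, f v) ≤ ∫⁻ v, ENNReal.ofReal (f v) := by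
  by_cases h : Integrable f
  · exact (ofReal_integral_eq_lintegral_ofReal h (Filter.Eventually.of_forall hf)).le
  · simp [integral_undef h]

theorem gav_swap {g : ℝ → ℝ} (hg : Continuous g) (h0 : ∀ t, 0 ≤ g t) (s : Set ℝ) :
    ∫⁻ t in s, ENNReal.ofReal (∫ v : ℝ, g (t + v) * Real.exp (-v ^ 2 / 2)) ≤
      ∫⁻ v : ℝ, (∫⁻ t in s, ENNReal.ofReal (g (t + v))) *
        ENNReal.ofReal (Real.exp (-v ^ 2 / 2)) := by
  calc _ ≤ ∫⁻ t in s, ∫⁻ v : ℝ, ENNReal.ofReal (g (t + v) * Real.exp (-v ^ 2 / 2)) :=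
        lintegral_mono fun t => gav_ofReal_le fun v => mul_nonneg (h0 _) (Real.exp_pos _).le
    _ = ∫⁻ v : ℝ, ∫⁻ t in s, ENNReal.ofReal (g (t + v) * Real.exp (-v ^ 2 / 2)) := by
        refine lintegral_lintegral_swap (Measurable.aemeasurable ?_)
        refine ENNReal.measurable_ofReal.comp (Continuous.measurable ?_)
        fun_prop
    _ = _ := by
        refine lintegral_congr fun v => ?_
        rw [← lintegral_mul_const' _ _ ENNReal.ofReal_ne_top]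
        exact lintegral_congr fun t => ENNReal.ofReal_mul (h0 _)

theorem gav_Ioc {g : ℝ → ℝ} (hg : Continuous g) (h0 : ∀ t, 0 ≤ g t) {a b : ℝ} (hab : a ≤ b)
    (v : ℝ) : ∫⁻ t in Ioc a b, ENNReal.ofReal (g (t + v)) =
      ENNReal.ofReal (∫ t in a + v..b + v, g t) := by
  have hc : Continuous fun t => g (t + v) := by fun_prop
  rw [← intervalIntegral.integral_comp_add_right, intervalIntegral.integral_of_le hab,
    ofReal_integral_eq_lintegral_ofReal (hc.integrableOn_Icc.mono_set Ioc_subset_Icc_self)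
      (Filter.Eventually.of_forall fun t => h0 _)]

theorem gav_bdd_int {g : ℝ → ℝ} (hg : Continuous g) {K : ℝ} (hK : ∀ t, |g t| ≤ K) :
    Integrable fun v : ℝ => g v * Real.exp (-v ^ 2 / 2) :=
  gav_int.bdd_mul hg.aestronglyMeasurable (c := K) (Filter.Eventually.of_forall hK)

theorem gav_cs {g : ℝ → ℝ} (hg : Continuous g) (h0 : ∀ t, 0 ≤ g t) {K : ℝ} (hK : ∀ t, g t ≤ K) :
    (∫ v : ℝ, g v * Real.exp (-v ^ 2 / 2)) ^ 2 ≤
      (∫ v : ℝ, Real.exp (-v ^ 2 / 2)) * ∫ v : ℝ, g v ^ 2 * Real.exp (-v ^ 2 / 2) := by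
  have hE := gav_pos
  have h1 : Integrable fun v : ℝ => g v * Real.exp (-v ^ 2 / 2) :=
    gav_bdd_int hg (K := K) fun t => by rw [abs_of_nonneg (h0 t)]; exact hK t
  have h2 : Integrable fun v : ℝ => g v ^ 2 * Real.exp (-v ^ 2 / 2) :=
    gav_bdd_int (g := fun v => g v ^ 2) (by fun_prop) (K := K ^ 2) fun t => by
      rw [abs_of_nonneg (sq_nonneg _)]; exact pow_le_pow_left₀ (h0 t) (hK t) 2
  have key : ∀ l : ℝ, 2 * l * (∫ v : ℝ, g v * Real.exp (-v ^ 2 / 2)) ≤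
      (∫ v : ℝ, g v ^ 2 * Real.exp (-v ^ 2 / 2)) + l ^ 2 * ∫ v : ℝ, Real.exp (-v ^ 2 / 2) := by
    intro l
    rw [← integral_const_mul, ← integral_const_mul, ← integral_add h2 (gav_int.const_mul _)]
    refine integral_mono (h1.const_mul _) (h2.add (gav_int.const_mul _)) fun v => ?_
    have := mul_nonneg (sq_nonneg (g v - l)) (Real.exp_pos (-v ^ 2 / 2)).le
    simp only
    nlinarith
  generalize (∫ v : ℝ, Real.exp (-v ^ 2 / 2)) = E at *
  generalize (∫ v : ℝ, g v * Real.exp (-v ^ 2 / 2)) = A at *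
  generalize (∫ v : ℝ, g v ^ 2 * Real.exp (-v ^ 2 / 2)) = J at *
  have h3 := mul_le_mul_of_nonneg_left (key (A / E)) hE.le
  have h4 : E * (2 * (A / E) * A) = 2 * A ^ 2 := by field_simp
  have h5 : E * (J + (A / E) ^ 2 * E) = E * J + A ^ 2 := by field_simp
  linarith

/- Cauchy-Schwarz: `(∫ h * e) ^ 2 ≤ (∫ e) * ∫ h ^ 2 * e` with `e v = exp (-v ^ 2 / 2)`; `Bl_subset`, Tonelli
(`lintegral_lintegral_swap`), and `∫ t in a..a + ℓ, h (t + v) ^ 2` is an integral over a translated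
interval (`intervalIntegral.integral_comp_add_right`). -/
theorem gav_sq : ∃ C : ℝ, 0 < C ∧ ∀ (h : ℝ → ℝ) (K U Z : ℝ), Continuous h → (∀ t, 0 ≤ h t) →
    (∀ t, h t ≤ K) → 1 ≤ U → (∀ a : ℝ, ∫ t in a..a + 4 * U, h t ^ 2 ≤ Z) →
    ∫⁻ t in Bl U, ENNReal.ofReal ((∫ v : ℝ, h (t + v) * Real.exp (-v ^ 2 / 2)) ^ 2) ≤
      ENNReal.ofReal (C * Z) := by
  refine ⟨(∫ v : ℝ, Real.exp (-v ^ 2 / 2)) ^ 2, pow_pos gav_pos 2, ?_⟩
  intro h K U Z hh h0 hK hU hZ
  have hE := gav_pos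
  have hh2 : Continuous fun t => h t ^ 2 := by fun_prop
  have hin : ∀ v : ℝ, ∫⁻ t in Bl U, ENNReal.ofReal (h (t + v) ^ 2) ≤ ENNReal.ofReal Z := by
    intro v
    refine (lintegral_mono_set (Bl_subset hU)).trans ?_
    rw [gav_Ioc hh2 (fun t => sq_nonneg _) (by linarith) v]
    refine ENNReal.ofReal_le_ofReal ?_
    rw [show -(2 * U) + 4 * U + v = -(2 * U) + v + 4 * U by ring]
    exact hZ _
  calc _ ≤ ∫⁻ t in Bl U, ENNReal.ofReal (∫ v : ℝ, Real.exp (-v ^ 2 / 2)) *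
          ENNReal.ofReal (∫ v : ℝ, h (t + v) ^ 2 * Real.exp (-v ^ 2 / 2)) := by
        refine lintegral_mono fun t => ?_
        rw [← ENNReal.ofReal_mul hE.le]
        exact ENNReal.ofReal_le_ofReal
          (gav_cs (g := fun v => h (t + v)) (by fun_prop) (fun v => h0 _) (fun v => hK _))
    _ ≤ ENNReal.ofReal (∫ v : ℝ, Real.exp (-v ^ 2 / 2)) *
          ∫⁻ v : ℝ, ENNReal.ofReal Z * ENNReal.ofReal (Real.exp (-v ^ 2 / 2)) := by
        rw [lintegral_const_mul' _ _ ENNReal.ofReal_ne_top]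
        refine mul_le_mul_right ?_ _
        refine (gav_swap hh2 (fun t => sq_nonneg _) _).trans (lintegral_mono fun v => ?_)
        exact mul_le_mul_left (hin v) _
    _ = _ := by
        rw [lintegral_const_mul' _ _ ENNReal.ofReal_ne_top,
          ← ofReal_integral_eq_lintegral_ofReal gav_int
            (Filter.Eventually.of_forall fun v => (Real.exp_pos _).le),
          ENNReal.ofReal_mul (sq_nonneg _), sq, ENNReal.ofReal_mul hE.le]
        ring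

/- `MeasureTheory.StronglyMeasurable.integral_prod_right`. -/
theorem gav_meas {h : ℝ → ℝ} (hh : Continuous h) :
    Measurable fun t : ℝ => ∫ v : ℝ, h (t + v) * Real.exp (-v ^ 2 / 2) := by
  have : StronglyMeasurable fun p : ℝ × ℝ => h (p.1 + p.2) * Real.exp (-p.2 ^ 2 / 2) :=
    Continuous.stronglyMeasurable (by fun_prop)
  exact (this.integral_prod_right' (ν := volume)).measurable

theorem gav_sup : ∃ C : ℝ, 0 < C ∧ ∀ (h : ℝ → ℝ) (K t : ℝ), (∀ t, 0 ≤ h t) → (∀ t, h t ≤ K) →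
    ∫ v : ℝ, h (t + v) * Real.exp (-v ^ 2 / 2) ≤ C * K := by
  refine ⟨∫ v : ℝ, Real.exp (-v ^ 2 / 2), gav_pos, fun h K t h0 hK => ?_⟩
  rw [mul_comm, ← integral_const_mul]
  exact integral_mono_of_nonneg
    (Filter.Eventually.of_forall fun v => mul_nonneg (h0 _) (Real.exp_pos _).le)
    (gav_int.const_mul _)
    (Filter.Eventually.of_forall fun v => mul_le_mul_of_nonneg_right (hK _) (Real.exp_pos _).le)

/- `ofReal (∫ ..) ≤ ∫⁻ ofReal ..` (`ofReal_integral_norm_eq_lintegral_enorm` or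
`enorm_integral_le_lintegral_enorm`), Tonelli; for `t ∈ Bl U` the point `t + v` lies in `[-X, X]`,
`X = 2 * U * (1 + |v|)`; `integrable_gauss_poly`. -/
theorem gav_one {κ : ℝ} (hκ : 0 ≤ κ) : ∃ C : ℝ, 0 < C ∧ ∀ (h : ℝ → ℝ) (K U : ℝ), Continuous h →
    (∀ t, 0 ≤ h t) → 0 ≤ K → 1 ≤ U → (∀ X : ℝ, 1 ≤ X → ∫ t in -X..X, h t ≤ K * X ^ κ) →
    ∫⁻ t in Bl U, ENNReal.ofReal (∫ v : ℝ, h (t + v) * Real.exp (-v ^ 2 / 2)) ≤
      ENNReal.ofReal (C * K * U ^ κ) := by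
  have hI0 : 0 ≤ ∫ v : ℝ, (1 + |v|) ^ κ * Real.exp (-v ^ 2 / 2) :=
    integral_nonneg fun v => by positivity
  refine ⟨2 ^ κ * ((∫ v : ℝ, (1 + |v|) ^ κ * Real.exp (-v ^ 2 / 2)) + 1), by positivity, ?_⟩
  intro h K U hh h0 hK hU hX
  have hU0 : 0 < U := one_pos.trans_le hU
  have hin : ∀ v : ℝ, ∫⁻ t in Bl U, ENNReal.ofReal (h (t + v)) ≤
      ENNReal.ofReal (K * (2 * U * (1 + |v|)) ^ κ) := by
    intro v
    have hv := abs_nonneg v
    have h1 : 1 ≤ 2 * U * (1 + |v|) := by nlinarith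
    have hsub : Bl U ⊆ Ioc (-(2 * U * (1 + |v|)) - v) (2 * U * (1 + |v|) - v) := by
      rintro t ⟨-, ht⟩
      unfold jb at ht
      have h2 := le_abs_self t
      have h3 := neg_abs_le t
      have h4 := le_abs_self v
      have h5 := neg_abs_le v
      constructor <;> nlinarith
    refine (lintegral_mono_set hsub).trans ?_
    rw [gav_Ioc hh h0 (by linarith) v, sub_add_cancel, sub_add_cancel]
    exact ENNReal.ofReal_le_ofReal (hX _ h1)
  refine (gav_swap hh h0 _).trans ?_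
  calc _ ≤ ∫⁻ v : ℝ, ENNReal.ofReal
          (K * 2 ^ κ * U ^ κ * ((1 + |v|) ^ κ * Real.exp (-v ^ 2 / 2))) := by
        refine lintegral_mono fun v => (mul_le_mul_left (hin v) _).trans (le_of_eq ?_)
        rw [← ENNReal.ofReal_mul (by positivity), Real.mul_rpow (by positivity) (by positivity),
          Real.mul_rpow (by positivity) (by positivity)]
        congr 1
        ring
    _ = ENNReal.ofReal (K * 2 ^ κ * U ^ κ * ∫ v : ℝ, (1 + |v|) ^ κ * Real.exp (-v ^ 2 / 2)) := by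
        rw [← ofReal_integral_eq_lintegral_ofReal ((integrable_gauss_poly κ).const_mul _)
          (Filter.Eventually.of_forall fun v => by positivity), integral_const_mul]
    _ ≤ _ := by
        refine ENNReal.ofReal_le_ofReal ?_
        have : 0 ≤ K * 2 ^ κ * U ^ κ := by positivity
        nlinarith

/- `gauss_absorb`. -/
theorem exp_Bl (K : ℝ) (hK : 0 ≤ K) : ∃ C : ℝ, 0 < C ∧ ∀ U t : ℝ, 1 ≤ U → t ∈ Bl U →
    Real.exp (-t ^ 2) ≤ C * U ^ (-K) := by
  obtain ⟨C, hC, h⟩ := gauss_absorb K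
  refine ⟨C, hC, fun U t hU ht => ?_⟩
  have hU0 : 0 < U := one_pos.trans_le hU
  have h1 : U ^ K ≤ (1 + |t|) ^ K := Real.rpow_le_rpow hU0.le ht.1 hK
  have h2 : Real.exp (-t ^ 2 / 2) ≤ 1 := Real.exp_le_one_iff.2 (by nlinarith [sq_nonneg t])
  have h3 : 0 < U ^ K := Real.rpow_pos_of_pos hU0 K
  rw [Real.rpow_neg hU0.le, ← div_eq_mul_inv, le_div_iff₀ h3]
  calc _ ≤ (1 + |t|) ^ K * Real.exp (-t ^ 2) := by
        rw [mul_comm]
        exact mul_le_mul_of_nonneg_right h1 (Real.exp_pos _).le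
    _ ≤ C * Real.exp (-t ^ 2 / 2) := h t
    _ ≤ C := mul_le_of_le_one_right hC.le h2

end Pool.Agent.Lib.MP_2a1a00_nt
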