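import Pool.Agent.Lib.MP_2a1a00_nt.Mvt

/-! The head and the tail of the dual series. -/

namespace Pool.Agent.Lib.MP_2a1a00_nt

open Complex MeasureTheory Set

namespace Sel

variable (F : Sel)

theorem mvtd_norm {n : ℕ} (hn : 1 ≤ n) (s : ℂ) :
    ‖(starRingEnd ℂ) (F.f n) * (n : ℂ) ^ (s - 1)‖ = ‖F.f n‖ * (n : ℝ) ^ (s.re - 1) := by
  rw [norm_mul, RCLike.norm_conj, Complex.norm_natCast_cpow_of_pos hn, sub_re, one_re]

theorem mvtd_le {δ : ℝ} (hδ : 0 < δ) : ∃ C : ℝ, 1 ≤ C ∧ ∀ n : ℕ, 1 ≤ n → ∀ s : ℂ,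
    ‖(starRingEnd ℂ) (F.f n) * (n : ℂ) ^ (s - 1)‖ ≤ C * (n : ℝ) ^ (δ + s.re - 1) := by
  obtain ⟨C, h1, hC⟩ := F.ram' hδ
  refine ⟨C, h1, fun n hn s => ?_⟩
  have h0 : (0 : ℝ) < n := by exact_mod_cast hn
  rw [mvtd_norm F hn, add_sub_assoc, Real.rpow_add h0, ← mul_assoc]
  exact mul_le_mul_of_nonneg_right (hC n hn) (by positivity)

theorem mvtd_bd {σ : ℝ} (hσ : σ < 0) : ∃ b : ℕ → ℝ, Summable b ∧ ∀ (N n : ℕ) (s : ℂ), s.re = σ →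
    ‖if N < n then (starRingEnd ℂ) (F.f n) * (n : ℂ) ^ (s - 1) else 0‖ ≤ b n := by
  obtain ⟨C, h1, hC⟩ := F.mvtd_le (δ := -σ / 2) (by linarith)
  refine ⟨fun n => C * (n : ℝ) ^ (-σ / 2 + σ - 1),
    (Real.summable_nat_rpow.2 (by linarith)).mul_left C, fun N n s hs => ?_⟩
  split_ifs with h
  · rw [← hs]
    rw [← hs] at hC
    exact hC n (by omega) s
  · rw [norm_zero]
    positivity

theorem mvtd_summable (N : ℕ) {s : ℂ} (hs : s.re < 0) :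
    Summable fun n : ℕ => if N < n then (starRingEnd ℂ) (F.f n) * (n : ℂ) ^ (s - 1) else 0 := by
  obtain ⟨b, hb, h⟩ := F.mvtd_bd hs
  exact Summable.of_norm_bounded hb fun n => h N n s rfl

theorem mvtd_tendsto (N : ℕ) {s : ℂ} (hs : s.re < 0) :
    Filter.Tendsto (fun X : ℕ => ∑ n ∈ Finset.Ioc N X, (starRingEnd ℂ) (F.f n) * (n : ℂ) ^ (s - 1))
      Filter.atTop (nhds (F.Tl N s)) := by
  have h := (F.mvtd_summable N hs).hasSum.tendsto_sum_nat.comp (Filter.tendsto_add_atTop_nat 1)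
  refine h.congr fun X => ?_
  simp only [Function.comp]
  rw [← Finset.sum_filter]
  congr 1
  ext n
  simp only [Finset.mem_filter, Finset.mem_range, Finset.mem_Ioc]
  omega

theorem mvtd_head {σ ε : ℝ} (hσ : 0 ≤ σ) (hε : 0 < ε) : ∃ C : ℝ, 0 < C ∧ ∀ (N : ℕ) (s : ℂ),
    s.re = σ → ‖F.Hd N s‖ ≤ C * (N : ℝ) ^ (σ + ε) := by
  obtain ⟨C, h1, hC⟩ := F.mvtd_le hε
  obtain ⟨D, hD, h2⟩ := sum_rpow_head (β := σ + ε) (by linarith)
  refine ⟨C * D, by positivity, fun N s hs => ?_⟩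
  refine (norm_sum_le _ _).trans ((Finset.sum_le_sum fun n hn =>
    hC n (Finset.mem_Icc.1 hn).1 s).trans ?_)
  rw [← Finset.mul_sum, mul_assoc, hs, add_comm ε]
  exact mul_le_mul_of_nonneg_left (h2 N) (by linarith)

theorem mvtd_tail {δ : ℝ} (hδ : 0 < δ) (h4 : δ ≤ 1 / 4) : ∃ C : ℝ, 0 < C ∧ ∀ (N X : ℕ) (τ : ℝ),
    ‖∑ n ∈ Finset.Ioc N X, (starRingEnd ℂ) (F.f n) * (n : ℂ) ^ (((-1 / 2 : ℝ) + τ * I) - 1)‖ ≤
      C * ((N : ℝ) + 1) ^ (-1 / 2 + δ) := by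
  obtain ⟨C, h1, hC⟩ := F.mvtd_le hδ
  obtain ⟨D, hD, h2⟩ := sum_rpow_tail (β := 1 / 2 - δ) (by linarith)
  refine ⟨C * D, by positivity, fun N X τ => ?_⟩
  refine (norm_sum_le _ _).trans ((Finset.sum_le_sum fun n hn =>
    hC n (by have := (Finset.mem_Ioc.1 hn).1; omega) _).trans ?_)
  have e : δ + (((-1 / 2 : ℝ) : ℂ) + τ * I).re - 1 = -1 - (1 / 2 - δ) := by
    rw [add_re, ofReal_re, re_ofReal_mul, I_re]
    ring
  rw [← Finset.mul_sum, mul_assoc, e, show -1 / 2 + δ = -(1 / 2 - δ) by ring]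
  exact mul_le_mul_of_nonneg_left (h2 N X) (by linarith)

theorem mvtd_gen {δ : ℝ} (hδ : 0 < δ) : ∃ C : ℝ, 0 < C ∧ ∀ (S : Finset ℕ), (∀ n ∈ S, 1 ≤ n) →
    ∀ σ a ℓ : ℝ, 0 ≤ ℓ →
    ∫ τ in a..a + ℓ, ‖∑ n ∈ S, (starRingEnd ℂ) (F.f n) * (n : ℂ) ^ ((σ : ℂ) + τ * I - 1)‖ ^ 2 ≤
      C * (ℓ * ∑ n ∈ S, (n : ℝ) ^ (2 * δ + 2 * σ - 2) + (∑ n ∈ S, (n : ℝ) ^ (δ + σ - 1)) ^ 2 +
        ∑ n ∈ S, (n : ℝ) ^ (3 * δ + 2 * σ - 1)) := by
  obtain ⟨C, h1, hC⟩ := F.mvtd_le hδ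
  obtain ⟨D, hD, h2⟩ := log_le_rpow hδ
  refine ⟨C ^ 2 * (4 + 8 * D), by positivity, fun S hS σ a ℓ hℓ => ?_⟩
  have e : ∀ τ : ℝ, ∑ n ∈ S, (starRingEnd ℂ) (F.f n) * (n : ℂ) ^ ((σ : ℂ) + τ * I - 1) =
      ∑ n ∈ S, (starRingEnd ℂ) (F.f n) * (n : ℂ) ^ ((σ : ℂ) - 1) *
        exp (I * (Real.log n * τ : ℝ)) := by
    intro τ
    refine Finset.sum_congr rfl fun n hn => ?_
    have h0 : (n : ℂ) ≠ 0 := Nat.cast_ne_zero.2 (by have := hS n hn; omega)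
    rw [add_sub_right_comm, cpow_add _ _ h0, cpow_def_of_ne_zero h0 (τ * I), ← natCast_log,
      mul_assoc]
    congr 3
    push_cast
    ring
  simp only [e]
  refine (mvt_dir S hS _ a hℓ).trans ?_
  have hb : ∀ n ∈ S, ‖(starRingEnd ℂ) (F.f n) * (n : ℂ) ^ ((σ : ℂ) - 1)‖ ≤
      C * (n : ℝ) ^ (δ + σ - 1) := fun n hn => hC n (hS n hn) σ
  have hq : ∀ n ∈ S, ‖(starRingEnd ℂ) (F.f n) * (n : ℂ) ^ ((σ : ℂ) - 1)‖ ^ 2 ≤
      C ^ 2 * (n : ℝ) ^ (2 * δ + 2 * σ - 2) := by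
    intro n hn
    have h0 : (0 : ℝ) < n := by exact_mod_cast hS n hn
    refine (pow_le_pow_left₀ (norm_nonneg _) (hb n hn) 2).trans_eq ?_
    rw [mul_pow, sq ((n : ℝ) ^ _), ← Real.rpow_add h0]
    congr 2
    ring
  have b0 := Finset.sum_le_sum hq
  have b1 := pow_le_pow_left₀ (Finset.sum_nonneg fun n _ => norm_nonneg _)
    (Finset.sum_le_sum hb) 2
  have b2 : ∑ n ∈ S, (n : ℝ) * (1 + Real.log n) *
      ‖(starRingEnd ℂ) (F.f n) * (n : ℂ) ^ ((σ : ℂ) - 1)‖ ^ 2 ≤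
      ∑ n ∈ S, C ^ 2 * D * (n : ℝ) ^ (3 * δ + 2 * σ - 1) := by
    refine Finset.sum_le_sum fun n hn => ?_
    have h3 : (1 : ℝ) ≤ n := by exact_mod_cast hS n hn
    have h0 : (0 : ℝ) < n := by linarith
    refine (mul_le_mul (mul_le_mul_of_nonneg_left (h2 n h3) h0.le) (hq n hn) (by positivity)
      (by positivity)).trans_eq ?_
    rw [show 3 * δ + 2 * σ - 1 = 1 + δ + (2 * δ + 2 * σ - 2) by ring, Real.rpow_add h0 (1 + δ),
      Real.rpow_add h0 1, Real.rpow_one]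
    ring
  rw [← Finset.mul_sum] at b0 b1 b2
  have p0 : 0 ≤ ∑ n ∈ S, (n : ℝ) ^ (2 * δ + 2 * σ - 2) :=
    Finset.sum_nonneg fun n _ => by positivity
  have p2 : 0 ≤ ∑ n ∈ S, (n : ℝ) ^ (3 * δ + 2 * σ - 1) :=
    Finset.sum_nonneg fun n _ => by positivity
  have b0' := mul_le_mul_of_nonneg_left b0 hℓ
  rw [mul_pow] at b1
  generalize ∑ n ∈ S, (n : ℝ) ^ (2 * δ + 2 * σ - 2) = A0 at *
  generalize ∑ n ∈ S, (n : ℝ) ^ (3 * δ + 2 * σ - 1) = A2 at *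
  generalize ∑ n ∈ S, (n : ℝ) ^ (δ + σ - 1) = A1 at *
  have q0 : 0 ≤ C ^ 2 * (ℓ * A0) := by positivity
  have q1 : 0 ≤ C ^ 2 * (ℓ * A0) * D := by positivity
  have q2 : 0 ≤ C ^ 2 * A1 ^ 2 * D := by positivity
  have q3 : 0 ≤ C ^ 2 * A2 := by positivity
  nlinarith

theorem differentiable_Hd (N : ℕ) : Differentiable ℂ (F.Hd N) := by
  refine Differentiable.fun_sum fun n hn => Differentiable.const_mul ?_ _
  exact (differentiable_id.sub_const 1).const_cpow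
    (Or.inl (Nat.cast_ne_zero.2 (by have := (Finset.mem_Icc.1 hn).1; omega)))

/- `conj` commutes with `tsum` (`Complex.conj_tsum` or `tsum_star`); `L_eq`, `F.summable`; split off the
finitely many terms `n ≤ N`; the term `n = 0` of `LSeries` is zero. -/
theorem Hd_add_Tl (N : ℕ) {s : ℂ} (hs : s.re < 0) :
    F.Hd N s + F.Tl N s = (starRingEnd ℂ) (F.L (1 - (starRingEnd ℂ) s)) := by
  have h1 : (starRingEnd ℂ) (F.L (1 - (starRingEnd ℂ) s)) = F.Tl 0 s := by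
    rw [F.L_eq (by rw [sub_re, one_re, conj_re]; linarith), LSeries, Complex.conj_tsum]
    refine tsum_congr fun n => ?_
    rcases Nat.eq_zero_or_pos n with rfl | hn
    · simp
    · have ha : (n : ℂ).arg ≠ Real.pi := by
        rw [natCast_arg]; exact Real.pi_pos.ne
      have h2 := cpow_conj (n : ℂ) (1 - (starRingEnd ℂ) s) ha
      rw [map_sub, map_one, conj_conj, conj_natCast] at h2
      rw [if_pos hn, LSeries.term_of_ne_zero hn.ne', map_div₀, ← h2, div_eq_mul_inv, ← cpow_neg,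
        neg_sub]
  rw [h1]
  refine tendsto_nhds_unique ((F.mvtd_tendsto N hs).const_add (F.Hd N s))
    ((F.mvtd_tendsto 0 hs).congr' ?_)
  filter_upwards [Filter.eventually_ge_atTop N] with X hX
  rw [← Finset.sum_Ioc_consecutive _ (Nat.zero_le N) hX]
  rfl

theorem continuous_Tl (N : ℕ) : Continuous fun τ : ℝ => F.Tl N ((-1 / 2 : ℝ) + τ * I) := by
  obtain ⟨b, hb, h⟩ := F.mvtd_bd (σ := -1 / 2) (by norm_num)
  refine continuous_tsum (fun n => ?_) hb fun n τ => h N n _ (by simp)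
  split_ifs with hn
  · exact continuous_const.mul (Continuous.const_cpow (by fun_prop)
      (Or.inl (Nat.cast_ne_zero.2 (by omega))))
  · exact continuous_const

theorem Hd_zero_le {ε : ℝ} (hε : 0 < ε) : ∃ C : ℝ, 0 < C ∧ ∀ N : ℕ, ‖F.Hd N 0‖ ≤ C * (N : ℝ) ^ ε := by
  obtain ⟨C, hC, h⟩ := F.mvtd_head le_rfl hε
  exact ⟨C, hC, fun N => by simpa using h N 0 rfl⟩

theorem Hd_le {ε : ℝ} (hε : 0 < ε) : ∃ C : ℝ, 0 < C ∧ ∀ (N : ℕ) (τ : ℝ),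
    ‖F.Hd N ((1 / 2 : ℝ) + τ * I)‖ ≤ C * (N : ℝ) ^ (1 / 2 + ε) := by
  obtain ⟨C, hC, h⟩ := F.mvtd_head (σ := 1 / 2) (by norm_num) hε
  exact ⟨C, hC, fun N τ => h N _ (by simp)⟩

/- Reduce to `ε ≤ 1 / 4`; `sum_rpow_tail`. -/
theorem Tl_le {ε : ℝ} (hε : 0 < ε) : ∃ C : ℝ, 0 < C ∧ ∀ (N : ℕ) (τ : ℝ),
    ‖F.Tl N ((-1 / 2 : ℝ) + τ * I)‖ ≤ C * ((N : ℝ) + 1) ^ (-1 / 2 + ε) := by
  obtain ⟨C, hC, h⟩ := F.mvtd_tail (lt_min hε (by norm_num)) (min_le_right ε (1 / 4))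
  refine ⟨C, hC, fun N τ => ?_⟩
  refine (le_of_tendsto' (F.mvtd_tendsto N (by simp; norm_num)).norm fun X => h N X τ).trans ?_
  refine mul_le_mul_of_nonneg_left (Real.rpow_le_rpow_of_exponent_le (by simp) ?_) hC.le
  linarith [min_le_left ε (1 / 4)]

/- `mvt_dir` with `γ n = conj (f n) * n ^ (-1 / 2)`, `ram'`, `sum_rpow_head`, `log_le_rpow`. -/
theorem mvt_Hd {ε : ℝ} (hε : 0 < ε) : ∃ C : ℝ, 0 < C ∧ ∀ (N : ℕ) (a ℓ : ℝ), 0 ≤ ℓ →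
    ∫ τ in a..a + ℓ, ‖F.Hd N ((1 / 2 : ℝ) + τ * I)‖ ^ 2 ≤ C * (ℓ + N) * (N : ℝ) ^ ε := by
  obtain ⟨C, hC, h⟩ := F.mvtd_gen (δ := ε / 3) (by positivity)
  obtain ⟨D0, hD0, h0⟩ := sum_rpow_head (β := 2 * (ε / 3)) (by positivity)
  obtain ⟨D1, hD1, h1⟩ := sum_rpow_head (β := ε / 3 + 1 / 2) (by positivity)
  obtain ⟨D2, hD2, h2⟩ := sum_rpow_head (β := 1 + ε) (by positivity)
  refine ⟨C * (D0 + D1 ^ 2 + D2), by positivity, fun N a ℓ hℓ => ?_⟩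
  rcases Nat.eq_zero_or_pos N with rfl | hN
  · simp only [Hd, Finset.Icc_eq_empty (by norm_num : ¬1 ≤ 0), Finset.sum_empty, norm_zero,
      zero_pow two_ne_zero, intervalIntegral.integral_zero]
    positivity
  have hN1 : (1 : ℝ) ≤ N := by exact_mod_cast hN
  have hN0 : (0 : ℝ) < N := by linarith
  refine (h (Finset.Icc 1 N) (fun n hn => (Finset.mem_Icc.1 hn).1) (1 / 2) a ℓ hℓ).trans ?_
  rw [show 2 * (ε / 3) + 2 * (1 / 2) - 2 = 2 * (ε / 3) - 1 by ring,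
    show 3 * (ε / 3) + 2 * (1 / 2) - 1 = 1 + ε - 1 by ring, mul_assoc C, mul_assoc C]
  refine mul_le_mul_of_nonneg_left ?_ hC.le
  have e0 : (N : ℝ) ^ (2 * (ε / 3)) ≤ (N : ℝ) ^ ε :=
    Real.rpow_le_rpow_of_exponent_le hN1 (by linarith)
  have e1 : ((N : ℝ) ^ (ε / 3 + 1 / 2)) ^ 2 ≤ N * (N : ℝ) ^ ε := by
    rw [sq, ← Real.rpow_add hN0, ← Real.rpow_one_add' hN0.le (by positivity)]
    exact Real.rpow_le_rpow_of_exponent_le hN1 (by linarith)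
  have b0 := mul_le_mul_of_nonneg_left ((h0 N).trans (mul_le_mul_of_nonneg_left e0 hD0.le)) hℓ
  have b1 := pow_le_pow_left₀ (Finset.sum_nonneg fun n _ => by positivity) (h1 N) 2
  rw [mul_pow] at b1
  have b1' := b1.trans (mul_le_mul_of_nonneg_left e1 (sq_nonneg D1))
  have b2 := h2 N
  rw [Real.rpow_one_add' hN0.le (by positivity)] at b2
  have hp : 0 < (N : ℝ) ^ ε := by positivity
  generalize (N : ℝ) ^ ε = P at *
  have q0 : 0 ≤ D0 * N * P := by positivity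
  have q1 : 0 ≤ D1 ^ 2 * ℓ * P := by positivity
  have q2 : 0 ≤ D2 * ℓ * P := by positivity
  nlinarith

/- `mvt_dir` for the finite sums over `Ioc N X` with `γ n = conj (f n) * n ^ (-3 / 2)`, `sum_rpow_tail`;
let `X` tend to infinity (dominated convergence, `le_of_tendsto`). -/
theorem mvt_Tl {ε : ℝ} (hε : 0 < ε) : ∃ C : ℝ, 0 < C ∧ ∀ (N : ℕ) (a ℓ : ℝ), 0 ≤ ℓ →
    ∫ τ in a..a + ℓ, ‖F.Tl N ((-1 / 2 : ℝ) + τ * I)‖ ^ 2 ≤
      C * (ℓ * ((N : ℝ) + 1) ^ (-2 : ℝ) + ((N : ℝ) + 1) ^ (-1 : ℝ)) * ((N : ℝ) + 1) ^ ε := by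
  obtain ⟨δ, hδ, h4, h3⟩ : ∃ δ : ℝ, 0 < δ ∧ δ ≤ 1 / 4 ∧ δ ≤ ε / 3 :=
    ⟨min (1 / 4) (ε / 3), by positivity, min_le_left _ _, min_le_right _ _⟩
  obtain ⟨C, hC, h⟩ := F.mvtd_gen hδ
  obtain ⟨K, -, hK⟩ := F.mvtd_tail hδ h4
  obtain ⟨D0, hD0, h0⟩ := sum_rpow_tail (β := 2 - 2 * δ) (by linarith)
  obtain ⟨D1, hD1, h1⟩ := sum_rpow_tail (β := 1 / 2 - δ) (by linarith)
  obtain ⟨D2, hD2, h2⟩ := sum_rpow_tail (β := 1 - 3 * δ) (by linarith)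
  refine ⟨C * (D0 + D1 ^ 2 + D2), by positivity, fun N a ℓ hℓ => ?_⟩
  have hN1 : (1 : ℝ) ≤ N + 1 := by simp
  have hN0 : (0 : ℝ) < N + 1 := by linarith
  have hl : Filter.Tendsto (fun X : ℕ => ∫ τ in a..a + ℓ, ‖∑ n ∈ Finset.Ioc N X,
      (starRingEnd ℂ) (F.f n) * (n : ℂ) ^ (((-1 / 2 : ℝ) + τ * I) - 1)‖ ^ 2) Filter.atTop
      (nhds (∫ τ in a..a + ℓ, ‖F.Tl N ((-1 / 2 : ℝ) + τ * I)‖ ^ 2)) := by
    refine intervalIntegral.tendsto_integral_filter_of_dominated_convergence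
      (fun _ => (K * ((N : ℝ) + 1) ^ (-1 / 2 + δ)) ^ 2) (.of_forall fun X => ?_)
      (.of_forall fun X => .of_forall fun τ _ => ?_) intervalIntegrable_const
      (.of_forall fun τ _ => (F.mvtd_tendsto N (by simp; norm_num)).norm.pow 2)
    · refine (Continuous.pow (Continuous.norm (continuous_finsetSum _ fun n hn => ?_))
        2).aestronglyMeasurable
      exact continuous_const.mul (Continuous.const_cpow (by fun_prop)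
        (Or.inl (Nat.cast_ne_zero.2 (by have := (Finset.mem_Ioc.1 hn).1; omega))))
    · rw [norm_pow, norm_norm]
      exact pow_le_pow_left₀ (norm_nonneg _) (hK N X τ) 2
  refine le_of_tendsto' hl fun X => ?_
  refine (h (Finset.Ioc N X) (fun n hn => by have := (Finset.mem_Ioc.1 hn).1; omega) (-1 / 2) a ℓ
    hℓ).trans ?_
  rw [show 2 * δ + 2 * (-1 / 2) - 2 = -1 - (2 - 2 * δ) by ring,
    show δ + -1 / 2 - 1 = -1 - (1 / 2 - δ) by ring,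
    show 3 * δ + 2 * (-1 / 2) - 1 = -1 - (1 - 3 * δ) by ring, mul_assoc C, mul_assoc C]
  refine mul_le_mul_of_nonneg_left ?_ hC.le
  have e0 : ((N : ℝ) + 1) ^ (-(2 - 2 * δ)) ≤ ((N : ℝ) + 1) ^ (-2 : ℝ) * ((N : ℝ) + 1) ^ ε := by
    rw [← Real.rpow_add hN0]
    exact Real.rpow_le_rpow_of_exponent_le hN1 (by linarith)
  have e1 : (((N : ℝ) + 1) ^ (-(1 / 2 - δ))) ^ 2 ≤
      ((N : ℝ) + 1) ^ (-1 : ℝ) * ((N : ℝ) + 1) ^ ε := by
    rw [sq, ← Real.rpow_add hN0, ← Real.rpow_add hN0]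
    exact Real.rpow_le_rpow_of_exponent_le hN1 (by linarith)
  have e2 : ((N : ℝ) + 1) ^ (-(1 - 3 * δ)) ≤ ((N : ℝ) + 1) ^ (-1 : ℝ) * ((N : ℝ) + 1) ^ ε := by
    rw [← Real.rpow_add hN0]
    exact Real.rpow_le_rpow_of_exponent_le hN1 (by linarith)
  have b0 := mul_le_mul_of_nonneg_left ((h0 N X).trans (mul_le_mul_of_nonneg_left e0 hD0.le)) hℓ
  have b1 := pow_le_pow_left₀ (Finset.sum_nonneg fun n _ => by positivity) (h1 N X) 2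
  rw [mul_pow] at b1
  have b1' := b1.trans (mul_le_mul_of_nonneg_left e1 (sq_nonneg D1))
  have b2 := (h2 N X).trans (mul_le_mul_of_nonneg_left e2 hD2.le)
  have hp : 0 < ((N : ℝ) + 1) ^ ε := by positivity
  have hp1 : 0 < ((N : ℝ) + 1) ^ (-1 : ℝ) := by positivity
  have hp2 : 0 < ((N : ℝ) + 1) ^ (-2 : ℝ) := by positivity
  generalize ((N : ℝ) + 1) ^ ε = P at *
  generalize ((N : ℝ) + 1) ^ (-1 : ℝ) = P1 at *
  generalize ((N : ℝ) + 1) ^ (-2 : ℝ) = P2 at *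
  have q0 : 0 ≤ D0 * P1 * P := by positivity
  have q1 : 0 ≤ D1 ^ 2 * ℓ * P2 * P := by positivity
  have q2 : 0 ≤ D2 * ℓ * P2 * P := by positivity
  nlinarith

end Sel

end Pool.Agent.Lib.MP_2a1a00_nt
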