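import Pool.Agent.Lib.MP_2a1a00_nt.Cnt

/-! Mean squares of trigonometric polynomials, general case, and the supremum. -/

namespace Pool.Agent.Lib.MP_2a1a00_nt

open Complex MeasureTheory Set

theorem ps2_w0_eq (p : ℕ × ℕ) : w0 p = 1 / √((p.1 : ℝ) * p.2) := by
  rw [w0, Real.rpow_neg (Nat.cast_nonneg _), ← Real.sqrt_eq_rpow, Nat.cast_mul, one_div]

theorem ps2_w0 {p q : ℕ × ℕ} (h : p.2 * q.1 = p.1 * q.2) :
    w0 p * w0 q = 1 / (p.2 : ℝ) * (1 / (q.1 : ℝ)) := by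
  have h1 : (p.2 : ℝ) * q.1 = p.1 * q.2 := by exact_mod_cast h
  rw [ps2_w0_eq, ps2_w0_eq, one_div_mul_one_div, one_div_mul_one_div,
    ← Real.sqrt_mul (by positivity),
    show (p.1 : ℝ) * p.2 * (q.1 * q.2) = p.2 * q.1 * (p.1 * q.2) by ring, ← h1,
    Real.sqrt_mul_self (by positivity)]

/- `ps_gen` with `ω = 1`, `quad` with `X = Y`, `x p = p.2`, `y p = p.1`.  First sum: if
`p.2 * q.1 = p.1 * q.2` then `w0 p * w0 q = 1 / (p.2 * q.1)`.  Second sum: `sum_w0`.  Third sum: one of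
`p.2 * q.1`, `p.1 * q.2` is at most `Y` since their product is at most `Y ^ 2`; bound the term by
`G p q + G q p` with `G p q = (if p.2 * q.1 ≤ Y then 1 else 0) * (1 / |k|)`, `Finset.sum_comm`, `card_Pr`,
`sum_inv_abs`. -/
theorem ps_far {ε : ℝ} (hε : 0 < ε) : ∃ C : ℝ, 0 < C ∧ ∀ (Y : ℕ) (S : Finset (ℕ × ℕ))
    (γ : ℕ × ℕ → ℂ) (a ℓ : ℝ), 1 ≤ Y → S ⊆ Pr Y → 0 ≤ ℓ → (∀ p ∈ S, ‖γ p‖ ≤ w0 p) →
    ∫ t in a..a + ℓ, ‖PP γ S t‖ ^ 2 ≤ C * (Y : ℝ) ^ ε * (ℓ + Y) := by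
  have hη : 0 < ε / 3 := by positivity
  obtain ⟨Cq, hCq, hq⟩ := quad hη
  obtain ⟨Cl, hCl, hl⟩ := log_le_rpow hη
  obtain ⟨Cw, hCw, hw⟩ := sum_w0 hη
  obtain ⟨Cc, hCc, hc⟩ := card_Pr hη
  refine ⟨Cq * Cl ^ 2 + 2 * Cw ^ 2 + 16 * (Cq * Cc * Cl), by positivity,
    fun Y S γ a ℓ hY hS hℓ hγ => ?_⟩
  have hY1 : (1 : ℝ) ≤ Y := by exact_mod_cast hY
  have hu1 : 1 ≤ (Y : ℝ) ^ (ε / 3) := Real.one_le_rpow hY1 hη.le
  have hu3 : (Y : ℝ) ^ ε = ((Y : ℝ) ^ (ε / 3)) ^ 3 := by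
    rw [← Real.rpow_natCast, ← Real.rpow_mul (by positivity)]
    congr 1
    push_cast
    ring
  have hlog := hl Y hY1
  have hinj : Set.InjOn (fun p : ℕ × ℕ => (p.2, p.1)) S := fun p _ q _ h =>
    Prod.swap_injective h
  have hx : ∀ p ∈ S, p.2 ∈ Finset.Icc 1 Y := fun p hp => by
    obtain ⟨h1, h2, h3⟩ := mem_Pr.1 (hS hp)
    exact Finset.mem_Icc.2 ⟨h2, (Nat.le_mul_of_pos_left _ h1).trans h3⟩
  have hy : ∀ p ∈ S, p.1 ∈ Finset.Icc 1 Y := fun p hp => by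
    obtain ⟨h1, h2, h3⟩ := mem_Pr.1 (hS hp)
    exact Finset.mem_Icc.2 ⟨h1, (Nat.le_mul_of_pos_right _ h2).trans h3⟩
  have e0 := ps_gen (ω := fun _ => 1) hS (fun _ _ => zero_le_one)
    (fun p hp => by rw [one_mul]; exact hγ p hp) a hℓ
  simp only [one_mul] at e0
  have e1 := hq Y S Prod.snd Prod.fst
    (fun p q => if p.2 * q.1 = p.1 * q.2 then w0 p * w0 q else 0)
    (fun i j => 1 / (i : ℝ) * (1 / (j : ℝ))) (fun k => if k = 0 then 1 else 0) hinj hx hy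
    (fun _ _ => by positivity) (fun _ => by positivity) (fun p _ q _ => by
      split_ifs with h1 h2
      · rw [ps2_w0 h1, mul_one]
      · exact absurd (by rw [sub_eq_zero, mul_comm (q.2 : ℤ)]; exact_mod_cast h1) h2
      · positivity
      · positivity)
  have e1' : ∑ i ∈ Finset.Icc 1 Y, ∑ j ∈ Finset.Icc 1 Y, 1 / (i : ℝ) * (1 / (j : ℝ)) ≤
      (Cl * (Y : ℝ) ^ (ε / 3)) ^ 2 := by
    rw [← Finset.sum_mul_sum, ← sq]
    exact pow_le_pow_left₀ (by positivity) ((harm_le Y).trans hlog) 2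
  have e1'' : ∑ k ∈ Finset.Icc (-(Y : ℤ) ^ 2) ((Y : ℤ) ^ 2), (if k = 0 then (1 : ℝ) else 0) ≤ 1 := by
    rw [Finset.sum_ite_eq']
    split_ifs <;> norm_num
  have e2 : ∑ p ∈ S, w0 p ≤ Cw * √Y * (Y : ℝ) ^ (ε / 3) :=
    (Finset.sum_le_sum_of_subset_of_nonneg hS fun p _ _ => w0_nonneg p).trans (hw Y hY)
  have e3 := hq Y S Prod.snd Prod.fst
    (fun p q => (if p.2 * q.1 ≤ Y then (1 : ℝ) else 0) *
      (1 / |(((p.2 : ℤ) * q.1 - (q.2 : ℤ) * p.1 : ℤ) : ℝ)|))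
    (fun i j => if i * j ≤ Y then (1 : ℝ) else 0) (fun k => 1 / |(k : ℝ)|) hinj hx hy
    (fun _ _ => by positivity) (fun _ => by positivity) (fun p _ q _ => le_rfl)
  have e3' : ∑ k ∈ Finset.Icc (-(Y : ℤ) ^ 2) ((Y : ℤ) ^ 2), 1 / |(k : ℝ)| ≤
      4 * (Cl * (Y : ℝ) ^ (ε / 3)) := by
    have h1 := sum_inv_abs (Y ^ 2)
    rw [Nat.cast_pow, Nat.cast_pow, Real.log_pow] at h1
    push_cast at h1
    linarith
  have e4 : ∑ p ∈ S, ∑ q ∈ S, 1 / |(((p.2 : ℤ) * q.1 - (p.1 : ℤ) * q.2 : ℤ) : ℝ)| ≤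
      2 * ∑ p ∈ S, ∑ q ∈ S, (if p.2 * q.1 ≤ Y then (1 : ℝ) else 0) *
        (1 / |(((p.2 : ℤ) * q.1 - (q.2 : ℤ) * p.1 : ℤ) : ℝ)|) := by
    rw [two_mul]
    nth_rewrite 3 [Finset.sum_comm]
    rw [← Finset.sum_add_distrib]
    refine Finset.sum_le_sum fun p hp => ?_
    rw [← Finset.sum_add_distrib]
    refine Finset.sum_le_sum fun q hq => ?_
    have h1 : |(((q.2 : ℤ) * p.1 - (p.2 : ℤ) * q.1 : ℤ) : ℝ)| =
        |(((p.2 : ℤ) * q.1 - (p.1 : ℤ) * q.2 : ℤ) : ℝ)| := by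
      rw [← abs_neg]
      congr 1
      push_cast
      ring
    rw [h1, mul_comm (q.2 : ℤ), ← add_mul]
    refine le_mul_of_one_le_left (by positivity) ?_
    split_ifs with h2 h3 h3
    · norm_num
    · norm_num
    · norm_num
    · have h4 := Nat.mul_le_mul (mem_Pr.1 (hS hp)).2.2 (mem_Pr.1 (hS hq)).2.2
      have h5 := Nat.mul_lt_mul'' (not_le.1 h2) (not_le.1 h3)
      have h6 : p.1 * p.2 * (q.1 * q.2) = p.2 * q.1 * (q.2 * p.1) := by ring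
      omega
  have f1 := e1.trans (mul_le_mul (mul_le_mul_of_nonneg_left e1' (by positivity)) e1''
    (by positivity) (by positivity))
  have f2 := pow_le_pow_left₀ (Finset.sum_nonneg fun p _ => w0_nonneg p) e2 2
  rw [mul_pow, mul_pow, Real.sq_sqrt (by positivity)] at f2
  have f3 := e3.trans (mul_le_mul (mul_le_mul_of_nonneg_left (hc Y hY) (by positivity)) e3'
    (by positivity) (by positivity))
  rw [hu3]
  generalize (Y : ℝ) ^ (ε / 3) = u at *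
  have g1 := mul_le_mul_of_nonneg_left f1 hℓ
  have g2 : Cw ^ 2 * Y * u ^ 2 ≤ Cw ^ 2 * Y * u ^ 3 :=
    mul_le_mul_of_nonneg_left (pow_le_pow_right₀ hu1 (by norm_num)) (by positivity)
  have g3 : 0 ≤ Cq * Cl ^ 2 * u ^ 3 * Y := by positivity
  have g4 : 0 ≤ (2 * Cw ^ 2 + 16 * (Cq * Cc * Cl)) * u ^ 3 * ℓ := by positivity
  refine e0.trans ?_
  nlinarith [g1, g2, g3, g4, f2, f3, e4]

theorem ps2_row (Y a : ℕ) : ∑ b ∈ Finset.Icc 1 Y, (if a < b then 1 / ((b : ℝ) - a) else 0) ≤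
    1 + Real.log Y := by
  rw [← Finset.sum_filter]
  refine le_trans ?_ (harm_le Y)
  have h1 : ∑ b ∈ (Finset.Icc 1 Y).filter (fun b => a < b), 1 / ((b : ℝ) - a) =
      ∑ n ∈ ((Finset.Icc 1 Y).filter fun b => a < b).image (fun b => b - a), 1 / (n : ℝ) := by
    rw [Finset.sum_image]
    · refine Finset.sum_congr rfl fun b hb => ?_
      rw [Nat.cast_sub (Finset.mem_filter.1 hb).2.le]
    · intro b hb c hc h
      have h2 := (Finset.mem_filter.1 hb).2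
      have h3 := (Finset.mem_filter.1 hc).2
      simp only at h
      omega
  rw [h1]
  refine Finset.sum_le_sum_of_subset_of_nonneg (fun n hn => ?_) fun _ _ _ => by positivity
  obtain ⟨b, hb, rfl⟩ := Finset.mem_image.1 hn
  simp only [Finset.mem_filter, Finset.mem_Icc] at hb ⊢
  omega

theorem ps2_half (Y : ℕ) : ∑ p ∈ Pr Y, (if p.1 < p.2 then 1 / ((p.2 : ℝ) - p.1) else 0) ≤
    √Y * (1 + Real.log Y) := by
  have h1 : ∑ p ∈ Pr Y, (if p.1 < p.2 then 1 / ((p.2 : ℝ) - p.1) else 0) ≤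
      ∑ p ∈ Finset.Icc 1 Y.sqrt ×ˢ Finset.Icc 1 Y,
        (if p.1 < p.2 then 1 / ((p.2 : ℝ) - p.1) else 0) := by
    rw [← Finset.sum_filter, ← Finset.sum_filter]
    refine Finset.sum_le_sum_of_subset_of_nonneg (fun p hp => ?_) fun p hp _ => ?_
    · obtain ⟨hp1, hp2⟩ := Finset.mem_filter.1 hp
      obtain ⟨h1, h2, h3⟩ := mem_Pr.1 hp1
      refine Finset.mem_filter.2 ⟨Finset.mem_product.2 ⟨Finset.mem_Icc.2 ⟨h1, Nat.le_sqrt.2
        ((Nat.mul_le_mul_left _ hp2.le).trans h3)⟩, Finset.mem_Icc.2 ⟨h2,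
        (Nat.le_mul_of_pos_left _ h1).trans h3⟩⟩, hp2⟩
    · have : (p.1 : ℝ) < p.2 := by exact_mod_cast (Finset.mem_filter.1 hp).2
      exact one_div_nonneg.2 (by linarith)
  refine h1.trans ?_
  rw [Finset.sum_product]
  refine (Finset.sum_le_card_nsmul _ _ _ fun a _ => ps2_row Y a).trans ?_
  rw [Nat.card_Icc, Nat.add_sub_cancel, nsmul_eq_mul]
  exact mul_le_mul_of_nonneg_right Real.nat_sqrt_le_real_sqrt
    (add_nonneg zero_le_one (Real.log_natCast_nonneg Y))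

/- `inv_log_le`.  If `min a b ≤ |a - b|` the term is at most `2 * w0 p` (`sum_w0`).  Otherwise
`w0 p * min a b ≤ 1`, the minimum `m` is at most `√Y`, `0 < |a - b| < m`, and the sum of `1 / |a - b|` over such
pairs is at most `2 * √Y * (1 + log Y)`. -/
theorem ps_sup {ε : ℝ} (hε : 0 < ε) : ∃ C : ℝ, 0 < C ∧ ∀ Y : ℕ, 1 ≤ Y →
    ∑ p ∈ Pr Y, w0 p / |fr p| ≤ C * √Y * (Y : ℝ) ^ ε := by
  obtain ⟨Cl, hCl, hl⟩ := log_le_rpow hε
  obtain ⟨Cw, hCw, hw⟩ := sum_w0 hε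
  refine ⟨Cw + 2 * Cl, by positivity, fun Y hY => ?_⟩
  have hY1 : (1 : ℝ) ≤ Y := by exact_mod_cast hY
  have e1 : ∀ p ∈ Pr Y, w0 p / |fr p| ≤ w0 p + ((if p.1 < p.2 then 1 / ((p.2 : ℝ) - p.1) else 0) +
      if p.2 < p.1 then 1 / ((p.1 : ℝ) - p.2) else 0) := by
    intro p hp
    obtain ⟨h1, h2, -⟩ := mem_Pr.1 hp
    have h1' : (0 : ℝ) < p.1 := by exact_mod_cast h1
    have h2' : (0 : ℝ) < p.2 := by exact_mod_cast h2
    have hw0 := w0_nonneg p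
    by_cases h : p.1 = p.2
    · simp [fr, h, hw0]
    have h3 := mul_le_mul_of_nonneg_left
      (inv_log_le h2' h1' (by exact_mod_cast Ne.symm h)) hw0
    have h4 : w0 p * min (p.2 : ℝ) p.1 ≤ 1 := by
      rw [ps2_w0_eq, one_div_mul_eq_div, div_le_one (by positivity)]
      refine Real.le_sqrt_of_sq_le ?_
      rw [sq]
      exact mul_le_mul (min_le_right _ _) (min_le_left _ _) (by positivity) h1'.le
    have h5 : w0 p * min (p.2 : ℝ) p.1 / |(p.2 : ℝ) - p.1| ≤ 1 / |(p.2 : ℝ) - p.1| :=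
      div_le_div_of_nonneg_right h4 (abs_nonneg _)
    rw [mul_one_div, mul_add, mul_one, ← mul_div_assoc] at h3
    refine h3.trans (add_le_add le_rfl (h5.trans (le_of_eq ?_)))
    rcases lt_or_gt_of_ne h with h6 | h6
    · rw [if_pos h6, if_neg h6.not_gt, add_zero, abs_of_pos (sub_pos.2 (by exact_mod_cast h6))]
    · rw [if_neg h6.not_gt, if_pos h6, zero_add, abs_sub_comm,
        abs_of_pos (sub_pos.2 (by exact_mod_cast h6))]
  have e2 : ∑ p ∈ Pr Y, (if p.2 < p.1 then 1 / ((p.1 : ℝ) - p.2) else 0) =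
      ∑ p ∈ Pr Y, (if p.1 < p.2 then 1 / ((p.2 : ℝ) - p.1) else 0) := by
    refine Finset.sum_equiv (Equiv.prodComm ℕ ℕ) (fun p => ?_) fun p _ => rfl
    simp only [mem_Pr, Equiv.prodComm_apply, Prod.fst_swap, Prod.snd_swap, mul_comm p.2]
    tauto
  have e3 := (ps2_half Y).trans (mul_le_mul_of_nonneg_left (hl Y hY1) (Real.sqrt_nonneg _))
  refine (Finset.sum_le_sum e1).trans ?_
  rw [Finset.sum_add_distrib, Finset.sum_add_distrib, e2]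
  linarith [hw Y hY]

/- `conj (osc p x) = osc p.swap x`. -/
theorem pp_swap (γ : ℕ × ℕ → ℂ) (S : Finset (ℕ × ℕ)) (t : ℝ) : ‖PP γ S t‖ =
    ‖PP (fun p => (starRingEnd ℂ) (γ p.swap)) (S.image Prod.swap) t‖ := by
  rw [← Complex.norm_conj, PP, PP, Finset.sum_image Prod.swap_injective.injOn, map_sum]
  congr 1
  refine Finset.sum_congr rfl fun p _ => ?_
  rw [map_mul, Prod.swap_swap, osc, osc, ← exp_conj, map_mul, conj_I, conj_ofReal]
  simp only [fr, Prod.fst_swap, Prod.snd_swap]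
  congr 2
  push_cast
  ring

theorem continuous_PP (γ : ℕ × ℕ → ℂ) (S : Finset (ℕ × ℕ)) : Continuous (PP γ S) := by
  unfold PP osc
  fun_prop

theorem hasDerivAt_PP (γ : ℕ × ℕ → ℂ) {S : Finset (ℕ × ℕ)} (h : ∀ p ∈ S, fr p ≠ 0) (t : ℝ) :
    HasDerivAt (PP (fun p => γ p / (I * fr p)) S) (PP γ S t) t := by
  unfold PP
  refine HasDerivAt.fun_sum fun p hp => ?_
  have h1 : HasDerivAt (fun x : ℝ => osc p x) (osc p t * (I * fr p)) t := by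
    have h2 := ((((hasDerivAt_id t).const_mul (fr p)).ofReal_comp).const_mul I).cexp
    simpa only [osc, id, mul_one] using h2
  have h3 : I * (fr p : ℂ) ≠ 0 := mul_ne_zero I_ne_zero (ofReal_ne_zero.2 (h p hp))
  refine (h1.const_mul (γ p / (I * fr p))).congr_deriv ?_
  rw [mul_comm (osc p t), ← mul_assoc, div_mul_cancel₀ _ h3]

theorem fr_ne {Y : ℕ} {p : ℕ × ℕ} (hp : p ∈ Pr Y) (h : p.1 ≠ p.2) : fr p ≠ 0 := by
  obtain ⟨h1, h2, -⟩ := mem_Pr.1 hp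
  intro h0
  have h3 := Real.log_injOn_pos (mem_Ioi.2 (Nat.cast_pos (α := ℝ).2 h2))
    (mem_Ioi.2 (Nat.cast_pos (α := ℝ).2 h1)) (sub_eq_zero.1 h0)
  exact h (by exact_mod_cast h3.symm)

/- `inv_log_le`: `1 + b / (a - b) ≤ 2 * (b / (a - b))`. -/
theorem inv_fr_mid {p : ℕ × ℕ} (h0 : 1 ≤ p.2) (h1 : p.2 < p.1) (h2 : p.1 < 2 * p.2) :
    1 / |fr p| ≤ 2 * (p.2 / ((p.1 : ℝ) - p.2)) := by
  have h0' : (0 : ℝ) < p.2 := by exact_mod_cast h0
  have h1' : (p.2 : ℝ) < p.1 := by exact_mod_cast h1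
  have h2' : (p.1 : ℝ) < 2 * p.2 := by exact_mod_cast h2
  have h3 := inv_log_le h0' (h0'.trans h1') h1'.ne
  rw [min_eq_left h1'.le, abs_sub_comm (p.2 : ℝ), abs_of_pos (sub_pos.2 h1')] at h3
  have h4 : 1 ≤ p.2 / ((p.1 : ℝ) - p.2) := (one_le_div (sub_pos.2 h1')).2 (by linarith)
  rw [fr]
  linarith

theorem inv_fr_far {p : ℕ × ℕ} (h1 : 1 ≤ p.1) (h2 : 1 ≤ p.2) (h : 2 * p.2 ≤ p.1 ∨ 2 * p.1 ≤ p.2) :
    1 / |fr p| ≤ 2 := by
  have h1' : (0 : ℝ) < p.1 := by exact_mod_cast h1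
  have h2' : (0 : ℝ) < p.2 := by exact_mod_cast h2
  have h3 : (p.2 : ℝ) ≠ p.1 := by
    have : p.2 ≠ p.1 := by omega
    exact_mod_cast this
  have h4 : min (p.2 : ℝ) p.1 / |(p.2 : ℝ) - p.1| ≤ 1 := by
    refine div_le_one_of_le₀ ?_ (abs_nonneg _)
    rcases h with h | h
    · have h' : 2 * (p.2 : ℝ) ≤ p.1 := by exact_mod_cast h
      linarith [min_le_left (p.2 : ℝ) p.1, neg_le_abs ((p.2 : ℝ) - p.1)]
    · have h' : 2 * (p.1 : ℝ) ≤ p.2 := by exact_mod_cast h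
      linarith [min_le_right (p.2 : ℝ) p.1, le_abs_self ((p.2 : ℝ) - p.1)]
  rw [fr]
  linarith [inv_log_le h2' h1' h3]

end Pool.Agent.Lib.MP_2a1a00_nt
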