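import Pool.Agent.Lib.MP_2a1a00_nt.PS1
import Pool.Agent.Lib.MP_2a1a00_nt.PS2

/-! The decomposition of the trigonometric polynomial. -/

namespace Pool.Agent.Lib.MP_2a1a00_nt

open Complex MeasureTheory Set

theorem ps3_mem {Y : ℕ} {p : ℕ × ℕ} : p ∈ Pr Y ↔
    ((1 ≤ p.1 ∧ p.1 ≤ Y) ∧ 1 ≤ p.2 ∧ p.2 ≤ Y) ∧ p.1 * p.2 ≤ Y := by
  simp only [Pr, Finset.mem_filter, Finset.mem_product, Finset.mem_Icc]

theorem ps3_w0 (p : ℕ × ℕ) : w0 p.swap = w0 p := by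
  simp only [w0, Prod.fst_swap, Prod.snd_swap, mul_comm]

theorem ps3_w0_nonneg (p : ℕ × ℕ) : 0 ≤ w0 p := Real.rpow_nonneg (Nat.cast_nonneg _) _

theorem ps3_fr (p : ℕ × ℕ) : |fr p.swap| = |fr p| := abs_sub_comm _ _

theorem ps3_norm (z : ℂ) (p : ℕ × ℕ) : ‖z / (I * fr p)‖ = 1 / |fr p| * ‖z‖ := by
  rw [norm_div, norm_mul, norm_I, one_mul, norm_real, Real.norm_eq_abs]
  ring

theorem ps3_sup {Y : ℕ} {c : ℕ × ℕ → ℂ} (hc : ∀ p ∈ Pr Y, ‖c p‖ ≤ w0 p) {S : Finset (ℕ × ℕ)}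
    (hS : S ⊆ Pr Y) (t : ℝ) :
    ‖PP (fun p => c p / (I * fr p)) S t‖ ≤ ∑ p ∈ Pr Y, w0 p / |fr p| := by
  refine ((norm_sum_le _ _).trans (Finset.sum_le_sum fun p hp => ?_)).trans
    (Finset.sum_le_sum_of_subset_of_nonneg hS fun p _ _ =>
      div_nonneg (ps3_w0_nonneg p) (abs_nonneg _))
  rw [norm_mul, osc, norm_exp_I_mul_ofReal, mul_one, ps3_norm, one_div_mul_eq_div]
  exact div_le_div_of_nonneg_right (hc p (hS hp)) (abs_nonneg _)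

theorem ps3_add {u v : ℝ → ℂ} (hu : Continuous u) (hv : Continuous v) {a ℓ A B : ℝ} (hℓ : 0 ≤ ℓ)
    (h1 : ∫ t in a..a + ℓ, ‖u t‖ ^ 2 ≤ A) (h2 : ∫ t in a..a + ℓ, ‖v t‖ ^ 2 ≤ B) :
    ∫ t in a..a + ℓ, ‖u t + v t‖ ^ 2 ≤ 2 * A + 2 * B := by
  have i1 : IntervalIntegrable (fun t => 2 * ‖u t‖ ^ 2) volume a (a + ℓ) :=
    Continuous.intervalIntegrable (by fun_prop) _ _
  have i2 : IntervalIntegrable (fun t => 2 * ‖v t‖ ^ 2) volume a (a + ℓ) :=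
    Continuous.intervalIntegrable (by fun_prop) _ _
  have h3 : ∫ t in a..a + ℓ, ‖u t + v t‖ ^ 2 ≤
      ∫ t in a..a + ℓ, (2 * ‖u t‖ ^ 2 + 2 * ‖v t‖ ^ 2) := by
    refine intervalIntegral.integral_mono_on (by linarith)
      (Continuous.intervalIntegrable (by fun_prop) _ _) (i1.add i2) fun t _ => ?_
    have h4 := pow_le_pow_left₀ (norm_nonneg _) (norm_add_le (u t) (v t)) 2
    nlinarith [sq_nonneg (‖u t‖ - ‖v t‖)]
  rw [intervalIntegral.integral_add i1 i2, intervalIntegral.integral_const_mul,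
    intervalIntegral.integral_const_mul] at h3
  linarith

section

variable {Y : ℕ} {Q : ℕ × ℕ → Prop} {w : ℕ × ℕ → ℝ} {a ℓ B : ℝ}
  (H : ∀ (S : Finset (ℕ × ℕ)) (γ : ℕ × ℕ → ℂ), S ⊆ Pr Y → (∀ p ∈ S, Q p) →
    (∀ p ∈ S, ‖γ p‖ ≤ w p) → ∫ t in a..a + ℓ, ‖PP γ S t‖ ^ 2 ≤ B)
include H

theorem ps3_swap (S : Finset (ℕ × ℕ)) (γ : ℕ × ℕ → ℂ) (hS : S ⊆ Pr Y) (hQ : ∀ p ∈ S, Q p.swap)
    (hγ : ∀ p ∈ S, ‖γ p‖ ≤ w p.swap) : ∫ t in a..a + ℓ, ‖PP γ S t‖ ^ 2 ≤ B := by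
  have e : (fun t => ‖PP γ S t‖ ^ 2) = fun t =>
      ‖PP (fun p => (starRingEnd ℂ) (γ p.swap)) (S.image Prod.swap) t‖ ^ 2 :=
    funext fun t => by rw [pp_swap]
  rw [e]
  refine H _ _ (fun q hq => ?_) (fun q hq => ?_) fun q hq => ?_ <;>
    obtain ⟨p, hp, rfl⟩ := Finset.mem_image.1 hq
  · obtain ⟨⟨h1, h2⟩, h3⟩ := ps3_mem.1 (hS hp)
    exact ps3_mem.2 ⟨⟨h2, h1⟩, (mul_comm _ _).trans_le h3⟩
  · exact hQ p hp
  · rw [Complex.norm_conj, Prod.swap_swap]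
    exact hγ p hp

theorem ps3_two (S : Finset (ℕ × ℕ)) (γ : ℕ × ℕ → ℂ) (hS : S ⊆ Pr Y) (hQ : ∀ p ∈ S, Q p)
    (hγ : ∀ p ∈ S, ‖γ p‖ ≤ 2 * w p) : ∫ t in a..a + ℓ, ‖PP γ S t‖ ^ 2 ≤ 4 * B := by
  have e : (fun t => ‖PP γ S t‖ ^ 2) = fun t => 4 * ‖PP (fun p => γ p / 2) S t‖ ^ 2 := by
    funext t
    have e1 : PP γ S t = 2 * PP (fun p => γ p / 2) S t := by
      unfold PP
      rw [Finset.mul_sum]
      exact Finset.sum_congr rfl fun p _ => by ring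
    rw [e1, norm_mul, Complex.norm_ofNat]
    ring
  rw [e, intervalIntegral.integral_const_mul]
  refine mul_le_mul_of_nonneg_left (H _ _ hS hQ fun p hp => ?_) (by norm_num)
  rw [norm_div, Complex.norm_ofNat]
  linarith [hγ p hp]

end

/-- Close to the diagonal, below it. -/
def ps3_cl (p : ℕ × ℕ) : Prop := p.2 < p.1 ∧ p.1 < 2 * p.2

/-- Near the diagonal. -/
def ps3_nr (lam : ℝ) (p : ℕ × ℕ) : Prop := (p.1 : ℝ) - p.2 ≤ lam * p.2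

open Classical in
theorem ps3_dec (Y : ℕ) (c : ℕ × ℕ → ℂ) (lam t : ℝ) : PP c (Pr Y) t - dg c Y =
    PP c ((Pr Y).filter fun p => ps3_cl p ∧ ps3_nr lam p) t +
      PP c ((Pr Y).filter fun p => ps3_cl p.swap ∧ ps3_nr lam p.swap) t +
    (PP c ((Pr Y).filter fun p => ps3_cl p ∧ ¬ps3_nr lam p) t +
      PP c ((Pr Y).filter fun p => ps3_cl p.swap ∧ ¬ps3_nr lam p.swap) t +
      PP c ((Pr Y).filter fun p => p.1 ≠ p.2 ∧ ¬ps3_cl p ∧ ¬ps3_cl p.swap) t) := by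
  simp only [PP, dg, Finset.sum_filter, ← Finset.sum_add_distrib, ← Finset.sum_sub_distrib]
  refine Finset.sum_congr rfl fun p _ => ?_
  by_cases h0 : p.1 = p.2
  · have h1 : ¬ps3_cl p := fun h => h.1.ne' h0
    have h2 : ¬ps3_cl p.swap := fun h => h.1.ne h0
    simp [h0, h1, h2, osc, fr]
  · by_cases h1 : ps3_cl p
    · have h2 : ¬ps3_cl p.swap := fun h => h.1.not_gt h1.1
      by_cases h3 : ps3_nr lam p <;> simp [h0, h1, h2, h3]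
    · by_cases h2 : ps3_cl p.swap
      · by_cases h3 : ps3_nr lam p.swap <;> simp [h0, h1, h2, h3]
      · simp [h0, h1, h2]

/- Call `p = (a, b)` close if `a ≠ b`, `a < 2 b`, `b < 2 a`, and near if moreover `|a - b| ≤ lam * min a b`.
`N` is the sum over the near pairs, `Φ = PP (fun p => c p / (I * fr p)) S'` with `S'` the set of the other
pairs off the diagonal (`hasDerivAt_PP`, `fr_ne`; `osc p = 1` on the diagonal).  Split the near pairs into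
`b < a` and `a < b` (`ps_near`, `pp_swap`) and `S'` into the two close classes (`ps_mid`, `inv_fr_mid`,
`pp_swap`) and the rest (`ps_far`, `inv_fr_far`); `‖u + v‖ ^ 2 ≤ 2 * ‖u‖ ^ 2 + 2 * ‖v‖ ^ 2`; rescale the
coefficients by `1 / 2`.  The supremum is `ps_sup`. -/
theorem ps_split {ε : ℝ} (hε : 0 < ε) : ∃ C : ℝ, 0 < C ∧ ∀ (Y : ℕ) (c : ℕ × ℕ → ℂ) (lam : ℝ), 1 ≤ Y →
    0 < lam → lam ≤ 1 → (∀ p ∈ Pr Y, ‖c p‖ ≤ w0 p) → ∃ N Φ φ : ℝ → ℂ, Continuous N ∧ Continuous φ ∧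
      (∀ t, HasDerivAt Φ (φ t) t) ∧ (∀ t, PP c (Pr Y) t - dg c Y = N t + φ t) ∧
      (∀ t, ‖Φ t‖ ≤ C * (Y : ℝ) ^ ε * √Y) ∧ ∀ a ℓ : ℝ, 0 ≤ ℓ →
        ∫ t in a..a + ℓ, ‖N t‖ ^ 2 ≤ C * (Y : ℝ) ^ ε * (ℓ + Y) * lam ∧
        ∫ t in a..a + ℓ, ‖Φ t‖ ^ 2 ≤ C * (Y : ℝ) ^ ε * (ℓ + Y) / lam := by
  classical
  obtain ⟨C₁, h₁, H₁⟩ := ps_near hε
  obtain ⟨C₂, h₂, H₂⟩ := ps_mid hε
  obtain ⟨C₃, h₃, H₃⟩ := ps_far hε
  obtain ⟨C₄, h₄, H₄⟩ := ps_sup hε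
  refine ⟨4 * C₁ + 32 * C₂ + 8 * C₃ + 3 * C₄, by positivity, fun Y c lam hY hl hl1 hc => ?_⟩
  have hf : ∀ (Q : ℕ × ℕ → Prop) [DecidablePred Q], (∀ p, Q p → p.1 ≠ p.2) → ∀ t,
      HasDerivAt (PP (fun p => c p / (I * fr p)) ((Pr Y).filter Q)) (PP c ((Pr Y).filter Q) t) t :=
    fun Q _ hQ t => hasDerivAt_PP c (fun p hp =>
      fr_ne (Finset.mem_filter.1 hp).1 (hQ p (Finset.mem_filter.1 hp).2)) t
  have hE : 0 ≤ (Y : ℝ) ^ ε := by positivity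
  refine ⟨_, _, _, (continuous_PP c _).add (continuous_PP c _),
    ((continuous_PP c _).add (continuous_PP c _)).add (continuous_PP c _),
    fun t => ((hf _ (fun p h => h.1.1.ne') t).add (hf _ (fun p h => h.1.1.ne) t)).add
      (hf _ (fun p h => h.1) t), ps3_dec Y c lam, fun t => ?_, fun a ℓ hℓ => ⟨?_, ?_⟩⟩
  · have h := fun (Q : ℕ × ℕ → Prop) [DecidablePred Q] =>
      (ps3_sup hc (Finset.filter_subset Q _) t).trans (H₄ Y hY)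
    refine (norm_add₃_le.trans (add_le_add (add_le_add (h _) (h _)) (h _))).trans ?_
    have h5 : 0 ≤ (4 * C₁ + 32 * C₂ + 8 * C₃) * ((Y : ℝ) ^ ε * √Y) := by positivity
    linarith
  · have G₁ : ∀ (S : Finset (ℕ × ℕ)) (γ : ℕ × ℕ → ℂ), S ⊆ Pr Y →
        (∀ p ∈ S, ps3_cl p ∧ ps3_nr lam p) → (∀ p ∈ S, ‖γ p‖ ≤ w0 p) →
        ∫ t in a..a + ℓ, ‖PP γ S t‖ ^ 2 ≤ C₁ * (Y : ℝ) ^ ε * (ℓ + Y) * lam :=
      fun S γ hS hQ hγ => H₁ Y S γ lam a ℓ hY hS hl hl1 hℓ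
        (fun p hp => ⟨(hQ p hp).1.1, (hQ p hp).1.2, (hQ p hp).2⟩) hγ
    refine (ps3_add (continuous_PP c _) (continuous_PP c _) hℓ
      (G₁ _ c (Finset.filter_subset _ _) (fun p hp => (Finset.mem_filter.1 hp).2)
        fun p hp => hc p (Finset.mem_filter.1 hp).1)
      (ps3_swap G₁ _ c (Finset.filter_subset _ _) (fun p hp => (Finset.mem_filter.1 hp).2)
        fun p hp => (hc p (Finset.mem_filter.1 hp).1).trans_eq (ps3_w0 p).symm)).trans ?_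
    have h5 : 0 ≤ (32 * C₂ + 8 * C₃ + 3 * C₄) * ((Y : ℝ) ^ ε * (ℓ + Y) * lam) := by positivity
    linarith
  · have G₂ : ∀ (S : Finset (ℕ × ℕ)) (γ : ℕ × ℕ → ℂ), S ⊆ Pr Y →
        (∀ p ∈ S, ps3_cl p ∧ ¬ps3_nr lam p) →
        (∀ p ∈ S, ‖γ p‖ ≤ p.2 / ((p.1 : ℝ) - p.2) * w0 p) →
        ∫ t in a..a + ℓ, ‖PP γ S t‖ ^ 2 ≤ C₂ * (Y : ℝ) ^ ε * (ℓ + Y) / lam :=
      fun S γ hS hQ hγ => H₂ Y S γ lam a ℓ hY hS hl hl1 hℓ
        (fun p hp => ⟨(hQ p hp).1.1, (hQ p hp).1.2, (not_le.1 (hQ p hp).2).le⟩) hγ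
    have G₃ : ∀ (S : Finset (ℕ × ℕ)) (γ : ℕ × ℕ → ℂ), S ⊆ Pr Y → (∀ p ∈ S, True) →
        (∀ p ∈ S, ‖γ p‖ ≤ w0 p) →
        ∫ t in a..a + ℓ, ‖PP γ S t‖ ^ 2 ≤ C₃ * (Y : ℝ) ^ ε * (ℓ + Y) / lam :=
      fun S γ hS _ hγ => (H₃ Y S γ a ℓ hY hS hℓ hγ).trans
        (le_div_self (by positivity) hl hl1)
    have hb : ∀ p ∈ Pr Y, ∀ r : ℝ, 1 / |fr p| ≤ r → ‖c p / (I * fr p)‖ ≤ r * w0 p :=
      fun p hp r hr => by
        rw [ps3_norm]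
        exact mul_le_mul hr (hc p hp) (norm_nonneg _) ((by positivity : 0 ≤ 1 / |fr p|).trans hr)
    refine (ps3_add ((continuous_PP _ _).add (continuous_PP _ _)) (continuous_PP _ _) hℓ
      (ps3_add (continuous_PP _ _) (continuous_PP _ _) hℓ
        (ps3_two G₂ _ _ (Finset.filter_subset _ _) (fun p hp => (Finset.mem_filter.1 hp).2)
          fun p hp => ?_)
        (ps3_swap (ps3_two G₂) _ _ (Finset.filter_subset _ _)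
          (fun p hp => (Finset.mem_filter.1 hp).2) fun p hp => ?_))
      (ps3_two G₃ _ _ (Finset.filter_subset _ _) (fun _ _ => trivial) fun p hp => ?_)).trans ?_
    · obtain ⟨h5, h6, -⟩ := Finset.mem_filter.1 hp
      rw [← mul_assoc]
      exact hb p h5 _ (inv_fr_mid (ps3_mem.1 h5).1.2.1 h6.1 h6.2)
    · obtain ⟨h5, h6, -⟩ := Finset.mem_filter.1 hp
      rw [← mul_assoc, ps3_w0]
      exact hb p h5 _ ((ps3_fr p).symm ▸ inv_fr_mid (p := p.swap) (ps3_mem.1 h5).1.1.1 h6.1 h6.2)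
    · obtain ⟨h5, h6, h7, h8⟩ := Finset.mem_filter.1 hp
      refine hb p h5 _ (inv_fr_far (ps3_mem.1 h5).1.1.1 (ps3_mem.1 h5).1.2.1 ?_)
      simp only [ps3_cl, Prod.fst_swap, Prod.snd_swap] at h7 h8
      omega
    · have h5 : 0 ≤ (4 * C₁ + 3 * C₄) * ((Y : ℝ) ^ ε * (ℓ + Y) / lam) := by positivity
      simp only [mul_div_assoc] at h5 ⊢
      linarith

end Pool.Agent.Lib.MP_2a1a00_nt
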