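import Pool.Agent.Lib.MP_2a1a00_nt.Stmt

/-! Internal vocabulary. -/

namespace Pool.Agent.Lib.MP_2a1a00_nt

open Complex MeasureTheory Set

/-- The weight `1 + |t|`. -/
def jb (t : ℝ) : ℝ := 1 + |t|

/-- A dyadic block of frequencies. -/
def Bl (U : ℝ) : Set ℝ := {t | U ≤ jb t ∧ jb t ≤ 2 * U}

/-- The integral `(1 / 2 π i) ∫ g s ds` over the line `re s = σ`. -/
noncomputable def Ln (g : ℂ → ℂ) (σ : ℝ) : ℂ := (1 / (2 * Real.pi) : ℝ) * ∫ v : ℝ, g (σ + v * I)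

/-- A closed vertical strip. -/
def St (a b : ℝ) : Set ℂ := {s | a ≤ s.re ∧ s.re ≤ b}

/-- Holomorphic with exponential decay on a closed strip. -/
structure Dec (g : ℂ → ℂ) (a b : ℝ) : Prop where
  diff : DifferentiableOn ℂ g (St a b)
  le : ∃ C : ℝ, ∀ s ∈ St a b, ‖g s‖ ≤ C * Real.exp (-|s.im|)

/-- The Gaussian localiser. -/
noncomputable def ker (T t : ℝ) (s : ℂ) : ℂ :=
  exp ((s - t * I) * (Real.log T : ℝ) + (s - t * I) ^ 2)

/-- An admissible numerator of a multiplier `m₁ s / s`. -/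
structure Adm (m₁ : ℂ → ℂ) : Prop where
  diff : DifferentiableOn ℂ m₁ {s | -1 < s.re}
  bdd : ∃ K : ℝ, ∀ s : ℂ, -1 / 2 ≤ s.re → ‖m₁ s‖ ≤ K
  zero : ‖m₁ 0‖ ≤ 1

/-- The multiplier has size `μ` on the block `U`. -/
def HM (m₁ : ℂ → ℂ) (U μ : ℝ) : Prop :=
  ∀ t ∈ Bl U, ∀ v σ : ℝ, σ = 1 / 2 ∨ σ = -1 / 2 →
    ‖m₁ (σ + (t + v : ℝ) * I) / (σ + (t + v : ℝ) * I)‖ ≤ μ * (1 + |v|) ^ 3

/-- The numerator of the multiplier of `α * A V + β * A W`. -/
noncomputable def mu1 (α β V W : ℝ) (s : ℂ) : ℂ := α * (V / (s + V)) + β * (W / (s + W))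

/-- Bounded and measurable on `[T, 2 T]`. -/
structure Bm (G : ℝ → ℂ) (T : ℝ) : Prop where
  meas : AEStronglyMeasurable G (volume.restrict (Ioc T (2 * T)))
  bdd : ∃ K : ℝ, ∀ x ∈ Icc T (2 * T), ‖G x‖ ≤ K

/-- The function `G` is continuous on `[T, 2 T]` with a bounded measurable right derivative. -/
structure Nice (G G' : ℝ → ℂ) (T : ℝ) : Prop where
  cont : ContinuousOn G (Icc T (2 * T))
  der : ∀ x ∈ Ioo T (2 * T), HasDerivWithinAt G (G' x) (Ioi x) x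
  bm : Bm G' T

/-- The square of the norm in `L² [T, 2 T]`. -/
noncomputable def Sq (G : ℝ → ℂ) (T : ℝ) : ℝ := ∫ x in T..2 * T, ‖G x‖ ^ 2

/-- The norm in `L² [T, 2 T]`. -/
noncomputable def nm (G : ℝ → ℂ) (T : ℝ) : ℝ := √(Sq G T)

/-- The pairs `(a, b)` of positive integers with `a * b ≤ Y`. -/
def Pr (Y : ℕ) : Finset (ℕ × ℕ) :=
  (Finset.Icc 1 Y ×ˢ Finset.Icc 1 Y).filter fun p => p.1 * p.2 ≤ Y

/-- The frequency `log (b / a)`. -/
noncomputable def fr (p : ℕ × ℕ) : ℝ := Real.log p.2 - Real.log p.1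

/-- The oscillating factor `(b / a) ^ (i x)`. -/
noncomputable def osc (p : ℕ × ℕ) (x : ℝ) : ℂ := exp (I * (fr p * x : ℝ))

/-- The weight `(a * b) ^ (-1 / 2)`. -/
noncomputable def w0 (p : ℕ × ℕ) : ℝ := ((p.1 * p.2 : ℕ) : ℝ) ^ (-(1 / 2) : ℝ)

/-- A trigonometric polynomial with the frequencies `log (b / a)`. -/
noncomputable def PP (c : ℕ × ℕ → ℂ) (S : Finset (ℕ × ℕ)) (x : ℝ) : ℂ := ∑ p ∈ S, c p * osc p x

/-- The diagonal terms. -/
noncomputable def dg (c : ℕ × ℕ → ℂ) (Y : ℕ) : ℂ := ∑ p ∈ (Pr Y).filter fun p => p.1 = p.2, c p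

/-- The kernel of the mean value theorem. -/
noncomputable def KK (ℓ θ θ' : ℝ) : ℝ := if θ = θ' then ℓ else 2 / |θ - θ'|

/-- The Fourier integral. -/
noncomputable def four (Ψ : ℝ → ℂ) (u : ℝ) : ℂ := ∫ t : ℝ, Ψ t * exp (I * (t * u : ℝ))

/-- The function `B`, localised at `T`, is the function `φ` in the variable `log x`. -/
def Loc (B φ : ℝ → ℂ) (T : ℝ) : Prop :=
  ∀ x : ℝ, 0 < x →
    B x * ((√Real.pi * Real.exp (-(Real.log x - Real.log T) ^ 2 / 4) : ℝ) : ℂ) = φ (Real.log x)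

/-- The block energy. -/
noncomputable def bb (d T U : ℝ) : ℝ := min (T * U) (U ^ (2 * d + 1) / T) + U ^ d

/-- The function `g T` grows at most linearly and does not decrease. -/
def Slow (g : ℝ → ℝ → ℝ) : Prop :=
  (∀ T U, 1 ≤ T → 1 ≤ U → 1 ≤ g T U) ∧
    ∀ T U V, 1 ≤ T → 1 ≤ U → 1 ≤ V → g T U * min 1 (V / U) ≤ g T V

namespace Sel

variable (F : Sel)

/-- The smoothed error term, with multiplier `V / (s * (s + V))`. -/
noncomputable def A (V x : ℝ) : ℂ :=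
  ∑ n ∈ Finset.Icc 1 ⌊x⌋₊, F.f n * ((1 - (n / x) ^ V : ℝ) : ℂ) -
    F.res fun s => (x : ℂ) ^ s * (V / (s * (s + V)))

/-- The localised Mellin transform. -/
noncomputable def Psi (m₁ : ℂ → ℂ) (T t : ℝ) : ℂ :=
  Ln (fun s => F.L s * (m₁ s / s * ker T t s)) 2 - F.res fun s => m₁ s / s * ker T t s

/-- The factor in the asymmetric functional equation. -/
noncomputable def chi (s : ℂ) : ℂ :=
  F.om * (F.Q : ℂ) ^ (1 - 2 * s) * ∏ i, (Gamma (F.lam i * (1 - s) + (starRingEnd ℂ) (F.mu i)) *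
    (Gamma (F.lam i * s + F.mu i))⁻¹)

/-- The first terms of the dual series. -/
noncomputable def Hd (N : ℕ) (s : ℂ) : ℂ :=
  ∑ n ∈ Finset.Icc 1 N, (starRingEnd ℂ) (F.f n) * (n : ℂ) ^ (s - 1)

/-- The remaining terms of the dual series. -/
noncomputable def Tl (N : ℕ) (s : ℂ) : ℂ :=
  ∑' n : ℕ, if N < n then (starRingEnd ℂ) (F.f n) * (n : ℂ) ^ (s - 1) else 0

/-- The number `Q ^ 2 * ∏ lam i ^ (2 * lam i)`. -/
noncomputable def q : ℝ := F.Q ^ 2 * ∏ i, F.lam i ^ (2 * F.lam i)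

/-- The weight in the approximate functional equation for `|L| ^ 2`. -/
noncomputable def gt (x : ℝ) (z : ℂ) : ℂ :=
  gam F.Q F.lam F.mu (1 / 2 + x * I + z) *
    (starRingEnd ℂ) (gam F.Q F.lam F.mu (1 / 2 + x * I + (starRingEnd ℂ) z)) /
    ((‖gam F.Q F.lam F.mu (1 / 2 + x * I)‖ ^ 2 : ℝ) : ℂ) *
    ((1 - z ^ 2 / (1 / 2 + x * I) ^ 2) * (1 - z ^ 2 / (1 / 2 - x * I) ^ 2)) ^ F.m

/-- The product of the two Dirichlet series. -/
noncomputable def Z (x : ℝ) (z : ℂ) : ℂ :=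
  LSeries F.f (1 / 2 + x * I + z) *
    (starRingEnd ℂ) (LSeries F.f (1 / 2 + x * I + (starRingEnd ℂ) z))

/-- The square of the modulus on the critical line. -/
noncomputable def L2 (x : ℝ) : ℂ := ((‖F.L (1 / 2 + x * I)‖ ^ 2 : ℝ) : ℂ)

/-- The coefficients in the approximate functional equation for `|L| ^ 2`. -/
noncomputable def co (z : ℂ) (p : ℕ × ℕ) : ℂ :=
  F.f p.1 * (starRingEnd ℂ) (F.f p.2) * ((p.1 * p.2 : ℕ) : ℂ) ^ (-(1 / 2) - z)

/-- The factor `(q * x ^ deg) ^ z * exp (z ^ 2) / z`. -/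
noncomputable def wt (x : ℝ) (z : ℂ) : ℂ :=
  exp (z * (Real.log F.q + F.deg * Real.log x : ℝ) + z ^ 2) / z

/-- The integrals of `|Psi|` over the blocks are controlled by `g`. -/
def L1 (g : ℝ → ℝ → ℝ) : Prop :=
  ∀ ε : ℝ, 0 < ε → ∃ C : ℝ, 0 < C ∧ ∀ (m₁ : ℂ → ℂ) (T U μ : ℝ), Adm m₁ → 1 ≤ T → 1 ≤ U → 0 ≤ μ →
    HM m₁ U μ → ∫⁻ t in Bl U, ‖F.Psi m₁ T t‖ₑ ≤
      ENNReal.ofReal (C * U ^ ε * (μ * U * g T U + U⁻¹))

/-- A mean square bound on the critical line. -/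
def MS (κ : ℝ) : Prop :=
  ∀ ε : ℝ, 0 < ε → ∃ C : ℝ, 0 < C ∧ ∀ X : ℝ, 1 ≤ X →
    ∫ t in -X..X, ‖F.L (1 / 2 + t * I)‖ ^ 2 ≤ C * X ^ (κ + ε)

end Sel

theorem one_le_jb (t : ℝ) : 1 ≤ jb t := le_add_of_nonneg_right (abs_nonneg t)

theorem jb_pos (t : ℝ) : 0 < jb t := one_pos.trans_le (one_le_jb t)

theorem measurableSet_Bl (U : ℝ) : MeasurableSet (Bl U) := by
  have : Continuous jb := by unfold jb; fun_prop
  exact ((isClosed_le continuous_const this).inter (isClosed_le this continuous_const)).measurableSet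

theorem Sel.deg_nonneg (F : Sel) : 0 ≤ F.deg :=
  mul_nonneg zero_le_two (Finset.sum_nonneg fun i _ => (F.lam_pos i).le)

theorem Sel.q_pos (F : Sel) : 0 < F.q :=
  mul_pos (pow_pos F.Q_pos 2) (Finset.prod_pos fun i _ => Real.rpow_pos_of_pos (F.lam_pos i) _)

theorem Sel.ram' (F : Sel) {ε : ℝ} (hε : 0 < ε) :
    ∃ C : ℝ, 1 ≤ C ∧ ∀ n : ℕ, 1 ≤ n → ‖F.f n‖ ≤ C * (n : ℝ) ^ ε := by
  obtain ⟨C, hC⟩ := F.ram ε hε
  exact ⟨max 1 C, le_max_left _ _, fun n hn => (hC n hn).trans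
    (mul_le_mul_of_nonneg_right (le_max_right _ _) (by positivity))⟩

theorem Sel.summable (F : Sel) {s : ℂ} (hs : 1 < s.re) : LSeriesSummable F.f s := by
  obtain ⟨C, -, hC⟩ := F.ram' (ε := (s.re - 1) / 2) (by linarith)
  refine LSeriesSummable_of_le_const_mul_rpow (x := (s.re + 1) / 2) (by linarith) ⟨C, fun n hn => ?_⟩
  rw [show (s.re + 1) / 2 - 1 = (s.re - 1) / 2 by ring]
  exact hC n (Nat.one_le_iff_ne_zero.2 hn)

theorem Sel.L_eq (F : Sel) {s : ℂ} (hs : 1 < s.re) : F.L s = LSeries F.f s := by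
  have : s - 1 ≠ 0 := sub_ne_zero.2 fun h => by simp [h] at hs
  rw [Sel.L, F.ser s hs, mul_div_cancel_left₀ _ (pow_ne_zero _ this)]

theorem Sel.differentiableAt_L (F : Sel) {s : ℂ} (hs : s ≠ 1) : DifferentiableAt ℂ F.L s :=
  (F.ent s).div (by fun_prop) (pow_ne_zero _ (sub_ne_zero.2 hs))

theorem Sel.continuous_L_half (F : Sel) : Continuous fun t : ℝ => F.L (1 / 2 + t * I) :=
  continuous_iff_continuousAt.2 fun t =>
    ContinuousAt.comp (f := fun t : ℝ => (1 / 2 + t * I : ℂ))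
      (F.differentiableAt_L fun h => by have := congrArg re h; norm_num at this).continuousAt
      (by fun_prop)

end Pool.Agent.Lib.MP_2a1a00_nt
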