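import Pool.Agent.Lib.MP_2a1a00_nt.Rep2
import Pool.Agent.Lib.MP_2a1a00_nt.Gav

/-! Block energies. -/

namespace Pool.Agent.Lib.MP_2a1a00_nt

open Complex MeasureTheory Set

theorem en_lin {f : ℝ → ℂ} {A B : ℝ → ℝ} {a b r Z₁ Z₂ U : ℝ} (hU : 1 ≤ U) (hA : Measurable A)
    (hB : Measurable B) (ha : 0 ≤ a) (hb : 0 ≤ b) (hr : 0 ≤ r) (h1 : 0 ≤ Z₁) (h2 : 0 ≤ Z₂)
    (h : ∀ t ∈ Bl U, ‖f t‖ ^ 2 ≤ a * A t ^ 2 + b * B t ^ 2 + r)
    (k1 : ∫⁻ t in Bl U, ENNReal.ofReal (A t ^ 2) ≤ ENNReal.ofReal Z₁)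
    (k2 : ∫⁻ t in Bl U, ENNReal.ofReal (B t ^ 2) ≤ ENNReal.ofReal Z₂) :
    ∫⁻ t in Bl U, ‖f t‖ₑ ^ 2 ≤ ENNReal.ofReal (a * Z₁ + b * Z₂ + r * (4 * U)) := by
  have m1 : Measurable fun t => ENNReal.ofReal (A t ^ 2) := (hA.pow_const 2).ennreal_ofReal
  have m2 : Measurable fun t => ENNReal.ofReal (B t ^ 2) := (hB.pow_const 2).ennreal_ofReal
  refine (setLIntegral_mono' (g := fun t => ENNReal.ofReal a * ENNReal.ofReal (A t ^ 2) +
    ENNReal.ofReal b * ENNReal.ofReal (B t ^ 2) + ENNReal.ofReal r) (measurableSet_Bl U)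
    fun t ht => ?_).trans ?_
  · rw [← ofReal_norm_eq_enorm, ← ENNReal.ofReal_pow (norm_nonneg _), ← ENNReal.ofReal_mul ha,
      ← ENNReal.ofReal_mul hb, ← ENNReal.ofReal_add (by positivity) (by positivity),
      ← ENNReal.ofReal_add (by positivity) hr]
    exact ENNReal.ofReal_le_ofReal (h t ht)
  · rw [lintegral_add_right _ measurable_const, lintegral_add_left (m1.const_mul _),
      lintegral_const_mul _ m1, lintegral_const_mul _ m2, setLIntegral_const,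
      ENNReal.ofReal_add (by positivity) (by positivity),
      ENNReal.ofReal_add (by positivity) (by positivity), ENNReal.ofReal_mul ha,
      ENNReal.ofReal_mul hb, ENNReal.ofReal_mul hr]
    gcongr
    exact volume_Bl hU

theorem en_basic {d ε T U : ℝ} (hd : 0 ≤ d) (hε : 0 < ε) (hT : 1 ≤ T) (hU : 1 ≤ U) :
    ∃ N : ℕ, U ^ d ≤ T * (N + 1) ∧ T * N ≤ U ^ d ∧ (N : ℝ) ≤ U ^ d ∧
      ((N : ℝ) + 1) ^ (ε / (d + 1)) ≤ 2 ^ (ε / (d + 1)) * U ^ ε ∧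
      (N : ℝ) ^ (ε / (d + 1)) ≤ 2 ^ (ε / (d + 1)) * U ^ ε := by
  have hP := Real.one_le_rpow hU hd
  have hT0 : 0 < T := by linarith
  have hδ : 0 < ε / (d + 1) := by positivity
  have h1 := (div_lt_iff₀' hT0).1 (Nat.lt_floor_add_one (U ^ d / T))
  have h2 := (le_div_iff₀' hT0).1 (Nat.floor_le (show 0 ≤ U ^ d / T by positivity))
  have h3 : (⌊U ^ d / T⌋₊ : ℝ) ≤ U ^ d := (le_mul_of_one_le_left (Nat.cast_nonneg _) hT).trans h2
  have h4 : ((⌊U ^ d / T⌋₊ : ℝ) + 1) ^ (ε / (d + 1)) ≤ 2 ^ (ε / (d + 1)) * U ^ ε := by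
    refine (Real.rpow_le_rpow (by positivity) (show _ ≤ 2 * U ^ d by linarith) hδ.le).trans ?_
    rw [Real.mul_rpow zero_le_two (by linarith), ← Real.rpow_mul (by linarith)]
    refine mul_le_mul_of_nonneg_left (Real.rpow_le_rpow_of_exponent_le hU ?_) (by positivity)
    rw [← mul_div_assoc, div_le_iff₀ (by linarith)]
    linarith
  exact ⟨_, h1.le, h2, h3, h4,
    (Real.rpow_le_rpow (Nat.cast_nonneg _) (by linarith) hδ.le).trans h4⟩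

theorem en_bb {d T U : ℝ} {N : ℕ} (hT : 1 ≤ T) (hU : 1 ≤ U) (h1 : U ^ d ≤ T * (N + 1))
    (h2 : T * N ≤ U ^ d) :
    (U ^ d) ^ 2 / T * (4 * U * ((N : ℝ) + 1) ^ (-2 : ℝ) + ((N : ℝ) + 1) ^ (-1 : ℝ)) ≤ 4 * bb d T U ∧
      (N ≠ 0 → T * (4 * U + N) ≤ 4 * bb d T U) := by
  have hT0 : 0 < T := by linarith
  have hU0 : 0 < U := by linarith
  have hP : 0 < U ^ d := Real.rpow_pos_of_pos hU0 d
  have e : U ^ (2 * d + 1) = (U ^ d) ^ 2 * U := by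
    rw [Real.rpow_add_one hU0.ne', mul_comm 2, Real.rpow_mul hU0.le, Real.rpow_two]
  rw [bb, e, Real.rpow_neg (by positivity), Real.rpow_two, Real.rpow_neg_one]
  generalize U ^ d = P at *
  have hM : (1 : ℝ) ≤ N + 1 := le_add_of_nonneg_left (Nat.cast_nonneg _)
  constructor
  · generalize (N : ℝ) + 1 = M at *
    have hM0 : 0 < M := by linarith
    have a1 : P ^ 2 / T * (U * (M ^ 2)⁻¹) ≤ min (T * U) (P ^ 2 * U / T) := by
      refine le_min ?_ ?_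
      · rw [← div_eq_mul_inv, div_mul_div_comm, div_le_iff₀ (by positivity)]
        have := mul_le_mul_of_nonneg_right (pow_le_pow_left₀ hP.le h1 2) hU0.le
        linarith
      · rw [← mul_assoc, div_mul_eq_mul_div]
        exact mul_le_of_le_one_right (by positivity) (inv_le_one_of_one_le₀ (one_le_pow₀ hM))
    have a2 : P ^ 2 / T * M⁻¹ ≤ P := by
      rw [← div_eq_mul_inv, div_div, div_le_iff₀ (by positivity), sq]
      exact mul_le_mul_of_nonneg_left h1 hP.le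
    linarith
  · intro hN
    have a0 : (1 : ℝ) ≤ N := by exact_mod_cast Nat.one_le_iff_ne_zero.2 hN
    have a1 : T ≤ P := (le_mul_of_one_le_right hT0.le a0).trans h2
    have a2 : T * U ≤ P ^ 2 * U / T := by
      rw [le_div_iff₀ hT0]
      have := mul_le_mul_of_nonneg_right (pow_le_pow_left₀ hT0.le a1 2) hU0.le
      linarith
    rw [min_eq_left a2]
    linarith

namespace Sel

variable (F : Sel)

theorem en_rem : ∃ c : ℝ, 0 < c ∧ ∀ (U t : ℝ) (N : ℕ), 1 ≤ U → t ∈ Bl U → (N : ℝ) ≤ U ^ F.deg →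
    (1 + ‖F.Hd N 0‖) * Real.exp (-t ^ 2) ≤ c * U⁻¹ ^ 2 := by
  obtain ⟨c₀, h₀, H₀⟩ := F.Hd_zero_le one_pos
  obtain ⟨c₁, h₁, H₁⟩ := exp_Bl (F.deg + 2) (by linarith [F.deg_nonneg])
  refine ⟨(1 + c₀) * c₁, by positivity, fun U t N hU ht hN => ?_⟩
  have hU0 : 0 < U := by linarith
  have hP := Real.one_le_rpow hU F.deg_nonneg
  have a1 : 1 + ‖F.Hd N 0‖ ≤ (1 + c₀) * U ^ F.deg := by
    have b1 := H₀ N
    rw [Real.rpow_one] at b1
    have b2 := mul_le_mul_of_nonneg_left hN h₀.le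
    linarith
  refine (mul_le_mul a1 (H₁ U t hU ht) (Real.exp_pos _).le (by positivity)).trans (le_of_eq ?_)
  rw [mul_mul_mul_comm, ← Real.rpow_add hU0, show F.deg + -(F.deg + 2) = -2 by ring,
    Real.rpow_neg hU0.le, Real.rpow_two, inv_pow]

theorem en_cont (N : ℕ) : Continuous fun τ : ℝ => ‖F.Hd N ((1 / 2 : ℝ) + τ * I)‖ :=
  ((F.differentiable_Hd N).continuous.comp (by fun_prop)).norm

/- `psi_le` with `N = ⌊U ^ deg / T⌋₊`, so that `U ^ deg / T ≤ N + 1`, `1 ≤ N + 1`, `T * N ≤ U ^ deg` and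
`N + 1 ≤ 2 * U ^ deg`; `(a + b + c) ^ 2 ≤ 3 * (a ^ 2 + b ^ 2 + c ^ 2)`; `gav_meas`, `lintegral_add_left`,
`gav_sq` with `mvt_Tl`, `mvt_Hd` (small exponent `ε / (deg + 1)`), `Hd_zero_le`, `exp_Bl`, `volume_Bl`.
If `N = 0` the head vanishes; if `N ≥ 1` then `T ≤ U ^ deg` and `T * U` is the smaller entry of the
minimum in `bb`. -/
theorem en_sq {ε : ℝ} (hε : 0 < ε) : ∃ C : ℝ, 0 < C ∧ ∀ (m₁ : ℂ → ℂ) (T U μ : ℝ), Adm m₁ → 1 ≤ T →
    1 ≤ U → 0 ≤ μ → HM m₁ U μ → ∫⁻ t in Bl U, ‖F.Psi m₁ T t‖ₑ ^ 2 ≤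
      ENNReal.ofReal (C * U ^ ε * (μ ^ 2 * bb F.deg T U + U ^ (-3 : ℝ))) := by
  have hδ : 0 < ε / (F.deg + 1) := div_pos hε (by linarith [F.deg_nonneg])
  obtain ⟨C, hC, H⟩ := F.psi_le
  obtain ⟨c, hc, Hc⟩ := F.en_rem
  obtain ⟨g, hg, Hg⟩ := gav_sq
  obtain ⟨c₂, h₂, H₂⟩ := F.mvt_Tl hδ
  obtain ⟨c₃, h₃, H₃⟩ := F.mvt_Hd hδ
  obtain ⟨c₄, -, H₄⟩ := F.Tl_le one_pos
  obtain ⟨c₅, -, H₅⟩ := F.Hd_le one_pos
  refine ⟨12 * C ^ 2 * g * (c₂ + c₃) * 2 ^ (ε / (F.deg + 1)) + 12 * C ^ 2 * c ^ 2, by positivity,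
    fun m₁ T U μ hm hT hU hμ hM => ?_⟩
  obtain ⟨N, n1, n2, n3, n4, n5⟩ := en_basic F.deg_nonneg hε hT hU
  obtain ⟨b1, b2⟩ := en_bb hT hU n1 n2
  have hT0 : 0 < T := by linarith
  have hU0 : 0 < U := by linarith
  have hb : 0 ≤ bb F.deg T U := add_nonneg (le_min (by positivity) (by positivity)) (by positivity)
  refine (en_lin (a := 3 * (C * μ) ^ 2 * ((U ^ F.deg) ^ 2 / T)) (b := 3 * (C * μ) ^ 2 * T)
    (r := 3 * (C * (c * U⁻¹ ^ 2)) ^ 2) hU (gav_meas (F.continuous_Tl N).norm)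
    (gav_meas (F.en_cont N)) (by positivity) (by positivity) (by positivity) (by positivity)
    (by positivity) (fun t ht => ?_)
    (Hg _ _ U _ (F.continuous_Tl N).norm (fun _ => norm_nonneg _) (H₄ N) hU
      fun a => H₂ N a _ (by positivity))
    (Hg _ _ U _ (F.en_cont N) (fun _ => norm_nonneg _) (H₅ N) hU
      fun a => H₃ N a _ (by positivity))).trans (ENNReal.ofReal_le_ofReal ?_)
  · have a1 := H m₁ T U μ t N hm hT hU hμ hM ht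
    rw [mul_assoc C (1 + _)] at a1
    have a2 := pow_le_pow_left₀ (norm_nonneg _)
      (a1.trans (add_le_add le_rfl (mul_le_mul_of_nonneg_left (Hc U t N hU ht n3) hC.le))) 2
    refine a2.trans ?_
    rw [← Real.sq_sqrt hT0.le, Real.sqrt_sq (Real.sqrt_nonneg T), ← div_pow]
    generalize (∫ v : ℝ, ‖F.Tl N _‖ * _) = A
    generalize (∫ v : ℝ, ‖F.Hd N _‖ * _) = B
    generalize C * (c * U⁻¹ ^ 2) = z
    have e : ∀ x y : ℝ, (x + y + z) ^ 2 ≤ 3 * x ^ 2 + 3 * y ^ 2 + 3 * z ^ 2 := fun x y => by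
      nlinarith [sq_nonneg (x - y), sq_nonneg (x - z), sq_nonneg (y - z)]
    have := e (C * μ * (U ^ F.deg / √T * A)) (C * μ * (√T * B))
    linarith
  · have hW := Real.one_le_rpow hU hε.le
    have a1 := mul_le_mul b1 n4 (by positivity) (by positivity)
    have a2 : T * (4 * U + N) * (N : ℝ) ^ (ε / (F.deg + 1)) ≤
        4 * bb F.deg T U * (2 ^ (ε / (F.deg + 1)) * U ^ ε) := by
      rcases eq_or_ne N 0 with e | e
      · rw [e, Nat.cast_zero, Real.zero_rpow hδ.ne', mul_zero]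
        positivity
      · exact mul_le_mul (b2 e) n5 (by positivity) (by positivity)
    have a3 : U ^ (-3 : ℝ) = U⁻¹ ^ 4 * U := by
      rw [Real.rpow_neg hU0.le, Real.rpow_ofNat]
      field_simp
    have a4 := mul_le_mul_of_nonneg_left a1 (show 0 ≤ 3 * (C * μ) ^ 2 * g * c₂ by positivity)
    have a5 := mul_le_mul_of_nonneg_left a2 (show 0 ≤ 3 * (C * μ) ^ 2 * g * c₃ by positivity)
    have a6 := mul_le_mul_of_nonneg_left hW
      (show 0 ≤ 12 * C ^ 2 * c ^ 2 * (U⁻¹ ^ 4 * U) by positivity)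
    have a7 : 0 ≤ 12 * C ^ 2 * g * (c₂ + c₃) * 2 ^ (ε / (F.deg + 1)) * U ^ ε * (U⁻¹ ^ 4 * U) := by
      positivity
    have a8 : 0 ≤ 12 * C ^ 2 * c ^ 2 * U ^ ε * (μ ^ 2 * bb F.deg T U) := by positivity
    rw [a3]
    linarith

/- `psi_le` with the same `N`; `gav_sup`, `Tl_le`, `Hd_le`, `Hd_zero_le`, `exp_Bl`. -/
theorem en_sup {ε : ℝ} (hε : 0 < ε) : ∃ C : ℝ, 0 < C ∧ ∀ (m₁ : ℂ → ℂ) (T U μ t : ℝ), Adm m₁ →
    1 ≤ T → 1 ≤ U → 0 ≤ μ → HM m₁ U μ → t ∈ Bl U →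
    ‖F.Psi m₁ T t‖ ≤ C * U ^ ε * (μ * U ^ (F.deg / 2) + U⁻¹) := by
  have hδ : 0 < ε / (F.deg + 1) := div_pos hε (by linarith [F.deg_nonneg])
  obtain ⟨C, hC, H⟩ := F.psi_le
  obtain ⟨c, hc, Hc⟩ := F.en_rem
  obtain ⟨g, hg, Hg⟩ := gav_sup
  obtain ⟨c₄, h₄, H₄⟩ := F.Tl_le hδ
  obtain ⟨c₅, h₅, H₅⟩ := F.Hd_le hδ
  refine ⟨C * g * (c₄ + c₅) * 2 ^ (ε / (F.deg + 1)) + C * c, by positivity,
    fun m₁ T U μ t hm hT hU hμ hM ht => ?_⟩
  obtain ⟨N, n1, n2, n3, n4, n5⟩ := en_basic F.deg_nonneg hε hT hU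
  have hT0 : 0 < T := by linarith
  have hU0 : 0 < U := by linarith
  have hW := Real.one_le_rpow hU hε.le
  have hP : 0 < U ^ F.deg := Real.rpow_pos_of_pos hU0 _
  have e : U ^ (F.deg / 2) = √(U ^ F.deg) := by
    rw [Real.sqrt_eq_rpow, ← Real.rpow_mul hU0.le, mul_one_div]
  have a1 := H m₁ T U μ t N hm hT hU hμ hM ht
  have a2 := Hg (fun τ => ‖F.Tl N ((-1 / 2 : ℝ) + τ * I)‖) _ t (fun _ => norm_nonneg _) (H₄ N)
  have a3 := Hg (fun τ => ‖F.Hd N ((1 / 2 : ℝ) + τ * I)‖) _ t (fun _ => norm_nonneg _) (H₅ N)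
  rw [Real.rpow_add (by positivity), neg_div, Real.rpow_neg (by positivity),
    ← Real.sqrt_eq_rpow] at a2
  rw [Real.rpow_add_of_nonneg (Nat.cast_nonneg N) (by norm_num) hδ.le, ← Real.sqrt_eq_rpow] at a3
  have b1 : U ^ F.deg / √T * (√((N : ℝ) + 1))⁻¹ ≤ √(U ^ F.deg) := by
    rw [← div_eq_mul_inv, div_div, ← Real.sqrt_mul hT0.le, div_le_iff₀ (by positivity)]
    exact (Real.mul_self_sqrt hP.le).symm.trans_le
      (mul_le_mul_of_nonneg_left (Real.sqrt_le_sqrt n1) (Real.sqrt_nonneg _))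
  have b2 : √T * √(N : ℝ) ≤ √(U ^ F.deg) := by
    rw [← Real.sqrt_mul hT0.le]
    exact Real.sqrt_le_sqrt n2
  have b3 := mul_le_mul b1 n4 (by positivity) (by positivity)
  have b4 := mul_le_mul b2 n5 (by positivity) (by positivity)
  have d1 := mul_le_mul_of_nonneg_left a2 (show 0 ≤ C * μ * (U ^ F.deg / √T) by positivity)
  have d2 := mul_le_mul_of_nonneg_left a3 (show 0 ≤ C * μ * √T by positivity)
  have d3 := mul_le_mul_of_nonneg_left b3 (show 0 ≤ C * μ * g * c₄ by positivity)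
  have d4 := mul_le_mul_of_nonneg_left b4 (show 0 ≤ C * μ * g * c₅ by positivity)
  have d5 := mul_le_mul_of_nonneg_left (Hc U t N hU ht n3) hC.le
  have d6 : C * c * U⁻¹ * U⁻¹ ≤ C * c * U⁻¹ * U ^ ε :=
    mul_le_mul_of_nonneg_left ((inv_le_one_of_one_le₀ hU).trans hW) (by positivity)
  have d7 : 0 ≤ C * g * (c₄ + c₅) * 2 ^ (ε / (F.deg + 1)) * U ^ ε * U⁻¹ := by positivity
  have d8 : 0 ≤ C * c * U ^ ε * (μ * √(U ^ F.deg)) := by positivity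
  rw [e]
  linarith

end Sel

end Pool.Agent.Lib.MP_2a1a00_nt
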