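import Pool.Agent.Lib.MP_2a1a00_nt.Afe3

/-! Exchanging the two integrations. -/

namespace Pool.Agent.Lib.MP_2a1a00_nt

open Complex MeasureTheory Set

namespace Sel

variable (F : Sel)

/- `wt x z = exp (z * deg * log x) * (exp (z * log q + z ^ 2) / z)`; `norm_wt` gives the majorant
`K * const * exp (-v ^ 2)` for `x ∈ [T, 2 T]`; `continuousOn_of_dominated`;
`intervalIntegral.integral_of_le`, `integral_integral_swap`; `norm_Ln_le`, `integrable_gauss_poly`. -/
theorem fub {η : ℝ} (h0 : 0 < η) : ∃ C : ℝ, 0 < C ∧ ∀ (T K : ℝ) (H : ℂ → ℝ → ℂ), 1 ≤ T →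
    Continuous (fun p : ℝ × ℝ => H (η + p.1 * I) p.2) → (∀ v x : ℝ, ‖H (η + v * I) x‖ ≤ K) →
    ContinuousOn (fun x => Ln (fun z => H z x * F.wt x z) η) (Icc T (2 * T)) ∧
    (∀ x ∈ Icc T (2 * T), Integrable fun v : ℝ => H (η + v * I) x * F.wt x (η + v * I)) ∧
    ∀ (G : ℝ → ℂ) (Z : ℝ), ContinuousOn G (Icc T (2 * T)) →
      (∀ v : ℝ, ‖∫ x in T..2 * T, G x * (H (η + v * I) x *
        exp ((η + v * I) * F.deg * (Real.log x : ℝ)))‖ ≤ (1 + |v|) * Z) →
      ‖∫ x in T..2 * T, G x * Ln (fun z => H z x * F.wt x z) η‖ ≤ C * Z := by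
  have hz : ∀ v : ℝ, (η + v * I : ℂ) ≠ 0 := fun v h => h0.ne' (by simpa using congrArg re h)
  obtain ⟨E, hE⟩ : ∃ E : ℝ → ℂ, E = fun v : ℝ =>
      exp ((η + v * I) * (Real.log F.q : ℝ) + (η + v * I) ^ 2) / (η + v * I) := ⟨_, rfl⟩
  obtain ⟨c, hc⟩ : ∃ c : ℝ, c = Real.exp (η * Real.log F.q + η ^ 2) / η := ⟨_, rfl⟩
  have hc0 : 0 < c := by rw [hc]; positivity
  have hEc : Continuous E := by
    rw [hE]
    exact Continuous.div (by fun_prop) (by fun_prop) hz
  have hEn : ∀ v : ℝ, ‖E v‖ ≤ c * Real.exp (-v ^ 2 / 2) := by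
    intro v
    have h1 : η ≤ ‖(η + v * I : ℂ)‖ := by simpa using re_le_norm (η + v * I : ℂ)
    have h2 : ((η + v * I : ℂ) * (Real.log F.q : ℝ) + (η + v * I) ^ 2).re =
        η * Real.log F.q + η ^ 2 - v ^ 2 := by
      simp [sq]
      ring
    rw [hE, hc, norm_div, norm_exp, h2, div_mul_eq_mul_div, ← Real.exp_add]
    exact div_le_div₀ (Real.exp_pos _).le (Real.exp_le_exp.2 (by nlinarith [sq_nonneg v])) h0 h1
  have hwt : ∀ x v : ℝ, F.wt x (η + v * I) =
      exp ((η + v * I) * F.deg * (Real.log x : ℝ)) * E v := by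
    intro x v
    rw [hE, wt, ← mul_div_assoc, ← exp_add]
    congr 2
    push_cast
    ring
  have hg0 : Integrable fun v : ℝ => Real.exp (-v ^ 2 / 2) := by
    simpa using integrable_gauss_poly 0
  have hg1 : Integrable fun v : ℝ => (1 + |v|) * Real.exp (-v ^ 2 / 2) := by
    simpa using integrable_gauss_poly 1
  have hJ : 0 ≤ ∫ v : ℝ, (1 + |v|) * Real.exp (-v ^ 2 / 2) :=
    integral_nonneg fun v => by positivity
  refine ⟨1 / (2 * Real.pi) * (c * ∫ v : ℝ, (1 + |v|) * Real.exp (-v ^ 2 / 2)) + 1, by positivity,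
    fun T K H hT hH hK => ?_⟩
  obtain ⟨Φ, hΦ⟩ : ∃ Φ : ℝ → ℝ → ℂ, Φ = fun x v : ℝ =>
      H (η + v * I) x * exp ((η + v * I) * F.deg * (Real.log x : ℝ)) := ⟨_, rfl⟩
  have hΦw : ∀ x v : ℝ, H (η + v * I) x * F.wt x (η + v * I) = Φ x v * E v := by
    intro x v
    rw [hwt, hΦ, ← mul_assoc]
  have hΦc : ContinuousOn (fun p : ℝ × ℝ => Φ p.1 p.2) (Icc T (2 * T) ×ˢ univ) := by
    rw [hΦ]
    refine (hH.comp continuous_swap).continuousOn.mul (ContinuousOn.cexp (ContinuousOn.mul
      (by fun_prop) (continuous_ofReal.comp_continuousOn (continuousOn_fst.log fun p hp => ?_))))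
    have := hp.1.1
    linarith
  obtain ⟨M, hM⟩ : ∃ M : ℝ, ∀ x ∈ Icc T (2 * T), ∀ v, ‖Φ x v‖ ≤ M := by
    refine ⟨K * Real.exp (η * F.deg * Real.log (2 * T)), fun x hx v => ?_⟩
    have h2 : ((η + v * I : ℂ) * F.deg * (Real.log x : ℝ)).re = η * F.deg * Real.log x := by
      simp
    rw [hΦ, norm_mul, norm_exp, h2]
    refine mul_le_mul (hK v x) (Real.exp_le_exp.2 (mul_le_mul_of_nonneg_left
      (Real.log_le_log (by linarith [hx.1]) hx.2) (mul_nonneg h0.le F.deg_nonneg)))
      (Real.exp_pos _).le ((norm_nonneg _).trans (hK v x))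
  have hb : ∀ x ∈ Icc T (2 * T), ∀ v, ‖Φ x v * E v‖ ≤ M * (c * Real.exp (-v ^ 2 / 2)) := by
    intro x hx v
    rw [norm_mul]
    exact mul_le_mul (hM x hx v) (hEn v) (norm_nonneg _) ((norm_nonneg _).trans (hM x hx v))
  have hm : ∀ x ∈ Icc T (2 * T), Continuous fun v => Φ x v * E v := fun x hx =>
    (hΦc.comp_continuous (Continuous.prodMk_right x) fun v => ⟨hx, trivial⟩).mul hEc
  have hLn : ∀ x, Ln (fun z => H z x * F.wt x z) η =
      (1 / (2 * Real.pi) : ℝ) * ∫ v : ℝ, Φ x v * E v := by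
    intro x
    simp only [Ln, hΦw]
  refine ⟨?_, fun x hx => ?_, fun G Z hG hZ => ?_⟩
  · simp only [hLn]
    refine continuousOn_const.mul (continuousOn_of_dominated
      (bound := fun v => M * (c * Real.exp (-v ^ 2 / 2)))
      (fun x hx => (hm x hx).aestronglyMeasurable)
      (fun x hx => Filter.Eventually.of_forall (hb x hx)) ((hg0.const_mul c).const_mul M)
      (Filter.Eventually.of_forall fun v => ?_))
    exact (hΦc.comp (Continuous.prodMk_left v).continuousOn fun x hx => ⟨hx, trivial⟩).mul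
      continuousOn_const
  · simp only [hΦw]
    exact ((hg0.const_mul c).const_mul M).mono' (hm x hx).aestronglyMeasurable
      (Filter.Eventually.of_forall (hb x hx))
  have hZ0 : 0 ≤ Z := by simpa using (norm_nonneg _).trans (hZ 0)
  have hT2 : T ≤ 2 * T := by linarith
  obtain ⟨B, hB⟩ := isCompact_Icc.exists_bound_of_continuousOn hG
  have hint : Integrable (Function.uncurry fun x v : ℝ => G x * (Φ x v * E v))
      ((volume.restrict (Ioc T (2 * T))).prod volume) := by
    have h1 : Integrable (fun p : ℝ × ℝ => B * (M * (c * Real.exp (-p.2 ^ 2 / 2))))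
        ((volume.restrict (Ioc T (2 * T))).prod volume) :=
      (integrable_const B).mul_prod ((hg0.const_mul c).const_mul M)
    rw [Measure.restrict_prod_eq_prod_univ] at h1 ⊢
    have h2 : MeasurableSet (Ioc T (2 * T) ×ˢ (univ : Set ℝ)) :=
      measurableSet_Ioc.prod MeasurableSet.univ
    refine h1.mono' (ContinuousOn.aestronglyMeasurable ?_ h2) ?_
    · refine ContinuousOn.mono (s := Icc T (2 * T) ×ˢ univ) ?_
        (prod_mono Ioc_subset_Icc_self Subset.rfl)
      exact (hG.comp continuousOn_fst fun p hp => hp.1).mul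
        (hΦc.mul (hEc.comp continuous_snd).continuousOn)
    · refine (ae_restrict_iff' h2).2 (Filter.Eventually.of_forall fun p hp => ?_)
      have h3 := Ioc_subset_Icc_self hp.1
      change ‖G p.1 * (Φ p.1 p.2 * E p.2)‖ ≤ _
      rw [norm_mul]
      exact mul_le_mul (hB _ h3) (hb _ h3 _) (norm_nonneg _) ((norm_nonneg _).trans (hB _ h3))
  have hsw : ∫ x in T..2 * T, G x * Ln (fun z => H z x * F.wt x z) η =
      (1 / (2 * Real.pi) : ℝ) * ∫ v : ℝ, (∫ x in T..2 * T, G x * Φ x v) * E v := by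
    simp only [hLn, intervalIntegral.integral_of_le hT2, ← integral_mul_const, mul_assoc]
    rw [← integral_integral_swap hint, ← integral_const_mul]
    refine integral_congr_ae (Filter.Eventually.of_forall fun x => ?_)
    simp only [integral_const_mul]
    ring
  have hle : ‖∫ v : ℝ, (∫ x in T..2 * T, G x * Φ x v) * E v‖ ≤
      ∫ v : ℝ, Z * (c * ((1 + |v|) * Real.exp (-v ^ 2 / 2))) := by
    refine norm_integral_le_of_norm_le ((hg1.const_mul c).const_mul Z)
      (Filter.Eventually.of_forall fun v => ?_)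
    rw [norm_mul]
    have h1 : ‖∫ x in T..2 * T, G x * Φ x v‖ ≤ (1 + |v|) * Z := by
      rw [hΦ]
      exact hZ v
    refine (mul_le_mul h1 (hEn v) (norm_nonneg _) (by positivity)).trans_eq ?_
    ring
  rw [integral_const_mul, integral_const_mul] at hle
  rw [hsw, norm_mul, norm_real, Real.norm_of_nonneg (by positivity)]
  refine (mul_le_mul_of_nonneg_left hle (by positivity)).trans ?_
  nlinarith

end Sel

end Pool.Agent.Lib.MP_2a1a00_nt
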