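import Pool.Agent.Lib.MP_2a1a00_nt.Defs

/-! Estimates for the gamma function. -/

namespace Pool.Agent.Lib.MP_2a1a00_nt

open Complex MeasureTheory Set

/- `Complex.Gamma_eq_integral`, `norm_integral_le_integral_norm`, `Real.Gamma_eq_integral`. -/
theorem gam_le {s : ℂ} (hs : 0 < s.re) : ‖Gamma s‖ ≤ Real.Gamma s.re := by
  rw [Complex.Gamma_eq_integral hs, Real.Gamma_eq_integral hs, GammaIntegral]
  refine (norm_integral_le_integral_norm _).trans (le_of_eq ?_)
  refine setIntegral_congr_fun measurableSet_Ioi fun x hx => ?_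
  simp only [norm_mul, norm_real, Real.norm_of_nonneg (Real.exp_pos _).le,
    norm_cpow_eq_rpow_re_of_pos hx, sub_re, one_re]

/- `Real.Gamma` is continuous on the compact interval `[a, b]`. -/
theorem gam_bdd {a b : ℝ} (ha : 0 < a) : ∃ C : ℝ, 0 < C ∧ ∀ s : ℂ, a ≤ s.re → s.re ≤ b →
    ‖Gamma s‖ ≤ C := by
  obtain ⟨C, hC⟩ := (isCompact_Icc (a := a) (b := b)).exists_bound_of_continuousOn
    (f := Real.Gamma) fun x hx => (Real.differentiableAt_Gamma fun m h => by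
      have : (0 : ℝ) ≤ m := Nat.cast_nonneg m
      linarith [hx.1]).continuousAt.continuousWithinAt
  refine ⟨max C 1, lt_max_of_lt_right one_pos, fun s h1 h2 => ?_⟩
  exact (gam_le (ha.trans_le h1)).trans (((le_abs_self _).trans (hC _ ⟨h1, h2⟩)).trans
    (le_max_left _ _))

theorem gam_im_le (s : ℂ) (k : ℕ) : |s.im| ≤ ‖s + k‖ := by
  simpa using abs_im_le_norm (s + k)

theorem gam_shift {z : ℂ} (hz : 1 ≤ |z.im|) (K : ℕ) : ‖Gamma z‖ ≤ ‖Gamma (z + K)‖ := by
  induction K with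
  | zero => simp
  | succ K ih =>
    have h1 := hz.trans (gam_im_le z K)
    rw [Nat.cast_succ, ← add_assoc, Gamma_add_one _ (norm_pos_iff.1 (by linarith)), norm_mul]
    exact ih.trans (le_mul_of_one_le_left (norm_nonneg _) h1)

theorem gam_sin (z : ℂ) : ‖sin z‖ ≤ Real.exp |z.im| := by
  have h1 : ‖exp (-z * I)‖ ≤ Real.exp |z.im| := by
    rw [norm_exp]
    exact Real.exp_le_exp.2 (by simpa using le_abs_self z.im)
  have h2 : ‖exp (z * I)‖ ≤ Real.exp |z.im| := by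
    rw [norm_exp]
    exact Real.exp_le_exp.2 (by simpa using neg_le_abs z.im)
  have h3 := norm_sub_le (exp (-z * I)) (exp (z * I))
  rw [Complex.sin, norm_div, norm_mul, norm_I, mul_one, Complex.norm_ofNat]
  linarith

/- For `|im s| ≤ 1` use compactness (`Complex.differentiable_one_div_Gamma`).  For `1 ≤ |im s|`:
reflection `Gamma s * Gamma (1 - s) = π / sin (π s)`, so `(Gamma s)⁻¹ = Gamma (1 - s) * sin (π s) / π`;
`Gamma (1 - s) = Gamma (1 - s + K) / ∏ (1 - s + j)` with `K` a natural number, `K > b`, every factor has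
norm at least `1`; `‖sin (π s)‖ ≤ exp (π |im s|)`. -/
theorem gam_inv_le (a b : ℝ) : ∃ C : ℝ, 0 < C ∧ ∀ s : ℂ, a ≤ s.re → s.re ≤ b →
    ‖(Gamma s)⁻¹‖ ≤ C * Real.exp (4 * |s.im|) := by
  obtain ⟨C₁, h₁⟩ := ((isCompact_Icc (a := a) (b := b)).reProdIm
    (isCompact_Icc (a := -1) (b := 1))).exists_bound_of_continuousOn
    differentiable_one_div_Gamma.continuous.continuousOn
  obtain ⟨K, hK⟩ := exists_nat_gt b
  obtain ⟨C₂, h0, h₂⟩ := gam_bdd (a := 1 - b + K) (b := 1 - a + K) (by linarith)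
  refine ⟨max C₁ C₂, lt_max_of_lt_right h0, fun s h1 h2 => ?_⟩
  rcases le_total |s.im| 1 with h | h
  · refine (h₁ s (mem_reProdIm.2 ⟨⟨h1, h2⟩, abs_le.1 h⟩)).trans ((le_max_left _ C₂).trans ?_)
    exact le_mul_of_one_le_right (h0.le.trans (le_max_right _ _)) (Real.one_le_exp (by positivity))
  · have hs : ∀ z : ℂ, 1 ≤ |z.im| → Gamma z ≠ 0 := fun z hz => Gamma_ne_zero fun m hm => by
      rw [hm] at hz
      norm_num at hz
    have h' : 1 ≤ |(1 - s).im| := by simpa using h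
    have hp : (Real.pi : ℂ) ≠ 0 := ofReal_ne_zero.2 Real.pi_ne_zero
    have e := Gamma_mul_Gamma_one_sub s
    have hsin : sin (Real.pi * s) ≠ 0 := fun h0 => by
      rw [h0, div_zero] at e
      exact mul_ne_zero (hs s h) (hs _ h') e
    have e2 : (Gamma s)⁻¹ = Gamma (1 - s) * sin (Real.pi * s) / Real.pi := by
      rw [eq_div_iff hsin] at e
      rw [eq_div_iff hp, inv_mul_eq_iff_eq_mul₀ (hs s h), ← mul_assoc, e]
    have a1 : ‖Gamma (1 - s)‖ ≤ max C₁ C₂ := (gam_shift h' K).trans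
      ((h₂ _ (by simp only [add_re, sub_re, one_re, natCast_re]; linarith)
        (by simp only [add_re, sub_re, one_re, natCast_re]; linarith)).trans (le_max_right _ _))
    have a2 : ‖sin (Real.pi * s)‖ ≤ Real.exp (4 * |s.im|) := by
      refine (gam_sin _).trans (Real.exp_le_exp.2 ?_)
      rw [im_ofReal_mul, abs_mul, abs_of_pos Real.pi_pos]
      exact mul_le_mul_of_nonneg_right Real.pi_le_four (abs_nonneg _)
    rw [e2, norm_div, norm_mul, norm_real, Real.norm_of_nonneg Real.pi_pos.le]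
    exact (div_le_self (by positivity) (by linarith [Real.two_le_pi])).trans
      (mul_le_mul a1 a2 (norm_nonneg _) ((norm_nonneg _).trans a1))

/- `‖s + k‖ ^ 2 ≥ k ^ 2 + y ^ 2` with `y = |im s| ≥ 1`; for instance
`1 / (k ^ 2 + y ^ 2) ≤ 2 / (k + y) ^ 2` and `1 / (k + y) ^ 2 ≤ 1 / (k + y - 1 / 2) - 1 / (k + y + 1 / 2)`. -/
theorem gam_sum {s : ℂ} (h0 : 0 ≤ s.re) (h1 : 1 ≤ |s.im|) (n : ℕ) :
    ∑ k ∈ Finset.range n, 1 / ‖s + k‖ ^ 2 ≤ 4 / |s.im| := by
  set y := |s.im| with hy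
  have key : ∀ n : ℕ, ∑ k ∈ Finset.range n, 1 / ‖s + k‖ ^ 2 ≤
      2 / (y - 1 / 2) - 2 / (n + y - 1 / 2) := by
    intro n
    induction n with
    | zero => simp
    | succ n ih =>
      have hn : (0 : ℝ) ≤ n := Nat.cast_nonneg n
      have a1 : (n : ℝ) ^ 2 + y ^ 2 ≤ ‖s + n‖ ^ 2 := by
        rw [Complex.sq_norm, normSq_apply, hy, sq_abs]
        simp only [add_re, natCast_re, add_im, natCast_im, add_zero]
        nlinarith
      have p1 : 0 < (n : ℝ) + y - 1 / 2 := by linarith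
      have p2 : 0 < (n : ℝ) + 1 + y - 1 / 2 := by linarith
      have a2 : 1 / ‖s + n‖ ^ 2 ≤ 2 / (n + y - 1 / 2) - 2 / (n + 1 + y - 1 / 2) := by
        rw [div_sub_div _ _ p1.ne' p2.ne', div_le_div_iff₀ (by nlinarith) (mul_pos p1 p2)]
        nlinarith [sq_nonneg ((n : ℝ) - y)]
      rw [Finset.sum_range_succ, Nat.cast_succ]
      linarith
  have a1 : 0 ≤ 2 / ((n : ℝ) + y - 1 / 2) :=
    div_nonneg zero_le_two (by linarith [Nat.cast_nonneg (α := ℝ) n])
  have a2 : 2 / (y - 1 / 2) ≤ 4 / y := by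
    rw [div_le_div_iff₀ (by linarith) (by linarith)]
    linarith
  linarith [key n]

theorem gam_log {z : ℂ} (hz : ‖z‖ ≤ 1 / 2) : ‖log (1 + z) - z‖ ≤ ‖z‖ ^ 2 := by
  refine (norm_log_one_add_sub_self_le (by linarith)).trans ?_
  have : (1 - ‖z‖)⁻¹ ≤ 2 := by
    rw [inv_le_comm₀ (by linarith) two_pos]
    linarith
  nlinarith [sq_nonneg ‖z‖]

theorem gam_re {z : ℂ} (hz : ‖z‖ ≤ 1 / 2) : 0 < (1 + z).re := by
  have := abs_le.1 ((abs_re_le_norm z).trans hz)
  rw [add_re, one_re]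
  linarith

theorem gam_aux_ne {z : ℂ} (hz : ‖z‖ ≤ 1 / 2) : 1 + z ≠ 0 := fun h => by
  simpa [h] using gam_re hz

theorem gam_step {a : ℂ} (h0 : 0 ≤ a.re) (h2 : 2 ≤ ‖a‖) :
    ‖log (a + 1) - log a - 1 / a‖ ≤ 1 / ‖a‖ ^ 2 := by
  have ha : a ≠ 0 := norm_pos_iff.1 (by linarith)
  have h1 : ‖1 / a‖ ≤ 1 / 2 := by
    rw [norm_div, norm_one]
    exact one_div_le_one_div_of_le two_pos h2
  have a1 := abs_le.1 (abs_arg_le_pi_div_two_iff.2 h0)
  have a2 := abs_lt.1 (abs_arg_lt_pi_div_two_iff.2 (Or.inl (gam_re h1)))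
  have e : log (a + 1) = log a + log (1 + 1 / a) := by
    rw [← log_mul ha (gam_aux_ne h1) ⟨by linarith, by linarith⟩, mul_add, mul_one, mul_one_div_cancel ha]
  rw [e, add_sub_cancel_left]
  refine (gam_log h1).trans (le_of_eq ?_)
  rw [norm_div, norm_one, div_pow, one_pow]

theorem gam_seq {s w : ℂ} (hs : ∀ k : ℕ, s + k ≠ 0) (hw : ∀ k : ℕ, 1 + w / (s + k) ≠ 0) {n : ℕ}
    (hn : n ≠ 0) : GammaSeq (s + w) n = GammaSeq s n *
      exp (w * log n - ∑ k ∈ Finset.range (n + 1), log (1 + w / (s + k))) := by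
  have hn' : (n : ℂ) ≠ 0 := Nat.cast_ne_zero.2 hn
  have e : ∏ k ∈ Finset.range (n + 1), (s + w + k) = (∏ k ∈ Finset.range (n + 1), (s + k)) *
      ∏ k ∈ Finset.range (n + 1), exp (log (1 + w / (s + k))) := by
    rw [← Finset.prod_mul_distrib]
    refine Finset.prod_congr rfl fun k _ => ?_
    rw [exp_log (hw k), mul_add, mul_one, mul_div_cancel₀ _ (hs k)]
    ring
  rw [GammaSeq, GammaSeq, e, exp_sub, exp_sum, cpow_add _ _ hn', cpow_def_of_ne_zero hn' w,
    mul_comm w, div_mul_div_comm]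
  congr 1
  ring

theorem gam_rho {s : ℂ} (hs : ∀ k : ℕ, s + k ≠ 0) :
    Filter.Tendsto (fun n : ℕ => log n - log (s + (n + 1 : ℕ))) Filter.atTop (nhds 0) := by
  have h1 : Filter.Tendsto (fun n : ℕ => 1 + (s + 1) / (n : ℂ)) Filter.atTop (nhds 1) := by
    simpa using (tendsto_const_div_atTop_nhds_zero_nat (s + 1)).const_add 1
  have h2 := (h1.clog one_mem_slitPlane).neg
  rw [log_one, neg_zero] at h2
  refine h2.congr' ?_
  filter_upwards [Filter.eventually_gt_atTop 0] with n hn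
  have hn' : (n : ℂ) ≠ 0 := Nat.cast_ne_zero.2 hn.ne'
  have e : s + (n + 1 : ℕ) = ((n : ℝ) : ℂ) * (1 + (s + 1) / (n : ℂ)) := by
    push_cast
    field_simp
    ring
  have h3 := hs (n + 1)
  rw [e] at h3 ⊢
  rw [log_ofReal_mul (by exact_mod_cast hn) (right_ne_zero_of_mul h3), natCast_log]
  ring

/- By `Complex.GammaSeq_tendsto_Gamma`, `Gamma (s + w) / Gamma s` is the limit of
`n ^ w * ∏ k ≤ n, (1 + w / (s + k))⁻¹ = exp (w * log s + r n)` with
`r n = w * (log n - log (s + n + 1)) + w * ∑ k ≤ n, (log (s + k + 1) - log (s + k) - 1 / (s + k))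
 - ∑ k ≤ n, (log (1 + w / (s + k)) - w / (s + k))`.  Use `Complex.norm_log_one_add_sub_self_le` (here
`‖w / (s + k)‖ ≤ 1 / 2`; for the middle sum integrate `1 / (s + k + y) - 1 / (s + k)` over `y ∈ [0, 1]`, or use
that `log (s + k + 1) - log (s + k) - log (1 + 1 / (s + k))` vanishes since the arguments lie in
`[-π / 2, π / 2]`), and `gam_sum`.  The set of `exp r` with `‖r‖ ≤ B` is compact, hence closed; the first
summand of `r n` tends to zero. -/
theorem gam_ratio {s w : ℂ} (h0 : 0 ≤ s.re) (h1 : 2 ≤ |s.im|) (hw : ‖w‖ ≤ |s.im| / 2) :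
    ∃ r : ℂ, ‖r‖ ≤ 10 * (‖w‖ + ‖w‖ ^ 2) / |s.im| ∧
      Gamma (s + w) = Gamma s * exp (w * log s + r) := by
  have hn : ∀ k : ℕ, 2 ≤ ‖s + k‖ := fun k => h1.trans (gam_im_le s k)
  have hs : ∀ k : ℕ, s + k ≠ 0 := fun k => norm_pos_iff.1 (by linarith [hn k])
  have hu : ∀ k : ℕ, ‖w / (s + k)‖ ≤ 1 / 2 := fun k => by
    rw [norm_div, div_le_iff₀ (by linarith [hn k])]
    linarith [gam_im_le s k]
  set r : ℕ → ℂ := fun n => ∑ k ∈ Finset.range (n + 1),
    (w * (log (s + (k + 1 : ℕ)) - log (s + k) - 1 / (s + k)) -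
      (log (1 + w / (s + k)) - w / (s + k))) with hr
  have hb : ∀ n, r n ∈ Metric.closedBall (0 : ℂ) (10 * (‖w‖ + ‖w‖ ^ 2) / |s.im|) := by
    intro n
    rw [mem_closedBall_zero_iff]
    refine (norm_sum_le_of_le _ (n := fun k : ℕ => (‖w‖ + ‖w‖ ^ 2) * (1 / ‖s + k‖ ^ 2))
      fun k _ => ?_).trans ?_
    · have a1 := gam_step (a := s + k) (by simpa using add_nonneg h0 (Nat.cast_nonneg k)) (hn k)
      have a2 := gam_log (hu k)
      rw [norm_div, div_pow, ← mul_one_div (‖w‖ ^ 2)] at a2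
      rw [Nat.cast_succ, ← add_assoc, add_mul]
      refine (norm_sub_le _ _).trans (add_le_add ?_ a2)
      rw [norm_mul]
      exact mul_le_mul_of_nonneg_left a1 (norm_nonneg _)
    · rw [← Finset.mul_sum]
      refine (mul_le_mul_of_nonneg_left (gam_sum h0 (by linarith) _) (by positivity)).trans ?_
      rw [mul_comm 10, mul_div_assoc]
      gcongr
      norm_num
  have he : ∀ n : ℕ, w * log n - ∑ k ∈ Finset.range (n + 1), log (1 + w / (s + k)) =
      w * log s + (w * (log n - log (s + (n + 1 : ℕ))) + r n) := by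
    intro n
    have t := Finset.sum_range_sub (fun k : ℕ => log (s + k)) (n + 1)
    have e : r n = w * ∑ k ∈ Finset.range (n + 1), (log (s + (k + 1 : ℕ)) - log (s + k)) -
        ∑ k ∈ Finset.range (n + 1), log (1 + w / (s + k)) := by
      rw [Finset.mul_sum, ← Finset.sum_sub_distrib]
      exact Finset.sum_congr rfl fun k _ => by ring
    rw [e, t, Nat.cast_zero, add_zero]
    ring
  obtain ⟨ρ, hρ, φ, hφ, hl⟩ := (isCompact_closedBall _ _).tendsto_subseq hb
  refine ⟨ρ, mem_closedBall_zero_iff.1 hρ, ?_⟩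
  have t1 := (GammaSeq_tendsto_Gamma (s + w)).comp hφ.tendsto_atTop
  have t2 := ((GammaSeq_tendsto_Gamma s).comp hφ.tendsto_atTop).mul
    ((((((gam_rho hs).comp hφ.tendsto_atTop).const_mul w).add hl).const_add (w * log s)).cexp)
  rw [mul_zero, zero_add] at t2
  refine tendsto_nhds_unique t1 (t2.congr' ?_)
  filter_upwards [hφ.tendsto_atTop.eventually (Filter.eventually_gt_atTop 0)] with n hn
  simp only [Function.comp_apply]
  rw [gam_seq hs (fun k => gam_aux_ne (hu k)) hn.ne', he]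

end Pool.Agent.Lib.MP_2a1a00_nt
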