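import Pool.Agent.Lib.MP_2a1a00_nt.Twist

/-! The main theorems. -/

namespace Pool.Agent.Lib.MP_2a1a00_nt

open Complex MeasureTheory Set

theorem main_half {T ε : ℝ} (hT : 1 ≤ T) : T ^ ε = T ^ (ε / 2) * T ^ (ε / 2) := by
  rw [← Real.rpow_add (by linarith), add_halves]

theorem main_deg {F₁ F₂ L : Sel} (h1 : F₁.deg ≤ 2) (h2 : F₂.deg ≤ 3) (hL : L.deg ≤ 1) {ε : ℝ}
    (hε : 0 < ε) :
    ∃ C : ℝ, ∀ T : ℝ, 1 ≤ T → ‖∫ x in (1 : ℝ)..T, hyb F₁ F₂ L x‖ ≤ C * T ^ (14 / 9 + ε) := by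
  have hl := F₂.L1_deg h2
  refine twist h1 hL (by norm_num) (fun ε hε => ?_) (fun ε hε => ?_) hε
  · obtain ⟨C, hC, h⟩ := F₂.sup_E slow_deg hl hε
    refine ⟨3 * C, by positivity, fun T hT x hx => ?_⟩
    have hsT : √T ≤ T := Real.sqrt_le_iff.2 ⟨by linarith, by nlinarith⟩
    have k := h √T T (Real.one_le_sqrt.2 hT) hsT x hx
    have k2 : √T ≤ T ^ (14 / 9 - 1 : ℝ) := by
      rw [Real.sqrt_eq_rpow]
      exact Real.rpow_le_rpow_of_exponent_le hT (by norm_num)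
    have k3 := mul_le_mul_of_nonneg_left k2 (by positivity : 0 ≤ C * T ^ ε)
    rw [Real.div_sqrt] at k
    linarith
  · have hδ : 0 < ε / 2 := by positivity
    obtain ⟨C1, hC1, hu⟩ := Sel.untw h1 slow_deg hl hδ
    obtain ⟨C2, hC2, ht⟩ := F₂.nm_triv hδ
    obtain ⟨C3, hC3, hs⟩ := F₂.sq_diff3 h2 hδ
    refine ⟨C1 * (2 + (C2 + 2 * C3)), by positivity, fun T hT y hy => ?_⟩
    have hT0 : 0 < T := by linarith
    rw [main_half (ε := ε) hT]
    set τ := T ^ (ε / 2) with hτ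
    have hτ1 : 1 ≤ τ := Real.one_le_rpow hT hδ.le
    obtain ⟨u, hu1, hTu, hc⟩ : ∃ u : ℝ, 1 ≤ u ∧ T = u ^ 18 ∧ T ^ (14 / 9 : ℝ) = u ^ 28 := by
      refine ⟨T ^ (1 / 18 : ℝ), Real.one_le_rpow hT (by norm_num), ?_, ?_⟩ <;>
        rw [← Real.rpow_mul_natCast hT0.le] <;> norm_num
    have hu0 : 0 < u := by linarith
    have hp : ∀ a b : ℕ, a ≤ b → u ^ a ≤ u ^ b := fun a b h => pow_le_pow_right₀ hu1 h
    have hV : 1 ≤ u ^ 10 := one_le_pow₀ hu1
    have hVW := hp 10 12 (by norm_num)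
    have hWT : u ^ 12 ≤ T := hTu ▸ hp 12 18 (by norm_num)
    have hsT : √T = u ^ 9 := by
      rw [hTu, show u ^ 18 = (u ^ 9) ^ 2 by ring, Real.sqrt_sq (by positivity)]
    have hsV : √(u ^ 10) = u ^ 5 := by
      rw [show u ^ 10 = (u ^ 5) ^ 2 by ring, Real.sqrt_sq (by positivity)]
    have k1 := ht (u ^ 12) T T (hV.trans hVW) hWT le_rfl
    have k2 := hs (u ^ 10) (u ^ 12) T hV hVW hWT
    have k3 : √(T * (T / u ^ 10 + u ^ 12)) ≤ 2 * u ^ 15 := by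
      refine Real.sqrt_le_iff.2 ⟨by positivity, ?_⟩
      have : T / u ^ 10 = u ^ 8 := by rw [hTu]; field_simp
      rw [this, hTu]
      have := mul_le_mul_of_nonneg_left (hp 8 12 (by norm_num)) (by positivity : 0 ≤ u ^ 18)
      have h30 : 0 ≤ u ^ 30 := by positivity
      nlinarith
    have k4 : T / u ^ 12 * √T = u ^ 15 := by
      rw [hsT, hTu]
      field_simp
    have nT := (F₂.nice_A hT hT).bm0
    have nW := (F₂.nice_A (hV.trans hVW) hT).bm0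
    have nV := (F₂.nice_A hV hT).bm0
    have k5 : nm (fun x => F₂.A T x - F₂.A (u ^ 10) x) T ≤ (C2 + 2 * C3) * τ * u ^ 15 := by
      have e : (fun x => F₂.A T x - F₂.A (u ^ 10) x) =
          fun x => (F₂.A T x - F₂.A (u ^ 12) x) + (F₂.A (u ^ 12) x - F₂.A (u ^ 10) x) := by
        ext x
        ring
      rw [k4] at k1
      have := mul_le_mul_of_nonneg_left k3 (by positivity : 0 ≤ C3 * τ)
      rw [e]
      linarith [nm_add hT0.le (nT.sub nW) (nW.sub nV)]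
    refine (hu (u ^ 10) T _ hV (hVW.trans hWT) k5 y hy).trans ?_
    have k6 : T * (√T + u ^ 10) ≤ 2 * τ * u ^ 28 := by
      rw [hsT, hTu]
      have := mul_le_mul_of_nonneg_left (hp 9 10 (by norm_num)) (by positivity : 0 ≤ u ^ 18)
      have := mul_le_mul_of_nonneg_right hτ1 (by positivity : 0 ≤ u ^ 28)
      nlinarith
    have k7 : T / √(u ^ 10) * ((C2 + 2 * C3) * τ * u ^ 15) = (C2 + 2 * C3) * τ * u ^ 28 := by
      rw [hsV, hTu]
      field_simp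
    rw [k7, hc]
    calc _ ≤ C1 * τ * (2 * τ * u ^ 28 + (C2 + 2 * C3) * τ * u ^ 28) :=
          mul_le_mul_of_nonneg_left (add_le_add k6 le_rfl) (by positivity)
      _ = _ := by ring

theorem main_prod {F₁ F₂ G H L : Sel} {θ : ℝ} (h0 : 0 ≤ θ) (h0' : θ ≤ 1) (h1 : F₁.deg ≤ 2)
    (hG : G.deg ≤ 2) (hH : H.deg ≤ 2 + 4 * θ) (h : ∀ s : ℂ, 1 < s.re → F₂.L s = G.L s * H.L s)
    (hL : L.deg ≤ 1) {ε : ℝ} (hε : 0 < ε) :
    ∃ C : ℝ, ∀ T : ℝ, 1 ≤ T →
      ‖∫ x in (1 : ℝ)..T, hyb F₁ F₂ L x‖ ≤ C * T ^ (3 / 2 + 2 * θ / (2 * θ + 3) + ε) := by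
  have hl := Sel.L1_prod h0 (G.ms le_rfl (by linarith)) (H.ms (by linarith) (by linarith))
    fun s hs => Sel.prod_ext h hs
  have hg := slow_prod h0 h0'
  set a : ℝ := 2 / (2 * θ + 3) with ha
  have h3 : 0 < 2 * θ + 3 := by linarith
  have ha0 : 0 < a := by positivity
  have ha1 : a * (2 * θ + 3) = 2 := by rw [ha]; field_simp
  have ha2 : a ≤ 1 := by nlinarith
  have hθa : 0 ≤ θ * a := by positivity
  rw [show 2 * θ / (2 * θ + 3) = θ * a by rw [ha]; ring]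
  have hVT : ∀ T : ℝ, 1 ≤ T → T ^ a ≤ T := fun T hT => by
    conv_rhs => rw [← Real.rpow_one T]
    exact Real.rpow_le_rpow_of_exponent_le hT ha2
  have hgT : ∀ T : ℝ, 1 ≤ T → √T * (T ^ a) ^ θ = T ^ (3 / 2 + θ * a - 1) := fun T hT => by
    rw [Real.sqrt_eq_rpow, ← Real.rpow_mul (by linarith), ← Real.rpow_add (by linarith)]
    congr 1
    ring
  refine twist h1 hL (by linarith) (fun ε hε => ?_) (fun ε hε => ?_) hε
  · obtain ⟨C, hC, h⟩ := F₂.sup_E hg hl hε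
    refine ⟨2 * C, by positivity, fun T hT x hx => ?_⟩
    have k := h (T ^ a) T (Real.one_le_rpow hT ha0.le) (hVT T hT) x hx
    have k2 : T / T ^ a ≤ T ^ (3 / 2 + θ * a - 1) := by
      rw [div_eq_mul_inv, ← Real.rpow_neg (by linarith), mul_comm,
        ← Real.rpow_add_one (by linarith)]
      exact Real.rpow_le_rpow_of_exponent_le hT (by nlinarith)
    have k3 := mul_le_mul_of_nonneg_left k2 (by positivity : 0 ≤ C * T ^ ε)
    rw [hgT T hT] at k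
    linarith
  · have hδ : 0 < ε / 2 := by positivity
    obtain ⟨C1, hC1, hu⟩ := Sel.untw h1 hg hl hδ
    obtain ⟨C2, hC2, ht⟩ := F₂.nm_triv hδ
    refine ⟨C1 * (1 + C2), by positivity, fun T hT y hy => ?_⟩
    have hT0 : 0 < T := by linarith
    have hV := Real.one_le_rpow hT ha0.le
    refine (hu (T ^ a) T _ hV (hVT T hT) (ht (T ^ a) T T hV (hVT T hT) le_rfl) y hy).trans ?_
    rw [main_half (ε := ε) hT, hgT T hT]
    set τ := T ^ (ε / 2) with hτ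
    have hτ1 : 1 ≤ τ := Real.one_le_rpow hT hδ.le
    have k1 : T * T ^ (3 / 2 + θ * a - 1) = T ^ (3 / 2 + θ * a) := by
      rw [mul_comm, ← Real.rpow_add_one hT0.ne', sub_add_cancel]
    have k2 : T / √(T ^ a) * (T / T ^ a * √T) = T ^ (3 / 2 + θ * a) := by
      rw [Real.sqrt_eq_rpow, Real.sqrt_eq_rpow, ← Real.rpow_mul hT0.le, div_eq_mul_inv T,
        div_eq_mul_inv T, ← Real.rpow_neg hT0.le, ← Real.rpow_neg hT0.le, mul_comm T, mul_comm T,
        ← Real.rpow_add_one hT0.ne', ← Real.rpow_add_one hT0.ne', ← Real.rpow_add hT0,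
        ← Real.rpow_add hT0]
      congr 1
      linarith
    rw [k1, mul_left_comm (T / √(T ^ a)), k2]
    have k3 := mul_le_mul_of_nonneg_right hτ1 (by positivity : 0 ≤ T ^ (3 / 2 + θ * a))
    calc _ ≤ C1 * τ * (τ * T ^ (3 / 2 + θ * a) + C2 * τ * T ^ (3 / 2 + θ * a)) :=
          mul_le_mul_of_nonneg_left (add_le_add (by linarith) le_rfl) (by positivity)
      _ = _ := by ring

end Pool.Agent.Lib.MP_2a1a00_nt
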