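import Pool.Agent.Lib.MP_2a1a00_nt.Cnt

/-! Mean squares of trigonometric polynomials near the diagonal. -/

namespace Pool.Agent.Lib.MP_2a1a00_nt

open Complex MeasureTheory Set

theorem ps1_mem {Y : ℕ} {p : ℕ × ℕ} (hp : p ∈ Pr Y) (h1 : p.2 < p.1) (h2 : p.1 < 2 * p.2) :
    p.2 ∈ Finset.Icc 1 (Nat.sqrt Y) ∧ p.1 - p.2 ∈ Finset.Icc 1 (Nat.sqrt Y) := by
  obtain ⟨-, hb, hY⟩ := mem_Pr.1 hp
  have h3 : p.2 ≤ Nat.sqrt Y := Nat.le_sqrt.2 ((Nat.mul_le_mul_right _ h1.le).trans hY)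
  simp only [Finset.mem_Icc]
  omega

theorem ps1_w0 {p : ℕ × ℕ} (h0 : 1 ≤ p.2) (h1 : p.2 < p.1) : w0 p ≤ 1 / (p.2 : ℝ) := by
  have hb : (0 : ℝ) < p.2 := by exact_mod_cast h0
  have h2 : ((p.2 : ℝ)) ^ 2 ≤ ((p.1 * p.2 : ℕ) : ℝ) := by
    have : (p.2 : ℝ) ≤ p.1 := by exact_mod_cast h1.le
    push_cast
    nlinarith
  unfold w0
  refine (Real.rpow_le_rpow_of_nonpos (by positivity) h2 (by norm_num)).trans (le_of_eq ?_)
  rw [← Real.rpow_natCast, ← Real.rpow_mul hb.le]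
  norm_num
  exact Real.rpow_neg_one _

theorem ps1_inj {S : Finset (ℕ × ℕ)} (hS : ∀ p ∈ S, p.2 < p.1) :
    Set.InjOn (fun p : ℕ × ℕ => (p.2, p.1 - p.2)) S := by
  intro p hp q hq h
  have h1 := hS p hp
  have h2 := hS q hq
  simp only [Prod.mk.injEq] at h
  refine Prod.ext ?_ h.1
  omega

theorem ps1_single {X : ℕ} {S : Finset (ℕ × ℕ)} (hS : ∀ p ∈ S, p.2 < p.1)
    (hX : ∀ p ∈ S, p.2 ∈ Finset.Icc 1 X ∧ p.1 - p.2 ∈ Finset.Icc 1 X) {f : ℕ × ℕ → ℝ}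
    {σ : ℕ → ℕ → ℝ} (h0 : ∀ i j, 0 ≤ σ i j) (h : ∀ p ∈ S, f p ≤ σ p.2 (p.1 - p.2)) :
    ∑ p ∈ S, f p ≤ ∑ i ∈ Finset.Icc 1 X, ∑ j ∈ Finset.Icc 1 X, σ i j := by
  rw [← Finset.sum_product']
  refine (Finset.sum_le_sum h).trans ?_
  rw [← Finset.sum_image (f := fun q : ℕ × ℕ => σ q.1 q.2) (ps1_inj hS)]
  refine Finset.sum_le_sum_of_subset_of_nonneg ?_ fun q _ _ => h0 _ _
  intro q hq
  obtain ⟨p, hp, rfl⟩ := Finset.mem_image.1 hq
  exact Finset.mem_product.2 (hX p hp)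

theorem ps1_count (X : ℕ) {t : ℝ} (ht : 0 ≤ t) :
    ∑ j ∈ Finset.Icc 1 X, (if (j : ℝ) ≤ t then (1 : ℝ) else 0) ≤ t := by
  rw [Finset.sum_boole]
  have h1 : (Finset.Icc 1 X).filter (fun j : ℕ => (j : ℝ) ≤ t) ⊆ Finset.Icc 1 ⌊t⌋₊ := by
    intro j hj
    obtain ⟨h2, h3⟩ := Finset.mem_filter.1 hj
    exact Finset.mem_Icc.2 ⟨(Finset.mem_Icc.1 h2).1, Nat.le_floor h3⟩
  have h2 := Finset.card_le_card h1
  rw [Nat.card_Icc, Nat.add_sub_cancel] at h2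
  exact le_trans (by exact_mod_cast h2) (Nat.floor_le ht)

theorem ps1_sq (Y : ℕ) : (Nat.sqrt Y : ℝ) * Nat.sqrt Y ≤ Y := by
  exact_mod_cast Nat.sqrt_le Y

theorem ps1_harm {Y : ℕ} (hY : 1 ≤ Y) :
    ∑ n ∈ Finset.Icc 1 (Nat.sqrt Y), (1 : ℝ) / n ≤ 1 + Real.log Y := by
  refine (harm_le _).trans (add_le_add le_rfl (Real.log_le_log ?_ ?_))
  · exact_mod_cast Nat.sqrt_pos.2 hY
  · exact_mod_cast Nat.sqrt_le_self Y

theorem ps1_core {ε : ℝ} (hε : 0 < ε) : ∃ C : ℝ, 0 < C ∧ ∀ (Y : ℕ) (S : Finset (ℕ × ℕ))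
    (γ : ℕ × ℕ → ℂ) (om : ℕ × ℕ → ℝ) (ρ1 ρ3 : ℕ → ℕ → ℝ) (m a ℓ : ℝ), 1 ≤ Y → S ⊆ Pr Y → 0 ≤ m →
    0 ≤ ℓ → (∀ p ∈ S, p.2 < p.1 ∧ p.1 < 2 * p.2) → (∀ p ∈ S, 0 ≤ om p) →
    (∀ p ∈ S, ‖γ p‖ ≤ om p * w0 p) → (∀ i j, 0 ≤ ρ1 i j) → (∀ i j, 0 ≤ ρ3 i j) →
    (∀ p ∈ S, ∀ q ∈ S, om p * w0 p * (om q * w0 q) ≤ ρ1 p.2 (q.1 - q.2)) →
    (∀ p ∈ S, ∀ q ∈ S, om p * om q ≤ ρ3 p.2 (q.1 - q.2)) →
    ∑ i ∈ Finset.Icc 1 (Nat.sqrt Y), ∑ j ∈ Finset.Icc 1 (Nat.sqrt Y), ρ1 i j ≤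
      m * (1 + Real.log Y) ^ 2 →
    (∑ p ∈ S, om p * w0 p) ^ 2 ≤ m * Y * (1 + Real.log Y) ^ 2 →
    ∑ i ∈ Finset.Icc 1 (Nat.sqrt Y), ∑ j ∈ Finset.Icc 1 (Nat.sqrt Y), ρ3 i j ≤
      m * Y * (1 + Real.log Y) →
    ∫ t in a..a + ℓ, ‖PP γ S t‖ ^ 2 ≤ C * (Y : ℝ) ^ ε * (ℓ + Y) * m := by
  have hε3 : 0 < ε / 3 := by positivity
  obtain ⟨C1, hC1, hq⟩ := quad hε3
  obtain ⟨C2, hC2, hl⟩ := log_le_rpow hε3
  refine ⟨(4 * C1 + 2) * C2 ^ 2, by positivity, ?_⟩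
  intro Y S γ om ρ1 ρ3 m a ℓ hY hS hm hℓ hp h0 hγ r1 r3 s1 s3 t1 t2 t3
  have hY1 : (1 : ℝ) ≤ Y := by exact_mod_cast hY
  set X := Nat.sqrt Y with hX
  set L := 1 + Real.log Y with hL
  set W := (Y : ℝ) ^ (ε / 3) with hW
  have hW1 : 1 ≤ W := Real.one_le_rpow hY1 hε3.le
  have hL1 : 1 ≤ L := le_add_of_nonneg_right (Real.log_nonneg hY1)
  have hLW : L ≤ C2 * W := hl Y hY1
  have hXW : (X : ℝ) ^ (ε / 3) ≤ W :=
    Real.rpow_le_rpow (Nat.cast_nonneg _) (by exact_mod_cast Nat.sqrt_le_self Y) hε3.le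
  have hX0 : 0 ≤ (X : ℝ) ^ (ε / 3) := by positivity
  have hW3 : (Y : ℝ) ^ ε = W ^ 3 := by
    rw [hW, ← Real.rpow_natCast, ← Real.rpow_mul (by linarith)]
    congr 1
    push_cast
    ring
  have hmem := fun p (h : p ∈ S) => ps1_mem (hS h) (hp p h).1 (hp p h).2
  have hid : ∀ p ∈ S, ∀ q ∈ S, (p.2 : ℤ) * ((q.1 - q.2 : ℕ) : ℤ) - (q.2 : ℤ) * ((p.1 - p.2 : ℕ) : ℤ) =
      (p.2 : ℤ) * q.1 - (p.1 : ℤ) * q.2 := by
    intro p h q h'
    rw [Nat.cast_sub (hp p h).1.le, Nat.cast_sub (hp q h').1.le]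
    ring
  have u1 := hq X S (fun p => p.2) (fun p => p.1 - p.2)
    (fun p q => if p.2 * q.1 = p.1 * q.2 then om p * w0 p * (om q * w0 q) else 0) ρ1
    (fun k => if k = 0 then 1 else 0) (ps1_inj fun p h => (hp p h).1) (fun p h => (hmem p h).1)
    (fun p h => (hmem p h).2) r1 (fun k => by split_ifs <;> norm_num) (by
      intro p h q h'
      simp only [hid p h q h']
      by_cases hc : p.2 * q.1 = p.1 * q.2
      · have : (p.2 : ℤ) * q.1 - (p.1 : ℤ) * q.2 = 0 := by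
          rw [sub_eq_zero]; exact_mod_cast hc
        rw [if_pos hc, if_pos this, mul_one]
        exact s1 p h q h'
      · rw [if_neg hc]
        exact mul_nonneg (r1 _ _) (by split_ifs <;> norm_num))
  have u3 := hq X S (fun p => p.2) (fun p => p.1 - p.2)
    (fun p q => om p * om q * (1 / |(((p.2 : ℤ) * q.1 - (p.1 : ℤ) * q.2 : ℤ) : ℝ)|)) ρ3
    (fun k => 1 / |(k : ℝ)|) (ps1_inj fun p h => (hp p h).1) (fun p h => (hmem p h).1)
    (fun p h => (hmem p h).2) r3 (fun k => by positivity) (by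
      intro p h q h'
      simp only [hid p h q h']
      exact mul_le_mul_of_nonneg_right (s3 p h q h') (by positivity))
  have v1 : ∑ k ∈ Finset.Icc (-(X : ℤ) ^ 2) ((X : ℤ) ^ 2), (if k = 0 then (1 : ℝ) else 0) ≤ 1 := by
    rw [Finset.sum_ite_eq']
    split_ifs <;> norm_num
  have v3 : ∑ k ∈ Finset.Icc (-(X : ℤ) ^ 2) ((X : ℤ) ^ 2), 1 / |(k : ℝ)| ≤ 2 * L := by
    have h1 := sum_inv_abs (X ^ 2)
    rw [Nat.cast_pow] at h1
    refine h1.trans (mul_le_mul_of_nonneg_left (add_le_add le_rfl (Real.log_le_log ?_ ?_))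
      zero_le_two)
    · have : 0 < X := Nat.sqrt_pos.2 hY
      positivity
    · exact_mod_cast Nat.sqrt_le' Y
  have n1 : 0 ≤ ∑ i ∈ Finset.Icc 1 X, ∑ j ∈ Finset.Icc 1 X, ρ1 i j :=
    Finset.sum_nonneg fun i _ => Finset.sum_nonneg fun j _ => r1 i j
  have n3 : 0 ≤ ∑ i ∈ Finset.Icc 1 X, ∑ j ∈ Finset.Icc 1 X, ρ3 i j :=
    Finset.sum_nonneg fun i _ => Finset.sum_nonneg fun j _ => r3 i j
  have w1 := u1.trans (mul_le_mul (mul_le_mul (mul_le_mul_of_nonneg_left hXW hC1.le) t1 n1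
    (by positivity)) v1 (Finset.sum_nonneg fun k _ => by split_ifs <;> norm_num) (by positivity))
  have w3 := u3.trans (mul_le_mul (mul_le_mul (mul_le_mul_of_nonneg_left hXW hC1.le) t3 n3
    (by positivity)) v3 (Finset.sum_nonneg fun k _ => by positivity) (by positivity))
  refine (ps_gen hS h0 hγ a hℓ).trans ?_
  have hL2 : L ^ 2 ≤ (C2 * W) ^ 2 := pow_le_pow_left₀ (by linarith) hLW 2
  have x1 := mul_le_mul_of_nonneg_left w1 hℓ
  calc _ ≤ ℓ * (C1 * W * (m * L ^ 2) * 1) + 2 * (m * Y * L ^ 2) +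
        2 * (C1 * W * (m * Y * L) * (2 * L)) := by linarith
    _ = (ℓ * (C1 * W) + Y * (2 + 4 * C1 * W)) * m * L ^ 2 := by ring
    _ ≤ (ℓ * ((4 * C1 + 2) * W) + Y * ((4 * C1 + 2) * W)) * m * (C2 * W) ^ 2 := by
        refine mul_le_mul (mul_le_mul_of_nonneg_right (add_le_add
          (mul_le_mul_of_nonneg_left ?_ hℓ) (mul_le_mul_of_nonneg_left ?_ (by linarith))) hm) hL2
          (by positivity) (by positivity)
        · nlinarith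
        · nlinarith
    _ = _ := by rw [hW3]; ring

/- Write `p = (b + h, b)`, `q = (b' + h', b')`, `X = Nat.sqrt Y`; then `1 ≤ h < b ≤ X`, `w0 p ≤ 1 / b`, and
`p.2 * q.1 - p.1 * q.2 = b * h' - b' * h`.  Use `ps_gen` with `om = 1` and `quad` with `x p = p.2`,
`y p = p.1 - p.2`.  First sum: `1 / (b * b') ≤ lam / (b * h')`, `κ k = if k = 0 then 1 else 0`.  Second
sum: `w0 p ≤ 1 / b` for at most `lam * b` values of `h`, so it is at most `lam * X`.  Third sum: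
`ρ b h' = if h' ≤ lam * X then 1 else 0`, `κ k = 1 / |k|`, `sum_inv_abs`. -/
theorem ps_near {ε : ℝ} (hε : 0 < ε) : ∃ C : ℝ, 0 < C ∧ ∀ (Y : ℕ) (S : Finset (ℕ × ℕ))
    (γ : ℕ × ℕ → ℂ) (lam a ℓ : ℝ), 1 ≤ Y → S ⊆ Pr Y → 0 < lam → lam ≤ 1 → 0 ≤ ℓ →
    (∀ p ∈ S, p.2 < p.1 ∧ p.1 < 2 * p.2 ∧ (p.1 : ℝ) - p.2 ≤ lam * p.2) → (∀ p ∈ S, ‖γ p‖ ≤ w0 p) →
    ∫ t in a..a + ℓ, ‖PP γ S t‖ ^ 2 ≤ C * (Y : ℝ) ^ ε * (ℓ + Y) * lam := by
  obtain ⟨C, hC, h⟩ := ps1_core hε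
  refine ⟨C, hC, fun Y S γ lam a ℓ hY hS hl0 hl1 hℓ hp hγ => ?_⟩
  have hY1 : (1 : ℝ) ≤ Y := by exact_mod_cast hY
  have hL1 : 1 ≤ 1 + Real.log Y := le_add_of_nonneg_right (Real.log_nonneg hY1)
  have hmem := fun p (h : p ∈ S) => ps1_mem (hS h) (hp p h).1 (hp p h).2.1
  have hw := fun p (h : p ∈ S) => ps1_w0 (Finset.mem_Icc.1 (hmem p h).1).1 (hp p h).1
  have hh : ∀ p ∈ S, ((p.1 - p.2 : ℕ) : ℝ) ≤ lam * p.2 := fun p h => by
    rw [Nat.cast_sub (hp p h).1.le]; exact (hp p h).2.2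
  have hsq := ps1_sq Y
  set X := Nat.sqrt Y with hX
  have hX0 : (0 : ℝ) ≤ X := Nat.cast_nonneg _
  refine h Y S γ (fun _ => 1) (fun i j => lam * (1 / i * (1 / j)))
    (fun _ j => if (j : ℝ) ≤ lam * X then 1 else 0) lam a ℓ hY hS hl0.le hℓ
    (fun p h => ⟨(hp p h).1, (hp p h).2.1⟩) (fun _ _ => zero_le_one)
    (fun p h => by rw [one_mul]; exact hγ p h) (fun i j => by positivity)
    (fun i j => by split_ifs <;> norm_num) ?_ ?_ ?_ ?_ ?_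
  · intro p hp' q hq
    rw [one_mul, one_mul]
    have h1 : (0 : ℝ) < (q.1 - q.2 : ℕ) := by exact_mod_cast (Finset.mem_Icc.1 (hmem q hq).2).1
    have h2 : (0 : ℝ) < q.2 := by exact_mod_cast (Finset.mem_Icc.1 (hmem q hq).1).1
    have h3 : 1 / (q.2 : ℝ) ≤ lam * (1 / ((q.1 - q.2 : ℕ) : ℝ)) := by
      rw [mul_one_div, div_le_div_iff₀ h2 h1, one_mul]
      exact hh q hq
    calc _ ≤ 1 / (p.2 : ℝ) * (lam * (1 / ((q.1 - q.2 : ℕ) : ℝ))) :=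
          mul_le_mul (hw p hp') ((hw q hq).trans h3) (w0_nonneg _) (by positivity)
      _ = _ := by ring
  · intro p hp' q hq
    have h1 : (q.2 : ℝ) ≤ X := by exact_mod_cast (Finset.mem_Icc.1 (hmem q hq).1).2
    rw [if_pos ((hh q hq).trans (mul_le_mul_of_nonneg_left h1 hl0.le)), mul_one]
  · simp only [← Finset.mul_sum]
    rw [← Finset.sum_mul, ← sq]
    exact mul_le_mul_of_nonneg_left (pow_le_pow_left₀
      (Finset.sum_nonneg fun _ _ => by positivity) (ps1_harm hY) 2) hl0.le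
  · have h1 : ∑ p ∈ S, 1 * w0 p ≤ lam * X := by
      refine (ps1_single (fun p h => (hp p h).1) hmem
        (σ := fun i j => 1 / (i : ℝ) * if (j : ℝ) ≤ lam * i then 1 else 0)
        (fun i j => mul_nonneg (by positivity) (by split_ifs <;> norm_num)) ?_).trans ?_
      · intro p hp'
        rw [if_pos (hh p hp'), one_mul, mul_one]
        exact hw p hp'
      · refine (Finset.sum_le_card_nsmul _ _ lam fun i hi => ?_).trans ?_
        · have h2 : (0 : ℝ) < i := by exact_mod_cast (Finset.mem_Icc.1 hi).1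
          rw [← Finset.mul_sum]
          refine (mul_le_mul_of_nonneg_left (ps1_count X (by positivity)) (by positivity)).trans
            (le_of_eq ?_)
          field_simp
        · rw [Nat.card_Icc, Nat.add_sub_cancel, nsmul_eq_mul, mul_comm]
    have h2 := pow_le_pow_left₀ (Finset.sum_nonneg fun p _ => by
      rw [one_mul]; exact w0_nonneg p) h1 2
    have h3 : 1 ≤ (1 + Real.log Y) ^ 2 := one_le_pow₀ hL1
    calc _ ≤ (lam * X) ^ 2 := h2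
      _ = lam * (lam * (X * X)) := by ring
      _ ≤ lam * (1 * Y) := mul_le_mul_of_nonneg_left
          (mul_le_mul hl1 hsq (by positivity) zero_le_one) hl0.le
      _ = lam * Y * 1 := by ring
      _ ≤ _ := mul_le_mul_of_nonneg_left h3 (by positivity)
  · refine (Finset.sum_le_card_nsmul _ _ (lam * X) fun i _ =>
      ps1_count X (by positivity)).trans ?_
    rw [Nat.card_Icc, Nat.add_sub_cancel, nsmul_eq_mul]
    calc (X : ℝ) * (lam * X) = lam * (X * X) * 1 := by ring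
      _ ≤ _ := mul_le_mul (mul_le_mul_of_nonneg_left hsq hl0.le) hL1 zero_le_one (by positivity)

/- As above with `om p = b / h ≤ 1 / lam`, `om p * w0 p ≤ 1 / h`.  First sum:
`1 / (h * h') ≤ 1 / (lam * b * h')`.  Second sum: at most `X * (1 + log X)`.  Third sum:
`(b / h) * (b' / h') ≤ X / (lam * h')`. -/
theorem ps_mid {ε : ℝ} (hε : 0 < ε) : ∃ C : ℝ, 0 < C ∧ ∀ (Y : ℕ) (S : Finset (ℕ × ℕ))
    (γ : ℕ × ℕ → ℂ) (lam a ℓ : ℝ), 1 ≤ Y → S ⊆ Pr Y → 0 < lam → lam ≤ 1 → 0 ≤ ℓ →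
    (∀ p ∈ S, p.2 < p.1 ∧ p.1 < 2 * p.2 ∧ lam * p.2 ≤ (p.1 : ℝ) - p.2) →
    (∀ p ∈ S, ‖γ p‖ ≤ p.2 / ((p.1 : ℝ) - p.2) * w0 p) →
    ∫ t in a..a + ℓ, ‖PP γ S t‖ ^ 2 ≤ C * (Y : ℝ) ^ ε * (ℓ + Y) / lam := by
  obtain ⟨C, hC, h⟩ := ps1_core hε
  refine ⟨C, hC, fun Y S γ lam a ℓ hY hS hl0 hl1 hℓ hp hγ => ?_⟩
  have hY1 : (1 : ℝ) ≤ Y := by exact_mod_cast hY
  have hL1 : 1 ≤ 1 + Real.log Y := le_add_of_nonneg_right (Real.log_nonneg hY1)
  have hmem := fun p (h : p ∈ S) => ps1_mem (hS h) (hp p h).1 (hp p h).2.1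
  have hw := fun p (h : p ∈ S) => ps1_w0 (Finset.mem_Icc.1 (hmem p h).1).1 (hp p h).1
  have hc : ∀ p ∈ S, ((p.1 - p.2 : ℕ) : ℝ) = (p.1 : ℝ) - p.2 := fun p h =>
    Nat.cast_sub (hp p h).1.le
  have hh0 : ∀ p ∈ S, (0 : ℝ) < (p.1 : ℝ) - p.2 := fun p h => by
    rw [← hc p h]; exact_mod_cast (Finset.mem_Icc.1 (hmem p h).2).1
  have hb0 : ∀ p ∈ S, (0 : ℝ) < p.2 := fun p h => by
    exact_mod_cast (Finset.mem_Icc.1 (hmem p h).1).1
  have how : ∀ p ∈ S, p.2 / ((p.1 : ℝ) - p.2) * w0 p ≤ 1 / ((p.1 : ℝ) - p.2) := fun p h => by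
    have h1 := hh0 p h
    have h2 := hb0 p h
    refine (mul_le_mul_of_nonneg_left (hw p h) (by positivity)).trans (le_of_eq ?_)
    field_simp
  have hsq := ps1_sq Y
  have hH := ps1_harm hY
  set X := Nat.sqrt Y with hX
  have hX0 : (0 : ℝ) ≤ X := Nat.cast_nonneg _
  have hli : 1 ≤ lam⁻¹ := (one_le_inv₀ hl0).2 hl1
  rw [div_eq_mul_inv]
  refine h Y S γ (fun p => p.2 / ((p.1 : ℝ) - p.2)) (fun i j => lam⁻¹ * (1 / i * (1 / j)))
    (fun _ j => lam⁻¹ * X * (1 / j)) lam⁻¹ a ℓ hY hS (by positivity) hℓ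
    (fun p h => ⟨(hp p h).1, (hp p h).2.1⟩) (fun p h => div_nonneg (hb0 p h).le (hh0 p h).le)
    hγ (fun i j => by positivity) (fun i j => by positivity) ?_ ?_ ?_ ?_ ?_
  · intro p hp' q hq
    have h1 := hh0 p hp'
    have h2 := hb0 p hp'
    have h3 : 1 / ((p.1 : ℝ) - p.2) ≤ lam⁻¹ * (1 / p.2) := by
      rw [← one_div, div_mul_div_comm, one_mul]
      exact one_div_le_one_div_of_le (by positivity) (hp p hp').2.2
    rw [hc q hq, ← mul_assoc lam⁻¹]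
    exact mul_le_mul ((how p hp').trans h3) (how q hq)
      (mul_nonneg (div_nonneg (hb0 q hq).le (hh0 q hq).le) (w0_nonneg _)) (by positivity)
  · intro p hp' q hq
    have h1 := hh0 p hp'
    have h2 := hh0 q hq
    have h3 : p.2 / ((p.1 : ℝ) - p.2) ≤ lam⁻¹ := by
      rw [← one_div, div_le_div_iff₀ h1 hl0, one_mul, mul_comm]
      exact (hp p hp').2.2
    have h4 : (q.2 : ℝ) ≤ X := by exact_mod_cast (Finset.mem_Icc.1 (hmem q hq).1).2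
    rw [hc q hq, mul_assoc, mul_one_div]
    exact mul_le_mul h3 (div_le_div_of_nonneg_right h4 h2.le)
      (div_nonneg (hb0 q hq).le h2.le) (by positivity)
  · simp only [← Finset.mul_sum]
    rw [← Finset.sum_mul, ← sq]
    exact mul_le_mul_of_nonneg_left (pow_le_pow_left₀
      (Finset.sum_nonneg fun _ _ => by positivity) hH 2) (by positivity)
  · have h1 : ∑ p ∈ S, p.2 / ((p.1 : ℝ) - p.2) * w0 p ≤ X * (1 + Real.log Y) := by
      refine (ps1_single (fun p h => (hp p h).1) hmem (σ := fun _ j => 1 / (j : ℝ))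
        (fun i j => by positivity) ?_).trans ?_
      · intro p hp'
        rw [hc p hp']
        exact how p hp'
      · refine (Finset.sum_le_card_nsmul _ _ _ fun i _ => hH).trans ?_
        rw [Nat.card_Icc, Nat.add_sub_cancel, nsmul_eq_mul]
    have h2 := pow_le_pow_left₀ (Finset.sum_nonneg fun p hp' =>
      mul_nonneg (div_nonneg (hb0 p hp').le (hh0 p hp').le) (w0_nonneg p)) h1 2
    calc _ ≤ (X * (1 + Real.log Y)) ^ 2 := h2
      _ = 1 * (X * X) * (1 + Real.log Y) ^ 2 := by ring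
      _ ≤ _ := mul_le_mul_of_nonneg_right (mul_le_mul hli hsq (by positivity) (by positivity))
          (by positivity)
  · simp only [← Finset.mul_sum]
    rw [Finset.sum_const, Nat.card_Icc, Nat.add_sub_cancel, nsmul_eq_mul]
    calc _ = lam⁻¹ * (X * X) * ∑ j ∈ Finset.Icc 1 X, (1 : ℝ) / j := by ring
      _ ≤ _ := mul_le_mul (mul_le_mul_of_nonneg_left hsq (by positivity)) hH
          (Finset.sum_nonneg fun _ _ => by positivity) (by positivity)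

end Pool.Agent.Lib.MP_2a1a00_nt
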