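import Pool.Agent.Lib.MP_2a1a00_nt.En2
import Pool.Agent.Lib.MP_2a1a00_nt.Rep
import Pool.Agent.Lib.MP_2a1a00_nt.Mul
import Pool.Agent.Lib.MP_2a1a00_nt.X

/-! Mean squares of the smoothed error terms. -/

namespace Pool.Agent.Lib.MP_2a1a00_nt

open Complex MeasureTheory Set

theorem pk1_min {δ U V : ℝ} (h0 : 0 ≤ δ) (h1 : δ ≤ 2) (hU : 1 ≤ U) (hV : 1 ≤ V) :
    U ^ δ * min 1 (V / U) ^ 2 ≤ V ^ δ := by
  have h := rpow_min_le h0 h1 hU hV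
  rwa [Real.rpow_two] at h

theorem pk1_inv {U V : ℝ} (hU : 1 ≤ U) (hV : 1 ≤ V) :
    (V + U)⁻¹ ^ 2 * U ≤ 1 / V ∧ (V + U)⁻¹ ^ 2 * U ^ 2 ≤ 1 := by
  have h : 0 < (V + U) ^ 2 := by positivity
  rw [inv_pow, inv_mul_eq_div, inv_mul_eq_div, div_le_div_iff₀ h (by linarith), div_le_one h]
  constructor <;> nlinarith

theorem pk1_sqrt {T V : ℝ} (hT : 1 ≤ T) : √(T * (T / V)) = T / √V := by
  rw [← mul_div_assoc, Real.sqrt_div (by positivity), Real.sqrt_mul_self (by linarith)]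

theorem pk1_pow {d U : ℝ} {n : ℕ} (hU : 1 ≤ U) (h : d ≤ n) : U ^ d ≤ U ^ n := by
  rw [← Real.rpow_natCast]
  exact Real.rpow_le_rpow_of_exponent_le hU h

namespace Sel

variable (F : Sel)

/- `en_sq` with `ε / 2` (`adm_mu1`), `dy` with `ε / 2` for `f t = ‖Psi t‖ₑ ^ 2`, then `rep`, `l2`,
`continuous_four`, `x_l2`. -/
theorem sq_gen {ε : ℝ} (h0 : 0 < ε) (h1 : ε ≤ 1) : ∃ C : ℝ, 0 < C ∧
    ∀ (α β V W T Z : ℝ) (μ : ℝ → ℝ), |α + β| ≤ 1 → 1 ≤ V → 1 ≤ W → 1 ≤ T → 1 ≤ Z →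
    (∀ U : ℝ, 1 ≤ U → 0 ≤ μ U ∧ HM (mu1 α β V W) U (μ U) ∧ U ^ ε * (μ U ^ 2 * bb F.deg T U) ≤ Z) →
    Sq (fun x => α * F.A V x + β * F.A W x) T ≤ C * T * Z := by
  obtain ⟨C₁, hC₁, k1⟩ := F.en_sq (half_pos h0)
  obtain ⟨C₂, hC₂, k2⟩ := dy (half_pos h0)
  obtain ⟨C₃, hC₃, k3⟩ := l2
  obtain ⟨C₄, hC₄, k4⟩ := x_l2
  refine ⟨C₄ * (C₃ * (C₂ * (C₁ * 2))), by positivity, fun α β V W T Z μ hab hV hW hT hZ h => ?_⟩
  obtain ⟨r1, r2⟩ := F.rep α β hV hW hT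
  have h2 := k2 (fun t => ‖F.Psi (mu1 α β V W) T t‖ₑ ^ 2) (C₁ * 2 * Z) (by positivity) fun U hU => by
    obtain ⟨m1, m2, m3⟩ := h U hU
    refine (k1 _ T U _ (adm_mu1 hab hV hW) hT hU m1 m2).trans (ENNReal.ofReal_le_ofReal ?_)
    have hU0 : 0 < U := by linarith
    have e1 : U ^ (ε / 2) = U ^ ε * U ^ (-(ε / 2)) := by
      rw [← Real.rpow_add hU0]; congr 1; ring
    have e2 : U ^ ε * U ^ (-3 : ℝ) ≤ 1 := by
      rw [← Real.rpow_add hU0]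
      exact Real.rpow_le_one_of_one_le_of_nonpos hU (by linarith)
    calc C₁ * U ^ (ε / 2) * (μ U ^ 2 * bb F.deg T U + U ^ (-3 : ℝ))
        = C₁ * U ^ (-(ε / 2)) * (U ^ ε * (μ U ^ 2 * bb F.deg T U) + U ^ ε * U ^ (-3 : ℝ)) := by
          rw [e1]; ring
      _ ≤ C₁ * U ^ (-(ε / 2)) * (2 * Z) := mul_le_mul_of_nonneg_left (by linarith) (by positivity)
      _ = _ := by ring
  have h3 := k3 _ _ (Real.log T) r1 (by positivity) h2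
  exact (k4 _ _ T _ hT (continuous_four r1) r2 h3).trans (le_of_eq (by ring))

theorem pk1_nm {ε : ℝ} (hε : 0 < ε) : ∃ δ : ℝ, 0 < δ ∧ δ ≤ 1 ∧ ∀ K : ℝ, 0 ≤ K → ∃ C : ℝ, 0 < C ∧
    ∀ (α β V W T Y : ℝ) (μ : ℝ → ℝ), |α + β| ≤ 1 → 1 ≤ V → 1 ≤ W → 1 ≤ T → 1 ≤ Y →
    (∀ U : ℝ, 1 ≤ U → 0 ≤ μ U ∧ HM (mu1 α β V W) U (μ U) ∧
      U ^ δ * (μ U ^ 2 * bb F.deg T U) ≤ K * (T ^ δ * Y)) →
    nm (fun x => α * F.A V x + β * F.A W x) T ≤ C * T ^ ε * √(T * Y) := by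
  have h0 : 0 < min ε 1 := lt_min hε one_pos
  obtain ⟨C, hC, k⟩ := F.sq_gen h0 (min_le_right _ _)
  refine ⟨min ε 1, h0, min_le_right _ _, fun K hK => ⟨C * (K + 1) + 1, by positivity,
    fun α β V W T Y μ hab hV hW hT hY h => ?_⟩⟩
  have t1 : 1 ≤ T ^ min ε 1 := Real.one_le_rpow hT h0.le
  have t2 : T ^ min ε 1 ≤ T ^ ε := Real.rpow_le_rpow_of_exponent_le hT (min_le_left _ _)
  have t3 : 1 ≤ T ^ min ε 1 * Y := one_le_mul_of_one_le_of_one_le t1 hY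
  have h1 := k α β V W T ((K + 1) * (T ^ min ε 1 * Y)) μ hab hV hW hT
    (one_le_mul_of_one_le_of_one_le (by linarith) t3) fun U hU =>
      ⟨(h U hU).1, (h U hU).2.1, (h U hU).2.2.trans (by nlinarith)⟩
  refine nm_le_of_sq (by positivity) (h1.trans ?_)
  rw [mul_pow, mul_pow, Real.sq_sqrt (by positivity)]
  have t4 : T ^ min ε 1 ≤ (T ^ ε) ^ 2 := by nlinarith
  have t5 : C * (K + 1) ≤ (C * (K + 1) + 1) ^ 2 := by nlinarith [mul_pos hC (show 0 < K + 1 by linarith)]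
  calc C * T * ((K + 1) * (T ^ min ε 1 * Y)) = C * (K + 1) * T ^ min ε 1 * (T * Y) := by ring
    _ ≤ _ := by gcongr

/- Reduce to `ε ≤ 1`.  `sq_gen` with `hm_b`, `bb ≤ T * U + U ^ 3`;
`U ^ ε * U / (V + U) ^ 2 ≤ (V + U) ^ (ε - 1) ≤ T ^ ε / V`, and
`U ^ ε * U * min 1 (W / U) ^ 2 ≤ W ^ (1 + ε)` (`rpow_min_le`). -/
theorem sq_diff3 (h : F.deg ≤ 3) {ε : ℝ} (hε : 0 < ε) : ∃ C : ℝ, 0 < C ∧ ∀ V W T : ℝ, 1 ≤ V → V ≤ W →
    W ≤ T → nm (fun x => F.A W x - F.A V x) T ≤ C * T ^ ε * √(T * (T / V + W)) := by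
  obtain ⟨δ, h0, h1, k⟩ := F.pk1_nm hε
  obtain ⟨B, hB, kb⟩ := hm_b
  obtain ⟨C, hC, k⟩ := k (B ^ 2) (by positivity)
  refine ⟨C, hC, fun V W T hV hW hT => ?_⟩
  have hW1 : 1 ≤ W := hV.trans hW
  have hT1 : 1 ≤ T := hW1.trans hT
  have h2 := k 1 (-1) W V T (T / V + W) (fun U => B * (V + U)⁻¹ * min 1 (W / U)) (by simp) hW1 hV hT1
    (le_add_of_nonneg_of_le (by positivity) hW1) fun U hU => ⟨by positivity, kb V W U hV hW hU, ?_⟩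
  · refine le_trans (le_of_eq ?_) h2
    congr 1
    funext x
    push_cast
    ring
  have hU0 : 0 < U := by linarith
  have b1 : bb F.deg T U ≤ T * U + U ^ 3 :=
    add_le_add (min_le_left _ _) (pk1_pow hU (by exact_mod_cast h))
  have t1 : W ^ δ ≤ T ^ δ := Real.rpow_le_rpow (by linarith) hT h0.le
  have m1 := (pk1_min h0.le (by linarith) hU hW1).trans t1
  have m2 := pk1_min (δ := δ + 1) (by linarith) (by linarith) hU hW1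
  rw [Real.rpow_add_one hU0.ne', Real.rpow_add_one (by linarith)] at m2
  obtain ⟨i1, i2⟩ := pk1_inv hU hV
  calc U ^ δ * ((B * (V + U)⁻¹ * min 1 (W / U)) ^ 2 * bb F.deg T U)
      ≤ U ^ δ * ((B * (V + U)⁻¹ * min 1 (W / U)) ^ 2 * (T * U + U ^ 3)) := by gcongr
    _ = B ^ 2 * (U ^ δ * min 1 (W / U) ^ 2 * (T * ((V + U)⁻¹ ^ 2 * U)) +
        U ^ δ * U * min 1 (W / U) ^ 2 * ((V + U)⁻¹ ^ 2 * U ^ 2)) := by ring
    _ ≤ B ^ 2 * (T ^ δ * (T * (1 / V)) + T ^ δ * W * 1) := by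
        have m3 : U ^ δ * U * min 1 (W / U) ^ 2 ≤ T ^ δ * W := m2.trans (by gcongr)
        refine mul_le_mul_of_nonneg_left (add_le_add ?_ ?_) (by positivity)
        · exact mul_le_mul m1 (by gcongr) (by positivity) (by positivity)
        · exact mul_le_mul m3 i2 (by positivity) (by positivity)
    _ = _ := by ring

/- The same with `W = T` and `bb ≤ T * U + U ^ 2`; `U ^ ε * min 1 (T / U) ^ 2 ≤ T ^ ε ≤ T ^ ε * (T / V)`. -/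
theorem sq_diff2 (h : F.deg ≤ 2) {ε : ℝ} (hε : 0 < ε) : ∃ C : ℝ, 0 < C ∧ ∀ V T : ℝ, 1 ≤ V → V ≤ T →
    nm (fun x => F.A T x - F.A V x) T ≤ C * T ^ ε * (T / √V) := by
  obtain ⟨δ, h0, h1, k⟩ := F.pk1_nm hε
  obtain ⟨B, hB, kb⟩ := hm_b
  obtain ⟨C, hC, k⟩ := k (B ^ 2 * 2) (by positivity)
  refine ⟨C, hC, fun V T hV hT => ?_⟩
  have hT1 : 1 ≤ T := hV.trans hT
  have hY : 1 ≤ T / V := (one_le_div (by linarith)).2 hT
  have h2 := k 1 (-1) T V T (T / V) (fun U => B * (V + U)⁻¹ * min 1 (T / U)) (by simp) hT1 hV hT1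
    hY fun U hU => ⟨by positivity, kb V T U hV hT hU, ?_⟩
  · rw [pk1_sqrt hT1] at h2
    refine le_trans (le_of_eq ?_) h2
    congr 1
    funext x
    push_cast
    ring
  have b1 : bb F.deg T U ≤ T * U + U ^ 2 :=
    add_le_add (min_le_left _ _) (pk1_pow hU (by exact_mod_cast h))
  have m1 := pk1_min h0.le (by linarith) hU hT1
  obtain ⟨i1, i2⟩ := pk1_inv hU hV
  calc U ^ δ * ((B * (V + U)⁻¹ * min 1 (T / U)) ^ 2 * bb F.deg T U)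
      ≤ U ^ δ * ((B * (V + U)⁻¹ * min 1 (T / U)) ^ 2 * (T * U + U ^ 2)) := by gcongr
    _ = B ^ 2 * (U ^ δ * min 1 (T / U) ^ 2 * (T * ((V + U)⁻¹ ^ 2 * U) + (V + U)⁻¹ ^ 2 * U ^ 2)) := by
        ring
    _ ≤ B ^ 2 * (T ^ δ * (T * (1 / V) + T / V)) := by
        gcongr
        exact i2.trans hY
    _ = _ := by ring

/- `sq_gen` with `hm_a`, `V = √T`, `bb ≤ min (T * U) (U ^ 5 / T) + U ^ 2`.  For `U ≤ V` use `U ^ 5 / T`, for
`V ≤ U` use `T * U`: in both cases `U ^ ε * U⁻¹ ^ 2 * min .. ≤ V ^ ε * (T / V)`. -/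
theorem sq_low2 (h : F.deg ≤ 2) {ε : ℝ} (hε : 0 < ε) : ∃ C : ℝ, 0 < C ∧ ∀ T : ℝ, 1 ≤ T →
    nm (F.A √T) T ≤ C * T ^ ε * (T / √√T) := by
  obtain ⟨δ, h0, h1, k⟩ := F.pk1_nm hε
  obtain ⟨B, hB, ka⟩ := hm_a
  obtain ⟨C, hC, k⟩ := k (B ^ 2 * 2) (by positivity)
  refine ⟨C, hC, fun T hT => ?_⟩
  have hV : 1 ≤ √T := Real.one_le_sqrt.2 hT
  have hs : √T * √T = T := Real.mul_self_sqrt (by linarith)
  rw [← pk1_sqrt hT]
  generalize √T = V at *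
  have hVT : V ≤ T := by nlinarith
  have hY : 1 ≤ T / V := (one_le_div (by linarith)).2 hVT
  have h2 := k 1 0 V V T (T / V) (fun U => B * U⁻¹ * min 1 (V / U)) (by simp) hV hV hT
    hY fun U hU => ⟨by positivity, ka V U hV hU, ?_⟩
  · refine le_trans (le_of_eq ?_) h2
    congr 1
    funext x
    push_cast
    ring
  have hU0 : 0 < U := by linarith
  have b0 : min (T * U) (U ^ (2 * F.deg + 1) / T) ≤ T / V * U ^ 2 := by
    rcases le_total U V with hUV | hUV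
    · refine (min_le_right _ _).trans ?_
      have e : T / V = V ^ 3 / T := by rw [← hs]; field_simp
      calc U ^ (2 * F.deg + 1) / T ≤ U ^ 5 / T := by
            gcongr
            exact pk1_pow hU (by push_cast; linarith)
        _ = U ^ 3 / T * U ^ 2 := by ring
        _ ≤ _ := by rw [e]; gcongr
    · refine (min_le_left _ _).trans ?_
      calc T * U = T / U * U ^ 2 := by field_simp
        _ ≤ _ := by gcongr
  have b1 : bb F.deg T U ≤ T / V * U ^ 2 + U ^ 2 := add_le_add b0 (pk1_pow hU (by exact_mod_cast h))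
  have m1 := (pk1_min h0.le (by linarith) hU hV).trans (Real.rpow_le_rpow (by linarith) hVT h0.le)
  calc U ^ δ * ((B * U⁻¹ * min 1 (V / U)) ^ 2 * bb F.deg T U)
      ≤ U ^ δ * ((B * U⁻¹ * min 1 (V / U)) ^ 2 * (T / V * U ^ 2 + U ^ 2)) := by gcongr
    _ = B ^ 2 * (U ^ δ * min 1 (V / U) ^ 2 * (T / V + 1)) := by field_simp
    _ ≤ B ^ 2 * (T ^ δ * (T / V + T / V)) := by gcongr
    _ = _ := by ring

end Sel

end Pool.Agent.Lib.MP_2a1a00_nt
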