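import Pool.Agent.Lib.MP_2a1a00_nt.Res
import Pool.Agent.Lib.MP_2a1a00_nt.Chi
import Pool.Agent.Lib.MP_2a1a00_nt.MvtD

/-! Moving the line of integration in the localised Mellin transform. -/

namespace Pool.Agent.Lib.MP_2a1a00_nt

open Complex MeasureTheory Set

theorem rep2_dec {h : ℂ → ℂ} {a b T C K : ℝ} (t : ℝ) (hT : 1 ≤ T) (ha : -2 ≤ a) (hb : b ≤ 2)
    (hd : DifferentiableOn ℂ h (St a b)) (hh : ∀ s ∈ St a b, ‖h s‖ ≤ C * (1 + |s.im|) ^ K) :
    Dec (fun s => h s * ker T t s) a b := by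
  refine dec_of_gauss (hd.mul (differentiable_ker T t).differentiableOn)
    (C := C * (T ^ (2 : ℝ) * Real.exp 4)) (K := K) (t := t) fun s hs => ?_
  have h1 : ‖ker T t s‖ ≤ T ^ (2 : ℝ) * Real.exp 4 * Real.exp (-(s.im - t) ^ 2) := by
    rw [norm_ker (by linarith), mul_assoc, ← Real.exp_add]
    refine mul_le_mul (Real.rpow_le_rpow_of_exponent_le hT (hs.2.trans hb))
      (Real.exp_le_exp.2 ?_) (Real.exp_pos _).le (by positivity)
    nlinarith [hs.1, hs.2]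
  rw [norm_mul]
  refine (mul_le_mul (hh s hs) h1 (norm_nonneg _) ((norm_nonneg _).trans (hh s hs))).trans
    (le_of_eq ?_)
  ring

theorem rep2_intg {k : ℝ → ℝ} (hk : Continuous k) {A D : ℝ} (h0 : ∀ v, 0 ≤ k v)
    (h : ∀ v, k v ≤ A * (1 + |v|) ^ D) : Integrable fun v : ℝ => k v * Real.exp (-v ^ 2 / 2) := by
  refine ((integrable_gauss_poly D).const_mul A).mono'
    (hk.mul (by fun_prop)).aestronglyMeasurable (Filter.Eventually.of_forall fun v => ?_)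
  rw [Real.norm_of_nonneg (mul_nonneg (h0 v) (Real.exp_pos _).le), ← mul_assoc]
  exact mul_le_mul_of_nonneg_right (h v) (Real.exp_pos _).le

theorem rep2_line (D : ℝ) : ∃ C : ℝ, 0 < C ∧ ∀ (m₁ P : ℂ → ℂ) (T U μ t A σ : ℝ) (k : ℝ → ℝ),
    1 ≤ T → 0 ≤ μ → HM m₁ U μ → t ∈ Bl U → (σ = 1 / 2 ∨ σ = -1 / 2) →
    (Integrable fun v : ℝ => k v * Real.exp (-v ^ 2 / 2)) →
    (∀ v : ℝ, ‖P (σ + (t + v : ℝ) * I)‖ ≤ A * k v * (1 + |v|) ^ D) →
    ‖Ln (fun s => P s * (m₁ s / s * ker T t s)) σ‖ ≤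
      C * μ * (A * T ^ σ * ∫ v : ℝ, k v * Real.exp (-v ^ 2 / 2)) := by
  obtain ⟨C, hC, h⟩ := gauss_absorb (D + 3)
  refine ⟨Real.exp (1 / 4) * C, by positivity, fun m₁ P T U μ t A σ k hT hμ hm ht hσ hk hP => ?_⟩
  rw [← integral_const_mul, ← integral_const_mul]
  refine norm_Ln_le t ((hk.const_mul _).const_mul _) fun v => ?_
  have v0 : 0 < 1 + |v| := by positivity
  have h0 : 0 ≤ A * k v :=
    nonneg_of_mul_nonneg_left ((norm_nonneg _).trans (hP v)) (Real.rpow_pos_of_pos v0 D)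
  have h1 : ‖ker T t (σ + (t + v : ℝ) * I)‖ = T ^ σ * (Real.exp (1 / 4) * Real.exp (-v ^ 2)) := by
    rw [norm_ker (by linarith), ← Real.exp_add]
    have : σ ^ 2 = 1 / 4 := by rcases hσ with rfl | rfl <;> norm_num
    simp [this, sub_eq_add_neg]
  have h2 := h v
  rw [Real.rpow_add v0, Real.rpow_ofNat] at h2
  rw [norm_mul, norm_mul, h1]
  have T0 : 0 ≤ T ^ σ := by positivity
  refine (mul_le_mul (hP v) (mul_le_mul_of_nonneg_right (hm t ht v σ hσ) (by positivity))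
    (by positivity) (by positivity)).trans ?_
  have h3 := mul_le_mul_of_nonneg_left h2
    (by positivity : 0 ≤ A * k v * μ * T ^ σ * Real.exp (1 / 4))
  linarith

theorem rep2_abs (t v : ℝ) : 1 + |t + v| ≤ jb t * (1 + |v|) := by
  rw [jb]
  nlinarith [abs_add_le t v, abs_nonneg t, abs_nonneg v]

theorem rep2_adm {m₁ : ℂ → ℂ} (hm : Adm m₁) {a b : ℝ} (ha : -1 / 2 ≤ a) :
    DifferentiableOn ℂ m₁ (St a b) :=
  hm.diff.mono fun s hs => by
    have := hs.1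
    simp only [mem_ofPred_eq]
    linarith

namespace Sel

variable (F : Sel) {m₁ : ℂ → ℂ} {T : ℝ}

theorem rep2_L : ∃ C K : ℝ, 0 < C ∧ 0 ≤ K ∧ ∀ s ∈ St (-1 / 2) (1 / 2),
    ‖F.L s‖ ≤ C * (1 + |s.im|) ^ K := by
  obtain ⟨C, K, hC, hK, h⟩ := F.growth
  refine ⟨C / (1 / 2) ^ F.m, K, by positivity, hK, fun s hs => ?_⟩
  have h1 : 1 / 2 ≤ ‖s - 1‖ := by
    have h2 := abs_re_le_norm (s - 1)
    have h3 := neg_abs_le (s - 1).re
    have h4 := hs.2
    rw [sub_re, one_re] at h2 h3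
    linarith
  rw [L, norm_div, norm_pow, div_mul_eq_mul_div]
  exact div_le_div₀ (by positivity) (h s ⟨hs.1, hs.2.trans (by norm_num)⟩) (by positivity)
    (pow_le_pow_left₀ (by norm_num) h1 _)

theorem rep2_Hd (N : ℕ) : ∃ C : ℝ, ∀ s : ℂ, s.re ≤ 1 → ‖F.Hd N s‖ ≤ C := by
  refine ⟨∑ n ∈ Finset.Icc 1 N, ‖F.f n‖, fun s hs => (norm_sum_le _ _).trans
    (Finset.sum_le_sum fun n hn => ?_)⟩
  have h1 := (Finset.mem_Icc.1 hn).1
  rw [norm_mul, RCLike.norm_conj, norm_natCast_cpow_of_pos h1]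
  exact mul_le_of_le_one_right (norm_nonneg _) (Real.rpow_le_one_of_one_le_of_nonpos
    (by exact_mod_cast h1) (by simpa using hs))

/- `Dec.pole` with `g s = G s * (m₁ s / s * ker T t s)`, `a = 1 / 2`, `b = 2`, `c = 1`, `r = 1 / 2`;
`growth`, `norm_ker`, `dec_of_gauss`. -/
theorem psi_half (hm : Adm m₁) (hT : 1 ≤ T) (t : ℝ) :
    F.Psi m₁ T t = Ln (fun s => F.L s * (m₁ s / s * ker T t s)) (1 / 2) := by
  obtain ⟨C, K, hC, -, h⟩ := F.growth
  obtain ⟨B, hB⟩ := hm.bdd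
  have h0 : ∀ s ∈ St (1 / 2) 2, 1 / 2 ≤ ‖s‖ := fun s hs => hs.1.trans (re_le_norm s)
  have h1 : Dec (fun s => F.G s * (m₁ s / s) * ker T t s) (1 / 2) 2 := by
    refine rep2_dec t hT (by norm_num) le_rfl (F.ent.differentiableOn.mul
      ((rep2_adm hm (by norm_num)).div differentiableOn_id fun s hs h2 => ?_))
      (C := C * (B / (1 / 2))) (K := K) fun s hs => ?_
    · have h3 := h0 s hs
      rw [show s = 0 from h2] at h3
      norm_num at h3
    · have h3 := hB s (le_trans (by norm_num) hs.1)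
      rw [norm_mul, norm_div, mul_right_comm]
      exact mul_le_mul (h s ⟨le_trans (by norm_num) hs.1, hs.2⟩)
        (div_le_div₀ ((norm_nonneg _).trans h3) h3 (by norm_num) (h0 s hs)) (by positivity)
        (by positivity)
  have h2 := h1.pole (c := 1) (r := 1 / 2) (by norm_num) (by norm_num) (by norm_num) F.m
  have h3 : (fun s => F.G s * (m₁ s / s) * ker T t s / (s - (1 : ℝ)) ^ F.m) =
      fun s => F.L s * (m₁ s / s * ker T t s) := funext fun s => by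
    rw [L, ofReal_one]
    ring
  rw [h3, ofReal_one] at h2
  rw [Psi, res, ← h2, sub_sub_cancel]

/- `Dec.simple` on the strip `[-1 / 2, 1 / 2]` for `L * m₁ * ker` and for `chi * Hd N * m₁ * ker`; on the
line `-1 / 2` use `fe'` and `Hd_add_Tl`. -/
theorem psi_split (hm : Adm m₁) (hT : 1 ≤ T) (t : ℝ) (N : ℕ) : F.Psi m₁ T t =
    Ln (fun s => F.chi s * F.Tl N s * (m₁ s / s * ker T t s)) (-1 / 2) +
      Ln (fun s => F.chi s * F.Hd N s * (m₁ s / s * ker T t s)) (1 / 2) +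
      (F.L 0 - F.chi 0 * F.Hd N 0) * m₁ 0 * ker T t 0 := by
  obtain ⟨C, K, hC, -, h⟩ := F.rep2_L
  obtain ⟨C', hC', h'⟩ := F.chi_le
  obtain ⟨B, hB⟩ := hm.bdd
  obtain ⟨H, hH⟩ := F.rep2_Hd N
  have h1 : Dec (fun s => F.L s * m₁ s * ker T t s) (-1 / 2) (1 / 2) := by
    refine rep2_dec t hT (by norm_num) (by norm_num) (DifferentiableOn.mul
      (fun s hs => (F.differentiableAt_L fun h2 => ?_).differentiableWithinAt) (rep2_adm hm le_rfl))
      (C := C * B) (K := K) fun s hs => ?_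
    · have h3 := hs.2
      rw [h2] at h3
      norm_num at h3
    · rw [norm_mul, mul_right_comm]
      exact mul_le_mul (h s hs) (hB s hs.1) (norm_nonneg _) (by positivity)
  have h2 : Dec (fun s => F.chi s * F.Hd N s * m₁ s * ker T t s) (-1 / 2) (1 / 2) := by
    refine rep2_dec t hT (by norm_num) (by norm_num) (((F.chi_diff.mono fun s hs =>
      hs.2.trans_lt (by norm_num)).mul (F.differentiable_Hd N).differentiableOn).mul
      (rep2_adm hm le_rfl)) (C := C' * H * B) (K := F.deg) fun s hs => ?_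
    have h3 := hH s (hs.2.trans (by norm_num))
    have h4 := (norm_nonneg _).trans h3
    rw [norm_mul, norm_mul, mul_right_comm _ B, mul_right_comm _ H]
    exact mul_le_mul (mul_le_mul (h' s hs) h3 (norm_nonneg _) (by positivity)) (hB s hs.1)
      (norm_nonneg _) (by positivity)
  have e1 := h1.simple (by norm_num) (by norm_num)
  have e2 := h2.simple (by norm_num) (by norm_num)
  have i1 := h1.integrable_div (σ := -1 / 2) (c := 0) le_rfl (by norm_num) (by norm_num) 1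
  have i2 := h2.integrable_div (σ := -1 / 2) (c := 0) le_rfl (by norm_num) (by norm_num) 1
  simp only [ofReal_zero, sub_zero, pow_one] at i1 i2
  have e3 := Ln_sub (g₁ := fun s => F.L s * m₁ s * ker T t s / s)
    (g₂ := fun s => F.chi s * F.Hd N s * m₁ s * ker T t s / s) i1 i2
  have e4 : Ln (fun s => F.chi s * F.Tl N s * (m₁ s / s * ker T t s)) (-1 / 2) =
      Ln (fun s => F.L s * m₁ s * ker T t s / s - F.chi s * F.Hd N s * m₁ s * ker T t s / s)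
        (-1 / 2) := Ln_congr fun v => by
    have h3 : ((-1 / 2 : ℝ) + v * I : ℂ).re < 0 := by norm_num
    rw [F.fe' (h3.trans one_pos) (fun h4 => by rw [h4] at h3; simp at h3), ← F.Hd_add_Tl N h3]
    ring
  have e5 : Ln (fun s => F.L s * (m₁ s / s * ker T t s)) (1 / 2) =
      Ln (fun s => F.L s * m₁ s * ker T t s / s) (1 / 2) := Ln_congr fun v => by ring
  have e6 : Ln (fun s => F.chi s * F.Hd N s * (m₁ s / s * ker T t s)) (1 / 2) =
      Ln (fun s => F.chi s * F.Hd N s * m₁ s * ker T t s / s) (1 / 2) := Ln_congr fun v => by ring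
  rw [F.psi_half hm hT, e4, e3, e5, e6]
  linear_combination e1 - e2

/- `psi_half`, `norm_Ln_le`, `norm_ker`, `gauss_absorb`; `growth` for the integrability. -/
theorem psi_le_half : ∃ C : ℝ, 0 < C ∧ ∀ (m₁ : ℂ → ℂ) (T U μ t : ℝ), Adm m₁ → 1 ≤ T → 0 ≤ μ →
    HM m₁ U μ → t ∈ Bl U →
    Integrable (fun v : ℝ => ‖F.L (1 / 2 + (t + v : ℝ) * I)‖ * Real.exp (-v ^ 2 / 2)) ∧
    ‖F.Psi m₁ T t‖ ≤
      C * μ * √T * ∫ v : ℝ, ‖F.L (1 / 2 + (t + v : ℝ) * I)‖ * Real.exp (-v ^ 2 / 2) := by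
  obtain ⟨C, hC, h⟩ := rep2_line 0
  obtain ⟨C', K, hC', hK, h'⟩ := F.rep2_L
  refine ⟨C, hC, fun m₁ T U μ t hm hT hμ hH ht => ?_⟩
  have h1 : Integrable fun v : ℝ => ‖F.L (1 / 2 + (t + v : ℝ) * I)‖ * Real.exp (-v ^ 2 / 2) := by
    refine rep2_intg (F.continuous_L_half.comp (continuous_const.add continuous_id)).norm
      (A := C' * jb t ^ K) (D := K) (fun _ => norm_nonneg _) fun v => ?_
    refine (h' _ ⟨by norm_num, by norm_num⟩).trans ?_
    rw [mul_assoc, ← Real.mul_rpow (jb_pos t).le (by positivity)]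
    refine mul_le_mul_of_nonneg_left (Real.rpow_le_rpow (by positivity) ?_ hK) hC'.le
    simpa using rep2_abs t v
  refine ⟨h1, ?_⟩
  rw [F.psi_half hm hT, Real.sqrt_eq_rpow, mul_assoc _ (T ^ _), ← one_mul (T ^ _)]
  exact h m₁ F.L T U μ t 1 (1 / 2) _ hT hμ hH ht (Or.inl rfl) h1 fun v => by simp

/- `psi_split`, `norm_Ln_le`, `chi_le` with `1 + |t + v| ≤ 2 * U * (1 + |v|)`, `chi_half`, `gauss_absorb`;
`Hd_le`, `Tl_le` for the integrability. -/
theorem psi_le : ∃ C : ℝ, 0 < C ∧ ∀ (m₁ : ℂ → ℂ) (T U μ t : ℝ) (N : ℕ), Adm m₁ → 1 ≤ T → 1 ≤ U →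
    0 ≤ μ → HM m₁ U μ → t ∈ Bl U → ‖F.Psi m₁ T t‖ ≤
      C * μ * (U ^ F.deg / √T *
          (∫ v : ℝ, ‖F.Tl N ((-1 / 2 : ℝ) + (t + v : ℝ) * I)‖ * Real.exp (-v ^ 2 / 2)) +
        √T * ∫ v : ℝ, ‖F.Hd N ((1 / 2 : ℝ) + (t + v : ℝ) * I)‖ * Real.exp (-v ^ 2 / 2)) +
      C * (1 + ‖F.Hd N 0‖) * Real.exp (-t ^ 2) := by
  obtain ⟨C₁, hC₁, h₁⟩ := rep2_line F.deg
  obtain ⟨C₂, hC₂, h₂⟩ := rep2_line 0
  obtain ⟨C₃, hC₃, h₃⟩ := F.chi_le
  obtain ⟨C₄, -, h₄⟩ := F.Tl_le one_pos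
  refine ⟨C₁ * (C₃ * 2 ^ F.deg) + C₂ + ‖F.L 0‖ + ‖F.chi 0‖, by positivity,
    fun m₁ T U μ t N hm hT hU hμ hH ht => ?_⟩
  obtain ⟨H, hHd⟩ := F.rep2_Hd N
  have i1 : Integrable fun v : ℝ =>
      ‖F.Tl N ((-1 / 2 : ℝ) + (t + v : ℝ) * I)‖ * Real.exp (-v ^ 2 / 2) :=
    rep2_intg ((F.continuous_Tl N).comp (continuous_const.add continuous_id)).norm (D := 0)
      (fun _ => norm_nonneg _) fun v => by
        rw [Real.rpow_zero, mul_one]
        exact h₄ N _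
  have i2 : Integrable fun v : ℝ =>
      ‖F.Hd N ((1 / 2 : ℝ) + (t + v : ℝ) * I)‖ * Real.exp (-v ^ 2 / 2) :=
    rep2_intg ((F.differentiable_Hd N).continuous.comp (by fun_prop)).norm (A := H) (D := 0)
      (fun _ => norm_nonneg _) fun v => by
        rw [Real.rpow_zero, mul_one]
        exact hHd _ (by norm_num)
  have e1 := h₁ m₁ (fun s => F.chi s * F.Tl N s) T U μ t (C₃ * 2 ^ F.deg * U ^ F.deg) (-1 / 2) _
    hT hμ hH ht (Or.inr rfl) i1 fun v => by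
      rw [norm_mul, mul_right_comm]
      refine mul_le_mul_of_nonneg_right ((h₃ _ ⟨by norm_num, by norm_num⟩).trans ?_) (norm_nonneg _)
      rw [mul_assoc, mul_assoc, ← Real.mul_rpow (by linarith) (by positivity),
        ← Real.mul_rpow zero_le_two (by positivity), ← mul_assoc 2]
      refine mul_le_mul_of_nonneg_left (Real.rpow_le_rpow (by positivity) ?_ F.deg_nonneg) hC₃.le
      simpa using (rep2_abs t v).trans (mul_le_mul_of_nonneg_right ht.2 (by positivity))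
  have e2 := h₂ m₁ (fun s => F.chi s * F.Hd N s) T U μ t 1 (1 / 2) _
    hT hμ hH ht (Or.inl rfl) i2 fun v => by
      have h5 := F.chi_half (t + v)
      rw [show (1 / 2 : ℂ) = (1 / 2 : ℝ) by simp] at h5
      rw [norm_mul, h5, Real.rpow_zero, mul_one]
  have e3 : ‖(F.L 0 - F.chi 0 * F.Hd N 0) * m₁ 0 * ker T t 0‖ ≤
      (‖F.L 0‖ + ‖F.chi 0‖ * ‖F.Hd N 0‖) * Real.exp (-t ^ 2) := by
    rw [norm_mul, norm_mul, norm_ker (by linarith), ← norm_mul (F.chi 0)]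
    refine mul_le_mul ((mul_le_of_le_one_right (norm_nonneg _) hm.zero).trans (norm_sub_le _ _))
      (le_of_eq (by simp)) (by positivity) (by positivity)
  rw [one_mul, ← Real.sqrt_eq_rpow] at e2
  rw [neg_div, Real.rpow_neg (by linarith), ← Real.sqrt_eq_rpow, ← neg_div] at e1
  rw [F.psi_split hm hT t N]
  refine (norm_add₃_le.trans (add_le_add (add_le_add e1 e2) e3)).trans ?_
  set X := ∫ v : ℝ, ‖F.Tl N ((-1 / 2 : ℝ) + (t + v : ℝ) * I)‖ * Real.exp (-v ^ 2 / 2)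
  set Y := ∫ v : ℝ, ‖F.Hd N ((1 / 2 : ℝ) + (t + v : ℝ) * I)‖ * Real.exp (-v ^ 2 / 2)
  have hX : 0 ≤ X := integral_nonneg fun v => by positivity
  have hY : 0 ≤ Y := integral_nonneg fun v => by positivity
  have U0 : 0 ≤ U := by linarith
  have p1 : 0 ≤ (C₂ + ‖F.L 0‖ + ‖F.chi 0‖) * (μ * (U ^ F.deg * (√T)⁻¹ * X)) := by positivity
  have p2 : 0 ≤ (C₁ * (C₃ * 2 ^ F.deg) + ‖F.L 0‖ + ‖F.chi 0‖) * (μ * (√T * Y)) := by positivity
  have p3 : 0 ≤ ((C₁ * (C₃ * 2 ^ F.deg) + C₂) * (1 + ‖F.Hd N 0‖) + ‖F.L 0‖ * ‖F.Hd N 0‖ +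
    ‖F.chi 0‖) * Real.exp (-t ^ 2) := by positivity
  rw [div_eq_mul_inv]
  linarith

end Sel

end Pool.Agent.Lib.MP_2a1a00_nt
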