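import Mathlib

/-! The class of Dirichlet series with properties (i), (ii), (iii) of the Selberg class. -/

namespace Pool.Agent.Lib.MP_2a1a00_nt

open Complex

/-- The factor `Q ^ s * ∏ Γ (lam i * s + mu i)`. -/
noncomputable def gam (Q : ℝ) {R : ℕ} (lam : Fin R → ℝ) (mu : Fin R → ℂ) (s : ℂ) : ℂ :=
  (Q : ℂ) ^ s * ∏ i, Gamma (lam i * s + mu i)

/-- A Dirichlet series `∑ f n / n ^ s` with `f n ≪ n ^ ε`, such that `G s = (s - 1) ^ m * L s` is
entire and of finite order on vertical strips, with a functional equation of the Selberg type in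
the critical strip. -/
structure Sel where
  /-- the coefficients -/
  f : ℕ → ℂ
  /-- the power of `s - 1` that clears the pole -/
  m : ℕ
  /-- the entire function `(s - 1) ^ m * L s` -/
  G : ℂ → ℂ
  /-- the number `Q` -/
  Q : ℝ
  /-- the number of gamma factors -/
  R : ℕ
  /-- the numbers `lam i` -/
  lam : Fin R → ℝ
  /-- the numbers `mu i` -/
  mu : Fin R → ℂ
  /-- the root number -/
  om : ℂ
  ram : ∀ ε : ℝ, 0 < ε → ∃ C : ℝ, ∀ n : ℕ, 1 ≤ n → ‖f n‖ ≤ C * (n : ℝ) ^ ε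
  ent : Differentiable ℂ G
  ord : ∀ a b : ℝ, ∃ A B : ℝ, ∀ s : ℂ, a ≤ s.re → s.re ≤ b → ‖G s‖ ≤ B * Real.exp (‖s‖ ^ A)
  ser : ∀ s : ℂ, 1 < s.re → G s = (s - 1) ^ m * LSeries f s
  Q_pos : 0 < Q
  lam_pos : ∀ i, 0 < lam i
  mu_re : ∀ i, 0 ≤ (mu i).re
  om_norm : ‖om‖ = 1
  fe : ∀ s : ℂ, 0 < s.re → s.re < 1 → G s / (s - 1) ^ m * gam Q lam mu s =
    om * (starRingEnd ℂ) (G (1 - (starRingEnd ℂ) s) / (1 - (starRingEnd ℂ) s - 1) ^ m *
      gam Q lam mu (1 - (starRingEnd ℂ) s))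

namespace Sel

variable (F : Sel)

/-- The analytic continuation of the Dirichlet series. -/
noncomputable def L (s : ℂ) : ℂ := F.G s / (s - 1) ^ F.m

/-- The degree. -/
noncomputable def deg : ℝ := 2 * ∑ i, F.lam i

/-- The residue of `L s * h s` at `s = 1`, as an integral over the circle `|s - 1| = 1 / 2`. -/
noncomputable def res (h : ℂ → ℂ) : ℂ :=
  (2 * Real.pi * I)⁻¹ * ∮ s in C(1, 1 / 2), F.L s * h s

/-- The error term `∑ n ≤ x, f n - Res (L s * x ^ s / s)`. -/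
noncomputable def E (x : ℝ) : ℂ :=
  ∑ n ∈ Finset.Icc 1 ⌊x⌋₊, F.f n - F.res fun s => (x : ℂ) ^ s / s

end Sel

/-- The integrand `E₁ x * E₂ x * |L (1 / 2 + i x)| ^ 2`. -/
noncomputable def hyb (F₁ F₂ L : Sel) (x : ℝ) : ℂ :=
  F₁.E x * F₂.E x * ((‖L.L (1 / 2 + x * I)‖ ^ 2 : ℝ) : ℂ)

end Pool.Agent.Lib.MP_2a1a00_nt
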