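import Pool.Agent.Lib.MP_2a1a00_nt.Unt
import Pool.Agent.Lib.MP_2a1a00_nt.Ms

/-! The twisted integral. -/

namespace Pool.Agent.Lib.MP_2a1a00_nt

open Complex MeasureTheory Set

theorem piece {T V D K P R Ct : ℝ} {B B' S S' w : ℝ → ℂ} (hT : 1 ≤ T) (hV1 : √T ≤ V) (hV2 : V ≤ T)
    (hD : D ≤ 1) (hC : 0 ≤ Ct) (hK : 0 ≤ K)
    (tw : ∀ (G G' : ℝ → ℂ) (lam B₁ B₂ B₃ : ℝ), Nice G G' T → 1 / T ≤ lam → lam ≤ 1 →
      (∀ x ∈ Icc T (2 * T), ‖G x‖ ≤ B₁) → nm G T ≤ B₂ → nm G' T ≤ B₃ →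
      ‖∫ x in T..2 * T, G x * w x‖ ≤
        Ct * (T ^ (D / 2) * B₁ + √((T + T ^ D) * lam) * B₂ + √((T + T ^ D) / lam) * B₃))
    (nB : Nice B B' T) (nS : Nice S S' T) (b1 : ∀ x ∈ Icc T (2 * T), ‖B x‖ ≤ K * √T)
    (b2 : nm B T ≤ K * (T / √V)) (b3 : nm B' T ≤ K * √V) (s1 : ∀ x ∈ Icc T (2 * T), ‖S x‖ ≤ P)
    (s2 : ∀ x ∈ Icc T (2 * T), ‖S' x‖ ≤ R) (hR : R * √T ≤ P) :
    ‖∫ x in T..2 * T, B x * S x * w x‖ ≤ 7 * Ct * K * P * T := by
  have hT0 : 0 < T := by linarith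
  have hs1 : 1 ≤ √T := Real.one_le_sqrt.2 hT
  have hV : 1 ≤ V := hs1.trans hV1
  have hV0 : 0 < V := by linarith
  have hsV : 0 < √V := Real.sqrt_pos.2 hV0
  have hTm : T ∈ Icc T (2 * T) := ⟨le_rfl, by linarith⟩
  have hP : 0 ≤ P := (norm_nonneg _).trans (s1 T hTm)
  have hR0 : 0 ≤ R := (norm_nonneg _).trans (s2 T hTm)
  have k1 : ∀ x ∈ Icc T (2 * T), ‖B x * S x‖ ≤ K * √T * P := fun x hx => by
    rw [norm_mul]
    exact mul_le_mul (b1 x hx) (s1 x hx) (norm_nonneg _) (by positivity)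
  have k2 : nm (fun x => B x * S x) T ≤ P * (K * (T / √V)) :=
    (nm_mono hT0.le (nB.bm0.mul nS.bm0) nB.bm0 hP fun x hx => by
      rw [norm_mul, mul_comm]
      exact mul_le_mul_of_nonneg_right (s1 x hx) (norm_nonneg _)).trans
      (mul_le_mul_of_nonneg_left b2 hP)
  have k3 : nm (fun x => B' x * S x + B x * S' x) T ≤ P * (K * √V) + R * (K * (T / √V)) := by
    refine (nm_add hT0.le (nB.bm.mul nS.bm0) (nB.bm0.mul nS.bm)).trans (add_le_add ?_ ?_)
    · exact (nm_mono hT0.le (nB.bm.mul nS.bm0) nB.bm hP fun x hx => by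
        rw [norm_mul, mul_comm]
        exact mul_le_mul_of_nonneg_right (s1 x hx) (norm_nonneg _)).trans
        (mul_le_mul_of_nonneg_left b3 hP)
    · exact (nm_mono hT0.le (nB.bm0.mul nS.bm) nB.bm0 hR0 fun x hx => by
        rw [norm_mul, mul_comm]
        exact mul_le_mul_of_nonneg_right (s2 x hx) (norm_nonneg _)).trans
        (mul_le_mul_of_nonneg_left b2 hR0)
  have h := tw _ _ (V / T) _ _ _ (nB.mul nS) (div_le_div_of_nonneg_right hV hT0.le)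
    ((div_le_one hT0).2 hV2) k1 k2 k3
  have d1 : T ^ (D / 2) ≤ √T := by
    rw [Real.sqrt_eq_rpow]
    exact Real.rpow_le_rpow_of_exponent_le hT (by linarith)
  have d2 : T ^ D ≤ T := by
    conv_rhs => rw [← Real.rpow_one T]
    exact Real.rpow_le_rpow_of_exponent_le hT hD
  have hVV : √V * √V = V := Real.mul_self_sqrt hV0.le
  have hTT : √T * √T = T := Real.mul_self_sqrt hT0.le
  have d3 : √((T + T ^ D) * (V / T)) ≤ 2 * √V := by
    refine Real.sqrt_le_iff.2 ⟨by positivity, ?_⟩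
    calc _ ≤ (4 * T) * (V / T) := mul_le_mul_of_nonneg_right (by linarith) (by positivity)
      _ = _ := by
        rw [mul_pow, Real.sq_sqrt hV0.le]
        field_simp
        norm_num
  have d4 : √((T + T ^ D) / (V / T)) ≤ 2 * (T / √V) := by
    refine Real.sqrt_le_iff.2 ⟨by positivity, ?_⟩
    calc _ ≤ (4 * T) / (V / T) := div_le_div_of_nonneg_right (by linarith) (by positivity)
      _ = _ := by
        rw [mul_pow, div_pow, Real.sq_sqrt hV0.le]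
        field_simp
        norm_num
  have d5 : √V * (T / √V) = T := by field_simp
  have d6 : T / √V * (T / √V) ≤ √T * T := by
    rw [div_mul_div_comm, hVV, div_le_iff₀ hV0]
    calc T * T = √T * T * √T := by rw [mul_right_comm, hTT]
      _ ≤ _ := mul_le_mul_of_nonneg_left hV1 (by positivity)
  have e1 : T ^ (D / 2) * (K * √T * P) ≤ K * P * T :=
    calc _ ≤ √T * (K * √T * P) := mul_le_mul_of_nonneg_right d1 (by positivity)
      _ = K * P * (√T * √T) := by ring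
      _ = _ := by rw [hTT]
  have e2 : √((T + T ^ D) * (V / T)) * (P * (K * (T / √V))) ≤ 2 * (K * P * T) :=
    calc _ ≤ 2 * √V * (P * (K * (T / √V))) := mul_le_mul_of_nonneg_right d3 (by positivity)
      _ = 2 * (K * P * (√V * (T / √V))) := by ring
      _ = _ := by rw [d5]
  have e3 : √((T + T ^ D) / (V / T)) * (P * (K * √V) + R * (K * (T / √V))) ≤ 4 * (K * P * T) :=
    calc _ ≤ 2 * (T / √V) * (P * (K * √V) + R * (K * (T / √V))) :=
        mul_le_mul_of_nonneg_right d4 (by positivity)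
      _ = 2 * (K * P * (√V * (T / √V))) + 2 * (K * R) * (T / √V * (T / √V)) := by ring
      _ ≤ 2 * (K * P * T) + 2 * (K * R) * (√T * T) := by
        rw [d5]
        exact add_le_add le_rfl (mul_le_mul_of_nonneg_left d6 (by positivity))
      _ = 2 * (K * P * T) + 2 * K * T * (R * √T) := by ring
      _ ≤ 2 * (K * P * T) + 2 * K * T * P :=
        add_le_add le_rfl (mul_le_mul_of_nonneg_left hR (by positivity))
      _ = _ := by ring
  calc _ ≤ _ := h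
    _ ≤ Ct * (K * P * T + 2 * (K * P * T) + 4 * (K * P * T)) :=
      mul_le_mul_of_nonneg_left (add_le_add (add_le_add e1 e2) e3) hC
    _ = _ := by ring

theorem l2_le {L : Sel} (hL : L.deg ≤ 1) {ε : ℝ} (hε : 0 < ε) : ∃ C : ℝ, 0 < C ∧ ∀ T : ℝ, 1 ≤ T →
    ∀ (G : ℝ → ℂ) (K : ℝ), Bm G T → (∀ x ∈ Icc T (2 * T), ‖G x‖ ≤ K) →
      ‖∫ x in T..2 * T, G x * L.L2 x‖ ≤ C * T ^ ε * T * K := by
  obtain ⟨C, hC, h⟩ := L.ms_dy hε
  refine ⟨C, hC, fun T hT G K hG hK => ?_⟩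
  have hT2 : T ≤ 2 * T := by linarith
  have hK0 : 0 ≤ K := (norm_nonneg _).trans (hK T ⟨le_rfl, hT2⟩)
  have h1 := h T hT
  rw [max_eq_left (by linarith), Real.rpow_add (by linarith), Real.rpow_one] at h1
  have hc : Continuous fun x : ℝ => ‖L.L (1 / 2 + x * I)‖ ^ 2 := L.continuous_L_half.norm.pow 2
  have h2 : ∫ x in T..2 * T, ‖L.L (1 / 2 + x * I)‖ ^ 2 ≤ C * (T * T ^ ε) := by
    refine le_trans ?_ h1
    unfold Sel.L2
    rw [intervalIntegral.integral_ofReal, Complex.norm_real]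
    exact le_abs_self _
  calc _ ≤ ∫ x in T..2 * T, K * ‖L.L (1 / 2 + x * I)‖ ^ 2 := by
        refine intervalIntegral.norm_integral_le_of_norm_le hT2 (ae_of_all _ fun x hx => ?_)
          ((hc.const_mul K).intervalIntegrable _ _)
        rw [norm_mul, Sel.L2, Complex.norm_real, Real.norm_of_nonneg (by positivity)]
        exact mul_le_mul_of_nonneg_right (hK x ⟨hx.1.le, hx.2⟩) (by positivity)
    _ ≤ K * (C * (T * T ^ ε)) := by
        rw [intervalIntegral.integral_const_mul]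
        exact mul_le_mul_of_nonneg_left h2 hK0
    _ = _ := by ring

/-- The part of the smoothed product that is not seen by the main term. -/
theorem twist_off {F₁ : Sel} (h1 : F₁.deg ≤ 2) {ε : ℝ} (hε : 0 < ε) : ∃ C : ℝ, 0 < C ∧
    ∀ (T D P R Ct : ℝ) (S S' w : ℝ → ℂ), 1 ≤ T → D ≤ 1 → 0 ≤ Ct → Bm w T →
    (∀ (G G' : ℝ → ℂ) (lam B₁ B₂ B₃ : ℝ), Nice G G' T → 1 / T ≤ lam → lam ≤ 1 →
      (∀ x ∈ Icc T (2 * T), ‖G x‖ ≤ B₁) → nm G T ≤ B₂ → nm G' T ≤ B₃ →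
      ‖∫ x in T..2 * T, G x * w x‖ ≤
        Ct * (T ^ (D / 2) * B₁ + √((T + T ^ D) * lam) * B₂ + √((T + T ^ D) / lam) * B₃)) →
    Nice S S' T → (∀ x ∈ Icc T (2 * T), ‖S x‖ ≤ P) → (∀ x ∈ Icc T (2 * T), ‖S' x‖ ≤ R) →
    R * √T ≤ P → ‖∫ x in T..2 * T, F₁.A T x * S x * w x‖ ≤ C * T ^ ε * T ^ ε * Ct * P * T := by
  obtain ⟨K, hK, hf⟩ := F₁.facts h1 hε
  obtain ⟨C, hC, hch⟩ := chain hε
  refine ⟨C * (7 * (3 * K)), by positivity, fun T D P R Ct S S' w hT hD hCt hw tw nS s1 s2 hR => ?_⟩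
  obtain ⟨f0, f1⟩ := hf T hT
  have hT0 : 0 < T := by linarith
  have hs1 : 1 ≤ √T := Real.one_le_sqrt.2 hT
  have hsT : √T ≤ T := Real.sqrt_le_iff.2 ⟨hT0.le, by nlinarith⟩
  have hτ : 0 < T ^ ε := Real.rpow_pos_of_pos hT0 ε
  have hTm : 2 * T ∈ Icc T (2 * T) := ⟨by linarith, le_rfl⟩
  have hK3 : K * T ^ ε ≤ 3 * K * T ^ ε := by nlinarith [mul_pos hK hτ]
  refine (hch (fun V => ∫ x in T..2 * T, F₁.A V x * S x * w x) √T T
    (7 * Ct * (3 * K * T ^ ε) * P * T) hs1 hsT ?_ fun V W hV hVW hW2 hWT => ?_).trans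
    (le_of_eq (by ring))
  · obtain ⟨g1, g2, -⟩ := f1 √T le_rfl hsT
    exact piece hT le_rfl hsT hD hCt (by positivity) tw (F₁.nice_A hs1 hT) nS
      (fun x hx => (g1 x hx).trans (mul_le_mul_of_nonneg_right hK3 (by positivity)))
      (f0.trans (mul_le_mul_of_nonneg_right hK3 (by positivity)))
      (g2.trans (mul_le_mul_of_nonneg_right hK3 (by positivity))) s1 s2 hR
  · have hV1 : 1 ≤ V := hs1.trans hV
    have hW1 : 1 ≤ W := hV1.trans hVW
    have hV0 : 0 < V := by linarith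
    obtain ⟨g1, g2, g3⟩ := f1 V hV (hVW.trans hWT)
    obtain ⟨j1, j2, j3⟩ := f1 W (hV.trans hVW) hWT
    have nV := F₁.nice_A hV1 hT
    have nW := F₁.nice_A hW1 hT
    have nT := F₁.nice_A hT hT
    rw [← intervalIntegral.integral_sub (((nW.bm0.mul nS.bm0).mul hw).int hTm)
      (((nV.bm0.mul nS.bm0).mul hw).int hTm)]
    simp only [← sub_mul]
    refine piece hT hV (hVW.trans hWT) hD hCt (by positivity) tw (nW.sub nV) nS
      (fun x hx => (norm_sub_le _ _).trans ?_) ?_ ?_ s1 s2 hR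
    · have : 0 ≤ K * T ^ ε * √T := by positivity
      linarith [g1 x hx, j1 x hx]
    · have e : (fun x => F₁.A W x - F₁.A V x) =
          fun x => (F₁.A T x - F₁.A V x) - (F₁.A T x - F₁.A W x) := by
        ext x
        ring
      have k : T / √W ≤ T / √V :=
        div_le_div_of_nonneg_left hT0.le (Real.sqrt_pos.2 hV0) (Real.sqrt_le_sqrt hVW)
      have k' := mul_le_mul_of_nonneg_left k (by positivity : 0 ≤ K * T ^ ε)
      have : 0 ≤ K * T ^ ε * (T / √V) := by positivity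
      rw [e]
      linarith [nm_sub hT0.le (nT.bm0.sub nV.bm0) (nT.bm0.sub nW.bm0)]
    · have k : √W ≤ 2 * √V := Real.sqrt_le_iff.2 ⟨by positivity, by
        rw [mul_pow, Real.sq_sqrt hV0.le]
        linarith⟩
      have k' := mul_le_mul_of_nonneg_left k (by positivity : 0 ≤ K * T ^ ε)
      linarith [nm_sub hT0.le nW.bm nV.bm]

theorem twist {F₁ F₂ L : Sel} (h1 : F₁.deg ≤ 2) (hL : L.deg ≤ 1) {c : ℝ} (hc : 3 / 2 ≤ c)
    (P1 : ∀ ε : ℝ, 0 < ε → ∃ C : ℝ, 0 < C ∧ ∀ T : ℝ, 1 ≤ T → ∀ x ∈ Icc T (2 * T),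
      ‖F₂.E x‖ ≤ C * T ^ ε * T ^ (c - 1))
    (P2 : ∀ ε : ℝ, 0 < ε → ∃ C : ℝ, 0 < C ∧ ∀ T : ℝ, 1 ≤ T → ∀ y ∈ Icc T (2 * T),
      ‖∫ x in T..y, F₁.A T x * F₂.A T x‖ ≤ C * T ^ ε * T ^ c) {ε : ℝ} (hε : 0 < ε) :
    ∃ C : ℝ, ∀ T : ℝ, 1 ≤ T → ‖∫ x in (1 : ℝ)..T, hyb F₁ F₂ L x‖ ≤ C * T ^ (c + ε) := by
  have hδ : 0 < ε / 4 := by positivity
  obtain ⟨C1, hC1, p1⟩ := P1 _ hδ
  obtain ⟨C2, hC2, p2⟩ := P2 _ hδ
  obtain ⟨C3, hC3, r1⟩ := F₁.R_le' hδ
  obtain ⟨C4, hC4, r2⟩ := F₂.R_le' hδ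
  obtain ⟨C5, hC5, hf⟩ := F₁.facts h1 hδ
  obtain ⟨C6, hC6, hl⟩ := l2_le hL hδ
  obtain ⟨C7, hC7, ho⟩ := twist_off h1 hδ
  obtain ⟨C8, hC8, htw⟩ := L.tw hδ
  have key : ∀ T : ℝ, 1 ≤ T → ‖∫ x in T..2 * T, hyb F₁ F₂ L x‖ ≤
      (C6 * (C3 * C1 + C5 * C4) + C8 * C2 + C7 * C8 * (C1 + C4)) * T ^ (c + ε) := by
    intro T hT
    have hT0 : 0 < T := by linarith
    have hTm : 2 * T ∈ Icc T (2 * T) := ⟨by linarith, le_rfl⟩
    obtain ⟨M, hM, t1, t2⟩ := htw T hT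
    set τ := T ^ (ε / 4) with hτ
    set p := T ^ (c - 1) with hp
    have hτ1 : 1 ≤ τ := Real.one_le_rpow hT hδ.le
    have hp1 : 1 ≤ p := Real.one_le_rpow hT (by linarith)
    have hsp : √T ≤ p := by
      rw [Real.sqrt_eq_rpow]
      exact Real.rpow_le_rpow_of_exponent_le hT (by linarith)
    have hc1 : T ^ c = p * T := by
      rw [hp, ← Real.rpow_add_one hT0.ne', sub_add_cancel]
    have hc2 : T ^ (c + ε) = τ ^ 4 * (p * T) := by
      rw [Real.rpow_add hT0, hc1, hτ, ← Real.rpow_mul_natCast hT0.le, mul_comm]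
      norm_num
    have hsT : √T ≤ T := Real.sqrt_le_iff.2 ⟨hT0.le, by nlinarith⟩
    have n1 := F₁.nice_A hT hT
    have n2 := F₂.nice_A hT hT
    have bL : Bm L.L2 T := Bm.of_cont L.continuous_L2.continuousOn
    have bM : Bm M T := Bm.of_cont hM
    have b1 := F₁.bm_E hT
    have b2 := F₂.bm_E hT
    have q1 : ∀ x ∈ Icc T (2 * T), ‖F₁.E x - F₁.A T x‖ ≤ C3 * τ := fun x hx => by
      simpa [div_self hT0.ne'] using r1 T T hT le_rfl x hx
    have q2 : ∀ x ∈ Icc T (2 * T), ‖F₂.E x - F₂.A T x‖ ≤ C4 * τ := fun x hx => by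
      simpa [div_self hT0.ne'] using r2 T T hT le_rfl x hx
    have e : ∫ x in T..2 * T, hyb F₁ F₂ L x =
        (∫ x in T..2 * T, (F₁.E x * F₂.E x - F₁.A T x * F₂.A T x) * L.L2 x) +
          (∫ x in T..2 * T, F₁.A T x * F₂.A T x * M x) +
          ∫ x in T..2 * T, F₁.A T x * F₂.A T x * (L.L2 x - M x) := by
      rw [← intervalIntegral.integral_add ((((b1.mul b2).sub (n1.bm0.mul n2.bm0)).mul bL).int hTm)
          (((n1.bm0.mul n2.bm0).mul bM).int hTm),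
        ← intervalIntegral.integral_add (((((b1.mul b2).sub (n1.bm0.mul n2.bm0)).mul bL).add
          ((n1.bm0.mul n2.bm0).mul bM)).int hTm) (((n1.bm0.mul n2.bm0).mul (bL.sub bM)).int hTm)]
      congr 1
      ext x
      unfold hyb Sel.L2
      ring
    have a1 := hl T hT _ ((C3 * C1 + C5 * C4) * (τ * τ * p)) ((b1.mul b2).sub (n1.bm0.mul n2.bm0))
      fun x hx => by
        rw [show F₁.E x * F₂.E x - F₁.A T x * F₂.A T x =
          (F₁.E x - F₁.A T x) * F₂.E x + F₁.A T x * (F₂.E x - F₂.A T x) by ring]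
        refine (norm_add_le _ _).trans ?_
        rw [norm_mul, norm_mul]
        have k1 := mul_le_mul (q1 x hx) (p1 T hT x hx) (norm_nonneg _) (by positivity)
        have k2 := mul_le_mul ((((hf T hT).2 T hsT le_rfl).1 x hx).trans
          (mul_le_mul_of_nonneg_left hsp (by positivity))) (q2 x hx) (norm_nonneg _) (by positivity)
        calc _ ≤ _ := add_le_add k1 k2
          _ = _ := by ring
    have a2 := t1 _ _ (n1.cont.mul n2.cont) (p2 T hT)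
    have a3 := ho T L.deg ((C1 + C4) * τ * p) (C4 * τ) (C8 * τ) _ _ _ hT hL (by positivity)
      (bL.sub bM) t2 n2 (fun x hx => ?_) (fun x hx => ?_) ?_
    · rw [e, hc2]
      rw [hc1] at a2
      refine (norm_add_le _ _).trans ((add_le_add ((norm_add_le _ _).trans (add_le_add a1 a2))
        a3).trans ?_)
      have u3 : τ ^ 3 ≤ τ ^ 4 := pow_le_pow_right₀ hτ1 (by norm_num)
      have u2 : τ ^ 2 ≤ τ ^ 4 := pow_le_pow_right₀ hτ1 (by norm_num)
      have v3 := mul_le_mul_of_nonneg_left u3 (by positivity : 0 ≤ C6 * (C3 * C1 + C5 * C4) * (p * T))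
      have v2 := mul_le_mul_of_nonneg_left u2 (by positivity : 0 ≤ C8 * C2 * (p * T))
      calc _ = C6 * (C3 * C1 + C5 * C4) * (p * T) * τ ^ 3 + C8 * C2 * (p * T) * τ ^ 2 +
            C7 * C8 * (C1 + C4) * (p * T) * τ ^ 4 := by ring
        _ ≤ _ := add_le_add (add_le_add v3 v2) le_rfl
        _ = _ := by ring
    · rw [show F₂.A T x = F₂.E x - (F₂.E x - F₂.A T x) by ring]
      refine (norm_sub_le _ _).trans ?_
      have := mul_le_mul_of_nonneg_left hp1 (by positivity : 0 ≤ C4 * τ)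
      linarith [p1 T hT x hx, q2 x hx]
    · have hx0 : 0 < x := by linarith [hx.1]
      rw [norm_div, norm_mul, Complex.norm_real, Complex.norm_real, Real.norm_of_nonneg hT0.le,
        Real.norm_of_nonneg hx0.le, div_le_iff₀ hx0, mul_comm]
      exact mul_le_mul (q2 x hx) hx.1 hT0.le (by positivity)
    · have := mul_le_mul_of_nonneg_left hsp (by positivity : 0 ≤ C4 * τ)
      have : 0 ≤ C1 * τ * p := by positivity
      linarith
  obtain ⟨C, -, h⟩ := dsum (fun a b ha hb => hyb_int F₁ F₂ L ha hb) (by linarith) key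
  exact ⟨C, h⟩

end Pool.Agent.Lib.MP_2a1a00_nt
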